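import Pool.Agent.MP_645085_gt.TOR.Dug

/-!
# TOR row [TOR-AET]: permanence properties of absolute extensors
-/

namespace Pool.Agent.MP_645085_gt.TOR

open Set Filter Topology TopologicalSpace Metric

theorem AE.homeo {E F : Type} [TopologicalSpace E] [TopologicalSpace F] (h : AE E) (e : E ≃ₜ F) :
    AE F := by
  intro Y _ _ A hA f hf
  obtain ⟨g, hg, hgf⟩ := h Y A hA (fun a => e.symm (f a)) (e.symm.continuous.comp hf)
  refine ⟨fun y => e (g y), e.continuous.comp hg, fun a => ?_⟩
  simp [hgf a]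

theorem AE.prod {E F : Type} [TopologicalSpace E] [TopologicalSpace F] (hE : AE E) (hF : AE F) :
    AE (E × F) := by
  intro Y _ _ A hA f hf
  obtain ⟨g, hg, hgf⟩ := hE Y A hA (fun a => (f a).1) (continuous_fst.comp hf)
  obtain ⟨k, hk, hkf⟩ := hF Y A hA (fun a => (f a).2) (continuous_snd.comp hf)
  refine ⟨fun y => (g y, k y), hg.prodMk hk, fun a => ?_⟩
  exact Prod.ext (hgf a) (hkf a)

theorem AE.pi {E : Type} [TopologicalSpace E] (hE : AE E) (ι : Type) : AE (ι → E) := by
  intro Y _ _ A hA f hf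
  have h : ∀ i : ι, ∃ g : Y → E, Continuous g ∧ ∀ a : A, g a = f a i := fun i =>
    hE Y A hA (fun a => f a i) ((continuous_apply i).comp hf)
  choose g hg hgf using h
  refine ⟨fun y i => g i y, continuous_pi hg, fun a => ?_⟩
  funext i
  exact hgf i a

/-- Extension along a closed embedding. -/
theorem AE.extend {E : Type} [TopologicalSpace E] (hE : AE E) {Y₀ Y : Type} [TopologicalSpace Y₀]
    [TopologicalSpace Y] [MetrizableSpace Y] (i : Y₀ → Y) (hi : IsClosedEmbedding i) (f : Y₀ → E)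
    (hf : Continuous f) : ∃ g : Y → E, Continuous g ∧ ∀ y, g (i y) = f y := by
  let e : Y₀ ≃ₜ range i := hi.toIsEmbedding.toHomeomorph
  obtain ⟨g, hg, hgf⟩ := hE Y (range i) hi.isClosed_range (fun a => f (e.symm a))
    (hf.comp e.symm.continuous)
  refine ⟨g, hg, fun y => ?_⟩
  have h := hgf (e y)
  rw [e.symm_apply_apply] at h
  exact h

/-- Extension along a closed embedding with values in the ball of radius `1/2`
(compose an extension with the radial retraction `w ↦ (max 1 (2 * ‖w‖))⁻¹ • w`). -/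
theorem AE.extend_ball {H : Type} [NormedAddCommGroup H] [NormedSpace ℝ H] (hH : AE H)
    {Y₀ Y : Type} [TopologicalSpace Y₀] [TopologicalSpace Y] [MetrizableSpace Y] (i : Y₀ → Y)
    (hi : IsClosedEmbedding i) (f : Y₀ → H) (hf : Continuous f) (hb : ∀ y, ‖f y‖ ≤ 1 / 2) :
    ∃ g : Y → H, Continuous g ∧ (∀ y, g (i y) = f y) ∧ ∀ y, ‖g y‖ ≤ 1 / 2 := by
  obtain ⟨g, hg, hgf⟩ := AE.extend hH i hi f hf
  have hpos : ∀ w : H, 0 < max 1 (2 * ‖w‖) := fun w => lt_of_lt_of_le one_pos (le_max_left _ _)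
  refine ⟨fun y => (max 1 (2 * ‖g y‖))⁻¹ • g y, ?_, fun y => ?_, fun y => ?_⟩
  · refine Continuous.smul (Continuous.inv₀ ?_ fun y => (hpos _).ne') hg
    exact continuous_const.max (continuous_const.mul hg.norm)
  · have h1 : max 1 (2 * ‖f y‖) = 1 := max_eq_left (by linarith [hb y])
    simp only [hgf y, h1, inv_one, one_smul]
  · simp only []
    rw [norm_smul, norm_inv, Real.norm_of_nonneg (hpos _).le, inv_mul_le_iff₀ (hpos _)]
    linarith [le_max_right 1 (2 * ‖g y‖)]

end Pool.Agent.MP_645085_gt.TOR
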