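import Pool.Agent.MP_645085_gt.TOR.Psi

/-!
# TOR row [TOR-ALP]: closed embeddings onto strong Z-sets
-/

namespace Pool.Agent.MP_645085_gt.TOR

open Set Filter Topology TopologicalSpace Metric Cardinal

variable {X P : Type} [NormedAddCommGroup X] [Module ℝ X] [FN X] [CompleteSpace X]
  [MetricSpace P] [CompleteSpace P]

lemma Alp_half_rpow {T : ℝ} (hT : 1 ≤ T) : (1 / 2 : ℝ) ^ (1 + T) ≤ 1 / T / 2 := by
  have h1 : 1 + T * 1 ≤ (1 + 1 : ℝ) ^ T := one_add_mul_self_le_rpow_one_add (by norm_num) hT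
  have h2 : (1 / 2 : ℝ) ^ (1 + T) = 1 / (2 * (1 + 1 : ℝ) ^ T) := by
    rw [Real.rpow_add (by norm_num), Real.rpow_one, one_div, Real.inv_rpow (by norm_num)]
    rw [show (1 + 1 : ℝ) = 2 by norm_num]
    rw [one_div, mul_inv]
  have hTpos : 0 < T := by linarith
  rw [h2, div_div, div_le_div_iff₀ (by positivity) (by positivity)]
  nlinarith

/-- [TOR-ALP] `α (x, p) = ψ (x, p, 0)`. `ZSet (range α)`: for a control `ε'` put `T x = 1 / ε' x ≥ 1` and
`k x = ψ (x, p₀, 1 + T x)`: `‖k x - x‖ ≤ (1/2)^(1 + T x) ≤ ε' x / 2` (`(1/2)^T ≤ 1 / T`). Let `a = α (x₀, p₁)`.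
If `‖k x - a‖ < r ≤ ε' a / 2` then `ε' a ≤ ε' x + ‖x - k x‖ + ‖k x - a‖ ≤ (3/2) ε' x + r`, so `T x ≤ 3 / ε' a`.
For a natural number `n ≥ 1 + 3 / ε' a` the set `{ψ q | q.2.2 ∈ [1, n]}` is closed (closed embedding on
`{t ≤ n}`) and does not contain `a = ψ (x₀, p₁, 0)` (injectivity), so it has positive distance from `a`. -/
theorem exists_alpha {κ : Cardinal.{0}} (hκ : ℵ₀ ≤ κ) [Nonempty P] (hD : DProp κ X)
    (hX : DensLE κ X) (hP : DensLE κ P) (ε : X → ℝ) (hε : Ctl ε) :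
    ∃ α : X × P → X, IsClosedEmbedding α ∧ (∀ x p, ‖α (x, p) - x‖ ≤ ε x) ∧ ZSet (range α) := by
  obtain ⟨ψ, hψc, hψn, hψe⟩ := exists_psi hκ hD hX hP ε hε
  obtain ⟨p₀⟩ := (inferInstance : Nonempty P)
  -- the embedding at time zero
  let j : X × P → {q : X × P × Ici (0 : ℝ) // (q.2.2 : ℝ) ≤ ((0 : ℕ) : ℝ)} := fun y =>
    ⟨(y.1, y.2, ⟨0, self_mem_Ici⟩), by simp⟩
  have hj : IsClosedEmbedding j := by
    let e : X × P ≃ₜ {q : X × P × Ici (0 : ℝ) // (q.2.2 : ℝ) ≤ ((0 : ℕ) : ℝ)} :=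
      { toFun := j
        invFun := fun q => (q.1.1, q.1.2.1)
        left_inv := fun y => rfl
        right_inv := by
          rintro ⟨⟨x, p, ⟨t, ht⟩⟩, hq⟩
          have h0 : t = 0 := le_antisymm (by simpa using hq) ht
          subst h0
          rfl
        continuous_toFun := by
          apply Continuous.subtype_mk
          fun_prop
        continuous_invFun := by fun_prop }
    exact e.isClosedEmbedding
  refine ⟨fun y => ψ (y.1, y.2, ⟨0, self_mem_Ici⟩), ?_, ?_, ?_⟩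
  · exact (hψe 0).comp hj
  · intro x p
    have := hψn (x, p, ⟨0, self_mem_Ici⟩)
    simpa using this
  · intro ε' hε'
    have hT1 : ∀ x, 1 ≤ 1 / ε' x := fun x => by
      rw [le_div_iff₀ (hε'.pos x), one_mul]
      exact hε'.le_one x
    let τ : X → Ici (0 : ℝ) := fun x => ⟨1 + 1 / ε' x, by
      have := hT1 x
      simp only [mem_Ici]
      linarith⟩
    have hτc : Continuous τ := by
      apply Continuous.subtype_mk
      exact continuous_const.add (continuous_const.div hε'.continuous fun x => (hε'.pos x).ne')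
    have hkx : ∀ x, ‖ψ (x, p₀, τ x) - x‖ ≤ ε' x / 2 := fun x => by
      have h1 := hψn (x, p₀, τ x)
      have h2 := Alp_half_rpow (hT1 x)
      have h3 : (1 / 2 : ℝ) ^ ((τ x : ℝ)) ≤ ε' x / 2 := by
        refine h2.trans (le_of_eq ?_)
        rw [one_div_one_div]
      have h4 : (0 : ℝ) ≤ (1 / 2 : ℝ) ^ ((τ x : ℝ)) := Real.rpow_nonneg (by norm_num) _
      refine h1.trans ?_
      calc ε x * (1 / 2 : ℝ) ^ ((τ x : ℝ)) ≤ 1 * (1 / 2 : ℝ) ^ ((τ x : ℝ)) :=
            mul_le_mul_of_nonneg_right (hε.le_one x) h4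
        _ ≤ ε' x / 2 := by rw [one_mul]; exact h3
    refine ⟨fun x => ψ (x, p₀, τ x), ?_, ?_, ?_⟩
    · exact hψc.comp (continuous_id.prodMk (continuous_const.prodMk hτc))
    · intro x
      have := hkx x
      have := hε'.pos x
      linarith
    · rintro a ⟨⟨x₀, p₁⟩, rfl⟩
      set a : X := ψ (x₀, p₁, ⟨0, self_mem_Ici⟩) with ha
      obtain ⟨n, hn⟩ := exists_nat_ge (1 + 3 / ε' a)
      let F : {q : X × P × Ici (0 : ℝ) // (q.2.2 : ℝ) ≤ n} → X := fun q => ψ q
      have hF : IsClosedEmbedding F := hψe n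
      let S : Set {q : X × P × Ici (0 : ℝ) // (q.2.2 : ℝ) ≤ n} := {q | (1 : ℝ) ≤ (q.1.2.2 : ℝ)}
      have hS : IsClosed S := by
        apply isClosed_le continuous_const
        fun_prop
      have hFS : IsClosed (F '' S) := hF.isClosedMap S hS
      have haS : a ∉ F '' S := by
        rintro ⟨q, hq, hqa⟩
        have h0n : (((⟨0, self_mem_Ici⟩ : Ici (0 : ℝ)) : ℝ)) ≤ n := by simp
        have h1 : F q = F ⟨(x₀, p₁, ⟨0, self_mem_Ici⟩), h0n⟩ := hqa
        have h2 := hF.injective h1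
        rw [h2] at hq
        simp only [S, mem_ofPred_eq] at hq
        norm_num at hq
      obtain ⟨r₂, hr₂, hball⟩ := Metric.isOpen_iff.1 hFS.isOpen_compl a haS
      have ha' := hε'.pos a
      refine ⟨min r₂ (ε' a / 2), lt_min hr₂ (by linarith), ?_⟩
      intro x
      by_contra hlt
      push Not at hlt
      have hlt1 : ‖ψ (x, p₀, τ x) - a‖ < r₂ := hlt.trans_le (min_le_left _ _)
      have hlt2 : ‖ψ (x, p₀, τ x) - a‖ < ε' a / 2 := hlt.trans_le (min_le_right _ _)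
      have hx' := hε'.pos x
      have h1 : ε' a ≤ ε' x + dist a x := by
        have := (abs_le.1 (hε'.lip a x)).2
        linarith
      have h2 : dist a x ≤ ‖ψ (x, p₀, τ x) - a‖ + ‖ψ (x, p₀, τ x) - x‖ := by
        rw [← dist_eq_norm, ← dist_eq_norm, dist_comm (ψ (x, p₀, τ x)) a]
        exact dist_triangle _ _ _
      have h3 := hkx x
      have h4 : ε' a < 3 * ε' x := by linarith
      have h5 : 1 / ε' x ≤ 3 / ε' a := by
        rw [div_le_div_iff₀ hx' ha']
        linarith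
      have h6 : (τ x : ℝ) ≤ n := by
        have : (τ x : ℝ) = 1 + 1 / ε' x := rfl
        rw [this]
        linarith
      have h7 : ψ (x, p₀, τ x) ∈ F '' S := by
        refine ⟨⟨(x, p₀, τ x), h6⟩, ?_, rfl⟩
        simp only [S, mem_ofPred_eq]
        have := hT1 x
        have h8 : (τ x : ℝ) = 1 + 1 / ε' x := rfl
        rw [h8]
        linarith
      have h8 : ψ (x, p₀, τ x) ∈ ball a r₂ := by
        rw [mem_ball, dist_eq_norm]
        exact hlt1
      exact hball h8 h7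

end Pool.Agent.MP_645085_gt.TOR
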