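import Pool.Agent.MP_645085_gt.TOR.Part

/-!
# TOR row [TOR-BASE]: approximation by locally finite combinations
-/

namespace Pool.Agent.MP_645085_gt.TOR

open Set Filter Topology TopologicalSpace Metric Cardinal

/-- [TOR-BASE] Proof. `exists_ctl_modulus` for `r` and `δ n = ε (r n) / 4`: a control `ρr` on `N` such that
`dist n (j x) < ρr (j x)` implies `‖r n - x‖ < ε x / 4` (use `r (j x) = x`). `exists_ctl_modulus` for
`g` and `δ z = min (ρr (j (g z))) (ε (g z)) / 4`, and the minimum with `v / 4`: a control `ρ` on `Z`.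
Apply `exists_partition` to `ρ` and put `y l = g (c l)`. If `a l z ≠ 0` then `z, c l` are in
`B(c l, ρ (c l))`, so `‖g z - y l‖ < min (ρr (j (g z))) (ε (g z)) / 4`; hence the comparison of `ε` (it is
`1`-Lipschitz), and the convex combination `∑ᶠ w l • j (y l)` is within `ρr (j (g z)) / 4` of `j (g z)`.
If `a l z ≠ 0`, `a l z' ≠ 0` then `dist z z' < 2 * ρ (c l) ≤ v (c l) / 2` and
`v z' ≥ v (c l) - v (c l) / 4`. -/
theorem exists_base {κ : Cardinal.{0}} (hκ : ℵ₀ ≤ κ) {X N : Type} [NormedAddCommGroup X]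
    [NormedAddCommGroup N] [NormedSpace ℝ N] (j : X → N) (r : N → X) (hj : Isometry j)
    (hr : Continuous r) (hrj : ∀ x, r (j x) = x) {Z : Type} [MetricSpace Z] (hZ : DensLE κ Z)
    (g : Z → X) (hg : Continuous g) (ε : X → ℝ) (hε : Ctl ε) (v : Z → ℝ) (hv : Ctl v) :
    ∃ (Λ : Type) (a : Λ → Z → ℝ) (m : Λ → ℕ) (y : Λ → X), #Λ ≤ κ ∧ (∀ l, Continuous (a l)) ∧
      (LocallyFinite fun l => Function.support (a l)) ∧ (∀ l z, 0 ≤ a l z) ∧
      (∀ z, ∑ᶠ l, a l z = 1) ∧
      (∀ l l' z, a l z ≠ 0 → a l' z ≠ 0 → m l = m l' → l = l') ∧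
      (∀ l z, a l z ≠ 0 → ε (g z) ≤ 2 * ε (y l) ∧ ε (y l) ≤ 2 * ε (g z)) ∧
      (∀ z (w : Λ → ℝ), (∀ l, 0 ≤ w l) → (∀ l, w l ≠ 0 → a l z ≠ 0) → ∑ᶠ l, w l = 1 →
        ‖r (∑ᶠ l, w l • j (y l)) - g z‖ ≤ ε (g z) / 4) ∧
      ∀ l z z', a l z ≠ 0 → a l z' ≠ 0 → dist z z' < v z' := by
  have hrc : Continuous fun n => ε (r n) / 4 := (hε.continuous.comp hr).div_const 4
  obtain ⟨ρr, hρr, hmr⟩ := exists_ctl_modulus r hr (fun n => ε (r n) / 4) hrc
    (fun n => by have := hε.pos (r n); positivity)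
  have hzc : Continuous fun z => min (ρr (j (g z))) (ε (g z)) / 4 :=
    ((hρr.continuous.comp (hj.continuous.comp hg)).min (hε.continuous.comp hg)).div_const 4
  obtain ⟨ρ₁, hρ₁, hm₁⟩ := exists_ctl_modulus g hg
    (fun z => min (ρr (j (g z))) (ε (g z)) / 4) hzc
    (fun z => by
      have h1 := hρr.pos (j (g z))
      have h2 := hε.pos (g z)
      have h3 : 0 < min (ρr (j (g z))) (ε (g z)) := lt_min h1 h2
      positivity)
  have hv4 : Ctl fun z => 1 / 4 * v z := hv.smul (by norm_num) (by norm_num)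
  obtain ⟨Λ, a, m, c, hΛ, hac, hlf, hnn, hsum, hlev, hdist⟩ :=
    exists_partition hκ hZ (fun z => min (ρ₁ z) (1 / 4 * v z)) (hρ₁.min hv4)
  have hclose : ∀ l z, a l z ≠ 0 →
      dist (g z) (g (c l)) < min (ρr (j (g z))) (ε (g z)) / 4 := by
    intro l z hl
    have h1 := hdist l z hl
    have h2 : dist z (c l) < ρ₁ (c l) := lt_of_lt_of_le h1 (min_le_left _ _)
    exact hm₁ (c l) z (c l) h2 (by rw [dist_self]; exact hρ₁.pos _)
  refine ⟨Λ, a, m, fun l => g (c l), hΛ, hac, hlf, hnn, hsum, hlev, ?_, ?_, ?_⟩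
  · intro l z hl
    have h1 := hclose l z hl
    have h2 : dist (g z) (g (c l)) < ε (g z) / 4 :=
      lt_of_lt_of_le h1 (div_le_div_of_nonneg_right (min_le_right _ _) (by norm_num))
    have h3 := hε.lip (g z) (g (c l))
    rw [abs_le] at h3
    have h4 := hε.pos (g z)
    constructor <;> linarith
  · intro z w hw0 hwa hw1
    have hmem : (∑ᶠ l, w l • j (g (c l))) ∈ closedBall (j (g z)) (ρr (j (g z)) / 4) := by
      refine Convex.finsum_mem (convex_closedBall _ _) hw0 hw1 ?_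
      intro l hl
      have h1 := hclose l z (hwa l hl)
      have h2 : dist (g z) (g (c l)) < ρr (j (g z)) / 4 :=
        lt_of_lt_of_le h1 (div_le_div_of_nonneg_right (min_le_left _ _) (by norm_num))
      rw [mem_closedBall, hj.dist_eq, dist_comm]
      exact h2.le
    rw [mem_closedBall] at hmem
    have hpos := hρr.pos (j (g z))
    have h1 := hmr (j (g z)) (j (g z)) (∑ᶠ l, w l • j (g (c l)))
      (by rw [dist_self]; exact hpos) (by linarith)
    simp only [hrj] at h1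
    rw [dist_comm, dist_eq_norm] at h1
    exact h1.le
  · intro l z z' hl hl'
    have h1 := lt_of_lt_of_le (hdist l z hl) (min_le_right _ _)
    have h2 := lt_of_lt_of_le (hdist l z' hl') (min_le_right _ _)
    have h3 := dist_triangle_right z z' (c l)
    have h4 := hv.lip z' (c l)
    rw [abs_le] at h4
    have h5 := hv.pos (c l)
    linarith

end Pool.Agent.MP_645085_gt.TOR
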