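import Pool.Agent.MP_645085_gt.TOR.Lim

/-!
# TOR row [TOR-BING]: Bing's shrinking criterion for complete metric spaces
-/

namespace Pool.Agent.MP_645085_gt.TOR

open Set Filter Topology TopologicalSpace Metric

theorem Bing_step {M X : Type} [MetricSpace M] [MetricSpace X]
    (p : M → X)
    (H : ∀ ε : X → ℝ, Ctl ε → ∀ v : M → ℝ, Ctl v →
      ∃ h : M ≃ₜ M, (∀ m, dist (p (h m)) (p m) ≤ ε (p m)) ∧ IsVMap v (p ∘ h))
    (n : ℕ) (g : M ≃ₜ M) (σ : X → ℝ) (hσ : Ctl σ) :
    ∃ (g' : M ≃ₜ M) (ρ : X → ℝ), Ctl ρ ∧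
      (∀ m, dist (p (g' m)) (p (g m)) ≤ (1 / 2) ^ (n + 4) * σ (p (g m))) ∧
      ∀ x m m', dist (p (g' m)) x < ρ x → dist (p (g' m')) x < ρ x → dist m m' ≤ (1 / 2) ^ n := by
  obtain ⟨v, hv, hv'⟩ := exists_ctl_modulus g.symm g.symm.continuous (fun _ => (1 / 2 : ℝ) ^ n)
    continuous_const (fun _ => by positivity)
  obtain ⟨h, h1, h2⟩ := H (fun x => (1 / 2) ^ (n + 4) * σ x)
    (Ctl.smul hσ (by positivity) (pow_le_one₀ (by norm_num) (by norm_num))) v hv
  obtain ⟨ρ, hρ, hρ'⟩ := exists_ctl_of_local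
    (fun x r => ∀ m m', dist (p (h (g m))) x < r → dist (p (h (g m'))) x < r →
      dist m m' ≤ (1 / 2) ^ n) (by
      intro x y r s hQ _ hs m m' hm hm'
      refine hQ m m' ?_ ?_
      · have := dist_triangle (p (h (g m))) y x
        rw [dist_comm y x] at this
        linarith
      · have := dist_triangle (p (h (g m'))) y x
        rw [dist_comm y x] at this
        linarith) (by
      intro x
      obtain ⟨r, hr, z, hz⟩ := h2 x
      refine ⟨r, hr, fun m m' hm hm' => ?_⟩
      have h3 := hv' z (g m) (g m') (hz _ hm) (hz _ hm')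
      rw [Homeomorph.symm_apply_apply, Homeomorph.symm_apply_apply] at h3
      exact h3.le)
  exact ⟨g.trans h, ρ, hρ, fun m => h1 (g m), fun x m m' => hρ' x m m'⟩

/-- [TOR-BING] Bing's shrinking criterion (may use `limit_lemma` with `S n = univ`).
Recursion with state `(g : M ≃ₜ M, σ : X → ℝ)`, `Ctl σ`, start `(refl, 1)`; `f n = p ∘ g n`.
Step: given `(g, σ)` at stage `n`: choose `v` by `exists_ctl_modulus` for `g.symm` such that
`dist m z < v z` implies `dist (g.symm m) (g.symm z) < (1/2)^(n+1)`, hence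
`g.symm '' ball z (v z)` has diameter `≤ (1/2)^n`; let `h` be given by `H` for the controls
`(1/2)^(n+4) * σ` and `v`; `g' = h ∘ g` (i.e. `g.trans h`). As `p ∘ h` is a `v`-map,
`exists_ctl_of_local` for the property
`Q x r := ∀ m m', dist (p (g' m)) x < r → dist (p (g' m')) x < r → dist m m' ≤ (1/2)^n`
gives `ρ n`; `σ' = min σ (ρ n)`. Then `limit_lemma` gives a closed embedding `F : M → X`
(`S n = univ`), and it is onto: for `x`, choose `m k` with `f k (m k) = x`, then
`F (m k) → x` and the range is closed. -/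
theorem bing {M X : Type} [MetricSpace M] [CompleteSpace M] [MetricSpace X] [CompleteSpace X]
    (p : M → X) (hp : Continuous p) (hs : Function.Surjective p)
    (H : ∀ ε : X → ℝ, Ctl ε → ∀ v : M → ℝ, Ctl v →
      ∃ h : M ≃ₜ M, (∀ m, dist (p (h m)) (p m) ≤ ε (p m)) ∧ IsVMap v (p ∘ h)) :
    Nonempty (M ≃ₜ X) := by
  choose G R hR hG hGR using Bing_step p H
  let st : ℕ → (M ≃ₜ M) × {σ : X → ℝ // Ctl σ} := fun n =>
    Nat.rec (Homeomorph.refl M, ⟨fun _ => 1, Ctl.const one_pos le_rfl⟩)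
      (fun n s => (G n s.1 s.2.1 s.2.2, ⟨fun x => min (s.2.1 x) (R n s.1 s.2.1 s.2.2 x),
        Ctl.min s.2.2 (hR n s.1 s.2.1 s.2.2)⟩)) n
  let ρ : ℕ → X → ℝ := fun n => R n (st n).1 (st n).2.1 (st n).2.2
  let f : ℕ → M → X := fun n m => p ((st n).1 m)
  have hst1 : ∀ n m, dist (f (n + 1) m) (f n m) ≤ (1 / 2) ^ (n + 4) * (st n).2.1 (f n m) :=
    fun n m => hG n (st n).1 (st n).2.1 (st n).2.2 m
  have hst2 : ∀ n x, (st (n + 1)).2.1 x = min ((st n).2.1 x) (ρ n x) := fun n x => rfl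
  have hst3 : ∀ n k, n < k → ∀ x, (st k).2.1 x ≤ ρ n x := by
    intro n k hk x
    induction k, hk using Nat.le_induction with
    | base => rw [hst2]; exact min_le_right _ _
    | succ k hk ih => rw [hst2]; exact (min_le_left _ _).trans ih
  obtain ⟨F, hF, hFf, hFc⟩ := limit_lemma (fun _ : ℕ => (univ : Set M)) (fun _ => isClosed_univ)
    (fun _ _ _ => le_rfl) f (fun n => hp.comp (st n).1.continuous) ρ
    (fun n => hR n (st n).1 (st n).2.1 (st n).2.2)
    (fun k m => by
      refine (hst1 k m).trans ?_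
      have h1 : (st k).2.1 (f k m) ≤ 1 := (st k).2.2.le_one _
      have h2 : (0 : ℝ) < (st k).2.1 (f k m) := (st k).2.2.pos _
      have h3 : (0 : ℝ) < (1 / 2) ^ k := by positivity
      have h4 : (1 / 2 : ℝ) ^ (k + 4) = (1 / 2) ^ k * (1 / 16) := by rw [pow_add]; norm_num
      rw [h4]
      nlinarith)
    (fun n k hk m _ => by
      refine (hst1 k m).trans ?_
      have h1 : (st k).2.1 (f k m) ≤ ρ n (f k m) := hst3 n k hk _
      have h2 : (0 : ℝ) < (st k).2.1 (f k m) := (st k).2.2.pos _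
      have h3 : (0 : ℝ) < (1 / 2) ^ (k + 3) := by positivity
      have h4 : (1 / 2 : ℝ) ^ (k + 4) = (1 / 2) ^ (k + 3) * (1 / 2) := by rw [pow_succ]
      rw [h4, mul_assoc]
      refine mul_le_mul_of_nonneg_left ?_ h3.le
      linarith)
    (fun n x m _ m' _ hm hm' => hGR n (st n).1 (st n).2.1 (st n).2.2 x m m' hm hm')
  have hemb : IsClosedEmbedding F := by
    have := (hFc 0).comp (Homeomorph.Set.univ M).symm.isClosedEmbedding
    exact this
  have hsurj : Function.Surjective F := by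
    intro x
    have h1 : ∀ k, ∃ m, f k m = x := by
      intro k
      obtain ⟨m, hm⟩ := hs x
      exact ⟨(st k).1.symm m, by simp only [f, Homeomorph.apply_symm_apply, hm]⟩
    choose m hm using h1
    have h2 : Tendsto (fun k => F (m k)) atTop (𝓝 x) := by
      rw [tendsto_iff_dist_tendsto_zero]
      refine squeeze_zero (fun _ => dist_nonneg) (fun k => ?_)
        (show Tendsto (fun k : ℕ => 2 * (1 / 2 : ℝ) ^ k) atTop (𝓝 0) from ?_)
      · have := hFf k (m k)
        rwa [hm] at this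
      · have := (tendsto_pow_atTop_nhds_zero_of_lt_one (by norm_num : (0 : ℝ) ≤ 1 / 2)
          (by norm_num)).const_mul 2
        rwa [mul_zero] at this
    have h3 : x ∈ range F :=
      hemb.isClosed_range.mem_of_tendsto h2 (Eventually.of_forall fun k => mem_range_self _)
    exact h3
  exact ⟨hemb.isEmbedding.toHomeomorphOfSurjective hsurj⟩

end Pool.Agent.MP_645085_gt.TOR
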