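import Pool.Agent.MP_645085_gt.TOR.Defs

/-!
# TOR row [TOR-CC]: comparison of two collapses
-/

namespace Pool.Agent.MP_645085_gt.TOR

open Set Filter Topology TopologicalSpace Metric

open Classical in
/-- The comparison map of two collapses. -/
noncomputable def CC_map {X P : Type} [NormedAddCommGroup X] [MetricSpace P]
    (Γ₁ Γ₂ : OpenPartialHomeomorph (MM X P) (MM X P)) (m : MM X P) : MM X P :=
  if m ∈ Γ₁.source then Γ₂.symm (Γ₁ m) else m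

section

variable {X P : Type} [NormedAddCommGroup X] [MetricSpace P] [AddCommGroup P]
    {A : Set X} {ε₁ ε₂ : X → ℝ} {f₁ f₂ : MM X P → X}
    {Γ₁ Γ₂ : OpenPartialHomeomorph (MM X P) (MM X P)}

lemma CC_source (h₁ : Collapse A ε₁ f₁ Γ₁) (h₂ : Collapse A ε₂ f₂ Γ₂) :
    Γ₁.source = Γ₂.source := by rw [h₁.source, h₂.source]

lemma CC_target (h₁ : Collapse A ε₁ f₁ Γ₁) (h₂ : Collapse A ε₂ f₂ Γ₂) :
    Γ₁.target = Γ₂.target := by rw [h₁.target, h₂.target]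

lemma CC_mem (h₁ : Collapse A ε₁ f₁ Γ₁) (h₂ : Collapse A ε₂ f₂ Γ₂) {m : MM X P}
    (hm : m ∈ Γ₁.source) : CC_map Γ₁ Γ₂ m ∈ Γ₂.source ∧ Γ₂ (CC_map Γ₁ Γ₂ m) = Γ₁ m := by
  have ht : Γ₁ m ∈ Γ₂.target := CC_target h₁ h₂ ▸ Γ₁.map_source hm
  unfold CC_map
  rw [if_pos hm]
  exact ⟨Γ₂.map_target ht, Γ₂.right_inv ht⟩

lemma CC_inv (h₁ : Collapse A ε₁ f₁ Γ₁) (h₂ : Collapse A ε₂ f₂ Γ₂) (m : MM X P) :
    CC_map Γ₂ Γ₁ (CC_map Γ₁ Γ₂ m) = m := by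
  by_cases hm : m ∈ Γ₁.source
  · obtain ⟨h3, h4⟩ := CC_mem h₁ h₂ hm
    conv_lhs => rw [CC_map]
    rw [if_pos h3, h4]
    exact Γ₁.left_inv hm
  · have h5 : CC_map Γ₁ Γ₂ m = m := if_neg hm
    rw [h5]
    have hm' : m ∉ Γ₂.source := by rwa [← CC_source h₁ h₂]
    exact if_neg hm'

lemma CC_not_mem (h₁ : Collapse A ε₁ f₁ Γ₁) {m : MM X P} (hm : m ∉ Γ₁.source) :
    m.1 ∈ A ∧ m = (m.1, 0, 1) := by
  rw [h₁.source] at hm
  simp only [mem_setOf_eq, not_not] at hm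
  refine ⟨hm.1, ?_⟩
  obtain ⟨a, p, t⟩ := m
  simp only at hm ⊢
  rw [hm.2.1, hm.2.2]

lemma CC_f (h₁ : Collapse A ε₁ f₁ Γ₁) (h₂ : Collapse A ε₂ f₂ Γ₂) (m : MM X P) :
    f₂ (CC_map Γ₁ Γ₂ m) = f₁ m := by
  by_cases hm : m ∈ Γ₁.source
  · obtain ⟨h3, h4⟩ := CC_mem h₁ h₂ hm
    rw [h₂.f_eq _ h3, h4, h₁.f_eq _ hm]
  · have h5 : CC_map Γ₁ Γ₂ m = m := if_neg hm
    obtain ⟨h6, h7⟩ := CC_not_mem h₁ hm
    rw [h5, h7, h₁.f_A _ h6, h₂.f_A _ h6]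

lemma CC_cont (h₁ : Collapse A ε₁ f₁ Γ₁) (h₂ : Collapse A ε₂ f₂ Γ₂) :
    Continuous (CC_map Γ₁ Γ₂) := by
  rw [continuous_iff_continuousAt]
  intro m
  by_cases hm : m ∈ Γ₁.source
  · have hev : CC_map Γ₁ Γ₂ =ᶠ[𝓝 m] fun m => Γ₂.symm (Γ₁ m) := by
      filter_upwards [Γ₁.open_source.mem_nhds hm] with m' hm'
      exact if_pos hm'
    refine ContinuousAt.congr ?_ hev.symm
    have ht : Γ₁ m ∈ Γ₂.target := CC_target h₁ h₂ ▸ Γ₁.map_source hm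
    exact ContinuousAt.comp (f := fun m => Γ₁ m) (g := fun m => Γ₂.symm m)
      (Γ₂.continuousAt_symm ht) (Γ₁.continuousAt hm)
  · obtain ⟨h6, h7⟩ := CC_not_mem h₁ hm
    have h5 : CC_map Γ₁ Γ₂ m = m := if_neg hm
    rw [ContinuousAt, h5, Metric.tendsto_nhds]
    intro δ hδ
    obtain ⟨ρ, hρ, hsep⟩ := h₂.sep m.1 h6 δ hδ
    have hf : f₁ m = m.1 := by
      conv_lhs => rw [h7]
      exact h₁.f_A _ h6
    have hlim : Tendsto (fun m' => f₁ m' - m.1) (𝓝 m) (𝓝 0) := by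
      have := (h₁.cont.tendsto m).sub_const m.1
      rwa [hf, sub_self] at this
    have hev : ∀ᶠ m' in 𝓝 m, ‖f₁ m' - m.1‖ < ρ := by
      have := hlim.norm
      rw [norm_zero] at this
      exact this.eventually_lt_const hρ
    filter_upwards [hev] with m' hm'
    rw [← CC_f h₁ h₂ m'] at hm'
    have := hsep _ hm'
    rwa [← h7] at this

end

/-- [TOR-CC] Two collapses over the same set: `G = Γ₂⁻¹ ∘ Γ₁` extended by the identity on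
`A × {(0, 1)}`. Continuity at `(a, 0, 1)`: `f₂ (G m) = f₁ m → a` as `m → (a, 0, 1)`, so
`G m → (a, 0, 1)` by `sep` of the second collapse; symmetrically for the inverse. Then
`‖f₁ m - (G m).1‖ = ‖f₂ (G m) - (G m).1‖ ≤ ε₂ (G m).1`. -/
theorem collapse_compare {X P : Type} [NormedAddCommGroup X] [MetricSpace P] [AddCommGroup P]
    {A : Set X} {ε₁ ε₂ : X → ℝ} (hε₂ : ∀ x, 0 < ε₂ x) {f₁ f₂ : MM X P → X}
    {Γ₁ Γ₂ : OpenPartialHomeomorph (MM X P) (MM X P)} (h₁ : Collapse A ε₁ f₁ Γ₁)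
    (h₂ : Collapse A ε₂ f₂ Γ₂) :
    ∃ G : MM X P ≃ₜ MM X P, ∀ m, ‖f₁ m - (G m).1‖ ≤ ε₂ (G m).1 := by
  refine ⟨{ toFun := CC_map Γ₁ Γ₂
            invFun := CC_map Γ₂ Γ₁
            left_inv := CC_inv h₁ h₂
            right_inv := CC_inv h₂ h₁
            continuous_toFun := CC_cont h₁ h₂
            continuous_invFun := CC_cont h₂ h₁ }, fun m => ?_⟩
  show ‖f₁ m - (CC_map Γ₁ Γ₂ m).1‖ ≤ ε₂ (CC_map Γ₁ Γ₂ m).1
  rw [← CC_f h₁ h₂ m]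
  exact h₂.near _

end Pool.Agent.MP_645085_gt.TOR
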