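import Pool.Agent.MP_645085_gt.TOR.Ins

/-!
# TOR row [TOR-CHART]: the chart `P × Ball ≅ P × [0,1]`
-/

namespace Pool.Agent.MP_645085_gt.TOR

open Set Filter Topology TopologicalSpace Metric

/-- the place of insertion -/
noncomputable def Chart_s (t : ℝ) : Ici (1 : ℝ) := ⟨max 1 t⁻¹, mem_Ici.2 (le_max_left _ _)⟩

lemma Chart_s_continuousOn {Z : Type} [TopologicalSpace Z] {f : Z → ℝ} (hf : Continuous f)
    (h0 : ∀ z, f z ≠ 0) : Continuous fun z => Chart_s (f z) := by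
  unfold Chart_s
  exact (continuous_const.max (hf.inv₀ h0)).subtype_mk _

lemma Chart_le_s (t : ℝ) (i : ℕ) (h0 : 0 < t) (h : ((i : ℝ) + 1) * t ≤ 1) :
    (i : ℝ) + 1 ≤ (Chart_s t : ℝ) := by
  change (i : ℝ) + 1 ≤ max 1 t⁻¹
  refine le_trans ?_ (le_max_right _ _)
  rw [le_inv_comm₀ (by positivity) h0]
  rw [← one_div, le_div_iff₀ (by positivity)]
  linarith

/-- continuity at the zero section, coordinatewise -/
lemma Chart_cont {X B : Type} [TopologicalSpace X] [TopologicalSpace B] (n : B → ℝ)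
    (hn : Continuous n) (f : (ℕ → X) × B → ℕ → X)
    (h1 : ContinuousOn f {q | n q.2 ≠ 0})
    (h2 : ∀ q (i : ℕ), ((i : ℝ) + 1) * n q.2 < 1 → f q i = q.1 i) : Continuous f := by
  rw [continuous_iff_continuousAt]
  intro q0
  by_cases h0 : n q0.2 = 0
  · rw [ContinuousAt, tendsto_pi_nhds]
    intro i
    have ho : IsOpen {q : (ℕ → X) × B | ((i : ℝ) + 1) * n q.2 < 1} :=
      isOpen_lt (continuous_const.mul (hn.comp continuous_snd)) continuous_const
    have hm : q0 ∈ {q : (ℕ → X) × B | ((i : ℝ) + 1) * n q.2 < 1} := by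
      simp [h0]
    have he : (fun q : (ℕ → X) × B => q.1 i) =ᶠ[𝓝 q0] fun q => f q i := by
      filter_upwards [ho.mem_nhds hm] with q hq
      exact (h2 q i hq).symm
    have hc : Continuous fun q : (ℕ → X) × B => q.1 i :=
      (continuous_apply i).comp continuous_fst
    have := (hc.continuousAt (x := q0)).congr he
    exact this
  · have ho : IsOpen {q : (ℕ → X) × B | n q.2 ≠ 0} :=
      isOpen_ne_fun (hn.comp continuous_snd) continuous_const
    exact h1.continuousAt (ho.mem_nhds h0)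

section

variable {E H : Type} [TopologicalSpace E] [NormedAddCommGroup H] [NormedSpace ℝ H]
  (F : {x : H // x ≠ 0} ≃ₜ H)
  (GR : (Ici (1 : ℝ) × (ℕ → ℝ) × ℝ) ≃ₜ (Ici (1 : ℝ) × (ℕ → ℝ)))
  (GH : (Ici (1 : ℝ) × (ℕ → H) × H) ≃ₜ (Ici (1 : ℝ) × (ℕ → H)))

lemma Chart_ne (a : ℝ) (w : {w : H // w ≠ 0}) : Real.exp a • (‖(w : H)‖⁻¹ • (w : H)) ≠ 0 :=
  smul_ne_zero (Real.exp_pos a).ne' (smul_ne_zero (inv_ne_zero (norm_ne_zero_iff.2 w.2)) w.2)

/-- the forward map off the zero section -/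
noncomputable def Chart_fwd (q : (ℕ → E × H × ℝ) × {w : H // w ≠ 0}) : ℕ → E × H × ℝ := fun i =>
  ((q.1 i).1,
    (GH (Chart_s ‖(q.2 : H)‖, fun i => (q.1 i).2.1,
      F ⟨Real.exp (GR.symm (Chart_s ‖(q.2 : H)‖, fun i => (q.1 i).2.2)).2.2 •
        (‖(q.2 : H)‖⁻¹ • (q.2 : H)), Chart_ne _ _⟩)).2 i,
    (GR.symm (Chart_s ‖(q.2 : H)‖, fun i => (q.1 i).2.2)).2.1 i)

/-- the backward map off the zero section -/
noncomputable def Chart_bwd (q : (ℕ → E × H × ℝ) × {t : ℝ // t ≠ 0}) : ℕ → E × H × ℝ := fun i =>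
  ((q.1 i).1,
    (GH.symm (Chart_s q.2, fun i => (q.1 i).2.1)).2.1 i,
    (GR (Chart_s q.2, fun i => (q.1 i).2.2,
      Real.log ‖(F.symm (GH.symm (Chart_s q.2, fun i => (q.1 i).2.1)).2.2 : H)‖)).2 i)

/-- the vector of the backward map off the zero section -/
noncomputable def Chart_vec (q : (ℕ → E × H × ℝ) × {t : ℝ // t ≠ 0}) : H :=
  (q.2 : ℝ) • (‖(F.symm (GH.symm (Chart_s q.2, fun i => (q.1 i).2.1)).2.2 : H)‖⁻¹ •
    (F.symm (GH.symm (Chart_s q.2, fun i => (q.1 i).2.1)).2.2 : H))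

omit [TopologicalSpace E] in
lemma Chart_vec_norm (q : (ℕ → E × H × ℝ) × {t : ℝ // t ≠ 0}) :
    ‖Chart_vec F GH q‖ = |(q.2 : ℝ)| := by
  unfold Chart_vec
  have h := (F.symm (GH.symm (Chart_s q.2, fun i => (q.1 i).2.1)).2.2).2
  rw [norm_smul, norm_smul, norm_inv, norm_norm, inv_mul_cancel₀ (norm_ne_zero_iff.2 h), mul_one,
    Real.norm_eq_abs]

lemma Chart_fwd_cont : Continuous (Chart_fwd (E := E) F GR GH) := by
  have hs : Continuous fun q : (ℕ → E × H × ℝ) × {w : H // w ≠ 0} => Chart_s ‖(q.2 : H)‖ :=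
    Chart_s_continuousOn (continuous_norm.comp (continuous_subtype_val.comp continuous_snd))
      fun q => norm_ne_zero_iff.2 q.2.2
  have hr : Continuous fun q : (ℕ → E × H × ℝ) × {w : H // w ≠ 0} => fun i => (q.1 i).2.2 := by
    fun_prop
  have hh : Continuous fun q : (ℕ → E × H × ℝ) × {w : H // w ≠ 0} => fun i => (q.1 i).2.1 := by
    fun_prop
  have hR := GR.symm.continuous.comp (hs.prodMk hr)
  have hw : Continuous fun q : (ℕ → E × H × ℝ) × {w : H // w ≠ 0} => ‖(q.2 : H)‖⁻¹ • (q.2 : H) := by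
    have h1 : Continuous fun q : (ℕ → E × H × ℝ) × {w : H // w ≠ 0} => (q.2 : H) :=
      continuous_subtype_val.comp continuous_snd
    exact (h1.norm.inv₀ fun q => norm_ne_zero_iff.2 q.2.2).smul h1
  have hz := F.continuous.comp
    (((Real.continuous_exp.comp (continuous_snd.comp (continuous_snd.comp hR))).smul hw).subtype_mk
      fun q => Chart_ne _ _)
  have hG := continuous_snd.comp (GH.continuous.comp (hs.prodMk (hh.prodMk hz)))
  refine continuous_pi fun i => ?_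
  refine Continuous.prodMk (by fun_prop) (Continuous.prodMk ?_ ?_)
  · exact (continuous_apply i).comp hG
  · exact (continuous_apply i).comp (continuous_fst.comp (continuous_snd.comp hR))

lemma Chart_bwd_cont : Continuous (Chart_bwd (E := E) F GR GH) ∧
    Continuous (Chart_vec (E := E) F GH) := by
  have hs : Continuous fun q : (ℕ → E × H × ℝ) × {t : ℝ // t ≠ 0} => Chart_s (q.2 : ℝ) :=
    Chart_s_continuousOn (continuous_subtype_val.comp continuous_snd) fun q => q.2.2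
  have hr : Continuous fun q : (ℕ → E × H × ℝ) × {t : ℝ // t ≠ 0} => fun i => (q.1 i).2.2 := by
    fun_prop
  have hh : Continuous fun q : (ℕ → E × H × ℝ) × {t : ℝ // t ≠ 0} => fun i => (q.1 i).2.1 := by
    fun_prop
  have hS := GH.symm.continuous.comp (hs.prodMk hh)
  have hz := continuous_subtype_val.comp
    (F.symm.continuous.comp (continuous_snd.comp (continuous_snd.comp hS)))
  have hn : ∀ q : (ℕ → E × H × ℝ) × {t : ℝ // t ≠ 0},
      ‖(F.symm (GH.symm (Chart_s q.2, fun i => (q.1 i).2.1)).2.2 : H)‖ ≠ 0 := fun q =>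
    norm_ne_zero_iff.2 (F.symm (GH.symm (Chart_s q.2, fun i => (q.1 i).2.1)).2.2).2
  have hl := hz.norm.log hn
  have hG := continuous_snd.comp (GR.continuous.comp (hs.prodMk (hr.prodMk hl)))
  constructor
  · refine continuous_pi fun i => ?_
    refine Continuous.prodMk (by fun_prop) (Continuous.prodMk ?_ ?_)
    · exact (continuous_apply i).comp (continuous_fst.comp (continuous_snd.comp hS))
    · exact (continuous_apply i).comp hG
  · exact (continuous_subtype_val.comp continuous_snd).smul ((hz.norm.inv₀ hn).smul hz)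

variable (hR1 : ∀ q, (GR q).1 = q.1) (hH1 : ∀ q, (GH q).1 = q.1)

include hR1 hH1 in
omit [TopologicalSpace E] in
lemma Chart_left (p : ℕ → E × H × ℝ) (w : {w : H // w ≠ 0}) (ht : ‖(w : H)‖ ≠ 0) :
    Chart_bwd F GR GH (Chart_fwd F GR GH (p, w), ⟨‖(w : H)‖, ht⟩) = p ∧
    Chart_vec F GH (Chart_fwd F GR GH (p, w), ⟨‖(w : H)‖, ht⟩) = w := by
  obtain ⟨R, hR⟩ : ∃ R, R = GR.symm (Chart_s ‖(w : H)‖, fun i => (p i).2.2) := ⟨_, rfl⟩
  have hR' : GR R = (Chart_s ‖(w : H)‖, fun i => (p i).2.2) := by rw [hR]; simp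
  have hRs : R.1 = Chart_s ‖(w : H)‖ := by rw [← hR1, hR']
  obtain ⟨ζ, hζ⟩ : ∃ ζ : {x : H // x ≠ 0}, ζ = ⟨Real.exp R.2.2 • (‖(w : H)‖⁻¹ • (w : H)),
    Chart_ne _ _⟩ := ⟨_, rfl⟩
  obtain ⟨h', hh'⟩ : ∃ h', h' = (GH (Chart_s ‖(w : H)‖, fun i => (p i).2.1, F ζ)).2 := ⟨_, rfl⟩
  have hfwd : Chart_fwd F GR GH (p, w) = fun i => ((p i).1, h' i, R.2.1 i) := by
    rw [hh', hζ, hR]; rfl
  have hS : GH.symm (Chart_s ‖(w : H)‖, h') = (Chart_s ‖(w : H)‖, fun i => (p i).2.1, F ζ) := by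
    rw [Homeomorph.symm_apply_eq, hh']
    have := hH1 (Chart_s ‖(w : H)‖, fun i => (p i).2.1, F ζ)
    exact Prod.ext this.symm rfl
  have hζn : ‖(ζ : H)‖ = Real.exp R.2.2 := by
    rw [hζ, norm_smul, norm_smul, norm_inv, norm_norm, inv_mul_cancel₀ ht, mul_one,
      Real.norm_eq_abs, abs_of_pos (Real.exp_pos _)]
  have hF : F.symm (GH.symm (Chart_s ‖(w : H)‖, h')).2.2 = ζ := by rw [hS]; simp
  rw [hfwd]
  constructor
  · unfold Chart_bwd
    simp only
    rw [hF, hS, hζn, Real.log_exp]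
    have : (Chart_s ‖(w : H)‖, R.2.1, R.2.2) = R := by rw [← hRs]
    have h2 : (GR (Chart_s ‖(w : H)‖, fun i => R.2.1 i, R.2.2)).2 = fun i => (p i).2.2 := by
      change (GR (Chart_s ‖(w : H)‖, R.2.1, R.2.2)).2 = _
      rw [this, hR']
    rw [h2]
  · unfold Chart_vec
    simp only
    rw [hF, hζn, hζ]
    simp only
    rw [smul_smul (Real.exp R.2.2)⁻¹, inv_mul_cancel₀ (Real.exp_pos _).ne', one_smul, smul_smul,
      mul_inv_cancel₀ ht, one_smul]

include hR1 hH1 in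
omit [TopologicalSpace E] in
lemma Chart_right (p : ℕ → E × H × ℝ) (t : {t : ℝ // t ≠ 0}) (ht : 0 < (t : ℝ))
    (hw : Chart_vec F GH (p, t) ≠ 0) :
    Chart_fwd F GR GH (Chart_bwd F GR GH (p, t), ⟨Chart_vec F GH (p, t), hw⟩) = p := by
  have hn : ‖Chart_vec F GH (p, t)‖ = t := by
    rw [Chart_vec_norm, abs_of_pos ht]
  obtain ⟨S, hS⟩ : ∃ S, S = GH.symm (Chart_s t, fun i => (p i).2.1) := ⟨_, rfl⟩
  have hS' : GH S = (Chart_s t, fun i => (p i).2.1) := by rw [hS]; simp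
  have hSs : S.1 = Chart_s t := by rw [← hH1, hS']
  obtain ⟨ζ, hζ⟩ : ∃ ζ, ζ = F.symm S.2.2 := ⟨_, rfl⟩
  have hζ0 : ‖(ζ : H)‖ ≠ 0 := norm_ne_zero_iff.2 ζ.2
  obtain ⟨r, hr⟩ : ∃ r, r = (GR (Chart_s t, fun i => (p i).2.2, Real.log ‖(ζ : H)‖)).2 :=
    ⟨_, rfl⟩
  have hbwd : Chart_bwd F GR GH (p, t) = fun i => ((p i).1, S.2.1 i, r i) := by
    rw [hr, hζ, hS]; rfl
  have hR : GR.symm (Chart_s t, r) = (Chart_s t, fun i => (p i).2.2, Real.log ‖(ζ : H)‖) := by
    rw [Homeomorph.symm_apply_eq, hr]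
    have := hR1 (Chart_s t, fun i => (p i).2.2, Real.log ‖(ζ : H)‖)
    exact Prod.ext this.symm rfl
  have hvec : Chart_vec F GH (p, t) = (t : ℝ) • (‖(ζ : H)‖⁻¹ • (ζ : H)) := by
    rw [hζ, hS]; rfl
  unfold Chart_fwd
  simp only [hn, hbwd, hR]
  have h1 : (⟨Real.exp (Real.log ‖(ζ : H)‖) • ((t : ℝ)⁻¹ • Chart_vec F GH (p, t)),
      by rw [← hn]; exact Chart_ne _ ⟨_, hw⟩⟩ : {x : H // x ≠ 0}) = ζ := by
    apply Subtype.ext
    simp only
    rw [hvec, Real.exp_log (norm_pos_iff.2 ζ.2), smul_smul (t : ℝ)⁻¹, inv_mul_cancel₀ ht.ne',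
      one_smul, smul_smul, mul_inv_cancel₀ hζ0, one_smul]
  have h2 : (GH (Chart_s t, fun i => S.2.1 i, F ζ)).2 = fun i => (p i).2.1 := by
    have : (Chart_s (t : ℝ), (fun i => S.2.1 i), F ζ) = S := by
      rw [hζ, ← hSs]; simp
    rw [this, hS']
  funext i
  rw [h1, h2]

/-- [TOR-CHART] `P = ℕ → E × H × ℝ`, i.e. `p = (e, h, r)` with `e : ℕ → E`, `h : ℕ → H`, `r : ℕ → ℝ`.
For `w ≠ 0`, `t = ‖w‖ ∈ (0, 1]`, `u = w / t`, `s = 1 / t ≥ 1`: write `r = G_s (r', a)`
(`exists_insertion ℝ`, inverse), `q = F (exp a • u)` and `h' = G_s (h, q)` (`exists_insertion H`);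
put `C (e, h, r; w) = (e, h', r'; t)`, and `C (p, 0) = (p, 0)`.
Inverse for `t > 0`: `(h, q) = G_s⁻¹ h'`, `ζ = F⁻¹ q ≠ 0`, `a = log ‖ζ‖`, `u = ζ / ‖ζ‖`, `r = G_s (r', a)`,
`w = t • u`. Continuity at points with `w = 0` resp. `t = 0`: coordinatewise, because for
`i + 1 ≤ 1 / t` the coordinates of index `i` are not changed (second clause of
`exists_insertion`, valid also for the inverse). -/
theorem exists_chart (E H : Type) [TopologicalSpace E] [NormedAddCommGroup H] [NormedSpace ℝ H]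
    (F : {x : H // x ≠ 0} ≃ₜ H) :
    ∃ C : ((ℕ → E × H × ℝ) × closedBall (0 : H) 1) ≃ₜ ((ℕ → E × H × ℝ) × unitInterval),
      (∀ q, ((C q).2 : ℝ) = ‖(q.2 : H)‖) ∧
        ∀ p, C (p, ⟨0, mem_closedBall_self zero_le_one⟩) = (p, 0) := by
  classical
  obtain ⟨GR, hR1, hR2⟩ := exists_insertion ℝ
  obtain ⟨GH, hH1, hH2⟩ := exists_insertion H
  -- the second clause for the inverse
  have hR3 : ∀ (s : Ici (1 : ℝ)) (r : ℕ → ℝ) (i : ℕ), (i : ℝ) + 1 ≤ s →
      (GR.symm (s, r)).2.1 i = r i := by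
    intro s r i hi
    obtain ⟨R, hR⟩ : ∃ R, R = GR.symm (s, r) := ⟨_, rfl⟩
    have hR' : GR R = (s, r) := by rw [hR]; simp
    have hs : R.1 = s := by rw [← hR1, hR']
    have h := hR2 s R.2.1 R.2.2 i hi
    have e : (s, R.2.1, R.2.2) = R := by rw [← hs]
    rw [e, hR'] at h
    rw [← hR]
    exact h.symm
  have hH3 : ∀ (s : Ici (1 : ℝ)) (r : ℕ → H) (i : ℕ), (i : ℝ) + 1 ≤ s →
      (GH.symm (s, r)).2.1 i = r i := by
    intro s r i hi
    obtain ⟨R, hR⟩ : ∃ R, R = GH.symm (s, r) := ⟨_, rfl⟩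
    have hR' : GH R = (s, r) := by rw [hR]; simp
    have hs : R.1 = s := by rw [← hH1, hR']
    have h := hH2 s R.2.1 R.2.2 i hi
    have e : (s, R.2.1, R.2.2) = R := by rw [← hs]
    rw [e, hR'] at h
    rw [← hR]
    exact h.symm
  -- the forward map
  let f1 : (ℕ → E × H × ℝ) × closedBall (0 : H) 1 → ℕ → E × H × ℝ := fun q =>
    if h : (q.2 : H) = 0 then q.1 else Chart_fwd F GR GH (q.1, ⟨(q.2 : H), h⟩)
  let f2 : (ℕ → E × H × ℝ) × closedBall (0 : H) 1 → unitInterval := fun q =>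
    ⟨‖(q.2 : H)‖, norm_nonneg _, mem_closedBall_zero_iff.1 q.2.2⟩
  let g1 : (ℕ → E × H × ℝ) × unitInterval → ℕ → E × H × ℝ := fun q =>
    if h : (q.2 : ℝ) = 0 then q.1 else Chart_bwd F GR GH (q.1, ⟨(q.2 : ℝ), h⟩)
  let g2v : (ℕ → E × H × ℝ) × unitInterval → H := fun q =>
    if h : (q.2 : ℝ) = 0 then 0 else Chart_vec F GH (q.1, ⟨(q.2 : ℝ), h⟩)
  have hg2n : ∀ q, ‖g2v q‖ = (q.2 : ℝ) := by
    intro q
    by_cases h : (q.2 : ℝ) = 0
    · simp only [g2v, dif_pos h, norm_zero, h]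
    · simp only [g2v, dif_neg h]
      rw [Chart_vec_norm]
      exact abs_of_nonneg q.2.2.1
  let g2 : (ℕ → E × H × ℝ) × unitInterval → closedBall (0 : H) 1 := fun q =>
    ⟨g2v q, mem_closedBall_zero_iff.2 (by rw [hg2n]; exact q.2.2.2)⟩
  have hf1 : Continuous f1 := by
    refine Chart_cont (fun b : closedBall (0 : H) 1 => ‖(b : H)‖)
      (continuous_norm.comp continuous_subtype_val) f1 ?_ ?_
    · rw [continuousOn_iff_continuous_domRestrict]
      have e : Set.domRestrict {q : (ℕ → E × H × ℝ) × closedBall (0 : H) 1 | ‖(q.2 : H)‖ ≠ 0} f1 =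
          fun q => Chart_fwd F GR GH (q.1.1, ⟨(q.1.2 : H), norm_ne_zero_iff.1 q.2⟩) := by
        funext q
        exact dif_neg (norm_ne_zero_iff.1 q.2)
      rw [e]
      refine (Chart_fwd_cont F GR GH).comp (Continuous.prodMk ?_ ?_)
      · exact continuous_fst.comp continuous_subtype_val
      · exact (continuous_subtype_val.comp (continuous_snd.comp continuous_subtype_val)).subtype_mk _
    · intro q i hi
      by_cases h : (q.2 : H) = 0
      · simp only [f1, dif_pos h]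
      · simp only [f1, dif_neg h]
        have hs := Chart_le_s ‖(q.2 : H)‖ i (norm_pos_iff.2 h) hi.le
        unfold Chart_fwd
        simp only
        rw [hH2 _ _ _ i hs, hR3 _ _ i hs]
  have hg1 : Continuous g1 := by
    refine Chart_cont (fun b : unitInterval => (b : ℝ)) continuous_subtype_val g1 ?_ ?_
    · rw [continuousOn_iff_continuous_domRestrict]
      have e : Set.domRestrict {q : (ℕ → E × H × ℝ) × unitInterval | (q.2 : ℝ) ≠ 0} g1 =
          fun q => Chart_bwd F GR GH (q.1.1, ⟨(q.1.2 : ℝ), q.2⟩) := by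
        funext q
        exact dif_neg q.2
      rw [e]
      refine (Chart_bwd_cont F GR GH).1.comp (Continuous.prodMk ?_ ?_)
      · exact continuous_fst.comp continuous_subtype_val
      · exact (continuous_subtype_val.comp (continuous_snd.comp continuous_subtype_val)).subtype_mk _
    · intro q i hi
      by_cases h : (q.2 : ℝ) = 0
      · simp only [g1, dif_pos h]
      · simp only [g1, dif_neg h]
        have hs := Chart_le_s (q.2 : ℝ) i (lt_of_le_of_ne q.2.2.1 (Ne.symm h)) hi.le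
        unfold Chart_bwd
        simp only
        rw [hR2 _ _ _ i hs, hH3 _ _ i hs]
  have hf2 : Continuous f2 :=
    (continuous_norm.comp (continuous_subtype_val.comp continuous_snd)).subtype_mk _
  have hg2v : Continuous g2v := by
    rw [continuous_iff_continuousAt]
    intro q0
    by_cases h0 : (q0.2 : ℝ) = 0
    · have e0 : g2v q0 = 0 := by simp only [g2v, dif_pos h0]
      rw [ContinuousAt, e0, tendsto_zero_iff_norm_tendsto_zero]
      have : (fun q => ‖g2v q‖) = fun q => (q.2 : ℝ) := funext hg2n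
      rw [this, ← h0]
      exact (continuous_subtype_val.comp continuous_snd).continuousAt
    · have ho : IsOpen {q : (ℕ → E × H × ℝ) × unitInterval | (q.2 : ℝ) ≠ 0} :=
        isOpen_ne_fun (continuous_subtype_val.comp continuous_snd) continuous_const
      have hc : ContinuousOn g2v {q : (ℕ → E × H × ℝ) × unitInterval | (q.2 : ℝ) ≠ 0} := by
        rw [continuousOn_iff_continuous_domRestrict]
        have e : Set.domRestrict {q : (ℕ → E × H × ℝ) × unitInterval | (q.2 : ℝ) ≠ 0} g2v =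
            fun q => Chart_vec F GH (q.1.1, ⟨(q.1.2 : ℝ), q.2⟩) := by
          funext q
          exact dif_neg q.2
        rw [e]
        refine (Chart_bwd_cont F GR GH).2.comp (Continuous.prodMk ?_ ?_)
        · exact continuous_fst.comp continuous_subtype_val
        · exact (continuous_subtype_val.comp
            (continuous_snd.comp continuous_subtype_val)).subtype_mk _
      exact hc.continuousAt (ho.mem_nhds h0)
  have hleft : ∀ q, (g1 (f1 q, f2 q), g2 (f1 q, f2 q)) = q := by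
    rintro ⟨p, w, hw⟩
    by_cases h : w = 0
    · subst h
      have e1 : f1 (p, ⟨0, hw⟩) = p := by simp only [f1, dif_pos]
      have e2 : ((f2 (p, ⟨0, hw⟩) : unitInterval) : ℝ) = 0 := by simp only [f2, norm_zero]
      have e3 : g1 (p, f2 (p, ⟨0, hw⟩)) = p := by simp only [g1, dif_pos e2]
      have e4 : g2v (p, f2 (p, ⟨0, hw⟩)) = 0 := by simp only [g2v, dif_pos e2]
      rw [e1, e3]
      refine Prod.ext rfl (Subtype.ext ?_)
      exact e4
    · have hn : ‖w‖ ≠ 0 := norm_ne_zero_iff.2 h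
      have e1 : f1 (p, ⟨w, hw⟩) = Chart_fwd F GR GH (p, ⟨w, h⟩) := dif_neg h
      have e2 : ((f2 (p, ⟨w, hw⟩) : unitInterval) : ℝ) = ‖w‖ := rfl
      have hl := Chart_left F GR GH hR1 hH1 p ⟨w, h⟩ hn
      rw [e1]
      refine Prod.ext ?_ (Subtype.ext ?_)
      · exact (dif_neg hn).trans hl.1
      · exact (dif_neg hn).trans hl.2
  have hright : ∀ q, (f1 (g1 q, g2 q), f2 (g1 q, g2 q)) = q := by
    rintro ⟨p, t⟩
    by_cases h : (t : ℝ) = 0
    · have e1 : g1 (p, t) = p := by simp only [g1, dif_pos h]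
      have e2 : g2v (p, t) = 0 := by simp only [g2v, dif_pos h]
      have e3 : f1 (p, g2 (p, t)) = p := dif_pos e2
      rw [e1, e3]
      refine Prod.ext rfl (Subtype.ext ?_)
      exact hg2n (p, t)
    · have e1 : g1 (p, t) = Chart_bwd F GR GH (p, ⟨(t : ℝ), h⟩) := dif_neg h
      have e2 : g2v (p, t) = Chart_vec F GH (p, ⟨(t : ℝ), h⟩) := dif_neg h
      have h0 : 0 < (t : ℝ) := lt_of_le_of_ne t.2.1 (Ne.symm h)
      have hv0 : Chart_vec F GH (p, ⟨(t : ℝ), h⟩) ≠ 0 := by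
        rw [← norm_ne_zero_iff, Chart_vec_norm]
        exact abs_ne_zero.2 h
      have hv0' : g2v (p, t) ≠ 0 := by rw [e2]; exact hv0
      refine Prod.ext ?_ (Subtype.ext (hg2n (p, t)))
      have hr := Chart_right F GR GH hR1 hH1 p ⟨(t : ℝ), h⟩ h0 hv0
      have e4 : f1 (g1 (p, t), g2 (p, t)) =
          Chart_fwd F GR GH (g1 (p, t), ⟨g2v (p, t), hv0'⟩) := dif_neg hv0'
      rw [e4]
      simp only [e1, e2]
      exact hr
  refine ⟨{ toFun := fun q => (f1 q, f2 q)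
            invFun := fun q => (g1 q, g2 q)
            left_inv := hleft
            right_inv := hright
            continuous_toFun := hf1.prodMk hf2
            continuous_invFun := hg1.prodMk (hg2v.subtype_mk _) }, fun q => rfl, fun p => ?_⟩
  refine Prod.ext ?_ (Subtype.ext ?_)
  · exact dif_pos rfl
  · exact norm_zero

end

end Pool.Agent.MP_645085_gt.TOR
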