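import Pool.Agent.MP_645085_gt.TOR.Seq

/-!
# TOR row [TOR-COL]: from a shrinking sequence to a collapse
-/

namespace Pool.Agent.MP_645085_gt.TOR

open Set Filter Topology TopologicalSpace Metric

section CollAux

variable {X P : Type} [NormedAddCommGroup X] [MetricSpace P] [AddCommGroup P] {A : Set X}
  {ε : X → ℝ} {G : ℕ → (MM X P ≃ₜ MM X P)} {O : ℕ → Set X}

lemma Coll_anti (h : ShrinkSeq A ε G O) {n k : ℕ} (hnk : n ≤ k) : O k ⊆ O n := by
  induction k, hnk using Nat.le_induction with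
  | base => exact subset_rfl
  | succ k _ ih => exact (subset_closure.trans (h.closure_subset k)).trans ih

lemma Coll_const (h : ShrinkSeq A ε G O) {n : ℕ} {m : MM X P} (hn : (G n m).1 ∉ O n) {k : ℕ}
    (hnk : n ≤ k) : G k m = G n m := by
  induction k, hnk using Nat.le_induction with
  | base => rfl
  | succ k hk ih =>
    rw [h.stable k m, ih]
    rw [ih]
    exact fun hc => hn (Coll_anti h hk hc)

lemma Coll_back (h : ShrinkSeq A ε G O) {n k : ℕ} (hnk : n ≤ k) {m : MM X P}
    (hk : (G k m).1 ∉ O n) : (G n m).1 ∉ O n ∧ G k m = G n m := by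
  induction k, hnk using Nat.le_induction with
  | base => exact ⟨hk, rfl⟩
  | succ k hnk' ih =>
    have key : G k m = G (k + 1) m := by
      set y := G (k + 1) m with hy
      set m' := (G k).symm y with hm'
      have h1 : G k m' = y := by rw [hm']; exact (G k).apply_symm_apply y
      have h2 : (G k m').1 ∉ O k := by
        rw [h1]
        exact fun hc => hk (Coll_anti h hnk' hc)
      have h3 : G (k + 1) m' = y := by rw [h.stable k m' h2, h1]
      have h4 : m' = m := (G (k + 1)).injective (by rw [h3, hy])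
      rw [← h4, h1]
    rw [← key] at hk
    obtain ⟨h5, h6⟩ := ih hk
    exact ⟨h5, by rw [← key, h6]⟩

lemma Coll_move (h : ShrinkSeq A ε G O) (hε : Ctl ε) (n : ℕ) (m : MM X P) :
    ‖(G n m).1 - m.1‖ ≤ ε m.1 / 2 * (1 - (1 / 2) ^ n) := by
  induction n with
  | zero => rw [h.zero m]; simp
  | succ n ih =>
    have he := hε.pos m.1
    have h1 : ε (G n m).1 ≤ ε m.1 + ‖(G n m).1 - m.1‖ := by
      have := hε.lip (G n m).1 m.1
      rw [dist_eq_norm] at this
      linarith [le_abs_self (ε (G n m).1 - ε m.1)]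
    have hp : (0 : ℝ) < (1 / 2) ^ n := by positivity
    have h2 : ε (G n m).1 ≤ 2 * ε m.1 := by
      have : ε m.1 / 2 * (1 - (1 / 2) ^ n) ≤ ε m.1 := by nlinarith
      linarith
    have h3 : ‖(G (n + 1) m).1 - (G n m).1‖ ≤ (1 / 2) ^ (n + 3) * (2 * ε m.1) :=
      (h.move n m).trans (mul_le_mul_of_nonneg_left h2 (by positivity))
    have h4 : ‖(G (n + 1) m).1 - m.1‖ ≤ ‖(G (n + 1) m).1 - (G n m).1‖ + ‖(G n m).1 - m.1‖ := by
      have := norm_add_le ((G (n + 1) m).1 - (G n m).1) ((G n m).1 - m.1)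
      simpa using this
    have h5 : (1 / 2 : ℝ) ^ (n + 3) * (2 * ε m.1) + ε m.1 / 2 * (1 - (1 / 2) ^ n)
        = ε m.1 / 2 * (1 - (1 / 2) ^ (n + 1)) := by
      rw [pow_succ (1 / 2 : ℝ) n, pow_add (1 / 2 : ℝ) n 3]
      ring
    linarith

lemma Coll_step (h : ShrinkSeq A ε G O) (hε : Ctl ε) (n : ℕ) (m : MM X P) :
    dist (G n m).1 (G (n + 1) m).1 ≤ (1 / 8 : ℝ) * (1 / 2) ^ n := by
  rw [dist_comm, dist_eq_norm]
  refine (h.move n m).trans ?_
  have h1 := hε.le_one (G n m).1
  have h2 : (0 : ℝ) < (1 / 2) ^ (n + 3) := by positivity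
  calc (1 / 2 : ℝ) ^ (n + 3) * ε (G n m).1 ≤ (1 / 2) ^ (n + 3) * 1 :=
        mul_le_mul_of_nonneg_left h1 h2.le
    _ = (1 / 8 : ℝ) * (1 / 2) ^ n := by rw [pow_add]; norm_num; ring

/-- Existence of the limit map together with the rate. -/
lemma Coll_lim [CompleteSpace X] (h : ShrinkSeq A ε G O) (hε : Ctl ε) :
    ∃ f : MM X P → X, (∀ m, Tendsto (fun n => (G n m).1) atTop (𝓝 (f m))) ∧
      ∀ n m, dist (G n m).1 (f m) ≤ (1 / 4 : ℝ) * (1 / 2) ^ n := by
  have hc : ∀ m : MM X P, CauchySeq fun n => (G n m).1 := fun m =>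
    cauchySeq_of_le_geometric (1 / 2 : ℝ) (1 / 8 : ℝ) (by norm_num)
      (fun n => Coll_step h hε n m)
  have hl : ∀ m : MM X P, ∃ x, Tendsto (fun n => (G n m).1) atTop (𝓝 x) := fun m =>
    cauchySeq_tendsto_of_complete (hc m)
  choose f hf using hl
  refine ⟨f, hf, fun n m => ?_⟩
  have := dist_le_of_le_geometric_of_tendsto (1 / 2 : ℝ) (1 / 8 : ℝ) (by norm_num)
    (fun n => Coll_step h hε n m) (hf m) n
  refine this.trans (le_of_eq ?_)
  norm_num
  ring

/-- The exceptional set. -/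
lemma Coll_mem (hA : IsClosed A) (hne : A.Nonempty) (h : ShrinkSeq A ε G O) {f : MM X P → X}
    (hf : ∀ m, Tendsto (fun n => (G n m).1) atTop (𝓝 (f m))) {m : MM X P}
    (hm : ∀ n, (G n m).1 ∈ O n) : m.1 ∈ A ∧ m.2.1 = 0 ∧ m.2.2 = 1 := by
  have hpow : Tendsto (fun n : ℕ => (1 / 2 : ℝ) ^ n) atTop (𝓝 0) :=
    tendsto_pow_atTop_nhds_zero_of_lt_one (by norm_num) (by norm_num)
  have h1 : Tendsto (fun n => (((G n m).1, 0, 1) : MM X P)) atTop (𝓝 m) := by
    rw [tendsto_iff_dist_tendsto_zero]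
    refine squeeze_zero (fun _ => dist_nonneg) (fun n => ?_) hpow
    rw [dist_comm]
    exact (h.small n m (hm (n + 1))).le
  have h2 : Tendsto (fun n => (((G n m).1, 0, 1) : MM X P)) atTop (𝓝 (f m, 0, 1)) :=
    (hf m).prodMk_nhds tendsto_const_nhds
  have h3 : m = (f m, 0, 1) := tendsto_nhds_unique h1 h2
  have h4 : infDist (f m) A = 0 := by
    have h5 : Tendsto (fun n => infDist (G (n + 1) m).1 A) atTop (𝓝 (infDist (f m) A)) :=
      ((continuous_infDist_pt A).tendsto _).comp ((hf m).comp (tendsto_add_atTop_nat 1))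
    have h6 : Tendsto (fun n => infDist (G (n + 1) m).1 A) atTop (𝓝 0) :=
      squeeze_zero (fun _ => infDist_nonneg) (fun n => (h.infDist_lt n _ (hm (n + 1))).le) hpow
    exact tendsto_nhds_unique h5 h6
  have h5 : f m ∈ A := (hA.mem_iff_infDist_zero hne).2 h4
  rw [h3]
  exact ⟨h5, rfl, rfl⟩

lemma Coll_exists_not_mem (hA : IsClosed A) (hne : A.Nonempty) (h : ShrinkSeq A ε G O) {x : X}
    (hx : x ∉ A) : ∃ n, x ∉ O n := by
  by_contra hcon
  push Not at hcon
  have hpow : Tendsto (fun n : ℕ => (1 / 2 : ℝ) ^ n) atTop (𝓝 0) :=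
    tendsto_pow_atTop_nhds_zero_of_lt_one (by norm_num) (by norm_num)
  have h4 : infDist x A ≤ 0 :=
    ge_of_tendsto' hpow fun n => (h.infDist_lt n _ (hcon (n + 1))).le
  exact hx ((hA.mem_iff_infDist_zero hne).2 (le_antisymm h4 infDist_nonneg))

end CollAux

/-- [TOR-COL] Let `f_n m = (G n m).1`. For `k ≥ n`: `f_k m ∈ O n ↔ f_{k+1} m ∈ O n` (if `f_k m ∉ O n` then
`∉ O k`, so `G (k+1) m = G k m` by `stable`; conversely if `y' = G (k+1) m` has `y'.1 ∉ O n`, then
`m' = (G k).symm y'` has `(G k m').1 ∉ O k`, so `G (k+1) m' = y' = G (k+1) m`, `m' = m`).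
By `move` (`ε` is a control) `f_n → f` uniformly, `‖f m - m.1‖ ≤ ε m.1`, `f (a, 0, 1) = a`.
If `f_n m ∈ O n` for all `n` then, by `small` and `infDist_lt`, `m = (f m, 0, 1)` with `f m ∈ A`. Otherwise
`G k m` is constant for `k ≥ n` once `f_n m ∉ O n`; this holds locally uniformly on the complement of
`A × {(0,1)}` (`f_n m ∉ O n` implies `f_n m ∉ closure O (n+1)`, so `f_n m' ∉ O (n+1)` for `m'` near `m`, hence
`f_{n+1} m' ∉ O (n+1)`); `Γ m` is this constant value, `f m = (Γ m).1 ∉ A`. The inverse of `Γ` at `y` with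
`y.1 ∉ A`: `y.1 ∉ O n` for some `n` (`infDist_lt`), and then `(G k).symm y = (G n).symm y` for `k ≥ n` (by
`stable`), locally uniformly in `y`.
`sep`: if `f m ∈ O (n+1)` then `f_{n+1} m ∈ O (n+1)` (else `f m = f_{n+1} m`), so by `small`
`dist m (f_n m, 0, 1) < (1/2)^n` and `‖f_n m - f m‖ ≤ (1/2)^n`. -/
theorem collapse_of_seq {X P : Type} [NormedAddCommGroup X] [CompleteSpace X] [MetricSpace P]
    [AddCommGroup P] {A : Set X} (hA : IsClosed A) (hne : A.Nonempty) {ε : X → ℝ} (hε : Ctl ε)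
    {G : ℕ → (MM X P ≃ₜ MM X P)} {O : ℕ → Set X} (h : ShrinkSeq A ε G O) :
    ∃ (f : MM X P → X) (Γ : OpenPartialHomeomorph (MM X P) (MM X P)), Collapse A ε f Γ := by
  classical
  obtain ⟨f, hf, hrate⟩ := Coll_lim h hε
  -- the exceptional set
  set S : Set (MM X P) := {m | ¬ (m.1 ∈ A ∧ m.2.1 = 0 ∧ m.2.2 = 1)} with hS
  set T : Set (MM X P) := {m | m.1 ∉ A} with hT
  have hex : ∀ m ∈ S, ∃ n, (G n m).1 ∉ O n := by
    intro m hm
    by_contra hcon
    push Not at hcon
    exact hm (Coll_mem hA hne h hf hcon)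
  have hexT : ∀ y ∈ T, ∃ n, y.1 ∉ O n := fun y hy => Coll_exists_not_mem hA hne h hy
  have hpt : ∀ m : MM X P, m ∉ S → ∃ a ∈ A, m = (a, 0, 1) := by
    intro m hm
    simp only [hS, Set.mem_ofPred_eq, not_not] at hm
    obtain ⟨h1, h2, h3⟩ := hm
    exact ⟨m.1, h1, by ext <;> simp [h2, h3]⟩
  have hSn : ∀ m : MM X P, ∀ n, (G n m).1 ∉ O n → m ∈ S := by
    intro m n hn
    by_contra hcon
    obtain ⟨a, ha, rfl⟩ := hpt m hcon
    rw [h.fix n a ha] at hn
    exact hn (h.subset n ha)
  -- the maps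
  set Γ₀ : MM X P → MM X P := fun m =>
    if hm : ∃ n, (G n m).1 ∉ O n then G hm.choose m else m with hΓ₀
  set Δ₀ : MM X P → MM X P := fun y =>
    if hy : ∃ n, y.1 ∉ O n then (G hy.choose).symm y else y with hΔ₀
  have hΓ : ∀ m n, (G n m).1 ∉ O n → Γ₀ m = G n m := by
    intro m n hn
    have hm : ∃ n, (G n m).1 ∉ O n := ⟨n, hn⟩
    have h1 : Γ₀ m = G hm.choose m := by simp only [hΓ₀]; rw [dif_pos hm]
    rw [h1, ← Coll_const h hm.choose_spec (le_max_left _ n), Coll_const h hn (le_max_right _ _)]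
  have hsymm : ∀ (y : MM X P) n k, n ≤ k → y.1 ∉ O n → (G k).symm y = (G n).symm y := by
    intro y n k hnk hn
    have h1 : (G n ((G n).symm y)).1 ∉ O n := by rw [(G n).apply_symm_apply]; exact hn
    have h2 := Coll_const h h1 hnk
    rw [(G n).apply_symm_apply] at h2
    rw [Homeomorph.symm_apply_eq]
    exact h2.symm
  have hΔ : ∀ (y : MM X P) n, y.1 ∉ O n → Δ₀ y = (G n).symm y := by
    intro y n hn
    have hy : ∃ n, y.1 ∉ O n := ⟨n, hn⟩
    have h1 : Δ₀ y = (G hy.choose).symm y := by simp only [hΔ₀]; rw [dif_pos hy]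
    rw [h1, ← hsymm y _ _ (le_max_left hy.choose n) hy.choose_spec,
      hsymm y _ _ (le_max_right hy.choose n) hn]
  have hclos : ∀ n, ∀ x, x ∉ O n → x ∈ (closure (O (n + 1)))ᶜ := fun n x hx hc =>
    hx (h.closure_subset n hc)
  have hfst : ∀ n, Continuous fun m : MM X P => (G n m).1 := fun n =>
    continuous_fst.comp (G n).continuous
  have hΓT : ∀ m ∈ S, Γ₀ m ∈ T := by
    intro m hm
    obtain ⟨n, hn⟩ := hex m hm
    rw [hΓ m n hn]
    exact fun hc => hn (h.subset n hc)
  have hfΓ : ∀ m ∈ S, f m = (Γ₀ m).1 := by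
    intro m hm
    obtain ⟨n, hn⟩ := hex m hm
    rw [hΓ m n hn]
    refine tendsto_nhds_unique (hf m) (tendsto_const_nhds.congr' ?_)
    filter_upwards [eventually_ge_atTop n] with k hk
    rw [Coll_const h hn hk]
  let Γ : OpenPartialHomeomorph (MM X P) (MM X P) :=
    { toFun := Γ₀
      invFun := Δ₀
      source := S
      target := T
      map_source' := hΓT
      map_target' := by
        intro y hy
        obtain ⟨n, hn⟩ := hexT y hy
        rw [hΔ y n hn]
        exact hSn _ n (by rw [(G n).apply_symm_apply]; exact hn)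
      left_inv' := by
        intro m hm
        obtain ⟨n, hn⟩ := hex m hm
        rw [hΓ m n hn, hΔ _ n hn, (G n).symm_apply_apply]
      right_inv' := by
        intro y hy
        obtain ⟨n, hn⟩ := hexT y hy
        have h1 : (G n ((G n).symm y)).1 ∉ O n := by rw [(G n).apply_symm_apply]; exact hn
        rw [hΔ y n hn, hΓ _ n h1, (G n).apply_symm_apply]
      open_source := by
        have h1 : IsClosed {m : MM X P | m.1 ∈ A ∧ m.2.1 = 0 ∧ m.2.2 = 1} := by
          refine (hA.preimage continuous_fst).inter (IsClosed.inter ?_ ?_)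
          · exact isClosed_eq (continuous_fst.comp continuous_snd) continuous_const
          · exact isClosed_eq (continuous_snd.comp continuous_snd) continuous_const
        exact h1.isOpen_compl
      open_target := (hA.preimage continuous_fst).isOpen_compl
      continuousOn_toFun := by
        intro m hm
        obtain ⟨n, hn⟩ := hex m hm
        have h1 : (G (n + 1) m).1 ∉ O n := by rw [Coll_const h hn (Nat.le_succ n)]; exact hn
        have h2 : ∀ᶠ m' in 𝓝 m, (G (n + 1) m').1 ∈ (closure (O (n + 1)))ᶜ :=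
          (hfst (n + 1)).continuousAt.eventually
            (isClosed_closure.isOpen_compl.mem_nhds (hclos n _ h1))
        have h3 : Γ₀ =ᶠ[𝓝 m] G (n + 1) := by
          filter_upwards [h2] with m' hm'
          exact hΓ m' (n + 1) fun hc => hm' (subset_closure hc)
        exact ((G (n + 1)).continuous.continuousAt.congr h3.symm).continuousWithinAt
      continuousOn_invFun := by
        intro y hy
        obtain ⟨n, hn⟩ := hexT y hy
        have h2 : ∀ᶠ y' in 𝓝 y, y'.1 ∈ (closure (O (n + 1)))ᶜ :=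
          continuous_fst.continuousAt.eventually
            (isClosed_closure.isOpen_compl.mem_nhds (hclos n _ hn))
        have h3 : Δ₀ =ᶠ[𝓝 y] (G (n + 1)).symm := by
          filter_upwards [h2] with y' hy'
          exact hΔ y' (n + 1) fun hc => hy' (subset_closure hc)
        exact ((G (n + 1)).symm.continuous.continuousAt.congr h3.symm).continuousWithinAt }
  have hfA : ∀ a ∈ A, f (a, 0, 1) = a := by
    intro a ha
    refine tendsto_nhds_unique (hf (a, 0, 1)) (tendsto_const_nhds.congr fun n => ?_)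
    rw [h.fix n a ha]
  refine ⟨f, Γ, ?_⟩
  refine
    { source := rfl
      target := rfl
      cont := ?_
      f_eq := hfΓ
      f_A := hfA
      near := ?_
      sep := ?_ }
  · have hu : TendstoUniformly (fun n m => (G n m).1) f atTop := by
      rw [Metric.tendstoUniformly_iff]
      intro e he
      have hpow : Tendsto (fun n : ℕ => (1 / 4 : ℝ) * (1 / 2 : ℝ) ^ n) atTop (𝓝 0) := by
        simpa using (tendsto_pow_atTop_nhds_zero_of_lt_one (by norm_num : (0 : ℝ) ≤ 1 / 2)
          (by norm_num)).const_mul (1 / 4 : ℝ)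
      filter_upwards [hpow.eventually (gt_mem_nhds he)] with n hn m
      rw [dist_comm]
      exact (hrate n m).trans_lt hn
    exact hu.continuous (Eventually.of_forall hfst).frequently
  · intro m
    have h1 : Tendsto (fun n => ‖(G n m).1 - m.1‖) atTop (𝓝 ‖f m - m.1‖) :=
      ((hf m).sub_const _).norm
    refine le_of_tendsto' h1 fun n => (Coll_move h hε n m).trans ?_
    have he := hε.pos m.1
    have hp : (0 : ℝ) < (1 / 2) ^ n := by positivity
    nlinarith
  · intro a ha δ hδ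
    obtain ⟨n, hn⟩ : ∃ n : ℕ, (1 / 2 : ℝ) ^ n < δ / 4 :=
      exists_pow_lt_of_lt_one (by positivity) (by norm_num)
    obtain ⟨ρ, hρ, hball⟩ := Metric.isOpen_iff.1 (h.isOpen (n + 1)) a (h.subset (n + 1) ha)
    refine ⟨min ρ (δ / 4), lt_min hρ (by positivity), fun m hm => ?_⟩
    have hm1 : ‖f m - a‖ < ρ := hm.trans_le (min_le_left _ _)
    have hm2 : ‖f m - a‖ < δ / 4 := hm.trans_le (min_le_right _ _)
    have hfO : f m ∈ O (n + 1) := hball (by rw [mem_ball, dist_eq_norm]; exact hm1)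
    have hO : (G (n + 1) m).1 ∈ O (n + 1) := by
      by_contra hcon
      have h1 : f m = (G (n + 1) m).1 := by
        refine tendsto_nhds_unique (hf m) (tendsto_const_nhds.congr' ?_)
        filter_upwards [eventually_ge_atTop (n + 1)] with k hk
        rw [Coll_const h hcon hk]
      exact hcon (h1 ▸ hfO)
    have h1 := h.small n m hO
    have h2 : dist (((G n m).1, 0, 1) : MM X P) (a, 0, 1) = dist (G n m).1 a := by
      rw [Prod.dist_eq]
      simp
    have h3 : dist (G n m).1 a ≤ dist (G n m).1 (f m) + dist (f m) a := dist_triangle _ _ _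
    have h4 := hrate n m
    have h5 : dist (f m) a < δ / 4 := by rw [dist_eq_norm]; exact hm2
    have hp : (0 : ℝ) < (1 / 2) ^ n := by positivity
    calc dist m (a, 0, 1) ≤ dist m ((G n m).1, 0, 1) + dist (((G n m).1, 0, 1) : MM X P) (a, 0, 1) :=
          dist_triangle _ _ _
      _ < δ := by rw [h2]; linarith

variable {X P H : Type} [NormedAddCommGroup X] [Module ℝ X] [FN X] [MetricSpace P]
  [AddCommGroup P] [Module ℝ P] [IsTopologicalAddGroup P] [ContinuousSMul ℝ P]
  [NormedAddCommGroup H] [NormedSpace ℝ H]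

theorem exists_collapse [CompleteSpace X] (data : Data X P H) (A : Set X) (hA : IsClosed A)
    (hne : A.Nonempty) (hZ : ZSet A) (ε : X → ℝ) (hε : Ctl ε) :
    ∃ (f : MM X P → X) (Γ : OpenPartialHomeomorph (MM X P) (MM X P)), Collapse A ε f Γ := by
  obtain ⟨G, O, h⟩ := exists_shrinkSeq (P := P) data A hA hne hZ ε hε
  exact collapse_of_seq hA hne hε h

end Pool.Agent.MP_645085_gt.TOR
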