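import Pool.Agent.MP_645085_gt.TOR.Defs

/-!
# TOR row [TOR-CRV]: curves going away from a subspace
-/

namespace Pool.Agent.MP_645085_gt.TOR

open Set Filter Topology TopologicalSpace Metric

/-- distance to a subspace grows along rays -/
theorem Crv_mono {X : Type} [NormedAddCommGroup X] [Module ℝ X] [FN X] (L : Submodule ℝ X)
    (x : X) {s t : ℝ} (hs : 0 ≤ s) (hst : s ≤ t) :
    infDist (s • x) (L : Set X) ≤ infDist (t • x) (L : Set X) := by
  have hne : (L : Set X).Nonempty := ⟨0, L.zero_mem⟩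
  rcases eq_or_lt_of_le (hs.trans hst) with h | h
  · have : s = 0 := le_antisymm (by linarith) hs
    rw [this, ← h]
  · rw [Metric.le_infDist hne]
    intro y hy
    refine (Metric.infDist_le_dist_of_mem (L.smul_mem (s / t) hy)).trans ?_
    have h2 : s • x - (s / t) • y = (s / t) • (t • x - y) := by
      rw [smul_sub, smul_smul, div_mul_cancel₀ _ h.ne']
    rw [dist_eq_norm, dist_eq_norm, h2]
    refine FN.smul_le _ _ ?_
    rw [abs_of_nonneg (by positivity)]
    exact (div_le_one h).2 hst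

/-- distance to a subspace is invariant under translations by elements of it -/
theorem Crv_trans {X : Type} [NormedAddCommGroup X] [Module ℝ X] (L : Submodule ℝ X)
    (x l y : X) (hl : l ∈ L) (hy : y ∈ L) :
    infDist x (L : Set X) ≤ ‖x + l - y‖ := by
  have h := Metric.infDist_le_dist_of_mem (x := x) (L.sub_mem hy hl)
  rw [dist_eq_norm] at h
  rwa [show x - (y - l) = x + l - y by abel] at h

/-- [TOR-CRV] A curve going away from a subspace at linear speed. Put `η = (1/2)^n` and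
`φ s = inf_{y ∈ L} ‖s • x - y‖` (compare `FNorm.dF`, `dF_smul_mono`, `continuous_dF` in
`MP_645085_gt/Dist.lean`): continuous and nondecreasing on `s ≥ 0`, `φ 0 = 0`, `φ 1 ≥ η`. Choose
`s_k ∈ [0,1]` with `φ s_k = (1/2)^k * η` (intermediate value theorem; then `s_{k+1} < s_k`), and
`r_k ∈ s_k • x + L` with `‖r_k‖ ≤ 2 * (1/2)^k * η`. With the tent functions
`h_k c = cl01 (2^(k+1) * c - 1) - cl01 (2^k * c - 1)` (support in `(2^{-k-1}, 2^{-k+1})`, sum `1` on `(0,1]`)
put `v c = ∑ᶠ k, h_k c • r_k` for `c ∈ (0, 1]`, `v c = 0` for `c ≤ 0`, `v c = v 1 = r_0` for `c ≥ 1`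
(e.g. `v` composed with `cl01`). For `2^{-k-1} ≤ c ≤ 2^{-k}`: `v c = (1 - τ) • r_{k+1} + τ • r_k`,
`‖v c‖ ≤ 3 * 2^{-k} * η ≤ 6 * c * η`, and `v c ∈ S • x + L` with `S ≥ s_{k+1}`, so its distance to `L` is
`≥ φ s_{k+1} = 2^{-k-1} * η ≥ c * η / 2`. -/
theorem exists_curve {X : Type} [NormedAddCommGroup X] [Module ℝ X] [FN X] (L : Submodule ℝ X)
    (n : ℕ) (x : X) (hx : ∀ y ∈ L, (1 / 2 : ℝ) ^ n ≤ ‖x - y‖) :
    ∃ v : ℝ → X, Continuous v ∧ v 0 = 0 ∧ (∀ c, v c ∈ L ⊔ Submodule.span ℝ {x}) ∧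
      (∀ c ∈ Icc (0 : ℝ) 1, ‖v c‖ ≤ 6 * c * (1 / 2) ^ n) ∧
      ∀ c ∈ Icc (0 : ℝ) 1, ∀ y ∈ L, c * (1 / 2) ^ n / 2 ≤ ‖v c - y‖ := by
  classical
  set η : ℝ := (1 / 2 : ℝ) ^ n with hη
  have hη0 : 0 < η := by positivity
  have hne : (L : Set X).Nonempty := ⟨0, L.zero_mem⟩
  let φ : ℝ → ℝ := fun s => infDist (s • x) (L : Set X)
  have hφc : Continuous φ := (continuous_infDist_pt _).comp (by fun_prop)
  have hφ0 : φ 0 = 0 := by
    simp only [φ, zero_smul]
    exact Metric.infDist_zero_of_mem L.zero_mem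
  have hφ1 : η ≤ φ 1 := by
    simp only [φ, one_smul]
    rw [Metric.le_infDist hne]
    intro y hy
    rw [dist_eq_norm]
    exact hx y hy
  have hpk : ∀ k : ℕ, 0 < (1 / 2 : ℝ) ^ k := fun k => by positivity
  -- the points `s k`
  have hex : ∀ k : ℕ, ∃ s ∈ Icc (0 : ℝ) 1, φ s = (1 / 2) ^ k * η := by
    intro k
    have h1 : (1 / 2 : ℝ) ^ k ≤ 1 := pow_le_one₀ (by norm_num) (by norm_num)
    have h2 : (1 / 2 : ℝ) ^ k * η ∈ Icc (φ 0) (φ 1) := by
      rw [hφ0]
      exact ⟨by positivity, le_trans (by nlinarith) hφ1⟩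
    obtain ⟨s, hs, hs'⟩ := intermediate_value_Icc (zero_le_one' ℝ) hφc.continuousOn h2
    exact ⟨s, hs, hs'⟩
  choose s hs hφs using hex
  have hsanti : ∀ k, s (k + 1) ≤ s k := by
    intro k
    by_contra hcon
    push Not at hcon
    have h1 := Crv_mono L x (hs k).1 hcon.le
    have h2 := hφs k
    have h3 := hφs (k + 1)
    simp only [φ] at h2 h3
    rw [h2, h3, pow_succ] at h1
    have := hpk k
    nlinarith [mul_pos this hη0]
  -- the points `r k`
  have hexr : ∀ k : ℕ, ∃ l ∈ L, ‖s k • x + l‖ ≤ 2 * (1 / 2) ^ k * η := by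
    intro k
    have h1 : infDist (s k • x) (L : Set X) < 2 * (1 / 2) ^ k * η := by
      have h2 := hφs k
      simp only [φ] at h2
      rw [h2]
      have := mul_pos (hpk k) hη0
      linarith
    obtain ⟨y, hy, hy'⟩ := (Metric.infDist_lt_iff hne).1 h1
    refine ⟨-y, L.neg_mem hy, ?_⟩
    rw [← sub_eq_add_neg, ← dist_eq_norm]
    exact hy'.le
  choose l hl hlr using hexr
  let r : ℕ → X := fun k => s k • x + l k
  have hr : ∀ k, ‖r k‖ ≤ 2 * (1 / 2) ^ k * η := hlr
  have hrmem : ∀ k, r k ∈ L ⊔ Submodule.span ℝ {x} := by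
    intro k
    refine Submodule.add_mem _ ?_ ?_
    · exact Submodule.mem_sup_right (Submodule.smul_mem _ _ (Submodule.mem_span_singleton_self x))
    · exact Submodule.mem_sup_left (hl k)
  -- partial sums
  let g : ℕ → ℝ → ℝ := fun k c => cl01 (2 ^ (k + 1) * c - 1)
  have hgc : ∀ k, Continuous (g k) := fun k => continuous_cl01.comp (by fun_prop)
  let T : ℕ → ℝ → X := fun N => Nat.rec (fun _ => r 0)
    (fun k Tk c => Tk c + (g k c - 1) • (r k - r (k + 1))) N
  have hT0 : ∀ c, T 0 c = r 0 := fun c => rfl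
  have hTs : ∀ k c, T (k + 1) c = T k c + (g k c - 1) • (r k - r (k + 1)) := fun k c => rfl
  have hTc : ∀ N, Continuous (T N) := by
    intro N
    induction N with
    | zero => exact continuous_const
    | succ k ih =>
      have : T (k + 1) = fun c => T k c + (g k c - 1) • (r k - r (k + 1)) := rfl
      rw [this]
      exact ih.add (((hgc k).sub continuous_const).smul continuous_const)
  have hTmem : ∀ N c, T N c ∈ L ⊔ Submodule.span ℝ {x} := by
    intro N c
    induction N with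
    | zero => exact hrmem 0
    | succ k ih =>
      rw [hTs]
      exact Submodule.add_mem _ ih (Submodule.smul_mem _ _ (Submodule.sub_mem _ (hrmem k) (hrmem _)))
  -- `T N c = r N` for `c ≤ 2^{-N}`
  have hg0 : ∀ k c, c ≤ (1 / 2) ^ (k + 1) → g k c = 0 := by
    intro k c hc
    refine cl01_of_nonpos ?_
    have h1 : (2 : ℝ) ^ (k + 1) * (1 / 2) ^ (k + 1) = 1 := by
      rw [← mul_pow]; norm_num
    have h2 : (2 : ℝ) ^ (k + 1) * c ≤ 2 ^ (k + 1) * (1 / 2) ^ (k + 1) :=
      mul_le_mul_of_nonneg_left hc (by positivity)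
    linarith
  have hg1 : ∀ k c, (1 / 2) ^ k ≤ c → g k c = 1 := by
    intro k c hc
    refine cl01_of_one_le ?_
    have h1 : (2 : ℝ) ^ (k + 1) * (1 / 2) ^ k = 2 := by
      rw [pow_succ, mul_right_comm, ← mul_pow]; norm_num
    have h2 : (2 : ℝ) ^ (k + 1) * (1 / 2) ^ k ≤ 2 ^ (k + 1) * c :=
      mul_le_mul_of_nonneg_left hc (by positivity)
    linarith
  have hTr : ∀ N c, c ≤ (1 / 2) ^ N → T N c = r N := by
    intro N
    induction N with
    | zero => intro c _; rfl
    | succ k ih =>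
      intro c hc
      have h1 : c ≤ (1 / 2) ^ k := hc.trans (by rw [pow_succ]; have := hpk k; linarith)
      rw [hTs, ih c h1, hg0 k c hc]
      module
  -- `T` is stationary
  have hTstep : ∀ N c, (1 / 2) ^ N ≤ c → T (N + 1) c = T N c := by
    intro N c hc
    rw [hTs, hg1 N c hc]
    simp
  have hTstat : ∀ N M c, N ≤ M → (1 / 2) ^ N ≤ c → T M c = T N c := by
    intro N M c hNM hc
    induction M, hNM using Nat.le_induction with
    | base => rfl
    | succ M hNM ih =>
      rw [hTstep M c, ih]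
      refine le_trans ?_ hc
      exact pow_le_pow_of_le_one (by norm_num) (by norm_num) hNM
  -- estimate of the differences
  have hdiff : ∀ N M c, N ≤ M → ‖T M c - T N c‖ ≤ 6 * (1 / 2) ^ N * η - 6 * (1 / 2) ^ M * η := by
    intro N M c hNM
    induction M, hNM using Nat.le_induction with
    | base => simp
    | succ M hNM ih =>
      have h1 : T (M + 1) c - T N c = (T M c - T N c) + (g M c - 1) • (r M - r (M + 1)) := by
        rw [hTs]; abel
      have h2 : ‖(g M c - 1) • (r M - r (M + 1))‖ ≤ ‖r M - r (M + 1)‖ := by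
        refine FN.smul_le _ _ ?_
        have h3 : 0 ≤ g M c := cl01_nonneg _
        have h4 : g M c ≤ 1 := cl01_le_one _
        rw [abs_le]; constructor <;> linarith
      have h3 : ‖r M - r (M + 1)‖ ≤ 2 * (1 / 2) ^ M * η + 2 * (1 / 2) ^ (M + 1) * η :=
        (norm_sub_le _ _).trans (add_le_add (hr M) (hr (M + 1)))
      rw [h1]
      refine (norm_add_le _ _).trans ?_
      have h4 : (1 / 2 : ℝ) ^ (M + 1) = (1 / 2) ^ M * (1 / 2) := pow_succ _ _
      rw [h4] at h3 ⊢
      linarith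
  -- the curve
  have hMex : ∀ c : ℝ, 0 < c → ∃ M : ℕ, (1 / 2 : ℝ) ^ M ≤ c := by
    intro c hc
    obtain ⟨M, hM⟩ := exists_pow_lt_of_lt_one hc (by norm_num : (1 / 2 : ℝ) < 1)
    exact ⟨M, hM.le⟩
  let v : ℝ → X := fun c => if h : 0 < c then T (hMex c h).choose c else 0
  have hv : ∀ c N, 0 < c → (1 / 2) ^ N ≤ c → v c = T N c := by
    intro c N hc hN
    have h1 : v c = T (hMex c hc).choose c := dif_pos hc
    have h2 := (hMex c hc).choose_spec
    rw [h1]
    rcases le_total N (hMex c hc).choose with h | h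
    · exact hTstat _ _ _ h hN
    · exact (hTstat _ _ _ h h2).symm
  have hv0 : ∀ c, c ≤ 0 → v c = 0 := fun c hc => dif_neg (not_lt.2 hc)
  have hunif : ∀ N c, ‖v c - T N c‖ ≤ 6 * (1 / 2) ^ N * η := by
    intro N c
    by_cases hc : 0 < c
    · obtain ⟨M, hM⟩ := hMex c hc
      have h1 : v c = T (max M N) c := hv c _ hc
        ((pow_le_pow_of_le_one (by norm_num) (by norm_num) (le_max_left _ _)).trans hM)
      rw [h1]
      refine (hdiff N (max M N) c (le_max_right _ _)).trans ?_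
      have := mul_pos (hpk (max M N)) hη0
      linarith
    · push Not at hc
      rw [hv0 c hc, hTr N c (hc.trans (hpk N).le), zero_sub, norm_neg]
      have := hr N
      have := mul_pos (hpk N) hη0
      linarith
  have hvc : Continuous v := by
    have hlim : TendstoUniformly T v atTop := by
      rw [Metric.tendstoUniformly_iff]
      intro ε hε
      have h1 : Tendsto (fun N : ℕ => 6 * (1 / 2 : ℝ) ^ N * η) atTop (𝓝 (6 * 0 * η)) :=
        ((tendsto_pow_atTop_nhds_zero_of_lt_one (by norm_num) (by norm_num)).const_mul 6).mul_const η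
      have h2 : ∀ᶠ N : ℕ in atTop, 6 * (1 / 2 : ℝ) ^ N * η < ε :=
        h1.eventually (gt_mem_nhds (by simpa using hε))
      filter_upwards [h2] with N hN c
      rw [dist_eq_norm]
      exact (hunif N c).trans_lt hN
    exact hlim.continuous (Frequently.of_forall hTc)
  -- the formula on dyadic intervals
  have hform : ∀ c, 0 < c → c ≤ 1 → ∃ k : ℕ, ∃ τ ∈ Icc (0 : ℝ) 1, (1 / 2) ^ (k + 1) < c ∧
      c ≤ (1 / 2) ^ k ∧ v c = τ • r k + (1 - τ) • r (k + 1) := by
    intro c hc hc1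
    obtain ⟨k, hk1, hk2⟩ := exists_nat_pow_near_of_lt_one hc hc1 (by norm_num : (0 : ℝ) < 1 / 2)
      (by norm_num)
    refine ⟨k, g k c, ⟨cl01_nonneg _, cl01_le_one _⟩, hk1, hk2, ?_⟩
    rw [hv c (k + 1) hc hk1.le, hTs, hTr k c hk2]
    module
  refine ⟨v, hvc, hv0 0 le_rfl, ?_, ?_, ?_⟩
  · intro c
    by_cases hc : 0 < c
    · obtain ⟨M, hM⟩ := hMex c hc
      rw [hv c M hc hM]
      exact hTmem M c
    · rw [hv0 c (not_lt.1 hc)]
      exact Submodule.zero_mem _
  · rintro c ⟨hc0, hc1⟩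
    rcases eq_or_lt_of_le hc0 with h | h
    · rw [← h, hv0 0 le_rfl]; simp
    · obtain ⟨k, τ, ⟨hτ0, hτ1⟩, hk1, hk2, hvc'⟩ := hform c h hc1
      rw [hvc']
      refine (norm_add_le _ _).trans ?_
      have h1 : ‖τ • r k‖ ≤ ‖r k‖ := FN.smul_le _ _ (by rw [abs_of_nonneg hτ0]; exact hτ1)
      have h2 : ‖(1 - τ) • r (k + 1)‖ ≤ ‖r (k + 1)‖ :=
        FN.smul_le _ _ (by rw [abs_of_nonneg (by linarith)]; linarith)
      have h3 := hr k
      have h4 := hr (k + 1)
      have h5 : (1 / 2 : ℝ) ^ (k + 1) = (1 / 2) ^ k * (1 / 2) := pow_succ _ _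
      rw [h5] at h4 hk1
      have h6 : (1 / 2) ^ k * η ≤ 2 * c * η := mul_le_mul_of_nonneg_right (by linarith) hη0.le
      linarith
  · rintro c ⟨hc0, hc1⟩ y hy
    rcases eq_or_lt_of_le hc0 with h | h
    · rw [← h, zero_mul, zero_div]; exact norm_nonneg _
    · obtain ⟨k, τ, ⟨hτ0, hτ1⟩, hk1, hk2, hvc'⟩ := hform c h hc1
      have hS : s (k + 1) ≤ τ * s k + (1 - τ) * s (k + 1) := by
        have := mul_le_mul_of_nonneg_left (hsanti k) hτ0
        linarith
      have h1 := Crv_mono L x (hs (k + 1)).1 hS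
      have h2 : v c - y = (τ * s k + (1 - τ) * s (k + 1)) • x +
          (τ • l k + (1 - τ) • l (k + 1)) - y := by
        rw [hvc']
        simp only [r]
        module
      have h3 := Crv_trans L ((τ * s k + (1 - τ) * s (k + 1)) • x)
        (τ • l k + (1 - τ) • l (k + 1)) y
        (L.add_mem (L.smul_mem _ (hl _)) (L.smul_mem _ (hl _))) hy
      rw [← h2] at h3
      have h4 := hφs (k + 1)
      simp only [φ] at h4
      rw [h4] at h1
      have h5 : (1 / 2 : ℝ) ^ (k + 1) = (1 / 2) ^ k * (1 / 2) := pow_succ _ _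
      rw [h5] at h1
      have h6 : c * η ≤ (1 / 2) ^ k * η := mul_le_mul_of_nonneg_right hk2 hη0.le
      linarith

end Pool.Agent.MP_645085_gt.TOR
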