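import Pool.Agent.MP_645085_gt.TOR.Defs

/-!
# TOR row [TOR-CTL]: control functions

General principle `exists_ctl_of_local` (for a hereditary local property of balls there is a
control function realising it) and its corollaries.
-/

namespace Pool.Agent.MP_645085_gt.TOR

open Set Filter Topology TopologicalSpace Metric

/-- Let `Q x r` be a property of balls, hereditary (`Q x r`, `dist x y + s ≤ r`, `0 < s` imply
`Q y s`) and locally satisfied. Then some control function `ρ` satisfies `Q x (ρ x)` for all `x`.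
Proof: `S x = {r ∈ (0,1] | Q x r}` is nonempty, `F x = sSup (S x) ∈ (0,1]` is `1`-Lipschitz
(if `r ∈ S x` and `r > dist x y` then `r - dist x y ∈ S y`), take `ρ = F / 2`: there is
`r ∈ S x` with `r > F x / 2`, use heredity with `y = x`. -/
theorem exists_ctl_of_local {X : Type} [PseudoMetricSpace X] (Q : X → ℝ → Prop)
    (hher : ∀ x y r s, Q x r → 0 < s → dist x y + s ≤ r → Q y s)
    (hloc : ∀ x, ∃ r > 0, Q x r) : ∃ ρ : X → ℝ, Ctl ρ ∧ ∀ x, Q x (ρ x) := by
  set S : X → Set ℝ := fun x => {r | 0 < r ∧ r ≤ 1 ∧ Q x r} with hS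
  have hne : ∀ x, (S x).Nonempty := by
    intro x
    obtain ⟨r, hr, hQ⟩ := hloc x
    refine ⟨min r 1, lt_min hr one_pos, min_le_right _ _, ?_⟩
    refine hher x x r _ hQ (lt_min hr one_pos) ?_
    rw [dist_self, zero_add]
    exact min_le_left _ _
  have hbdd : ∀ x, BddAbove (S x) := fun x => ⟨1, fun r hr => hr.2.1⟩
  have hpos : ∀ x, 0 < sSup (S x) := by
    intro x
    obtain ⟨r, hr⟩ := hne x
    exact hr.1.trans_le (le_csSup (hbdd x) hr)
  have hle : ∀ x, sSup (S x) ≤ 1 := fun x => csSup_le (hne x) fun r hr => hr.2.1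
  have hlip : ∀ x y, sSup (S x) - sSup (S y) ≤ dist x y := by
    intro x y
    rw [sub_le_iff_le_add]
    refine csSup_le (hne x) fun r hr => ?_
    rcases le_or_gt r (dist x y) with h | h
    · linarith [hpos y]
    · have : r - dist x y ∈ S y := by
        refine ⟨by linarith, by linarith [hr.2.1, dist_nonneg (x := x) (y := y)], ?_⟩
        exact hher x y r _ hr.2.2 (by linarith) (by linarith)
      linarith [le_csSup (hbdd y) this]
  refine ⟨fun x => sSup (S x) / 2, ⟨fun x => half_pos (hpos x), fun x => by linarith [hle x, hpos x],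
    fun x y => ?_⟩, fun x => ?_⟩
  · have h1 := hlip x y
    have h2 := hlip y x
    rw [dist_comm y x] at h2
    rw [abs_le]
    constructor <;> linarith [dist_nonneg (x := x) (y := y)]
  · obtain ⟨r, hr, hlt⟩ := exists_lt_of_lt_csSup (hne x) (half_lt_self (hpos x))
    refine hher x x r _ hr.2.2 (half_pos (hpos x)) ?_
    rw [dist_self, zero_add]
    exact hlt.le

/-- Use `Q x r := ∀ y, dist x y < r → r ≤ ε y`. -/
theorem exists_ctl_le {X : Type} [PseudoMetricSpace X] (ε : X → ℝ) (hc : Continuous ε)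
    (hp : ∀ x, 0 < ε x) : ∃ ρ : X → ℝ, Ctl ρ ∧ ∀ x, ρ x ≤ ε x := by
  obtain ⟨ρ, hρ, h⟩ := exists_ctl_of_local (fun x r => ∀ y, dist x y < r → r ≤ ε y)
    (fun x y r s hQ hs hle z hz => by
      have h1 : dist x z < r := (dist_triangle x y z).trans_lt (by linarith)
      have h2 := hQ z h1
      linarith [dist_nonneg (x := x) (y := y)])
    (fun x => by
      have h1 : ∀ᶠ y in 𝓝 x, ε x / 2 < ε y :=
        hc.continuousAt.eventually_const_lt (half_lt_self (hp x))
      obtain ⟨δ, hδ, hδ'⟩ := Metric.eventually_nhds_iff.1 h1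
      refine ⟨min δ (ε x / 2), lt_min hδ (half_pos (hp x)), fun y hy => ?_⟩
      have h2 := hδ' (y := y) (by rw [dist_comm]; exact hy.trans_le (min_le_left _ _))
      exact (min_le_right _ _).trans h2.le)
  exact ⟨ρ, hρ, fun x => h x x (by rw [dist_self]; exact hρ.pos x)⟩

/-- Modulus of continuity. Use
`Q c r := ∀ m m', dist m c < r → dist m' c < r → dist (f m) (f m') < δ m`. -/
theorem exists_ctl_modulus {M N : Type} [PseudoMetricSpace M] [PseudoMetricSpace N] (f : M → N)
    (hf : Continuous f) (δ : M → ℝ) (hδ : Continuous δ) (hδp : ∀ m, 0 < δ m) :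
    ∃ ρ : M → ℝ, Ctl ρ ∧
      ∀ c m m', dist m c < ρ c → dist m' c < ρ c → dist (f m) (f m') < δ m := by
  refine exists_ctl_of_local
    (fun c r => ∀ m m', dist m c < r → dist m' c < r → dist (f m) (f m') < δ m)
    (fun x y r s hQ hs hle m m' hm hm' => ?_) (fun x => ?_)
  · refine hQ m m' ?_ ?_
    · have := dist_triangle m y x
      rw [dist_comm y x] at this
      linarith
    · have := dist_triangle m' y x
      rw [dist_comm y x] at this
      linarith
  · have h1 : ∀ᶠ m in 𝓝 x, δ x / 2 < δ m :=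
      hδ.continuousAt.eventually_const_lt (half_lt_self (hδp x))
    have h2 : ∀ᶠ m in 𝓝 x, dist (f m) (f x) < δ x / 4 := by
      have := (hf.tendsto x).eventually (Metric.ball_mem_nhds (f x)
        (show (0 : ℝ) < δ x / 4 by linarith [hδp x]))
      exact this
    obtain ⟨r, hr, hr'⟩ := Metric.eventually_nhds_iff.1 (h1.and h2)
    refine ⟨r, hr, fun m m' hm hm' => ?_⟩
    have h3 := hr' hm
    have h4 := hr' hm'
    have h5 := dist_triangle (f m) (f x) (f m')
    rw [dist_comm (f x) (f m')] at h5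
    linarith [h3.1, h3.2, h4.2]

/-- Tube lemma: use `Q z r := ∀ y (t : unitInterval), dist z y < r → (t : ℝ) < r → (y, t) ∈ U`. -/
theorem exists_ctl_tube {Z : Type} [PseudoMetricSpace Z] (U : Set (Z × unitInterval))
    (hU : IsOpen U) (h0 : ∀ z, (z, 0) ∈ U) :
    ∃ δ : Z → ℝ, Ctl δ ∧ ∀ z (t : unitInterval), (t : ℝ) < δ z → (z, t) ∈ U := by
  obtain ⟨ρ, hρ, h⟩ := exists_ctl_of_local
    (fun (z : Z) (r : ℝ) => ∀ y (t : unitInterval), dist z y < r → (t : ℝ) < r → (y, t) ∈ U)
    (fun x y r s hQ hs hle z t hz ht => by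
      refine hQ z t ?_ ?_
      · exact (dist_triangle x y z).trans_lt (by linarith)
      · linarith [dist_nonneg (x := x) (y := y)])
    (fun x => by
      obtain ⟨r, hr, hr'⟩ := Metric.isOpen_iff.1 hU (x, 0) (h0 x)
      refine ⟨r, hr, fun y t hy ht => hr' ?_⟩
      rw [Metric.mem_ball, Prod.dist_eq, max_lt_iff]
      refine ⟨by rw [dist_comm]; exact hy, ?_⟩
      have : dist t 0 = |(t : ℝ) - 0| := rfl
      rw [this, sub_zero, abs_of_nonneg t.2.1]
      exact ht)
  exact ⟨ρ, hρ, fun z t ht => h z z t (by rw [dist_self]; exact hρ.pos z) ht⟩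

/-- Use `Q z r := ∀ y, dist z y < r → ∀ t, r ≤ v (y, t)` (or the infimum over the compact interval,
which is positive and `1`-Lipschitz). -/
theorem exists_ctl_slice {Z : Type} [PseudoMetricSpace Z] (v : Z × unitInterval → ℝ)
    (hv : Ctl v) : ∃ s : Z → ℝ, Ctl s ∧ ∀ z t, s z ≤ v (z, t) := by
  obtain ⟨ρ, hρ, h⟩ := exists_ctl_of_local
    (fun (z : Z) (r : ℝ) => ∀ y, dist z y < r → ∀ t, r ≤ v (y, t))
    (fun x y r s hQ hs hle z hz t => by
      have h1 : dist x z < r := (dist_triangle x y z).trans_lt (by linarith)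
      have h2 := hQ z h1 t
      linarith [dist_nonneg (x := x) (y := y)])
    (fun x => by
      obtain ⟨t₀, -, ht₀⟩ := (isCompact_univ (X := unitInterval)).exists_isMinOn
        ⟨0, mem_univ _⟩ (hv.continuous.comp (Continuous.prodMk_right x)).continuousOn
      have h0 : 0 < v (x, t₀) := hv.pos _
      refine ⟨v (x, t₀) / 2, by linarith, fun y hy t => ?_⟩
      have h1 : v (x, t₀) ≤ v (x, t) := ht₀ (mem_univ t)
      have h2 := (abs_le.1 (hv.lip (x, t) (y, t))).2
      have h3 : dist ((x, t) : Z × unitInterval) (y, t) = dist x y := by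
        rw [Prod.dist_eq, dist_self]
        exact max_eq_left dist_nonneg
      rw [h3] at h2
      linarith)
  exact ⟨ρ, hρ, fun z t => h z z (by rw [dist_self]; exact hρ.pos z) t⟩

theorem Ctl.min {X : Type} [PseudoMetricSpace X] {ε ε' : X → ℝ} (h : Ctl ε) (h' : Ctl ε') :
    Ctl fun x => min (ε x) (ε' x) :=
  ⟨fun x => lt_min (h.pos x) (h'.pos x), fun x => (min_le_left _ _).trans (h.le_one x),
    fun x y => (abs_min_sub_min_le_max _ _ _ _).trans (max_le (h.lip x y) (h'.lip x y))⟩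

theorem Ctl.smul {X : Type} [PseudoMetricSpace X] {ε : X → ℝ} (h : Ctl ε) {c : ℝ} (hc : 0 < c)
    (hc1 : c ≤ 1) : Ctl fun x => c * ε x :=
  ⟨fun x => mul_pos hc (h.pos x), fun x => mul_le_one₀ hc1 (h.pos x).le (h.le_one x),
    fun x y => by
      rw [← mul_sub, abs_mul, abs_of_pos hc]
      exact (mul_le_of_le_one_left (abs_nonneg _) hc1).trans (h.lip x y)⟩

theorem Ctl.const {X : Type} [PseudoMetricSpace X] {c : ℝ} (hc : 0 < c) (hc1 : c ≤ 1) :
    Ctl fun _ : X => c :=
  ⟨fun _ => hc, fun _ => hc1, fun x y => by rw [sub_self, abs_zero]; exact dist_nonneg⟩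

/-- Precomposition with a `1`-Lipschitz map (projections, sections `x ↦ (x, p, t)`, ...). -/
theorem Ctl.comp_lip {X Y : Type} [PseudoMetricSpace X] [PseudoMetricSpace Y] {ε : X → ℝ}
    (h : Ctl ε) (u : Y → X) (hu : ∀ y y', dist (u y) (u y') ≤ dist y y') :
    Ctl fun y => ε (u y) :=
  ⟨fun _ => h.pos _, fun _ => h.le_one _, fun y y' => (h.lip _ _).trans (hu y y')⟩

/-- `v`-maps are stable under fine perturbations. Proof: `Q x r := ∃ z, ∀ m, dist (f m) x < r →
dist m z < v z` gives `ρ₀`; take `ρ = ρ₀ / 4` and, for `x`, the radius `ρ₀ x / 4`: if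
`dist (f' m) x < ρ₀ x / 4` then `ρ (f' m) ≤ ρ₀ x / 4 + ρ₀ x / 16`, hence
`dist (f m) x ≤ dist (f m) (f' m) + dist (f' m) x < ρ₀ x`. -/
theorem vmap_perturb {M X : Type} [PseudoMetricSpace M] [PseudoMetricSpace X] {v : M → ℝ}
    {f : M → X} (hf : IsVMap v f) : ∃ ρ : X → ℝ, Ctl ρ ∧
      ∀ f' : M → X, (∀ m, dist (f' m) (f m) ≤ ρ (f' m)) → IsVMap v f' := by
  obtain ⟨ρ, hρ, h⟩ := exists_ctl_of_local
    (fun (x : X) (r : ℝ) => ∃ z, ∀ m, dist (f m) x < r → dist m z < v z)
    (fun x y r s hQ hs hle => by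
      obtain ⟨z, hz⟩ := hQ
      refine ⟨z, fun m hm => hz m ?_⟩
      have := dist_triangle (f m) y x
      rw [dist_comm y x] at this
      linarith)
    (fun x => by
      obtain ⟨r, hr, z, hz⟩ := hf x
      exact ⟨r, hr, z, hz⟩)
  refine ⟨fun x => (1 / 4) * ρ x, hρ.smul (by norm_num) (by norm_num), fun f' hf' x => ?_⟩
  obtain ⟨z, hz⟩ := h x
  refine ⟨ρ x / 4, by linarith [hρ.pos x], z, fun m hm => hz m ?_⟩
  have h1 := hf' m
  have h2 := (abs_le.1 (hρ.lip (f' m) x)).2
  have h3 := dist_triangle (f m) (f' m) x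
  rw [dist_comm (f m) (f' m)] at h3
  have h4 := hρ.pos x
  simp only at h1
  linarith

end Pool.Agent.MP_645085_gt.TOR
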