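import Pool.Agent.MP_645085_gt.TOR.Defs

/-!
# TOR row [TOR-ELIM]: elimination of labels from the top
-/

namespace Pool.Agent.MP_645085_gt.TOR

open Set Filter Topology TopologicalSpace Metric

theorem Elim_exists_max {Λ : Type} (lt : Λ → Λ → Prop) [IsWellOrder Λ lt] (S : Finset Λ)
    (hS : S.Nonempty) : ∃ l ∈ S, ∀ i ∈ S, ¬ lt l i ∧ (i ≠ l → lt i l) := by
  classical
  let _ := linearOrderOfSTO lt
  refine ⟨S.max' hS, S.max'_mem hS, fun i hi => ?_⟩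
  have h : i ≤ S.max' hS := S.le_max' i hi
  exact ⟨fun h' => absurd h (not_le.mpr h'), fun hne => lt_of_le_of_ne h hne⟩

/-- One step: elimination of the largest label `l ∈ F`. -/
theorem Elim_step {Λ X : Type} [NormedAddCommGroup X] [Module ℝ X] [DecidableEq Λ]
    (lt : Λ → Λ → Prop)
    (M : Λ → ℕ) (L : Λ → Submodule ℝ X) (v : Λ → ℝ → X) (Y : Submodule ℝ X)
    (hY : ∀ l, Y ≤ L l) (hvL : ∀ l l' c, lt l' l → v l' c ∈ L l)
    (hnorm : ∀ l, ∀ c ∈ Icc (0 : ℝ) 1, ‖v l c‖ ≤ 6 * c * (1 / 2) ^ M l)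
    (hfar : ∀ l, ∀ c ∈ Icc (0 : ℝ) 1, ∀ q ∈ L l, c * (1 / 2) ^ M l / 2 ≤ ‖v l c - q‖)
    (K n : ℕ) (F F' G G' : Finset Λ) (hG : G ⊆ F) (hG' : G' ⊆ F')
    (hdis : Disjoint F F') (hK : ∀ l ∈ F, M l ≤ K) (c c' : Λ → ℝ)
    (hc : ∀ l, c l ∈ Icc (0 : ℝ) 1) (hcG : ∀ l ∈ G, c l = 1)
    (x x' q : X) (hx : ∀ l, (∀ i ∈ G, ¬ lt l i) → x ∈ L l)
    (hx' : ∀ l, (∀ i ∈ G', ¬ lt l i) → x' ∈ L l) (hq : q ∈ Y) (l : Λ) (hl : l ∈ F)
    (hmax : ∀ i ∈ F ∪ F', ¬ lt l i ∧ (i ≠ l → lt i l))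
    (ih : G ⊆ F.erase l → (1 / 2 : ℝ) ^ K / (2 * 13 ^ n) ≤
      ‖(x + ∑ l ∈ F.erase l, v l (c l)) - (x' + ∑ l ∈ F', v l (c' l)) + q‖) :
    (1 / 2 : ℝ) ^ K / (2 * 13 ^ (n + 1)) ≤
      ‖(x + ∑ l ∈ F, v l (c l)) - (x' + ∑ l ∈ F', v l (c' l)) + q‖ := by
  set w : X := (x + ∑ l ∈ F, v l (c l)) - (x' + ∑ l ∈ F', v l (c' l)) + q with hw
  set w₁ : X := (x + ∑ l ∈ F.erase l, v l (c l)) - (x' + ∑ l ∈ F', v l (c' l)) + q with hw₁
  have hsum : ∑ l ∈ F, v l (c l) = v l (c l) + ∑ l ∈ F.erase l, v l (c l) :=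
    (Finset.add_sum_erase F (fun l => v l (c l)) hl).symm
  have hww : w = v l (c l) - (-w₁) := by
    rw [hw, hw₁, hsum]; abel
  have hmem : -w₁ ∈ L l := by
    rw [hw₁]
    refine neg_mem (add_mem (sub_mem (add_mem ?_ (sum_mem fun i hi => ?_))
      (add_mem ?_ (sum_mem fun i hi => ?_))) (hY l hq))
    · exact hx l fun i hi => (hmax i (Finset.mem_union_left _ (hG hi))).1
    · have hi' := Finset.mem_erase.mp hi
      exact hvL l i _ ((hmax i (Finset.mem_union_left _ hi'.2)).2 hi'.1)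
    · exact hx' l fun i hi => (hmax i (Finset.mem_union_right _ (hG' hi))).1
    · refine hvL l i _ ((hmax i (Finset.mem_union_right _ hi)).2 ?_)
      rintro rfl
      exact (Finset.disjoint_left.mp hdis hl) hi
  have hfw : c l * (1 / 2) ^ M l / 2 ≤ ‖w‖ := by
    rw [hww]; exact hfar l (c l) (hc l) _ hmem
  have hKl : (1 / 2 : ℝ) ^ K ≤ (1 / 2) ^ M l :=
    pow_le_pow_of_le_one (by norm_num) (by norm_num) (hK l hl)
  have hKpos : (0 : ℝ) < (1 / 2) ^ K := by positivity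
  by_cases hlG : l ∈ G
  · rw [hcG l hlG] at hfw
    have h1 : (1 / 2 : ℝ) ^ K / (2 * 13 ^ (n + 1)) ≤ (1 / 2) ^ K / 2 := by
      apply div_le_div_of_nonneg_left hKpos.le (by norm_num)
      have : (1 : ℝ) ≤ 13 ^ (n + 1) := one_le_pow₀ (by norm_num)
      linarith
    linarith
  · have hsub : G ⊆ F.erase l := fun i hi => Finset.mem_erase.mpr ⟨by rintro rfl; exact hlG hi, hG hi⟩
    have h1 := ih hsub
    have h2 : w₁ = w - v l (c l) := by rw [hww]; abel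
    have h3 : ‖w₁‖ ≤ ‖w‖ + ‖v l (c l)‖ := by rw [h2]; exact norm_sub_le _ _
    have h4 := hnorm l (c l) (hc l)
    have h5 : ‖w₁‖ ≤ 13 * ‖w‖ := by linarith
    have h6 : (1 / 2 : ℝ) ^ K / (2 * 13 ^ (n + 1)) = (1 / 2 : ℝ) ^ K / (2 * 13 ^ n) / 13 := by
      rw [div_div]; congr 1; ring
    rw [h6]
    linarith

theorem Elim_aux {Λ X : Type} [NormedAddCommGroup X] [Module ℝ X] (lt : Λ → Λ → Prop)
    [IsWellOrder Λ lt] (M : Λ → ℕ) (L : Λ → Submodule ℝ X) (v : Λ → ℝ → X) (Y : Submodule ℝ X)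
    (hY : ∀ l, Y ≤ L l) (hvL : ∀ l l' c, lt l' l → v l' c ∈ L l)
    (hnorm : ∀ l, ∀ c ∈ Icc (0 : ℝ) 1, ‖v l c‖ ≤ 6 * c * (1 / 2) ^ M l)
    (hfar : ∀ l, ∀ c ∈ Icc (0 : ℝ) 1, ∀ q ∈ L l, c * (1 / 2) ^ M l / 2 ≤ ‖v l c - q‖)
    (K : ℕ) (G G' : Finset Λ) (hne : G.Nonempty) (c c' : Λ → ℝ)
    (hc : ∀ l, c l ∈ Icc (0 : ℝ) 1) (hc' : ∀ l, c' l ∈ Icc (0 : ℝ) 1) (hcG : ∀ l ∈ G, c l = 1)
    (hcG' : ∀ l ∈ G', c' l = 1) (x x' q : X) (hx : ∀ l, (∀ i ∈ G, ¬ lt l i) → x ∈ L l)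
    (hx' : ∀ l, (∀ i ∈ G', ¬ lt l i) → x' ∈ L l) (hq : q ∈ Y) (n : ℕ) :
    ∀ F F' : Finset Λ, G ⊆ F → G' ⊆ F' → Disjoint F F' → (∀ l ∈ F, M l ≤ K) →
      (∀ l ∈ F', M l ≤ K) → F.card + F'.card = n →
    (1 / 2 : ℝ) ^ K / (2 * 13 ^ n) ≤
      ‖(x + ∑ l ∈ F, v l (c l)) - (x' + ∑ l ∈ F', v l (c' l)) + q‖ := by
  classical
  induction n with
  | zero =>
    intro F F' hG hG' hdis hK hK' hcard
    exfalso
    have h1 : F.card = 0 := by omega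
    rw [Finset.card_eq_zero] at h1
    obtain ⟨g, hg⟩ := hne
    have := hG hg
    rw [h1] at this
    exact absurd this (Finset.notMem_empty g)
  | succ n ih =>
    intro F F' hG hG' hdis hK hK' hcard
    have hU : (F ∪ F').Nonempty := by
      obtain ⟨g, hg⟩ := hne
      exact ⟨g, Finset.mem_union_left _ (hG hg)⟩
    obtain ⟨l, hl, hmax⟩ := Elim_exists_max lt (F ∪ F') hU
    rcases Finset.mem_union.mp hl with hlF | hlF'
    · refine Elim_step lt M L v Y hY hvL hnorm hfar K n F F' G G' hG hG' hdis hK c c' hc hcG x x' q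
        hx hx' hq l hlF hmax fun hsub => ?_
      refine ih (F.erase l) F' hsub hG' (Finset.disjoint_of_subset_left (Finset.erase_subset _ _) hdis)
        (fun i hi => hK i (Finset.mem_of_mem_erase hi)) hK' ?_
      rw [Finset.card_erase_of_mem hlF]
      have := Finset.card_pos.mpr ⟨l, hlF⟩
      omega
    · have hmax' : ∀ i ∈ F' ∪ F, ¬ lt l i ∧ (i ≠ l → lt i l) := by
        rwa [Finset.union_comm]
      have key := Elim_step lt M L v Y hY hvL hnorm hfar K n F' F G' G hG' hG hdis.symm hK' c' c hc'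
        hcG' x' x (-q) hx' hx (neg_mem hq) l hlF' hmax' fun hsub => ?_
      · have e : (x + ∑ l ∈ F, v l (c l)) - (x' + ∑ l ∈ F', v l (c' l)) + q =
            -((x' + ∑ l ∈ F', v l (c' l)) - (x + ∑ l ∈ F, v l (c l)) + -q) := by abel
        rw [e, norm_neg]
        exact key
      · have h1 := ih F (F'.erase l) hG hsub
          (Finset.disjoint_of_subset_right (Finset.erase_subset _ _) hdis) hK
          (fun i hi => hK' i (Finset.mem_of_mem_erase hi)) (by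
            rw [Finset.card_erase_of_mem hlF']
            have := Finset.card_pos.mpr ⟨l, hlF'⟩
            omega)
        have e : (x' + ∑ l ∈ F'.erase l, v l (c' l)) - (x + ∑ l ∈ F, v l (c l)) + -q =
            -((x + ∑ l ∈ F, v l (c l)) - (x' + ∑ l ∈ F'.erase l, v l (c' l)) + q) := by abel
        rw [e, norm_neg]
        exact h1

/-- [TOR-ELIM] Proof. Let `δ` be the norm on the right and suppose `δ < (1/2)^K / (2 * 13^(2*K+2))`. Let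
`l_1 > l_2 > …` be the elements of `F ∪ F'` in decreasing `lt`-order (at most `2 K + 2` of them) and
`w_k` the vector on the right minus the terms `± v l_i (coefficient)`, `i ≤ k`. By induction on `k`:
`‖w_k‖ ≤ 13^k * δ` and `l_1, …, l_k ∉ G ∪ G'`. Step: all remaining terms except that of `l = l_{k+1}` are
in `L l` (`v l' c ∈ L l` for smaller `l'`; `x, x' ∈ L l` since the elements of `G`, `G'` are among
`l_{k+1}, l_{k+2}, …`; `q ∈ Y ≤ L l`), and `l` is in exactly one of `F`, `F'`; with `c` its coefficient,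
`c * (1/2)^(M l) / 2 ≤ ‖w_k‖ ≤ 13^k * δ`; so `‖v l c‖ ≤ 6 c (1/2)^(M l) ≤ 12 * 13^k * δ` and
`‖w_{k+1}‖ ≤ 13^(k+1) * δ`; also `c ≤ 2 * 2^K * 13^k * δ < 1`, so `l ∉ G ∪ G'`. In the end `G = ∅`,
a contradiction. (In Lean: induction on the number of eliminated labels, or on the finset `F ∪ F'`
generalising over `w`.) -/
theorem elimination {Λ X : Type} [NormedAddCommGroup X] [Module ℝ X] (lt : Λ → Λ → Prop)
    [IsWellOrder Λ lt] (M : Λ → ℕ) (L : Λ → Submodule ℝ X) (v : Λ → ℝ → X) (Y : Submodule ℝ X)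
    (hY : ∀ l, Y ≤ L l) (hvL : ∀ l l' c, lt l' l → v l' c ∈ L l)
    (hnorm : ∀ l, ∀ c ∈ Icc (0 : ℝ) 1, ‖v l c‖ ≤ 6 * c * (1 / 2) ^ M l)
    (hfar : ∀ l, ∀ c ∈ Icc (0 : ℝ) 1, ∀ q ∈ L l, c * (1 / 2) ^ M l / 2 ≤ ‖v l c - q‖)
    (K : ℕ) (F F' G G' : Finset Λ) (hG : G ⊆ F) (hG' : G' ⊆ F') (hne : G.Nonempty)
    (hdis : Disjoint F F') (hK : ∀ l ∈ F, M l ≤ K) (hK' : ∀ l ∈ F', M l ≤ K)
    (hcard : F.card ≤ K + 1) (hcard' : F'.card ≤ K + 1) (c c' : Λ → ℝ)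
    (hc : ∀ l, c l ∈ Icc (0 : ℝ) 1) (hc' : ∀ l, c' l ∈ Icc (0 : ℝ) 1) (hcG : ∀ l ∈ G, c l = 1)
    (hcG' : ∀ l ∈ G', c' l = 1) (x x' q : X) (hx : ∀ l, (∀ i ∈ G, ¬ lt l i) → x ∈ L l)
    (hx' : ∀ l, (∀ i ∈ G', ¬ lt l i) → x' ∈ L l) (hq : q ∈ Y) :
    (1 / 2) ^ K / (2 * 13 ^ (2 * K + 2)) ≤
      ‖(x + ∑ l ∈ F, v l (c l)) - (x' + ∑ l ∈ F', v l (c' l)) + q‖ := by
  have h := Elim_aux lt M L v Y hY hvL hnorm hfar K G G' hne c c' hc hc' hcG hcG' x x' q hx hx' hq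
    (F.card + F'.card) F F' hG hG' hdis hK hK' rfl
  refine le_trans ?_ h
  apply div_le_div_of_nonneg_left (by positivity) (by positivity)
  apply mul_le_mul_of_nonneg_left _ (by norm_num)
  exact pow_le_pow_right₀ (by norm_num) (by omega)

end Pool.Agent.MP_645085_gt.TOR
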