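import Pool.Agent.MP_645085_gt.TOR.Defs

/-!
# TOR row [TOR-KUR]: an absolute extensor is a retract of a normed space
-/

namespace Pool.Agent.MP_645085_gt.TOR

open Set Filter Topology TopologicalSpace Metric

/-- the Kuratowski embedding -/
noncomputable def Kur_j (X : Type) [MetricSpace X] (x₀ x : X) : BoundedContinuousFunction X ℝ :=
  BoundedContinuousFunction.ofNormedAddCommGroup (fun y => dist x y - dist x₀ y) (by fun_prop)
    (dist x x₀) (fun y => by
      rw [Real.norm_eq_abs]
      exact abs_dist_sub_le x x₀ y)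

theorem Kur_isometry (X : Type) [MetricSpace X] (x₀ : X) : Isometry (Kur_j X x₀) := by
  refine Isometry.of_dist_eq fun a b => le_antisymm ?_ ?_
  · rw [BoundedContinuousFunction.dist_le dist_nonneg]
    intro y
    rw [Real.dist_eq]
    change |(dist a y - dist x₀ y) - (dist b y - dist x₀ y)| ≤ dist a b
    rw [sub_sub_sub_cancel_right]
    exact abs_dist_sub_le a b y
  · have h := BoundedContinuousFunction.dist_coe_le_dist (f := Kur_j X x₀ a) (g := Kur_j X x₀ b) b
    rw [Real.dist_eq] at h
    change |(dist a b - dist x₀ b) - (dist b b - dist x₀ b)| ≤ _ at h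
    rw [sub_sub_sub_cancel_right, dist_self, sub_zero, abs_of_nonneg dist_nonneg] at h
    exact h

/-- [TOR-KUR] Kuratowski embedding: `N = BoundedContinuousFunction X ℝ` (or `lp (fun _ : X => ℝ) ⊤`),
`j x = fun y => dist x y - dist x₀ y`; it is isometric, its range is complete, hence closed, and
`AE X` applied to `A = range j ⊆ N` and `j⁻¹` gives `r`. -/
theorem exists_retraction (X : Type) [MetricSpace X] [CompleteSpace X] [Nonempty X] (hX : AE X) :
    ∃ (N : Type) (_ : NormedAddCommGroup N) (_ : NormedSpace ℝ N) (j : X → N) (r : N → X),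
      Isometry j ∧ Continuous r ∧ ∀ x, r (j x) = x := by
  obtain ⟨x₀⟩ := ‹Nonempty X›
  have hj : Isometry (Kur_j X x₀) := Kur_isometry X x₀
  have hcl : IsClosed (range (Kur_j X x₀)) := hj.isClosedEmbedding.isClosed_range
  set e := hj.isEmbedding.toHomeomorph with he
  obtain ⟨r, hr, hra⟩ := hX (BoundedContinuousFunction X ℝ) (range (Kur_j X x₀)) hcl
    (fun a => e.symm a) e.symm.continuous
  refine ⟨BoundedContinuousFunction X ℝ, inferInstance, inferInstance, Kur_j X x₀, r, hj, hr, ?_⟩
  intro x
  have h1 := hra ⟨Kur_j X x₀ x, mem_range_self x⟩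
  have h2 : e x = ⟨Kur_j X x₀ x, mem_range_self x⟩ := rfl
  rw [← h2, e.symm_apply_apply] at h1
  exact h1

end Pool.Agent.MP_645085_gt.TOR
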