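import Pool.Agent.MP_645085_gt.TOR.Defs
import Pool.Agent.MP_645085_gt.LF

/-!
# TOR row [TOR-PUSH]: locally finite push in a non-separable space
-/

namespace Pool.Agent.MP_645085_gt.TOR

open Set Filter Topology TopologicalSpace Metric

/-- `exists_chain` with separable subspaces. -/
theorem Push_exists_chain {E : Type*} [AddCommGroup E] [Module ℝ E] [TopologicalSpace E]
    [IsTopologicalAddGroup E] [ContinuousSMul ℝ E] (nu : FNorm E) (hE : ¬ SeparableSpace E) :
    ∃ C : Chain nu, ∀ k, IsSeparable (C.Y k : Set E) := by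
  classical
  obtain ⟨ε, hε, hfar⟩ := nu.exists_far hE
  have step : ∀ F : {F : Submodule ℝ E // IsSeparable (F : Set E)}, ∃ x, ε ≤ nu.dF F.1 x :=
    fun F => hfar F.1 F.2
  choose c hc using step
  have hsep : ∀ F : {F : Submodule ℝ E // IsSeparable (F : Set E)},
      IsSeparable ((Submodule.span ℝ ((F.1 : Set E) ∪ {c F}) : Submodule ℝ E) : Set E) := by
    intro F
    exact (F.2.union (countable_singleton _).isSeparable).span
  let Y : ℕ → {F : Submodule ℝ E // IsSeparable (F : Set E)} := fun n =>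
    Nat.rec ⟨⊥, by simpa using (countable_singleton (0 : E)).isSeparable⟩
      (fun _ F => ⟨Submodule.span ℝ ((F.1 : Set E) ∪ {c F}), hsep F⟩) n
  have hY : ∀ n, (Y (n + 1)).1 = Submodule.span ℝ (((Y n).1 : Set E) ∪ {c (Y n)}) := fun n => rfl
  refine ⟨⟨fun n => (Y n).1, fun n => c (Y n), ?_, ?_, ε, hε, fun k => hc _⟩, fun k => (Y k).2⟩
  · apply monotone_nat_of_le_succ
    intro n
    show (Y n).1 ≤ (Y (n + 1)).1
    rw [hY]
    intro y hy
    exact Submodule.subset_span (Or.inl hy)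
  · intro k
    show c (Y k) ∈ (Y (k + 1)).1
    rw [hY]
    exact Submodule.subset_span (Or.inr rfl)

/-- The norm of an F-normed space as an `FNorm`. -/
noncomputable def Push_nu (X : Type) [NormedAddCommGroup X] [Module ℝ X] [FN X] : FNorm X where
  N x := ‖x‖
  nonneg x := norm_nonneg x
  zero := norm_zero
  neg x := norm_neg x
  add x y := norm_add_le x y
  smul t x ht := FN.smul_le t x ht
  basis := by
    have h := Metric.nhds_basis_ball (x := (0 : X))
    have e : ball (0 : X) = fun ε : ℝ => {x : X | ‖x‖ < ε} := by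
      funext ε
      ext x
      rw [mem_ball_zero_iff]
      rfl
    rw [e] at h
    exact h

/-- [TOR-PUSH] This is the proof of `lfap` (`MP_645085_gt/LF.lean`, read it first) with one real parameter
`s` instead of the index `n`: with `nu : FNorm X`, `nu.N x = ‖x‖`, a chain `C : Chain nu` with all
`C.Y k` separable (repeat the proof of `exists_chain` keeping this information), `σ`, `q` and
`θ := θ 0` as in `lfap`, put `Φ x s = x + C.P (σ x, max (θ x) s)` and `Y = ⨆ k, C.Y k` (separable: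
a countable directed union). The defining property of `θ` is inherited by `max (θ x) s`, so exactly
as in `lfap`: for every `y` there are `r > 0` and `K` such that `‖Φ x s - y‖ < r` implies `s ≤ K`. -/
theorem exists_push {X : Type} [NormedAddCommGroup X] [Module ℝ X] [FN X]
    (hX : ¬ SeparableSpace X) (ρ : X → ℝ) (hρ : Ctl ρ) :
    ∃ (Y : Submodule ℝ X) (Φ : X → ℝ → X), IsSeparable (Y : Set X) ∧
      Continuous (fun q : X × ℝ => Φ q.1 q.2) ∧ (∀ x s, ‖Φ x s - x‖ ≤ ρ x / 4) ∧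
      (∀ x s, Φ x s - x ∈ Y) ∧
      ∀ y, ∃ r > 0, ∃ K : ℝ, ∀ x s, ‖Φ x s - y‖ < r → s ≤ K := by
  classical
  set nu : FNorm X := Push_nu X with hnu
  obtain ⟨C, hCsep⟩ := Push_exists_chain nu hX
  have hρ0 : ∀ x, 0 < ρ x := hρ.pos
  have hρL : ∀ x y, |ρ x - ρ y| ≤ nu.N (x - y) := fun x y => by
    have := hρ.lip x y
    rwa [dist_eq_norm] at this
  have hρc : Continuous ρ := nu.continuous_of_lip hρL
  -- the scale function
  set A : ℝ := 48 * C.ε + 1 with hA
  have hAε : 0 < C.ε := C.pos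
  have hA0 : 0 < A := by linarith
  let σ : X → ℝ := fun x => A / ρ x
  have hσ0 : ∀ x, 0 ≤ σ x := fun x => (div_pos hA0 (hρ0 x)).le
  have hσc : Continuous σ := continuous_const.div hρc fun x => (hρ0 x).ne'
  have hsmall : ∀ x, 12 * C.η ⌊σ x⌋₊ < ρ x / 4 := by
    intro x
    have h1 := pow_bound ⌊σ x⌋₊
    have h2 := Nat.lt_floor_add_one (σ x)
    have h3 : σ x * ρ x = A := by
      show A / ρ x * ρ x = A
      exact div_mul_cancel₀ _ (hρ0 x).ne'
    have h4 : C.η ⌊σ x⌋₊ * 16 ^ ⌊σ x⌋₊ = C.ε := by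
      unfold Chain.η
      exact div_mul_cancel₀ _ (by positivity)
    have h5 : C.η ⌊σ x⌋₊ * σ x ≤ C.ε := by
      rw [← h4]
      apply mul_le_mul_of_nonneg_left _ (C.η_pos _).le
      linarith
    have h6 : C.η ⌊σ x⌋₊ * A ≤ C.ε * ρ x := by
      rw [← h3, ← mul_assoc]
      exact mul_le_mul_of_nonneg_right h5 (hρ0 x).le
    have h7 : 48 * C.η ⌊σ x⌋₊ * C.ε < C.ε * ρ x := by
      have := C.η_pos ⌊σ x⌋₊
      rw [hA] at h6
      nlinarith
    have h8 : 48 * C.η ⌊σ x⌋₊ < ρ x := by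
      by_contra hc
      push Not at hc
      have : C.ε * ρ x ≤ 48 * C.η ⌊σ x⌋₊ * C.ε := by
        rw [mul_comm]
        exact mul_le_mul_of_nonneg_right hc hAε.le
      linarith
    linarith
  -- the averaged distances
  have hδ : ∀ i : ℕ, 0 < C.η (i + 3) / 8 := fun i => div_pos (C.η_pos _) (by norm_num)
  choose q hq1 hq2 using fun i : ℕ => C.exists_q (hδ i)
  have hq1' : ∀ (I : ℕ) (x0 : X), ∃ K, ∀ᶠ x in 𝓝 x0, ∀ i ≤ I, ∀ j, K ≤ j →
      q i j x ≤ 2 * (C.η (i + 3) / 8) := by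
    intro I x0
    choose K hK using fun i => hq1 i x0
    refine ⟨∑ i ∈ Finset.range (I + 1), K i, ?_⟩
    have h1 : ∀ᶠ x in 𝓝 x0, ∀ i ∈ Iic I, ∀ j, K i ≤ j → q i j x ≤ 2 * (C.η (i + 3) / 8) := by
      rw [eventually_all_finite (finite_Iic I)]
      intro i _
      exact hK i
    filter_upwards [h1] with x hx i hi j hj
    apply hx i hi j
    refine le_trans ?_ hj
    exact Finset.single_le_sum (f := K) (fun _ _ => Nat.zero_le _)
      (Finset.mem_range.2 (by omega))
  -- the direction function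
  have hθ : ∃ θ : C(X, ℝ), ∀ x, θ x ∈ {r : ℝ | 0 ≤ r ∧
      ∀ i ≤ ⌊σ x⌋₊, ∀ j : ℕ, r - 1 ≤ j → q i j x ≤ 2 * (C.η (i + 3) / 8)} := by
    apply exists_continuous_forall_mem_convex_of_local_const
    · intro x
      apply Set.OrdConnected.convex
      constructor
      rintro a ⟨ha1, ha2⟩ b _ c ⟨hc1, _⟩
      exact ⟨ha1.trans hc1, fun i hi j hj => ha2 i hi j (by linarith)⟩
    · intro x0
      obtain ⟨K, hK⟩ := hq1' (⌊σ x0 + 1⌋₊) x0
      refine ⟨(K : ℝ) + 1, ?_⟩
      have hev : ∀ᶠ x in 𝓝 x0, σ x < σ x0 + 1 :=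
        hσc.continuousAt.eventually_lt continuousAt_const (by linarith)
      filter_upwards [hK, hev] with x hx hx2
      refine ⟨by positivity, fun i hi j hj => hx i ?_ j ?_⟩
      · exact hi.trans (Nat.floor_mono hx2.le)
      · have h2 : (K : ℝ) ≤ j := by linarith
        exact_mod_cast h2
  obtain ⟨θ, hθ⟩ := hθ
  have hm0 : ∀ x s, 0 ≤ max (θ x) s := fun x s => (hθ x).1.trans (le_max_left _ _)
  let Φ : X → ℝ → X := fun x s => x + C.P (σ x, max (θ x) s)
  have hfdef : ∀ x s, Φ x s = x + C.P (σ x, max (θ x) s) := fun x s => rfl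
  have hfsub : ∀ x s, Φ x s - x = C.P (σ x, max (θ x) s) := fun x s => by
    rw [hfdef, add_sub_cancel_left]
  have hfN : ∀ x s, nu.N (Φ x s - x) < ρ x / 4 := by
    intro x s
    rw [hfsub]
    exact (C.N_P (hσ0 x) (hm0 x s)).trans_lt (hsmall x)
  refine ⟨⨆ k, C.Y k, Φ, ?_, ?_, ?_, ?_, ?_⟩
  · have e : ((⨆ k, C.Y k : Submodule ℝ X) : Set X) = ⋃ k, (C.Y k : Set X) := by
      ext x
      rw [SetLike.mem_coe, C.mem_iSup, mem_iUnion]
      rfl
    rw [e]
    exact IsSeparable.iUnion hCsep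
  · have h1 := C.continuous_P
    have h2 : Continuous fun q : X × ℝ => (σ q.1, max (θ q.1) q.2) :=
      (hσc.comp continuous_fst).prodMk ((θ.continuous.comp continuous_fst).max continuous_snd)
    exact continuous_fst.add (h1.comp h2)
  · intro x s
    exact (hfN x s).le
  · intro x s
    rw [hfsub]
    exact C.mem_iSup.2 ⟨_, C.P_mem (hσ0 x) (hm0 x s)⟩
  · intro y0
    have hy0 := hρ0 y0
    set I : ℕ := ⌊5 / 3 * A / ρ y0⌋₊ with hI
    obtain ⟨K, hK⟩ := hq1' I y0
    obtain ⟨r1, hr1, hr1'⟩ := Metric.eventually_nhds_iff.1 hK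
    refine ⟨min r1 (ρ y0 / 4), lt_min hr1 (by linarith), K, ?_⟩
    intro x s hxs
    have hy1 : ∀ i ≤ I, ∀ j, K ≤ j → q i j (Φ x s) ≤ 2 * (C.η (i + 3) / 8) :=
      hr1' (by rw [dist_eq_norm]; exact hxs.trans_le (min_le_left _ _))
    have hy2 : nu.N (Φ x s - y0) < ρ y0 / 4 := hxs.trans_le (min_le_right _ _)
    by_contra hn
    push Not at hn
    -- comparison of the control function
    have e1 := hρL (Φ x s) y0
    have e2 := hρL (Φ x s) x
    have e3 := hfN x s
    rw [abs_sub_le_iff] at e1 e2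
    have hρx : 3 / 5 * ρ y0 ≤ ρ x := by
      have a1 : ρ (Φ x s) ≤ ρ x + ρ x / 4 := by linarith [e2.1]
      have a2 : ρ y0 - ρ y0 / 4 ≤ ρ (Φ x s) := by linarith [e1.2]
      linarith
    have hσx : σ x ≤ 5 / 3 * A / ρ y0 := by
      show A / ρ x ≤ _
      rw [div_le_div_iff₀ (hρ0 x) hy0]
      nlinarith
    have hi : ⌊σ x⌋₊ ≤ I := Nat.floor_mono hσx
    obtain ⟨j, hj1, hj2⟩ := C.P_far (hσ0 x) (hm0 x s)
    have hnj : K ≤ j := by
      refine le_trans ?_ hj1
      exact Nat.le_floor (hn.le.trans (le_max_right _ _))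
    have b1 := hy1 ⌊σ x⌋₊ hi j hnj
    have b2 := (hθ x).2 ⌊σ x⌋₊ le_rfl j (by
      have c1 := Nat.lt_floor_add_one (max (θ x) s)
      have c2 : ((⌊max (θ x) s⌋₊ : ℕ) : ℝ) ≤ j := by exact_mod_cast hj1
      have c3 := le_max_left (θ x) s
      linarith)
    have b3 := hq2 ⌊σ x⌋₊ j x (C.P (σ x, max (θ x) s)) ⟨_, C.P_mem (hσ0 x) (hm0 x s)⟩
    rw [← hfdef] at b3
    have b4 := C.η_pos (⌊σ x⌋₊ + 3)
    linarith

end Pool.Agent.MP_645085_gt.TOR
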