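import Pool.Agent.MP_645085_gt.TOR.Eta
import Pool.Agent.MP_645085_gt.TOR.Crv

/-!
# TOR row [TOR-REC]: transfinite choice of the curves
-/

namespace Pool.Agent.MP_645085_gt.TOR

open Set Filter Topology TopologicalSpace Metric Cardinal

/-- The density of a span is at most the density of the spanning set. -/
theorem Rec_span {V : Type} [AddCommGroup V] [Module ℝ V] [TopologicalSpace V] [ContinuousAdd V]
    [ContinuousSMul ℝ V] {μ : Cardinal.{0}} (hμ : ℵ₀ ≤ μ) (S T : Set V) (hT : #T ≤ μ)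
    (hST : S ⊆ closure T) :
    ∃ t : Set V, #t ≤ μ ∧ (Submodule.span ℝ S : Set V) ⊆ closure t := by
  let g : List (T × ℚ) → V := fun l => (l.map fun p => ((p.2 : ℚ) : ℝ) • (p.1 : V)).sum
  have hadd : ∀ a ∈ range g, ∀ b ∈ range g, a + b ∈ range g := by
    rintro _ ⟨l, rfl⟩ _ ⟨l', rfl⟩
    refine ⟨l ++ l', ?_⟩
    simp only [g, List.map_append, List.sum_append]
  have hsmul : ∀ a ∈ range ((↑) : ℚ → ℝ), ∀ b ∈ range g, a • b ∈ range g := by
    rintro _ ⟨q, rfl⟩ _ ⟨l, rfl⟩
    refine ⟨l.map fun p => (p.1, q * p.2), ?_⟩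
    simp only [g, List.map_map, Function.comp_def, List.smul_sum]
    congr 1
    apply List.map_congr_left
    intro p _
    push_cast
    rw [mul_smul]
  let W : Submodule ℝ V :=
    { carrier := closure (range g)
      add_mem' := fun {a b} ha hb => map_mem_closure₂ continuous_add ha hb hadd
      zero_mem' := subset_closure ⟨[], by simp [g]⟩
      smul_mem' := fun c x hx => by
        have hc : c ∈ closure (range ((↑) : ℚ → ℝ)) := Rat.denseRange_cast c
        exact map_mem_closure₂ continuous_smul hc hx hsmul }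
  refine ⟨range g, ?_, ?_⟩
  · refine mk_range_le.trans ((mk_list_le_max _).trans (max_le hμ ?_))
    rw [mk_prod, lift_id, lift_id]
    exact (mul_le_mul' hT ((mk_eq_aleph0 ℚ).le.trans hμ)).trans (mul_eq_self hμ).le
  · have h : Submodule.span ℝ S ≤ W := by
      rw [Submodule.span_le]
      refine hST.trans ?_
      change closure T ⊆ closure (range g)
      apply closure_mono
      intro x hx
      exact ⟨[(⟨x, hx⟩, 1)], by simp [g]⟩
    exact h

/-- The subspaces of the construction. -/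
def Rec_L {X : Type} [NormedAddCommGroup X] [Module ℝ X] {Λ : Type} (lt : Λ → Λ → Prop)
    (Y : Submodule ℝ X) {N : Type} [NormedAddCommGroup N]
    [NormedSpace ℝ N] (r : N → X) (y : Λ → N) (l : Λ) (g : (i : Λ) → lt i l → X) :
    Submodule ℝ X :=
  Submodule.span ℝ ((Y : Set X) ∪ r '' (Submodule.span ℝ (y '' {i | ¬ lt l i}) : Set N) ∪
    range fun i : {i // lt i l} => g i i.2)

theorem Rec_dens {X : Type} [NormedAddCommGroup X] [Module ℝ X] [FN X] {Λ : Type}
    (lt : Λ → Λ → Prop) [IsWellOrder Λ lt]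
    (Y : Submodule ℝ X) (hY : IsSeparable (Y : Set X)) {N : Type} [NormedAddCommGroup N]
    [NormedSpace ℝ N] (r : N → X) (hr : Continuous r) (y : Λ → N) (l : Λ)
    (g : (i : Λ) → lt i l → X) {μ : Cardinal.{0}} (hμ : ℵ₀ ≤ μ) (hl : #{i | ¬ lt l i} ≤ μ) :
    ∃ t : Set X, #t ≤ μ ∧ (Rec_L lt Y r y l g : Set X) ⊆ closure t := by
  obtain ⟨c, hc, hcY⟩ := hY
  obtain ⟨t₁, ht₁, ht₁'⟩ := Rec_span hμ (y '' {i | ¬ lt l i}) (y '' {i | ¬ lt l i})
    (mk_image_le.trans hl) subset_closure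
  refine Rec_span hμ _ (c ∪ r '' t₁ ∪ range fun i : {i // lt i l} => g i i.2) ?_ ?_
  · have h1 : #c ≤ μ := (mk_le_aleph0_iff.2 hc.to_subtype).trans hμ
    have h2 : #(r '' t₁) ≤ μ := mk_image_le.trans ht₁
    have h3 : #(range fun i : {i // lt i l} => g i i.2) ≤ μ := by
      refine mk_range_le.trans (le_trans ?_ hl)
      refine mk_subtype_mono ?_
      intro i hi h
      exact (asymm hi) h
    calc #(c ∪ r '' t₁ ∪ range fun i : {i // lt i l} => g i i.2 : Set X)
        ≤ #(c ∪ r '' t₁ : Set X) + #(range fun i : {i // lt i l} => g i i.2) := mk_union_le _ _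
      _ ≤ (#c + #(r '' t₁)) + #(range fun i : {i // lt i l} => g i i.2) := by
          gcongr; exact mk_union_le _ _
      _ ≤ (μ + μ) + μ := by gcongr
      _ = μ := by rw [add_eq_self hμ, add_eq_self hμ]
  · rw [closure_union, closure_union]
    refine union_subset_union (union_subset_union hcY ?_) subset_closure
    exact (image_mono ht₁').trans (image_closure_subset_closure_image hr)

/-- [TOR-REC] Proof. Well-order `Λ` by `lt` in order type `(#Λ).ord`, so that `{i | lt i l}` has cardinality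
`< #Λ ≤ κ` for every `l`; then `μ l = max ℵ₀ #{i | ¬ lt l i} < κ` (`{i | ¬ lt l i}` is
`{i | lt i l} ∪ {l}`). For a family `e` of vectors put
`L l = span (Y ∪ r '' (span (y '' {i | ¬ lt l i})) ∪ {e i | lt i l})`; it has a subset `t` with `#t ≤ μ l` and
`L l ⊆ closure t` (density of spans, of continuous images, of unions). By `exists_eta` for `μ l` there
are `N₀ l` and a vector `e l` with `(1/2)^(N₀ l) ≤ ‖e l - q‖` for all `q ∈ L l` (well-founded recursion
on `lt`: `e l` depends only on `e i`, `lt i l`; `N₀ l` depends only on `μ l`). `M l = max (n l) (N₀ l)` and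
`v l` from `exists_curve (L l) (M l) (e l)`. `v l' c ∈ L l' ⊔ span {e l'} ≤ L l` if `lt l' l`. -/
theorem exists_curves {κ : Cardinal.{0}} (hκ : ℵ₀ < κ) {X : Type} [NormedAddCommGroup X]
    [Module ℝ X] [FN X] (hX : ∀ μ < κ, ¬ DensLE μ X) {Λ : Type} (hΛ : #Λ ≤ κ) (n : Λ → ℕ)
    (Y : Submodule ℝ X) (hY : IsSeparable (Y : Set X)) {N : Type} [NormedAddCommGroup N]
    [NormedSpace ℝ N] (r : N → X) (hr : Continuous r) (y : Λ → N) :
    ∃ (lt : Λ → Λ → Prop) (_ : IsWellOrder Λ lt) (M : Λ → ℕ) (L : Λ → Submodule ℝ X)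
      (v : Λ → ℝ → X), (∀ l, n l ≤ M l) ∧ (∀ l, Y ≤ L l) ∧
      (∀ l, ∀ p ∈ Submodule.span ℝ (y '' {i | ¬ lt l i}), r p ∈ L l) ∧
      (∀ l l' c, lt l' l → v l' c ∈ L l) ∧ (∀ l, Continuous (v l)) ∧ (∀ l, v l 0 = 0) ∧
      (∀ l, ∀ c ∈ Icc (0 : ℝ) 1, ‖v l c‖ ≤ 6 * c * (1 / 2) ^ M l) ∧
      ∀ l, ∀ c ∈ Icc (0 : ℝ) 1, ∀ q ∈ L l, c * (1 / 2) ^ M l / 2 ≤ ‖v l c - q‖ := by
  obtain ⟨lt, wo, hord⟩ := exists_ord_eq Λ
  have hμ : ∀ l, max ℵ₀ #{i | ¬ lt l i} < κ := by
    intro l
    refine max_lt hκ ?_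
    have h1 : #{i | lt i l} < #Λ := by
      have h := card_typein_lt l hord
      rwa [Ordinal.card_typein] at h
    have h2 : #{i | ¬ lt l i} ≤ #{i | lt i l} + 1 := by
      have h3 : {i | ¬ lt l i} ⊆ {i | lt i l} ∪ {l} := by
        intro i hi
        rcases trichotomous_of lt i l with h | h | h
        · exact Or.inl h
        · exact Or.inr h
        · exact absurd h hi
      refine (mk_le_mk_of_subset h3).trans ((mk_union_le _ _).trans ?_)
      rw [mk_singleton]
    exact h2.trans_lt (add_lt_of_lt hκ.le (h1.trans_le hΛ) (one_lt_aleph0.trans hκ))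
  choose N₀ hN₀ using fun l => exists_eta (X := X) (le_max_left ℵ₀ #{i | ¬ lt l i}) (hX _ (hμ l))
  have hex : ∀ (l : Λ) (g : (i : Λ) → lt i l → X), ∃ x, ∀ q ∈ Rec_L lt Y r y l g,
      (1 / 2 : ℝ) ^ N₀ l ≤ ‖x - q‖ := fun l g =>
    hN₀ l _ (Rec_dens lt Y hY r hr y l g (le_max_left _ _) (le_max_right _ _))
  choose F hF using hex
  let e : Λ → X := (IsWellFounded.wf (r := lt)).fix F
  have he : ∀ l, e l = F l (fun i _ => e i) := fun l => WellFounded.fix_eq _ _ _
  let L : Λ → Submodule ℝ X := fun l => Rec_L lt Y r y l (fun i _ => e i)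
  have hL : ∀ l, L l = Rec_L lt Y r y l (fun i _ => e i) := fun _ => rfl
  have he' : ∀ l, ∀ q ∈ L l, (1 / 2 : ℝ) ^ (max (n l) (N₀ l)) ≤ ‖e l - q‖ := by
    intro l q hq
    refine le_trans ?_ ((hF l (fun i _ => e i) q hq).trans_eq (by rw [he l]))
    exact pow_le_pow_of_le_one (by norm_num) (by norm_num) (le_max_right _ _)
  choose v hv1 hv2 hv3 hv4 hv5 using fun l => exists_curve (L l) (max (n l) (N₀ l)) (e l) (he' l)
  have hYL : ∀ l, Y ≤ L l := by
    intro l p hp
    exact Submodule.subset_span (Or.inl (Or.inl hp))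
  have hrL : ∀ l, ∀ p ∈ Submodule.span ℝ (y '' {i | ¬ lt l i}), r p ∈ L l := by
    intro l p hp
    exact Submodule.subset_span (Or.inl (Or.inr ⟨p, hp, rfl⟩))
  have heL : ∀ l i, lt i l → e i ∈ L l := by
    intro l i hi
    exact Submodule.subset_span (Or.inr ⟨⟨i, hi⟩, rfl⟩)
  have hmono : ∀ l l', lt l' l → L l' ≤ L l := by
    intro l l' h
    rw [hL l', Rec_L, Submodule.span_le]
    rintro x ((hx | ⟨p, hp, rfl⟩) | ⟨i, rfl⟩)
    · exact hYL l hx
    · refine hrL l p (Submodule.span_mono (image_mono ?_) hp)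
      intro i hi hli
      exact hi (trans_of lt h hli)
    · exact heL l _ (trans_of lt i.2 h)
  refine ⟨lt, wo, fun l => max (n l) (N₀ l), L, v, fun l => le_max_left _ _, hYL, hrL, ?_, hv1,
    hv2, hv4, hv5⟩
  intro l l' c h
  have h1 : L l' ⊔ Submodule.span ℝ {e l'} ≤ L l := by
    refine sup_le (hmono l l' h) ?_
    rw [Submodule.span_singleton_le_iff_mem]
    exact heL l l' h
  exact h1 (hv3 l' c)

end Pool.Agent.MP_645085_gt.TOR
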