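import Pool.Agent.MP_645085_gt.TOR.Ctl

/-!
# TOR row [TOR-WGT]: weights
-/

namespace Pool.Agent.MP_645085_gt.TOR

open Set Filter Topology TopologicalSpace Metric

/-- The geometric bound for the thresholds. -/
theorem Wgt_geom {Λ : Type} (S : Finset Λ) (m : Λ → ℕ) (hm : Set.InjOn m S) :
    ∑ l ∈ S, 2 * (1 / 2 : ℝ) ^ (m l + 4) ≤ 1 / 4 := by
  classical
  have h1 : ∑ l ∈ S, 2 * (1 / 2 : ℝ) ^ (m l + 4) = ∑ k ∈ S.image m, (1 / 8 : ℝ) * (1 / 2) ^ k := by
    rw [Finset.sum_image hm]
    refine Finset.sum_congr rfl fun l _ => ?_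
    rw [pow_add]
    ring
  rw [h1, ← Finset.mul_sum]
  have h2 : ∑ k ∈ S.image m, (1 / 2 : ℝ) ^ k ≤ 2 := by
    have h3 := Summable.sum_le_tsum (S.image m) (fun k _ => by positivity)
      (summable_geometric_two : Summable fun n : ℕ => ((1 : ℝ) / 2) ^ n)
    rwa [tsum_geometric_two] at h3
  linarith

/-- [TOR-WGT] Proof. `t z = ∑ᶠ l, N l * a l z`, `a' l z = a l z * cl01 (2 * t z + 2 - N l)`,
`γ l = (1/2)^(m l + 4)`, `p l z = max 0 (a' l z - 2 * γ l)`, `π l z = p l z / ∑ᶠ l', p l' z`,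
`lam l z = cl01 ((a' l z - γ l) / γ l)`. All sums are locally finite. `∑ᶠ l, p l z ≥ 1/4`: (Markov)
`∑_{N l > 2 t} a l z ≤ 1/2` (if `t z = 0` then `N l = 0` for all active `l`), so `∑ a' ≥ 1/2`; at most one
active `l` has `m l = k`, so the sum of `2 * γ l` over active `l` is `≤ ∑_k 2 (1/2)^(k+4) = 1/4`.
`π l z ≠ 0 → a' l z > 2 * γ l → lam l z = 1`; `lam l z ≠ 0 → a' l z > γ l > 0`, so `a l z ≠ 0` and
`N l < 2 * t z + 2`. -/
theorem exists_weights {Z Λ : Type} [TopologicalSpace Z] (a : Λ → Z → ℝ) (m N : Λ → ℕ)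
    (hc : ∀ l, Continuous (a l)) (hlf : LocallyFinite fun l => Function.support (a l))
    (h0 : ∀ l z, 0 ≤ a l z) (h1 : ∀ z, ∑ᶠ l, a l z = 1)
    (hm : ∀ l l' z, a l z ≠ 0 → a l' z ≠ 0 → m l = m l' → l = l') :
    ∃ (t : Z → ℝ) (π lam : Λ → Z → ℝ), Continuous t ∧ (∀ z, 0 ≤ t z) ∧
      (∀ l, Continuous (π l)) ∧ (∀ l, Continuous (lam l)) ∧ (∀ l z, 0 ≤ π l z) ∧
      (∀ z, ∑ᶠ l, π l z = 1) ∧ (∀ l z, 0 ≤ lam l z) ∧ (∀ l z, lam l z ≤ 1) ∧
      (∀ l z, π l z ≠ 0 → lam l z = 1) ∧
      ∀ l z, lam l z ≠ 0 → a l z ≠ 0 ∧ (N l : ℝ) ≤ 2 * t z + 2 := by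
  classical
  -- general facts on locally finite sums
  let S : Z → Finset Λ := fun z => (hlf.point_finite z).toFinset
  have hS : ∀ z l, l ∈ S z ↔ a l z ≠ 0 := by
    intro z l
    simp [S, Function.mem_support]
  have hsum : ∀ (f : Λ → ℝ) (z : Z), (∀ l, a l z = 0 → f l = 0) →
      ∑ᶠ l, f l = ∑ l ∈ S z, f l := by
    intro f z hf
    refine finsum_eq_sum_of_support_subset _ ?_
    intro l hl
    have : f l ≠ 0 := hl
    rw [Finset.mem_coe, hS]
    exact fun h => this (hf l h)
  have hcont : ∀ f : Λ → Z → ℝ, (∀ l, Continuous (f l)) → (∀ l z, a l z = 0 → f l z = 0) →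
      Continuous fun z => ∑ᶠ l, f l z := by
    intro f hf h
    refine continuous_finsum hf (hlf.subset fun l z hz => ?_)
    have : f l z ≠ 0 := hz
    exact fun h' => this (h l z h')
  have hsa : ∀ z, ∑ l ∈ S z, a l z = 1 := by
    intro z
    rw [← hsum (fun l => a l z) z (fun l h => h)]
    exact h1 z
  -- t
  let t : Z → ℝ := fun z => ∑ᶠ l, (N l : ℝ) * a l z
  have ht : Continuous t := hcont (fun l z => (N l : ℝ) * a l z)
    (fun l => continuous_const.mul (hc l)) (fun l z h => by simp [h])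
  have htS : ∀ z, t z = ∑ l ∈ S z, (N l : ℝ) * a l z := fun z =>
    hsum (fun l => (N l : ℝ) * a l z) z (fun l h => by simp [h])
  have ht0 : ∀ z, 0 ≤ t z := by
    intro z
    rw [htS]
    exact Finset.sum_nonneg fun l _ => mul_nonneg (Nat.cast_nonneg _) (h0 l z)
  -- a'
  let a' : Λ → Z → ℝ := fun l z => a l z * cl01 (2 * t z + 2 - N l)
  have ha'c : ∀ l, Continuous (a' l) := fun l =>
    (hc l).mul (continuous_cl01.comp (by fun_prop))
  have ha'0 : ∀ l z, 0 ≤ a' l z := fun l z => mul_nonneg (h0 l z) (cl01_nonneg _)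
  have ha'z : ∀ l z, a l z = 0 → a' l z = 0 := fun l z h => by simp [a', h]
  let γ : Λ → ℝ := fun l => (1 / 2 : ℝ) ^ (m l + 4)
  have hγ : ∀ l, 0 < γ l := fun l => by positivity
  -- the Markov inequality
  have hmarkov : ∀ z, 1 / 2 ≤ ∑ l ∈ S z, a' l z := by
    intro z
    rcases (ht0 z).eq_or_lt with h | h
    · have h2 : ∀ l ∈ S z, (N l : ℝ) * a l z = 0 := by
        have h3 := h.symm
        rw [htS] at h3
        exact (Finset.sum_eq_zero_iff_of_nonneg
          fun l _ => mul_nonneg (Nat.cast_nonneg _) (h0 l z)).1 h3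
      have h3 : ∀ l ∈ S z, a' l z = a l z := by
        intro l hl
        have h4 := h2 l hl
        have h5 : (N l : ℝ) = 0 := by
          rcases mul_eq_zero.1 h4 with h6 | h6
          · exact h6
          · exact absurd h6 ((hS z l).1 hl)
        show a l z * cl01 (2 * t z + 2 - N l) = a l z
        rw [h5, cl01_of_one_le (by linarith), mul_one]
      rw [Finset.sum_congr rfl h3, hsa]
      norm_num
    · have h2 : ∀ l ∈ S z, a l z - (N l : ℝ) * a l z / (2 * t z) ≤ a' l z := by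
        intro l _
        rcases le_or_gt (N l : ℝ) (2 * t z) with h3 | h3
        · have h4 : a' l z = a l z := by
            show a l z * cl01 (2 * t z + 2 - N l) = a l z
            rw [cl01_of_one_le (by linarith), mul_one]
          rw [h4]
          have : 0 ≤ (N l : ℝ) * a l z / (2 * t z) :=
            div_nonneg (mul_nonneg (Nat.cast_nonneg _) (h0 l z)) (by linarith)
          linarith
        · have h4 : a l z ≤ (N l : ℝ) * a l z / (2 * t z) := by
            rw [le_div_iff₀ (by linarith)]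
            nlinarith [h0 l z]
          linarith [ha'0 l z]
      have h3 := Finset.sum_le_sum h2
      rw [Finset.sum_sub_distrib, hsa, ← Finset.sum_div, ← htS] at h3
      have h4 : t z / (2 * t z) = 1 / 2 := by field_simp
      rw [h4] at h3
      linarith
  -- p
  let p : Λ → Z → ℝ := fun l z => max 0 (a' l z - 2 * γ l)
  have hpc : ∀ l, Continuous (p l) := fun l =>
    continuous_const.max ((ha'c l).sub continuous_const)
  have hp0 : ∀ l z, 0 ≤ p l z := fun l z => le_max_left _ _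
  have hpz : ∀ l z, a l z = 0 → p l z = 0 := fun l z h => by
    show max 0 (a' l z - 2 * γ l) = 0
    rw [ha'z l z h]
    exact max_eq_left (by linarith [hγ l])
  have hpne : ∀ l z, p l z ≠ 0 → 2 * γ l < a' l z := by
    intro l z h
    by_contra hcon
    exact h (max_eq_left (by linarith))
  let P : Z → ℝ := fun z => ∑ᶠ l, p l z
  have hPc : Continuous P := hcont p hpc hpz
  have hPS : ∀ z, P z = ∑ l ∈ S z, p l z := fun z => hsum (fun l => p l z) z (fun l h => hpz l z h)
  have hP : ∀ z, 1 / 4 ≤ P z := by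
    intro z
    rw [hPS]
    have h2 : ∑ l ∈ S z, (a' l z - 2 * γ l) ≤ ∑ l ∈ S z, p l z :=
      Finset.sum_le_sum fun l _ => le_max_right _ _
    rw [Finset.sum_sub_distrib] at h2
    have h3 : ∑ l ∈ S z, 2 * γ l ≤ 1 / 4 := by
      refine Wgt_geom (S z) m ?_
      intro l hl l' hl' h
      rw [Finset.mem_coe, hS] at hl hl'
      exact hm l l' z hl hl' h
    have h4 := hmarkov z
    linarith
  have hP0 : ∀ z, P z ≠ 0 := fun z => by linarith [hP z] |> fun (h : (0:ℝ) < P z) => h.ne'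
  refine ⟨t, fun l z => p l z / P z, fun l z => cl01 ((a' l z - γ l) / γ l), ht, ht0, ?_, ?_, ?_,
    ?_, ?_, ?_, ?_, ?_⟩
  · intro l
    exact (hpc l).div hPc hP0
  · intro l
    exact continuous_cl01.comp (((ha'c l).sub continuous_const).div_const _)
  · intro l z
    exact div_nonneg (hp0 l z) (by linarith [hP z])
  · intro z
    rw [hsum (fun l => p l z / P z) z (fun l h => by simp [hpz l z h]), ← Finset.sum_div, ← hPS]
    exact div_self (hP0 z)
  · intro l z
    exact cl01_nonneg _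
  · intro l z
    exact cl01_le_one _
  · intro l z h
    have h2 : p l z ≠ 0 := by
      intro h3
      apply h
      simp [h3]
    have h3 := hpne l z h2
    refine cl01_of_one_le ?_
    rw [le_div_iff₀ (hγ l)]
    linarith
  · intro l z h
    have h2 : γ l < a' l z := by
      by_contra hcon
      apply h
      refine cl01_of_nonpos ?_
      exact div_nonpos_of_nonpos_of_nonneg (by linarith) (hγ l).le
    have h3 : a' l z ≠ 0 := by linarith [hγ l] |> fun (h : (0:ℝ) < a' l z) => h.ne'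
    refine ⟨fun h4 => h3 (ha'z l z h4), ?_⟩
    by_contra hcon
    apply h3
    show a l z * cl01 (2 * t z + 2 - N l) = 0
    rw [cl01_of_nonpos (by linarith), mul_zero]

end Pool.Agent.MP_645085_gt.TOR
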