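import Pool.Agent.MP_645085_gt.TOR.Base
import Pool.Agent.MP_645085_gt.TOR.Wgt
import Pool.Agent.MP_645085_gt.TOR.Kur
import Pool.Agent.MP_645085_gt.TOR.Push
import Pool.Agent.MP_645085_gt.TOR.Rec
import Pool.Agent.MP_645085_gt.TOR.Elim

/-!
# TOR row [TOR-DNS]: property (D) in the non-separable case
-/

namespace Pool.Agent.MP_645085_gt.TOR

open Set Filter Topology TopologicalSpace Metric Cardinal

/-- the sum of `(1/2)^(m l)` over a finite set on which `m` is injective. -/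
private theorem DNonsep_geom {Λ : Type} (F : Finset Λ) (m : Λ → ℕ)
    (hm : ∀ l ∈ F, ∀ l' ∈ F, m l = m l' → l = l') : ∑ l ∈ F, (1 / 2 : ℝ) ^ m l ≤ 2 := by
  classical
  rw [← Finset.sum_image (f := fun k => (1 / 2 : ℝ) ^ k) (g := m) (s := F)
    (fun l hl l' hl' h => hm l hl l' hl' h)]
  calc ∑ k ∈ F.image m, (1 / 2 : ℝ) ^ k ≤ ∑' k : ℕ, (1 / 2 : ℝ) ^ k := by
        refine Summable.sum_le_tsum _ (fun i _ => by positivity) ?_
        exact summable_geometric_two
    _ = 2 := tsum_geometric_two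

/-- [TOR-DNS] Assembly. `X` is not separable (`DensLE ℵ₀ X` fails). Given `Z, g, ε, v`:
`j, r` from `exists_retraction`; `Λ, a, m, y` from `exists_base` (controls `ε, v`); `Y, Φ` from
`exists_push` (control `ε`); `n : Λ → ℕ` with `n l ≥ m l` and `6 * (1/2)^(n l) ≤ (1/2)^(m l) * ε (y l) / 64`;
`lt, M, L, v'` from `exists_curves` with `y := j ∘ y`; `t, π, lam` from `exists_weights` with `N := M`.
`x z = r (∑ᶠ l, π l z • j (y l))`, `x' z = x z + ∑ᶠ l, v' l (lam l z)` (locally finite since `lam l z ≠ 0`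
implies `a l z ≠ 0`, and `v' l 0 = 0`), `ψ z = Φ (x' z) (t z)`.
Nearness: `‖x z - g z‖ ≤ ε (g z) / 4` (`π l z ≠ 0 → lam l z ≠ 0 → a l z ≠ 0`);
`‖x' z - x z‖ ≤ ∑ 6 (1/2)^(M l) ≤ ∑_{active l} (1/2)^(m l) * 2 * ε (g z) / 64 ≤ ε (g z) / 16` (`m` is injective
on the active labels); `‖ψ z - x' z‖ ≤ ε (x' z) / 4 ≤ (ε (g z) + ‖x' z - g z‖) / 4`; total `≤ ε (g z)`.
`v`-map: given `y₀`, take `r₀, K₀` from `exists_push`: `‖ψ z - y₀‖ < r₀ → t z ≤ K₀`. Let `K ≥ 2 K₀ + 2` be an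
integer, `δ = (1/2)^K / (2 * 13^(2*K+2))`, `ρ = min r₀ (δ / 2)`. Let `z₀` be any point with
`dist (ψ z₀) y₀ < ρ` (if there is none, any `z₀`). For `z` with `dist (ψ z) y₀ < ρ` let
`F = {l | lam l z ≠ 0}`, `G = {l | π l z ≠ 0} ⊆ F`, and `F', G'` for `z₀`: `M l ≤ 2 t + 2 ≤ K` on them, and as
`m l ≤ n l ≤ M l ≤ K` and `m` is injective on active labels, `F.card ≤ K + 1`. If `F` and `F'` were
disjoint, `elimination` (`q = (ψ z - x' z) - (ψ z₀ - x' z₀) ∈ Y`, `x z ∈ L l` when all `i ∈ G` satisfy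
`¬ lt l i`, by the third clause of `exists_curves`) would give `δ ≤ ‖ψ z - ψ z₀‖ < 2 ρ ≤ δ`. So there is
`l` with `a l z ≠ 0`, `a l z₀ ≠ 0`, and `dist z z₀ < v z₀` by `exists_base`. -/
theorem dprop_nonsep {κ : Cardinal.{0}} (hκ : ℵ₀ < κ) (X : Type) [NormedAddCommGroup X]
    [Module ℝ X] [FN X] [CompleteSpace X] (hAE : AE X) (hX : ∀ μ < κ, ¬ DensLE μ X) :
    DProp κ X := by
  classical
  intro Z _ _ hZ g hg ε hε v hv
  have hns : ¬ SeparableSpace X := by
    intro hsep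
    obtain ⟨s, hs, hsd⟩ := TopologicalSpace.exists_countable_dense X
    exact hX ℵ₀ hκ ⟨s, hsd, Cardinal.le_aleph0_iff_set_countable.mpr hs⟩
  obtain ⟨N, i1, i2, j, r, hj, hr, hrj⟩ := exists_retraction X hAE
  obtain ⟨Λ, a, m, y, hΛ, hac, hlf, ha0, ha1, hm, hεy, hnear, hdist⟩ :=
    exists_base hκ.le j r hj hr hrj hZ g hg ε hε v hv
  obtain ⟨Y, Φ, hYsep, hΦc, hΦn, hΦY, hΦK⟩ := exists_push hns ε hε
  have hn : ∀ l : Λ, ∃ n : ℕ, m l ≤ n ∧ 6 * (1 / 2 : ℝ) ^ n ≤ (1 / 2) ^ m l * ε (y l) / 64 := by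
    intro l
    have hpos : 0 < (1 / 2 : ℝ) ^ m l * ε (y l) / 64 / 6 := by
      have := hε.pos (y l)
      positivity
    obtain ⟨k, hk⟩ := exists_pow_lt_of_lt_one hpos (by norm_num : (1 / 2 : ℝ) < 1)
    refine ⟨max (m l) k, le_max_left _ _, ?_⟩
    have h2 : (1 / 2 : ℝ) ^ max (m l) k ≤ (1 / 2) ^ k :=
      pow_le_pow_of_le_one (by norm_num) (by norm_num) (le_max_right _ _)
    linarith
  choose n hnm hn6 using hn
  obtain ⟨lt, hwo, M, L, v', hnM, hYL, hrL, hvL, hvc, hv0, hvn, hvfar⟩ :=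
    exists_curves hκ hX hΛ n Y hYsep r hr (fun l => j (y l))
  obtain ⟨t, π, lam, htc, ht0, hπc, hlamc, hπ0, hπ1, hlam0, hlam1, hπlam, hlamM⟩ :=
    exists_weights a m M hac hlf ha0 ha1 hm
  have hπa : ∀ l z, π l z ≠ 0 → a l z ≠ 0 := by
    intro l z h
    have h1 := hπlam l z h
    exact (hlamM l z (by rw [h1]; exact one_ne_zero)).1
  -- finite sets of active labels
  have hfinA : ∀ z, {l | a l z ≠ 0}.Finite := fun z => hlf.point_finite z
  have hfinF : ∀ z, {l | lam l z ≠ 0}.Finite := fun z =>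
    (hfinA z).subset fun l hl => (hlamM l z hl).1
  have hfinG : ∀ z, {l | π l z ≠ 0}.Finite := fun z => (hfinA z).subset fun l hl => hπa l z hl
  obtain ⟨F, hF⟩ : ∃ F : Z → Finset Λ, ∀ z l, l ∈ F z ↔ lam l z ≠ 0 :=
    ⟨fun z => (hfinF z).toFinset, fun z l => by simp⟩
  obtain ⟨G, hG⟩ : ∃ G : Z → Finset Λ, ∀ z l, l ∈ G z ↔ π l z ≠ 0 :=
    ⟨fun z => (hfinG z).toFinset, fun z l => by simp⟩
  have hGF : ∀ z, G z ⊆ F z := by
    intro z l hl
    rw [hF]
    rw [hG] at hl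
    rw [hπlam l z hl]
    exact one_ne_zero
  -- the maps
  obtain ⟨p, hp⟩ : ∃ p : Z → N, ∀ z, p z = ∑ᶠ l, π l z • j (y l) := ⟨_, fun z => rfl⟩
  obtain ⟨s, hs⟩ : ∃ s : Z → X, ∀ z, s z = ∑ᶠ l, v' l (lam l z) := ⟨_, fun z => rfl⟩
  have hpG : ∀ z, p z = ∑ l ∈ G z, π l z • j (y l) := by
    intro z
    rw [hp]
    refine finsum_eq_sum_of_support_subset _ ?_
    intro l hl
    rw [Finset.mem_coe, hG]
    intro h0
    apply hl
    show π l z • j (y l) = 0
    rw [h0, zero_smul]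
  have hsF : ∀ z, s z = ∑ l ∈ F z, v' l (lam l z) := by
    intro z
    rw [hs]
    refine finsum_eq_sum_of_support_subset _ ?_
    intro l hl
    rw [Finset.mem_coe, hF]
    intro h0
    apply hl
    show v' l (lam l z) = 0
    rw [h0, hv0]
  have hpc : Continuous p := by
    have : p = fun z => ∑ᶠ l, π l z • j (y l) := funext hp
    rw [this]
    refine continuous_finsum (fun l => (hπc l).smul continuous_const) ?_
    refine hlf.subset fun l z hz => hπa l z ?_
    intro h0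
    apply hz
    show π l z • j (y l) = 0
    rw [h0, zero_smul]
  have hsc : Continuous s := by
    have : s = fun z => ∑ᶠ l, v' l (lam l z) := funext hs
    rw [this]
    refine continuous_finsum (fun l => (hvc l).comp (hlamc l)) ?_
    refine hlf.subset fun l z hz => (hlamM l z ?_).1
    intro h0
    apply hz
    show v' l (lam l z) = 0
    rw [h0, hv0]
  have hx'c : Continuous fun z => r (p z) + s z := (hr.comp hpc).add hsc
  -- nearness
  have hpn : ∀ z, ‖r (p z) - g z‖ ≤ ε (g z) / 4 := by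
    intro z
    rw [hp]
    exact hnear z (fun l => π l z) (fun l => hπ0 l z) (fun l hl => hπa l z hl) (hπ1 z)
  have hlamI : ∀ l z, lam l z ∈ Icc (0 : ℝ) 1 := fun l z => ⟨hlam0 l z, hlam1 l z⟩
  have hinjF : ∀ z, ∀ l ∈ F z, ∀ l' ∈ F z, m l = m l' → l = l' := by
    intro z l hl l' hl' h
    rw [hF] at hl hl'
    exact hm l l' z (hlamM l z hl).1 (hlamM l' z hl').1 h
  have hsn : ∀ z, ‖s z‖ ≤ ε (g z) / 16 := by
    intro z
    have hεg := hε.pos (g z)
    rw [hsF]
    calc ‖∑ l ∈ F z, v' l (lam l z)‖ ≤ ∑ l ∈ F z, ‖v' l (lam l z)‖ := norm_sum_le _ _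
      _ ≤ ∑ l ∈ F z, (1 / 2 : ℝ) ^ m l * (ε (g z) / 32) := by
          refine Finset.sum_le_sum fun l hl => ?_
          rw [hF] at hl
          have h1 := hvn l _ (hlamI l z)
          have h2 : 6 * lam l z * (1 / 2 : ℝ) ^ M l ≤ 6 * (1 / 2 : ℝ) ^ n l := by
            have h3 : (1 / 2 : ℝ) ^ M l ≤ (1 / 2) ^ n l :=
              pow_le_pow_of_le_one (by norm_num) (by norm_num) (hnM l)
            have h4 : 6 * lam l z * (1 / 2 : ℝ) ^ M l ≤ 6 * 1 * (1 / 2 : ℝ) ^ M l := by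
              have := hlam1 l z
              gcongr
            linarith
          have h5 := hn6 l
          have h6 := (hεy l z (hlamM l z hl).1).2
          have h7 : (1 / 2 : ℝ) ^ m l * ε (y l) / 64 ≤ (1 / 2 : ℝ) ^ m l * (2 * ε (g z)) / 64 := by
            gcongr
          calc ‖v' l (lam l z)‖ ≤ (1 / 2 : ℝ) ^ m l * (2 * ε (g z)) / 64 := by linarith
            _ = (1 / 2 : ℝ) ^ m l * (ε (g z) / 32) := by ring
      _ = (∑ l ∈ F z, (1 / 2 : ℝ) ^ m l) * (ε (g z) / 32) := by rw [Finset.sum_mul]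
      _ ≤ 2 * (ε (g z) / 32) := by
          have := DNonsep_geom (F z) m (hinjF z)
          gcongr
      _ = ε (g z) / 16 := by ring
  refine ⟨fun z => Φ (r (p z) + s z) (t z), ?_, ?_, ?_⟩
  · exact hΦc.comp (hx'c.prodMk htc)
  · intro z
    have hεg := hε.pos (g z)
    have h1 := hpn z
    have h2 := hsn z
    have h3 := hΦn (r (p z) + s z) (t z)
    have h4 : ‖r (p z) + s z - g z‖ ≤ ε (g z) / 4 + ε (g z) / 16 := by
      calc ‖r (p z) + s z - g z‖ = ‖(r (p z) - g z) + s z‖ := by congr 1; abel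
        _ ≤ ‖r (p z) - g z‖ + ‖s z‖ := norm_add_le _ _
        _ ≤ _ := by linarith
    have h5 : ε (r (p z) + s z) ≤ ε (g z) + ‖r (p z) + s z - g z‖ := by
      have := hε.lip (r (p z) + s z) (g z)
      rw [dist_eq_norm] at this
      have := (abs_le.mp this).2
      linarith
    calc ‖Φ (r (p z) + s z) (t z) - g z‖
        = ‖(Φ (r (p z) + s z) (t z) - (r (p z) + s z)) + (r (p z) + s z - g z)‖ := by
          congr 1; abel
      _ ≤ ‖Φ (r (p z) + s z) (t z) - (r (p z) + s z)‖ + ‖r (p z) + s z - g z‖ := norm_add_le _ _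
      _ ≤ ε (g z) := by linarith
  · intro y₀
    obtain ⟨r₀, hr₀, K₀, hK₀⟩ := hΦK y₀
    obtain ⟨K, hK⟩ := exists_nat_ge (2 * K₀ + 2)
    set δ : ℝ := (1 / 2) ^ K / (2 * 13 ^ (2 * K + 2)) with hδ
    have hδpos : 0 < δ := by positivity
    refine ⟨min r₀ (δ / 2), lt_min hr₀ (by positivity), ?_⟩
    by_cases hex : ∃ z₀, dist (Φ (r (p z₀) + s z₀) (t z₀)) y₀ < min r₀ (δ / 2)
    swap
    · push Not at hex
      refine ⟨Classical.arbitrary Z, fun z hz => ?_⟩
      exact absurd hz (not_lt.mpr (hex z))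
    obtain ⟨z₀, hz₀⟩ := hex
    have htK : ∀ z, dist (Φ (r (p z) + s z) (t z)) y₀ < min r₀ (δ / 2) →
        ∀ l ∈ F z, M l ≤ K := by
      intro z hz l hl
      rw [hF] at hl
      have h1 : ‖Φ (r (p z) + s z) (t z) - y₀‖ < r₀ := by
        rw [← dist_eq_norm]
        exact hz.trans_le (min_le_left _ _)
      have h2 := hK₀ _ _ h1
      have h3 := (hlamM l z hl).2
      have h4 : (M l : ℝ) ≤ (K : ℝ) := by linarith
      exact_mod_cast h4
    have hcardF : ∀ z, (∀ l ∈ F z, M l ≤ K) → (F z).card ≤ K + 1 := by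
      intro z hz
      have h1 : (F z).card ≤ (Finset.range (K + 1)).card := by
        refine Finset.card_le_card_of_injOn m ?_ ?_
        · intro l hl
          have h2 := hz l hl
          have h3 := hnm l
          have h4 := hnM l
          rw [Finset.coe_range, Set.mem_Iio]
          omega
        · intro l hl l' hl' h
          exact hinjF z l hl l' hl' h
      rwa [Finset.card_range] at h1
    have hGne : ∀ z, (G z).Nonempty := by
      intro z
      by_contra hne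
      rw [Finset.not_nonempty_iff_eq_empty] at hne
      have h1 := hπ1 z
      have h2 : ∀ l, π l z = 0 := by
        intro l
        by_contra h3
        have := (hG z l).mpr h3
        rw [hne] at this
        simp at this
      rw [finsum_congr h2, finsum_zero] at h1
      exact zero_ne_one h1
    have hxL : ∀ z l, (∀ i ∈ G z, ¬ lt l i) → r (p z) ∈ L l := by
      intro z l hl
      refine hrL l _ ?_
      rw [hpG]
      refine Submodule.sum_mem _ fun i hi => Submodule.smul_mem _ _ ?_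
      exact Submodule.subset_span ⟨i, hl i hi, rfl⟩
    refine ⟨z₀, fun z hz => ?_⟩
    by_cases hdis : Disjoint (F z) (F z₀)
    swap
    · rw [Finset.not_disjoint_iff] at hdis
      obtain ⟨l, hl, hl'⟩ := hdis
      rw [hF] at hl hl'
      exact hdist l z z₀ (hlamM l z hl).1 (hlamM l z₀ hl').1
    exfalso
    have hq : (Φ (r (p z) + s z) (t z) - (r (p z) + s z)) -
        (Φ (r (p z₀) + s z₀) (t z₀) - (r (p z₀) + s z₀)) ∈ Y := Y.sub_mem (hΦY _ _) (hΦY _ _)
    have hel := elimination lt M L v' Y hYL hvL hvn hvfar K (F z) (F z₀) (G z) (G z₀) (hGF z)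
      (hGF z₀) (hGne z) hdis (htK z hz) (htK z₀ hz₀) (hcardF z (htK z hz))
      (hcardF z₀ (htK z₀ hz₀)) (fun l => lam l z) (fun l => lam l z₀) (fun l => hlamI l z)
      (fun l => hlamI l z₀) (fun l hl => hπlam l z ((hG z l).mp hl))
      (fun l hl => hπlam l z₀ ((hG z₀ l).mp hl)) (r (p z)) (r (p z₀)) _ (hxL z) (hxL z₀) hq
    rw [← hsF z, ← hsF z₀, ← hδ] at hel
    have e1 : (r (p z) + s z) - (r (p z₀) + s z₀) +
        ((Φ (r (p z) + s z) (t z) - (r (p z) + s z)) -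
        (Φ (r (p z₀) + s z₀) (t z₀) - (r (p z₀) + s z₀))) =
        (Φ (r (p z) + s z) (t z) - y₀) - (Φ (r (p z₀) + s z₀) (t z₀) - y₀) := by abel
    rw [e1] at hel
    have h1 : ‖Φ (r (p z) + s z) (t z) - y₀‖ < δ / 2 := by
      rw [← dist_eq_norm]
      exact hz.trans_le (min_le_right _ _)
    have h2 : ‖Φ (r (p z₀) + s z₀) (t z₀) - y₀‖ < δ / 2 := by
      rw [← dist_eq_norm]
      exact hz₀.trans_le (min_le_right _ _)
    have h3 := norm_sub_le (Φ (r (p z) + s z) (t z) - y₀) (Φ (r (p z₀) + s z₀) (t z₀) - y₀)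
    linarith

end Pool.Agent.MP_645085_gt.TOR
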