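import Pool.Agent.MP_645085_gt.TOR.Path

/-!
# TOR row [TOR-QMAP]: a push escaping from an increasing sequence of compact sets
-/

namespace Pool.Agent.MP_645085_gt.TOR

open Set Filter Topology TopologicalSpace Metric

section QMapAux

set_option linter.unusedSectionVars false

variable {X : Type} [NormedAddCommGroup X] [Module ℝ X] [FN X]

/-- The closure of the half path `M '' [0, ∞)`. -/
private def QMap_K (M : ℝ → X) : Set X := insert 0 (range fun σ : ℝ => M |σ|)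

/-- The cone `[0, 1] • S`. -/
private def QMap_J (S : Set X) : Set X := (fun p : ℝ × X => p.1 • p.2) '' (Icc (0 : ℝ) 1 ×ˢ S)

private lemma QMap_K_compact (M : ℝ → X) (hc : Continuous M) (s : ℕ → ℝ)
    (hs : Tendsto s atTop (𝓝 0)) (hM : ∀ σ, 0 ≤ σ → ‖M σ‖ ≤ s ⌊σ⌋₊) : IsCompact (QMap_K M) := by
  refine Filter.Tendsto.isCompact_insert_range_of_cocompact ?_ (hc.comp continuous_abs)
  rw [tendsto_zero_iff_norm_tendsto_zero]
  have h1 : Tendsto (fun σ : ℝ => s ⌊|σ|⌋₊) (cocompact ℝ) (𝓝 0) :=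
    hs.comp (tendsto_nat_floor_atTop.comp (tendsto_norm_cocompact_atTop (E := ℝ)))
  exact squeeze_zero (fun _ => norm_nonneg _) (fun σ => hM _ (abs_nonneg _)) h1

open Pointwise in
private lemma QMap_sub_compact {S T : Set X} (hS : IsCompact S) (hT : IsCompact T) :
    IsCompact (S - T) := by
  have h : S - T = (fun p : X × X => p.1 - p.2) '' (S ×ˢ T) := by
    ext x
    simp only [Set.mem_sub, mem_image, mem_prod, Prod.exists]
    constructor
    · rintro ⟨a, ha, b, hb, rfl⟩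
      exact ⟨a, b, ⟨ha, hb⟩, rfl⟩
    · rintro ⟨a, b, ⟨ha, hb⟩, rfl⟩
      exact ⟨a, ha, b, hb, rfl⟩
  rw [h]
  exact (hS.prod hT).image continuous_sub

private lemma QMap_J_compact {S : Set X} (hS : IsCompact S) : IsCompact (QMap_J S) :=
  (isCompact_Icc.prod hS).image continuous_smul

private lemma QMap_zero_mem_J {S : Set X} (hS : (0 : X) ∈ S) : (0 : X) ∈ QMap_J S :=
  ⟨(0, 0), ⟨⟨le_rfl, zero_le_one⟩, hS⟩, by simp⟩

private lemma QMap_zero_mem_K (M : ℝ → X) : (0 : X) ∈ QMap_K M := mem_insert _ _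

private lemma QMap_mem_J_K (M : ℝ → X) {σ c : ℝ} (hσ : 0 ≤ σ) (hc0 : 0 ≤ c) (hc1 : c ≤ 1) :
    c • M σ ∈ QMap_J (QMap_K M) :=
  ⟨(c, M σ), ⟨⟨hc0, hc1⟩, mem_insert_of_mem _ ⟨σ, by simp [abs_of_nonneg hσ]⟩⟩, rfl⟩

open Pointwise in
private def QMap_C1 (A R : Set X) : Set X := A - A + R

open Pointwise in
private def QMap_C2 (A R K : Set X) : Set X := A - A + R - R - QMap_J K

open Pointwise in
private def QMap_next (R K K' : Set X) : Set X := R + QMap_J K + QMap_J K'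

end QMapAux

/-- [TOR-QMAP] Proof. `η¹` from `exists_path` for `s¹ i = (1/2)^i / 4`; `η²` from `exists_path` for
`s² i = min (s¹ i) (η¹ i / 2)`. `η i = min (η¹ i / 2) (η² i)`. Given `A`, choose recursively for `k : ℕ` paths `M k`
(for `η¹, s¹`) and `M' k` (for `η², s²`) and compact sets `R k` (`R 0 = {0}`):
`M k` is far from `A (k+2) - A (k+2) + R k`; with `𝒦 k = insert 0 (M k '' [0,∞))` (compact, as
`M k σ → 0`), `M' k` is far from `A (k+2) - A (k+2) + R k - R k - [0,1]•𝒦 k`; `𝒦' k = insert 0 (M' k '' [0,∞))`;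
`R (k+1) = R k + [0,1]•𝒦 k + [0,1]•𝒦' k`. Put
`Q (σ, t) = ∑ᶠ k, (cl01 (2 - 3 * |t - k|) • M k σ + cl01 (3/2 - 3 * |t - k + 1/2|) • M' k σ)`.
For `t ∈ [k-1, k]`, `k ≥ 1`, only `M (k-1), M k, M' k` contribute:
on `[k-1, k-2/3]`: `Q = M (k-1) σ + β • M' k σ`; on `[k-2/3, k-1/3]`:
`Q = β • M (k-1) σ + β' • M k σ + M' k σ`; on `[k-1/3, k]`: `Q = M k σ + β • M' k σ` (`β, β' ∈ [0,1]`).
If `t' + 3 ≤ t` then `t' ≤ k - 3` and `Q (σ', t') ∈ R (k-2) + … ⊆ R (k-1)` (indices `≤ k - 2`), so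
`(a' - a) + Q (σ', t') ∈ A (k+1) - A (k+1) + R (k-1)` for `a, a' ∈ A (⌊t⌋+1)`, from which the main term of
`Q (σ, t)` is far. (`0 ∈ R k`, so `R` is increasing.) -/
theorem exists_Q {X : Type} [NormedAddCommGroup X] [Module ℝ X] [FN X]
    (hX : ¬ FiniteDimensional ℝ X) :
    ∃ η : ℕ → ℝ, (∀ i, 0 < η i) ∧ Antitone η ∧ ∀ A : ℕ → Set X, (∀ n, IsCompact (A n)) →
      Monotone A → ∃ Q : ℝ × ℝ → X, Continuous Q ∧
        (∀ σ t, 0 ≤ σ → 0 ≤ t → ‖Q (σ, t)‖ ≤ (1 / 2) ^ ⌊σ⌋₊) ∧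
        ∀ σ t σ' t', 0 ≤ σ → 0 ≤ σ' → 0 ≤ t' → t' + 3 ≤ t →
          ∀ a ∈ A (⌊t⌋₊ + 1), ∀ a' ∈ A (⌊t⌋₊ + 1),
            η ⌊σ⌋₊ ≤ ‖(a + Q (σ, t)) - (a' + Q (σ', t'))‖ := by
  classical
  obtain ⟨η₁, hη₁p, hη₁a, hη₁⟩ := exists_path (X := X) hX (fun i => (1 / 2 : ℝ) ^ i / 4)
    (fun i => by positivity)
  obtain ⟨η₂, hη₂p, hη₂a, hη₂⟩ := exists_path (X := X) hX
    (fun i => min ((1 / 2 : ℝ) ^ i / 4) (η₁ i / 2))
    (fun i => lt_min (by positivity) (half_pos (hη₁p i)))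
  have hs0 : Tendsto (fun i : ℕ => (1 / 2 : ℝ) ^ i / 4) atTop (𝓝 0) := by
    have := (tendsto_pow_atTop_nhds_zero_of_lt_one (r := (1 / 2 : ℝ)) (by norm_num)
      (by norm_num)).div_const 4
    simpa using this
  refine ⟨fun i => min (η₁ i / 2) (η₂ i), fun i => lt_min (half_pos (hη₁p i)) (hη₂p i), ?_, ?_⟩
  · intro i j hij
    exact min_le_min (by linarith [hη₁a hij]) (hη₂a hij)
  intro A hA hAm
  -- the two choice functions
  have e1 : ∀ C : Set X, ∃ M : ℝ → X, IsCompact C → Continuous M ∧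
      (∀ σ, 0 ≤ σ → ‖M σ‖ ≤ (1 / 2 : ℝ) ^ ⌊σ⌋₊ / 4) ∧
        ∀ σ, 0 ≤ σ → ∀ c ∈ C, η₁ ⌊σ⌋₊ ≤ ‖M σ - c‖ := by
    intro C
    by_cases hC : IsCompact C
    · obtain ⟨M, hM⟩ := hη₁ C hC
      exact ⟨M, fun _ => hM⟩
    · exact ⟨0, fun h => absurd h hC⟩
  have e2 : ∀ C : Set X, ∃ M : ℝ → X, IsCompact C → Continuous M ∧
      (∀ σ, 0 ≤ σ → ‖M σ‖ ≤ min ((1 / 2 : ℝ) ^ ⌊σ⌋₊ / 4) (η₁ ⌊σ⌋₊ / 2)) ∧
        ∀ σ, 0 ≤ σ → ∀ c ∈ C, η₂ ⌊σ⌋₊ ≤ ‖M σ - c‖ := by
    intro C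
    by_cases hC : IsCompact C
    · obtain ⟨M, hM⟩ := hη₂ C hC
      exact ⟨M, fun _ => hM⟩
    · exact ⟨0, fun h => absurd h hC⟩
  choose P1 hP1 using e1
  choose P2 hP2 using e2
  let MM1 : ℕ → Set X → ℝ → X := fun k R => P1 (QMap_C1 (A (k + 1)) R)
  let MM2 : ℕ → Set X → ℝ → X := fun k R => P2 (QMap_C2 (A (k + 1)) R (QMap_K (MM1 k R)))
  let R : ℕ → Set X := fun k => Nat.rec ({0} : Set X)
    (fun k Rk => QMap_next Rk (QMap_K (MM1 k Rk)) (QMap_K (MM2 k Rk))) k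
  let M : ℕ → ℝ → X := fun k => MM1 k (R k)
  let M' : ℕ → ℝ → X := fun k => MM2 k (R k)
  have hRs : ∀ k, R (k + 1) = QMap_next (R k) (QMap_K (M k)) (QMap_K (M' k)) := fun k => rfl
  have hR0 : R 0 = {0} := rfl
  have hMdef : ∀ k, M k = P1 (QMap_C1 (A (k + 1)) (R k)) := fun k => rfl
  have hM'def : ∀ k, M' k = P2 (QMap_C2 (A (k + 1)) (R k) (QMap_K (M k))) := fun k => rfl
  clear_value R M M'
  have hstep : ∀ k, IsCompact (R k) → (IsCompact (QMap_C1 (A (k + 1)) (R k)) ∧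
      IsCompact (QMap_C2 (A (k + 1)) (R k) (QMap_K (M k))) ∧ IsCompact (R (k + 1))) := by
    intro k hk
    have h1 : IsCompact (QMap_C1 (A (k + 1)) (R k)) := (QMap_sub_compact (hA _) (hA _)).add hk
    have hM := hP1 _ h1
    rw [← hMdef] at hM
    have hK : IsCompact (QMap_K (M k)) := QMap_K_compact _ hM.1 _ hs0 hM.2.1
    have h2 : IsCompact (QMap_C2 (A (k + 1)) (R k) (QMap_K (M k))) :=
      QMap_sub_compact (QMap_sub_compact h1 hk) (QMap_J_compact hK)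
    have hM' := hP2 _ h2
    rw [← hM'def] at hM'
    have hK' : IsCompact (QMap_K (M' k)) := QMap_K_compact _ hM'.1 _ hs0
      (fun σ hσ => (hM'.2.1 σ hσ).trans (min_le_left _ _))
    refine ⟨h1, h2, ?_⟩
    rw [hRs]
    exact (hk.add (QMap_J_compact hK)).add (QMap_J_compact hK')
  have hRc : ∀ k, IsCompact (R k) := by
    intro k
    induction k with
    | zero => rw [hR0]; exact isCompact_singleton
    | succ k ih => exact (hstep k ih).2.2
  have hM : ∀ k, Continuous (M k) ∧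
      (∀ σ, 0 ≤ σ → ‖M k σ‖ ≤ (1 / 2 : ℝ) ^ ⌊σ⌋₊ / 4) ∧
        ∀ σ, 0 ≤ σ → ∀ c ∈ QMap_C1 (A (k + 1)) (R k), η₁ ⌊σ⌋₊ ≤ ‖M k σ - c‖ := by
    intro k
    have := hP1 _ (hstep k (hRc k)).1
    rwa [← hMdef] at this
  have hM' : ∀ k, Continuous (M' k) ∧
      (∀ σ, 0 ≤ σ → ‖M' k σ‖ ≤ min ((1 / 2 : ℝ) ^ ⌊σ⌋₊ / 4) (η₁ ⌊σ⌋₊ / 2)) ∧
        ∀ σ, 0 ≤ σ → ∀ c ∈ QMap_C2 (A (k + 1)) (R k) (QMap_K (M k)),
          η₂ ⌊σ⌋₊ ≤ ‖M' k σ - c‖ := by
    intro k
    have := hP2 _ (hstep k (hRc k)).2.1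
    rwa [← hM'def] at this
  have hR0mem : ∀ k, (0 : X) ∈ R k := by
    intro k
    induction k with
    | zero => rw [hR0]; exact mem_singleton _
    | succ k ih =>
      rw [hRs]
      have h := Set.add_mem_add (Set.add_mem_add ih (QMap_zero_mem_J (QMap_zero_mem_K (M k))))
        (QMap_zero_mem_J (QMap_zero_mem_K (M' k)))
      rw [add_zero, add_zero] at h
      exact h
  have hRstep : ∀ k, ∀ r ∈ R k, ∀ σ, 0 ≤ σ → ∀ c d : ℝ, c ∈ Icc (0 : ℝ) 1 → d ∈ Icc (0 : ℝ) 1 →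
      r + c • M k σ + d • M' k σ ∈ R (k + 1) := by
    intro k r hr σ hσ c d hc hd
    rw [hRs]
    exact Set.add_mem_add (Set.add_mem_add hr (QMap_mem_J_K _ hσ hc.1 hc.2))
      (QMap_mem_J_K _ hσ hd.1 hd.2)
  have hRmono : Monotone R := by
    refine monotone_nat_of_le_succ fun k r hr => ?_
    have := hRstep k r hr 0 le_rfl 0 0 ⟨le_rfl, zero_le_one⟩ ⟨le_rfl, zero_le_one⟩
    simpa using this
  -- the map
  let F : ℕ → ℝ × ℝ → X := fun k q =>
    cl01 (2 - 3 * |q.2 - k|) • M k q.1 + cl01 (3 / 2 - 3 * |q.2 - k + 1 / 2|) • M' k q.1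
  let Q : ℝ × ℝ → X := fun q => ∑ᶠ k, F k q
  have hFc : ∀ k, Continuous (F k) := by
    intro k
    have h1 := (hM k).1
    have h2 := (hM' k).1
    have h3 := continuous_cl01
    simp only [F]
    fun_prop
  have hF0 : ∀ (k : ℕ) (q : ℝ × ℝ), 1 ≤ |q.2 - k| → F k q = 0 := by
    intro k q hq
    have h1 : cl01 (2 - 3 * |q.2 - k|) = 0 := cl01_of_nonpos (by linarith)
    have h2 : cl01 (3 / 2 - 3 * |q.2 - k + 1 / 2|) = 0 := by
      apply cl01_of_nonpos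
      have : 1 / 2 ≤ |q.2 - k + 1 / 2| := by
        rcases le_abs.1 hq with h | h
        · rw [le_abs]; left; linarith
        · rw [le_abs]; right; linarith
      linarith
    simp only [F, h1, h2, zero_smul, add_zero]
  have hlf : LocallyFinite fun k => Function.support (F k) := by
    intro q
    refine ⟨{p | |p.2 - q.2| < 1}, ?_, ?_⟩
    · exact (isOpen_lt (by fun_prop) continuous_const).mem_nhds (by simp)
    · refine (Set.finite_Iic (⌈|q.2|⌉₊ + 2)).subset ?_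
      rintro k ⟨p, hp, hpq⟩
      rw [Function.mem_support] at hp
      have h1 : |p.2 - k| < 1 := by
        by_contra h
        exact hp (hF0 k p (not_lt.1 h))
      have h2 : |p.2 - q.2| < 1 := hpq
      rw [mem_Iic]
      have h3 : (k : ℝ) ≤ |q.2| + 2 := by
        have := abs_lt.1 h1
        have := abs_lt.1 h2
        have := le_abs_self q.2
        linarith
      have h4 : (k : ℝ) ≤ (⌈|q.2|⌉₊ : ℝ) + 2 := by
        linarith [Nat.le_ceil |q.2|]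
      exact_mod_cast h4
  have hQc : Continuous Q := continuous_finsum hFc hlf
  -- the value of `Q`
  have hQ : ∀ σ t, 0 ≤ t → ∃ c1 c2 c3 : ℝ, c1 ∈ Icc (0 : ℝ) 1 ∧ c2 ∈ Icc (0 : ℝ) 1 ∧
      c3 ∈ Icc (0 : ℝ) 1 ∧ Q (σ, t) = c1 • M ⌊t⌋₊ σ + c2 • M (⌊t⌋₊ + 1) σ + c3 • M' (⌊t⌋₊ + 1) σ ∧
      ((c1 = 1 ∧ c2 = 0) ∨ c3 = 1 ∨ (c1 = 0 ∧ c2 = 1)) := by
    intro σ t ht
    set n := ⌊t⌋₊ with hn
    have hn1 : (n : ℝ) ≤ t := Nat.floor_le ht
    have hn2 : t < n + 1 := Nat.lt_floor_add_one t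
    have hval : Q (σ, t) = F n (σ, t) + F (n + 1) (σ, t) := by
      have h1 : Function.support (fun k => F k (σ, t)) ⊆ (({n, n + 1} : Finset ℕ) : Set ℕ) := by
        intro k hk
        rw [Function.mem_support] at hk
        have h1 : |t - k| < 1 := by
          by_contra h
          exact hk (hF0 k (σ, t) (not_lt.1 h))
        have h2 := abs_lt.1 h1
        have h3 : (n : ℝ) < k + 1 := by linarith
        have h4 : (k : ℝ) < n + 2 := by linarith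
        have h3' : n < k + 1 := by exact_mod_cast h3
        have h4' : k < n + 2 := by exact_mod_cast h4
        simp only [Finset.coe_insert, Finset.coe_singleton, mem_insert_iff, mem_singleton_iff]
        omega
      show (∑ᶠ k, F k (σ, t)) = _
      rw [finsum_eq_sum_of_support_subset _ h1, Finset.sum_pair (by omega)]
    refine ⟨cl01 (2 - 3 * |t - n|), cl01 (2 - 3 * |t - (n + 1 : ℕ)|),
      cl01 (3 / 2 - 3 * |t - (n + 1 : ℕ) + 1 / 2|), cl01_mem _, cl01_mem _, cl01_mem _, ?_, ?_⟩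
    · rw [hval]
      simp only [F]
      have h0 : cl01 (3 / 2 - 3 * |t - n + 1 / 2|) = 0 := by
        apply cl01_of_nonpos
        rw [abs_of_nonneg (by linarith)]
        linarith
      rw [h0, zero_smul, add_zero, add_assoc]
    · push_cast
      rw [abs_of_nonneg (show (0 : ℝ) ≤ t - n by linarith),
        abs_of_nonpos (show t - (n + 1 : ℝ) ≤ 0 by linarith)]
      rcases le_or_gt (t - n) (1 / 3) with h | h
      · left
        exact ⟨cl01_of_one_le (by linarith), cl01_of_nonpos (by linarith)⟩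
      rcases le_or_gt (t - n) (2 / 3) with h' | h'
      · right; left
        apply cl01_of_one_le
        have : |t - (n + 1 : ℝ) + 1 / 2| ≤ 1 / 6 := abs_le.2 ⟨by linarith, by linarith⟩
        linarith
      · right; right
        exact ⟨cl01_of_nonpos (by linarith), cl01_of_one_le (by linarith)⟩
  have hsm : ∀ (c : ℝ) (x : X), c ∈ Icc (0 : ℝ) 1 → ‖c • x‖ ≤ ‖x‖ := fun c x hc =>
    FN.smul_le c x (abs_le.2 ⟨by linarith [hc.1], hc.2⟩)
  refine ⟨Q, hQc, ?_, ?_⟩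
  · intro σ t hσ ht
    obtain ⟨c1, c2, c3, h1, h2, h3, hq, -⟩ := hQ σ t ht
    rw [hq]
    have e1 := (hsm c1 (M ⌊t⌋₊ σ) h1).trans ((hM _).2.1 σ hσ)
    have e2 := (hsm c2 (M (⌊t⌋₊ + 1) σ) h2).trans ((hM _).2.1 σ hσ)
    have e3 := (hsm c3 (M' (⌊t⌋₊ + 1) σ) h3).trans
      (((hM' _).2.1 σ hσ).trans (min_le_left _ _))
    have e4 := norm_add_le (c1 • M ⌊t⌋₊ σ + c2 • M (⌊t⌋₊ + 1) σ) (c3 • M' (⌊t⌋₊ + 1) σ)
    have e5 := norm_add_le (c1 • M ⌊t⌋₊ σ) (c2 • M (⌊t⌋₊ + 1) σ)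
    have e6 : (0 : ℝ) < (1 / 2 : ℝ) ^ ⌊σ⌋₊ := by positivity
    linarith
  · intro σ t σ' t' hσ hσ' ht' htt a ha a' ha'
    have ht : 0 ≤ t := by linarith
    obtain ⟨c1, c2, c3, h1, h2, h3, hq, hcase⟩ := hQ σ t ht
    obtain ⟨d1, d2, d3, k1, k2, k3, hq', -⟩ := hQ σ' t' ht'
    set n := ⌊t⌋₊ with hn
    have hfl : ⌊t'⌋₊ + 3 ≤ n := by
      have := Nat.floor_le ht'
      rw [hn, Nat.le_floor_iff ht]
      push_cast
      linarith
    -- `Q (σ', t') ∈ R n`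
    have hQR : Q (σ', t') ∈ R n := by
      rw [hq']
      have s1 := hRstep ⌊t'⌋₊ 0 (hR0mem _) σ' hσ' d1 0 k1 ⟨le_rfl, zero_le_one⟩
      have s2 := hRstep (⌊t'⌋₊ + 1) _ s1 σ' hσ' d2 d3 k2 k3
      have s3 := hRmono (show ⌊t'⌋₊ + 1 + 1 ≤ n by omega) s2
      simpa using s3
    have hcR : a' + Q (σ', t') - a ∈ QMap_C1 (A (n + 1)) (R n) := by
      have := Set.add_mem_add (Set.sub_mem_sub ha' ha) hQR
      have e : a' - a + Q (σ', t') = a' + Q (σ', t') - a := by abel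
      rw [e] at this
      exact this
    have hAA : A (n + 1) ⊆ A (n + 2) := hAm (Nat.le_succ _)
    have hRR : R n ⊆ R (n + 1) := hRmono (Nat.le_succ _)
    have hcR' : a' + Q (σ', t') - a ∈ QMap_C1 (A (n + 1 + 1)) (R (n + 1)) := by
      have := Set.add_mem_add (Set.sub_mem_sub (hAA ha') (hAA ha)) (hRR hQR)
      have e : a' - a + Q (σ', t') = a' + Q (σ', t') - a := by abel
      rw [e] at this
      exact this
    have hrw : a + Q (σ, t) - (a' + Q (σ', t')) = Q (σ, t) - (a' + Q (σ', t') - a) := by abel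
    rw [hrw, hq]
    have e3 : ‖c3 • M' (n + 1) σ‖ ≤ η₁ ⌊σ⌋₊ / 2 := (hsm c3 (M' (n + 1) σ) h3).trans
      (((hM' _).2.1 σ hσ).trans (min_le_right _ _))
    rcases hcase with ⟨hc1, hc2⟩ | hc3 | ⟨hc1, hc2⟩
    · rw [hc1, hc2, one_smul, zero_smul, add_zero]
      have f1 := (hM n).2.2 σ hσ _ hcR
      have f2 : M n σ - (a' + Q (σ', t') - a) = (M n σ + c3 • M' (n + 1) σ
        - (a' + Q (σ', t') - a)) - c3 • M' (n + 1) σ := by abel
      rw [f2] at f1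
      have f3 := norm_sub_le (M n σ + c3 • M' (n + 1) σ - (a' + Q (σ', t') - a))
        (c3 • M' (n + 1) σ)
      exact (min_le_left _ _).trans (by linarith)
    · rw [hc3, one_smul]
      refine (min_le_right _ _).trans ?_
      have hmem : (a' + Q (σ', t') - a) - c1 • M n σ - c2 • M (n + 1) σ ∈
          QMap_C2 (A (n + 1 + 1)) (R (n + 1)) (QMap_K (M (n + 1))) := by
        have s1 := hRstep n 0 (hR0mem _) σ hσ c1 0 h1 ⟨le_rfl, zero_le_one⟩
        rw [zero_add, zero_smul, add_zero] at s1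
        exact Set.sub_mem_sub (Set.sub_mem_sub hcR' s1) (QMap_mem_J_K _ hσ h2.1 h2.2)
      have f1 := (hM' (n + 1)).2.2 σ hσ _ hmem
      have f2 : M' (n + 1) σ - (a' + Q (σ', t') - a - c1 • M n σ - c2 • M (n + 1) σ) =
        c1 • M n σ + c2 • M (n + 1) σ + M' (n + 1) σ - (a' + Q (σ', t') - a) := by abel
      rwa [f2] at f1
    · rw [hc1, hc2, one_smul, zero_smul, zero_add]
      have f1 := (hM (n + 1)).2.2 σ hσ _ hcR'
      have f2 : M (n + 1) σ - (a' + Q (σ', t') - a) = (M (n + 1) σ + c3 • M' (n + 1) σ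
        - (a' + Q (σ', t') - a)) - c3 • M' (n + 1) σ := by abel
      rw [f2] at f1
      have f3 := norm_sub_le (M (n + 1) σ + c3 • M' (n + 1) σ - (a' + Q (σ', t') - a))
        (c3 • M' (n + 1) σ)
      exact (min_le_left _ _).trans (by linarith)

end Pool.Agent.MP_645085_gt.TOR
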