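import Pool.Agent.MP_645085_gt.TOR.Base
import Pool.Agent.MP_645085_gt.TOR.Wgt
import Pool.Agent.MP_645085_gt.TOR.Kur
import Pool.Agent.MP_645085_gt.TOR.QMap

/-!
# TOR row [TOR-DSP]: property (D) in the separable case
-/

namespace Pool.Agent.MP_645085_gt.TOR

open Set Filter Topology TopologicalSpace Metric Cardinal

/-- Norms of locally finite combinations of the vectors `e (ν l)`. -/
lemma DSep_sum {X : Type} [NormedAddCommGroup X] [Module ℝ X] [FN X] {Λ : Type} (ν : Λ → ℕ)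
    (hν : Function.Injective ν) (p : Λ → ℝ) (hp : (Function.support p).Finite)
    (h0 : ∀ l, |p l| ≤ 1) (e : ℕ → X) (B : ℝ) (hB : 0 ≤ B)
    (he : ∀ l, p l ≠ 0 → ‖e (ν l)‖ ≤ (1 / 2) ^ (ν l + 2) * B) :
    ‖∑ᶠ l, p l • e (ν l)‖ ≤ B / 2 := by
  classical
  have h1 : ∑ᶠ l, p l • e (ν l) = ∑ l ∈ hp.toFinset, p l • e (ν l) := by
    refine finsum_eq_sum_of_support_subset _ ?_
    intro l hl
    rw [Function.mem_support] at hl
    rw [Set.Finite.coe_toFinset, Function.mem_support]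
    intro h
    exact hl (by rw [h, zero_smul])
  rw [h1]
  calc ‖∑ l ∈ hp.toFinset, p l • e (ν l)‖ ≤ ∑ l ∈ hp.toFinset, ‖p l • e (ν l)‖ := norm_sum_le _ _
    _ ≤ ∑ l ∈ hp.toFinset, (1 / 2) ^ (ν l + 2) * B :=
        Finset.sum_le_sum fun l hl => (FN.smul_le _ _ (h0 l)).trans (he l (by simpa using hl))
    _ = (∑ k ∈ hp.toFinset.image ν, (1 / 2 : ℝ) ^ (k + 2)) * B := by
        rw [Finset.sum_mul, Finset.sum_image (fun a _ b _ h => hν h)]
    _ ≤ (1 / 2) * B := by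
        refine mul_le_mul_of_nonneg_right ?_ hB
        have hs : HasSum (fun k : ℕ => (1 / 2 : ℝ) ^ (k + 2)) (1 / 2) := by
          have h2 := (hasSum_geometric_two).mul_right (1 / 4 : ℝ)
          have e1 : (fun k : ℕ => (1 / 2 : ℝ) ^ k * (1 / 4)) = fun k : ℕ => (1 / 2 : ℝ) ^ (k + 2) := by
            funext k
            rw [pow_add]
            norm_num
          rw [e1] at h2
          have e2 : (2 : ℝ) * (1 / 4) = 1 / 2 := by norm_num
          rwa [e2] at h2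
        exact sum_le_hasSum _ (fun _ _ => by positivity) hs
    _ = B / 2 := by ring

lemma DSep_half_pow (x : ℝ) (hx : 0 < x) : (1 / 2 : ℝ) ^ ⌊x⌋₊ ≤ 1 / x := by
  have h1 : ⌊x⌋₊ + 1 ≤ 2 ^ ⌊x⌋₊ := Nat.lt_two_pow_self
  have h2 : x < (⌊x⌋₊ : ℝ) + 1 := Nat.lt_floor_add_one x
  have h3 : ((⌊x⌋₊ : ℝ) + 1) ≤ 2 ^ ⌊x⌋₊ := by exact_mod_cast h1
  rw [one_div_pow]
  exact one_div_le_one_div_of_le hx (h2.le.trans h3)

/-- [TOR-DSP] Assembly. Given `Z, g, ε, v`: `j, r` from `exists_retraction`; `Λ, a, m, y` from `exists_base` (`κ = ℵ₀`);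
`Λ` is countable: fix an injection `ν : Λ → ℕ`; `t, π, lam` from `exists_weights` with `N := ν`.
`x z = r (∑ᶠ l, π l z • j (y l))`, `σ z = 8 / ε (g z) ≥ 8`.
`A n = r '' convexHull ((j ∘ y) '' {l | ν l ≤ 2 n + 2})`: compact, monotone, `x z ∈ A (⌊t z⌋ + 1)`
(`π l z ≠ 0 → ν l ≤ 2 t z + 2`). `η` and `Q` from `exists_Q`. `C` = the set of all
`(r p - r p') + (Q (σ, t) - Q (σ', t'))` with `p, p' ∈ ⋃_n convexHull (...)`, `σ, t, σ', t' ∈ ℝ`: `σ`-compact.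
`e` from `exists_generic_seq` for `C` and sizes `s k`, where
`s (ν l) = (1/2)^(ν l + 2) * min (ε (y l) / 8) (η ⌊144 / ε (y l)⌋ / 4)`.
`ψ z = x z + ∑ᶠ l, π l z • e (ν l) + Q (σ z, t z)`.
Nearness: `ε/4 + ε/8 + ε/4` with `ε = ε (g z)` (`ε (y l) ≤ 2 ε (g z)` for active `l`; `(1/2)^⌊σ⌋ ≤ 2 / σ`), so
`‖ψ z - g z‖ ≤ (3/4) ε (g z)`.
Let `y₀ : X`, `ρ₀ = ε y₀ / 8`. If `‖ψ z - y₀‖ < ρ₀` then `ε y₀ / 2 ≤ ε (g z) ≤ 9/2 * ε y₀`. Hence for two such
points `z, z'`: `σ z ≤ 72 / ε (g z')`, and the `e`-term of `z'` has norm `≤ η ⌊σ z⌋ / 8` (each active `l` for `z'` has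
`1 / ε (g z') ≤ 2 / ε (y l)`; `η` antitone).
Detection: there are `ρ₁ > 0` and `K` with `‖ψ z - y₀‖ < ρ₁ → t z ≤ K`: let
`ρ₁ = min ρ₀ (η ⌊16 / ε y₀⌋ / 4)`; if some `z'` satisfies `‖ψ z' - y₀‖ < ρ₁`, `K = t z' + 3` works, since
`t z > t z' + 3` gives `‖ψ z - ψ z'‖ ≥ η ⌊σ z⌋ - η ⌊σ z⌋ / 4 > 2 ρ₁`
(`x z, x z' ∈ A (⌊t z⌋ + 1)`, `σ z ≤ 16 / ε y₀`).
Compactness: let `n ≥ 2 K + 2`, `Λ_n = {l | ν l ≤ n}` finite. On the compact set of all
`((p, σ, t), (p', σ', t'))` with `p, p'` in the simplex of weights on `Λ_n`, `p l * p' l = 0` for all `l`,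
`0 ≤ σ, σ' ≤ 16 / ε y₀`, `0 ≤ t, t' ≤ K`, the continuous function
`‖(r (∑ p l • j (y l)) + ∑ p l • e (ν l) + Q (σ, t)) - (same with primes)‖` does not vanish
(`exists_generic_seq` with `w = p - p'`), so it is `≥ δ > 0`. With `ρ = min ρ₁ (δ / 2)` any two points `z, z'` with
`ψ z, ψ z' ∈ B(y₀, ρ)` have a common `l` with `π l z ≠ 0 ≠ π l z'`, so `dist z z' < v z'`
(`exists_base`). -/
theorem dprop_sep (X : Type) [NormedAddCommGroup X] [Module ℝ X] [FN X] [CompleteSpace X]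
    (hAE : AE X) (hX : ¬ FiniteDimensional ℝ X) : DProp ℵ₀ X := by
  classical
  intro Z _ _ hZ g hg ε hε v hv
  obtain ⟨N, iN1, iN2, j, r, hj, hr, hrj⟩ := exists_retraction X hAE
  obtain ⟨Λ, a, m, y, hΛ, hac, half, ha0, ha1, ham, haε, hconv, hav⟩ :=
    exists_base (κ := ℵ₀) le_rfl j r hj hr hrj hZ g hg ε hε v hv
  have hcΛ : Countable Λ := Cardinal.mk_le_aleph0_iff.1 hΛ
  obtain ⟨ν, hν⟩ := exists_injective_nat Λ
  obtain ⟨t, π, lam, htc, ht0, hπc, -, hπ0, hπ1, -, -, hπlam, hlam⟩ :=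
    exists_weights a m ν hac half ha0 ha1 ham
  have hπa : ∀ l z, π l z ≠ 0 → a l z ≠ 0 ∧ (ν l : ℝ) ≤ 2 * t z + 2 := fun l z h =>
    hlam l z (by rw [hπlam l z h]; exact one_ne_zero)
  have hπlf : LocallyFinite fun l => Function.support (π l) :=
    half.subset (fun l z hz => (hπa l z hz).1)
  have hπfin : ∀ z, (Function.support fun l => π l z).Finite := fun z => hπlf.point_finite z
  have hπle1 : ∀ l z, π l z ≤ 1 := fun l z => by
    rw [← hπ1 z]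
    exact single_le_finsum l (hπfin z) (fun l => hπ0 l z)
  have hπabs : ∀ l z, |π l z| ≤ 1 := fun l z => by
    rw [abs_of_nonneg (hπ0 l z)]
    exact hπle1 l z
  obtain ⟨η, hηp, hηa, hQ⟩ := exists_Q (X := X) hX
  -- the compact sets
  let HN : ℕ → Set N := fun n => convexHull ℝ ((fun l => j (y l)) '' {l | ν l ≤ 2 * n + 2})
  have hfinν : ∀ k : ℕ, {l : Λ | ν l ≤ k}.Finite := fun k =>
    (Set.finite_le_nat k).preimage hν.injOn
  have hHc : ∀ n, IsCompact (HN n) := fun n => ((hfinν _).image _).isCompact_convexHull ℝ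
  have hHm : Monotone HN := fun n k h => convexHull_mono (image_mono fun l hl => by
    have : ν l ≤ 2 * n + 2 := hl
    show ν l ≤ 2 * k + 2
    omega)
  obtain ⟨Q, hQc, hQn, hQf⟩ := hQ (fun n => r '' HN n) (fun n => (hHc n).image hr)
    (fun n k h => image_mono (hHm h))
  -- the sigma-compact set
  let F : (N × N) × (ℝ × ℝ) × (ℝ × ℝ) → X := fun q => (r q.1.1 - r q.1.2) + (Q q.2.1 - Q q.2.2)
  have hF : Continuous F := by
    have h1 : Continuous fun q : (N × N) × (ℝ × ℝ) × (ℝ × ℝ) => r q.1.1 := hr.comp (by fun_prop)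
    have h2 : Continuous fun q : (N × N) × (ℝ × ℝ) × (ℝ × ℝ) => r q.1.2 := hr.comp (by fun_prop)
    have h3 : Continuous fun q : (N × N) × (ℝ × ℝ) × (ℝ × ℝ) => Q q.2.1 := hQc.comp (by fun_prop)
    have h4 : Continuous fun q : (N × N) × (ℝ × ℝ) × (ℝ × ℝ) => Q q.2.2 := hQc.comp (by fun_prop)
    exact (h1.sub h2).add (h3.sub h4)
  let KC : ℕ → Set ((N × N) × (ℝ × ℝ) × (ℝ × ℝ)) := fun n =>
    (HN n ×ˢ HN n) ×ˢ ((Icc (-(n : ℝ)) n ×ˢ Icc (-(n : ℝ)) n) ×ˢ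
      (Icc (-(n : ℝ)) n ×ˢ Icc (-(n : ℝ)) n))
  have hKC : ∀ n, IsCompact (KC n) := fun n =>
    ((hHc n).prod (hHc n)).prod ((isCompact_Icc.prod isCompact_Icc).prod
      (isCompact_Icc.prod isCompact_Icc))
  have hC : IsSigmaCompact (⋃ n, F '' KC n) :=
    isSigmaCompact_iUnion_of_isCompact _ fun n => (hKC n).image hF
  let s : ℕ → ℝ := Function.extend ν
    (fun l => (1 / 2) ^ (ν l + 2) * min (ε (y l) / 8) (η ⌊144 / ε (y l)⌋₊ / 4)) (fun _ => 1)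
  have hsν : ∀ l, s (ν l) = (1 / 2) ^ (ν l + 2) * min (ε (y l) / 8) (η ⌊144 / ε (y l)⌋₊ / 4) :=
    fun l => hν.extend_apply _ _ l
  have hs : ∀ k, 0 < s k := by
    intro k
    by_cases hk : ∃ l, ν l = k
    · obtain ⟨l, rfl⟩ := hk
      rw [hsν]
      have h1 := hε.pos (y l)
      have h2 := hηp ⌊144 / ε (y l)⌋₊
      have h3 : 0 < min (ε (y l) / 8) (η ⌊144 / ε (y l)⌋₊ / 4) :=
        lt_min (by positivity) (by positivity)
      positivity
    · have : s k = 1 := Function.extend_apply' _ _ _ hk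
      rw [this]
      exact one_pos
  obtain ⟨e, hes, hegen⟩ := exists_generic_seq hX (⋃ n, F '' KC n) hC s hs
  have he1 : ∀ l, ‖e (ν l)‖ ≤ (1 / 2) ^ (ν l + 2) * (ε (y l) / 8) := fun l =>
    (hes (ν l)).trans (by
      rw [hsν]
      exact mul_le_mul_of_nonneg_left (min_le_left _ _) (by positivity))
  have he2 : ∀ l, ‖e (ν l)‖ ≤ (1 / 2) ^ (ν l + 2) * (η ⌊144 / ε (y l)⌋₊ / 4) := fun l =>
    (hes (ν l)).trans (by
      rw [hsν]
      exact mul_le_mul_of_nonneg_left (min_le_right _ _) (by positivity))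
  -- the map
  let x : Z → X := fun z => r (∑ᶠ l, π l z • j (y l))
  let E : Z → X := fun z => ∑ᶠ l, π l z • e (ν l)
  let σ : Z → ℝ := fun z => 8 / ε (g z)
  let ψ : Z → X := fun z => x z + E z + Q (σ z, t z)
  have hσ8 : ∀ z, 8 ≤ σ z := fun z => by
    show 8 ≤ 8 / ε (g z)
    rw [le_div_iff₀ (hε.pos _)]
    nlinarith [hε.le_one (g z), hε.pos (g z)]
  have hσ0 : ∀ z, 0 ≤ σ z := fun z => by linarith [hσ8 z]
  have hxc : Continuous x := by
    refine hr.comp (continuous_finsum (fun l => (hπc l).smul continuous_const) ?_)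
    exact hπlf.subset fun l z hz => by
      rw [Function.mem_support] at *
      intro h
      exact hz (by rw [h, zero_smul])
  have hEc : Continuous E := by
    refine continuous_finsum (fun l => (hπc l).smul continuous_const) ?_
    exact hπlf.subset fun l z hz => by
      rw [Function.mem_support] at *
      intro h
      exact hz (by rw [h, zero_smul])
  have hσc : Continuous σ :=
    continuous_const.div (hε.continuous.comp hg) fun z => (hε.pos _).ne'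
  have hψc : Continuous ψ := (hxc.add hEc).add (hQc.comp (hσc.prodMk htc))
  have hin : ∀ z (n : ℕ), t z ≤ n → (∑ᶠ l, π l z • j (y l)) ∈ HN n := by
    intro z n hn
    refine (convex_convexHull ℝ _).finsum_mem (fun l => hπ0 l z) (hπ1 z) fun l hl =>
      subset_convexHull ℝ _ ⟨l, ?_, rfl⟩
    have h1 := (hπa l z hl).2
    have h2 : (ν l : ℝ) ≤ 2 * n + 2 := by linarith
    show ν l ≤ 2 * n + 2
    exact_mod_cast h2
  have hE1 : ∀ z, ‖E z‖ ≤ ε (g z) / 8 := by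
    intro z
    have h1 := DSep_sum ν hν (fun l => π l z) (hπfin z) (fun l => hπabs l z) e (ε (g z) / 4)
      (by linarith [hε.pos (g z)]) (fun l hl => (he1 l).trans
        (mul_le_mul_of_nonneg_left (by linarith [(haε l z (hπa l z hl).1).2]) (by positivity)))
    have h2 : ε (g z) / 4 / 2 = ε (g z) / 8 := by ring
    rw [h2] at h1
    exact h1
  have hQz : ∀ z, ‖Q (σ z, t z)‖ ≤ ε (g z) / 8 := by
    intro z
    refine (hQn (σ z) (t z) (hσ0 z) (ht0 z)).trans ((DSep_half_pow _ (by linarith [hσ8 z])).trans ?_)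
    show 1 / (8 / ε (g z)) ≤ ε (g z) / 8
    rw [one_div_div]
  have hnear : ∀ z, ‖ψ z - g z‖ ≤ ε (g z) / 2 := by
    intro z
    have h1 : ‖x z - g z‖ ≤ ε (g z) / 4 :=
      hconv z (fun l => π l z) (fun l => hπ0 l z) (fun l hl => (hπa l z hl).1) (hπ1 z)
    have h2 : ψ z - g z = (x z - g z) + E z + Q (σ z, t z) := by
      show x z + E z + Q (σ z, t z) - g z = _
      abel
    rw [h2]
    have h3 := norm_add₃_le (a := x z - g z) (b := E z) (c := Q (σ z, t z))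
    linarith [hE1 z, hQz z]
  refine ⟨ψ, hψc, fun z => (hnear z).trans (by linarith [hε.pos (g z)]), ?_⟩
  intro y₀
  have hε0 := hε.pos y₀
  have hcmp : ∀ z, ‖ψ z - y₀‖ < ε y₀ / 8 → ε y₀ / 2 ≤ ε (g z) ∧ ε (g z) ≤ 9 / 2 * ε y₀ := by
    intro z hz
    have h1 : ‖g z - y₀‖ ≤ ‖ψ z - g z‖ + ‖ψ z - y₀‖ := by
      have h2 : g z - y₀ = -(ψ z - g z) + (ψ z - y₀) := by abel
      rw [h2]
      refine (norm_add_le _ _).trans ?_
      rw [norm_neg]
    have h3 := hε.lip (g z) y₀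
    rw [dist_eq_norm] at h3
    have h4 := abs_le.1 h3
    have h5 := hnear z
    constructor <;> linarith [h4.1, h4.2]
  have hσ16 : ∀ z, ‖ψ z - y₀‖ < ε y₀ / 8 → σ z ≤ 16 / ε y₀ := by
    intro z hz
    have h1 := (hcmp z hz).1
    show 8 / ε (g z) ≤ 16 / ε y₀
    rw [div_le_div_iff₀ (hε.pos _) hε0]
    linarith
  have hE2 : ∀ z z', ‖ψ z - y₀‖ < ε y₀ / 8 → ‖ψ z' - y₀‖ < ε y₀ / 8 →
      ‖E z'‖ ≤ η ⌊σ z⌋₊ / 8 := by
    intro z z' hz hz'
    have h1 := DSep_sum ν hν (fun l => π l z') (hπfin z') (fun l => hπabs l z') e (η ⌊σ z⌋₊ / 4)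
      (by linarith [hηp ⌊σ z⌋₊]) (fun l hl => (he2 l).trans
        (mul_le_mul_of_nonneg_left ?_ (by positivity)))
    · have h2 : η ⌊σ z⌋₊ / 4 / 2 = η ⌊σ z⌋₊ / 8 := by ring
      rw [h2] at h1
      exact h1
    · have h3 : ε (y l) ≤ 9 * ε y₀ := by
        linarith [(haε l z' (hπa l z' hl).1).2, (hcmp z' hz').2]
      have h4 : σ z ≤ 144 / ε (y l) := by
        refine (hσ16 z hz).trans ?_
        rw [div_le_div_iff₀ hε0 (hε.pos _)]
        linarith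
      have h5 : η ⌊144 / ε (y l)⌋₊ ≤ η ⌊σ z⌋₊ := hηa (Nat.floor_le_floor h4)
      linarith
  -- detection
  set ρ₁ : ℝ := min (ε y₀ / 8) (η ⌊16 / ε y₀⌋₊ / 4) with hρ₁
  have hρ₁p : 0 < ρ₁ := lt_min (by linarith) (by linarith [hηp ⌊16 / ε y₀⌋₊])
  have hρ₁a : ρ₁ ≤ ε y₀ / 8 := min_le_left _ _
  have hρ₁b : ρ₁ ≤ η ⌊16 / ε y₀⌋₊ / 4 := min_le_right _ _
  by_cases hex : ∃ z₁, ‖ψ z₁ - y₀‖ < ρ₁
  swap
  · refine ⟨ρ₁, hρ₁p, Classical.arbitrary Z, fun m hm => absurd ⟨m, ?_⟩ hex⟩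
    rwa [dist_eq_norm] at hm
  obtain ⟨z₁, hz₁⟩ := hex
  have hdiff : ∀ z z', ‖ψ z - y₀‖ < ρ₁ → ‖ψ z' - y₀‖ < ρ₁ → ‖ψ z - ψ z'‖ < 2 * ρ₁ := by
    intro z z' hz hz'
    have h2 : ψ z - ψ z' = (ψ z - y₀) + -(ψ z' - y₀) := by abel
    rw [h2]
    refine (norm_add_le _ _).trans_lt ?_
    rw [norm_neg]
    linarith
  set K : ℝ := t z₁ + 3 with hKdef
  have hK : ∀ z, ‖ψ z - y₀‖ < ρ₁ → t z ≤ K := by
    intro z hz
    by_contra hcon
    have hcon' : t z₁ + 3 < t z := not_le.1 hcon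
    have h0 : t z < (⌊t z⌋₊ : ℝ) + 1 := Nat.lt_floor_add_one _
    have h1 := hQf (σ z) (t z) (σ z₁) (t z₁) (hσ0 z) (hσ0 z₁) (ht0 z₁) hcon'.le
      (x z) ⟨_, hin z (⌊t z⌋₊ + 1) (by push_cast; linarith), rfl⟩
      (x z₁) ⟨_, hin z₁ (⌊t z⌋₊ + 1) (by push_cast; linarith), rfl⟩
    have h2 : (x z + Q (σ z, t z)) - (x z₁ + Q (σ z₁, t z₁)) =
        (ψ z - ψ z₁) + (E z₁ + -E z) := by
      show _ = (x z + E z + Q (σ z, t z) - (x z₁ + E z₁ + Q (σ z₁, t z₁))) + (E z₁ + -E z)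
      abel
    rw [h2] at h1
    have h3 := norm_add_le (ψ z - ψ z₁) (E z₁ + -E z)
    have h4 := norm_add_le (E z₁) (-E z)
    rw [norm_neg] at h4
    have h5 := hE2 z z (lt_of_lt_of_le hz hρ₁a) (lt_of_lt_of_le hz hρ₁a)
    have h6 := hE2 z z₁ (lt_of_lt_of_le hz hρ₁a) (lt_of_lt_of_le hz₁ hρ₁a)
    have h7 := hdiff z z₁ hz hz₁
    have h8 : η ⌊16 / ε y₀⌋₊ ≤ η ⌊σ z⌋₊ :=
      hηa (Nat.floor_le_floor (hσ16 z (lt_of_lt_of_le hz hρ₁a)))
    have h9 := hηp ⌊σ z⌋₊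
    linarith
  have hK0 : 0 ≤ K := by linarith [ht0 z₁]
  -- compactness
  obtain ⟨n, hn⟩ := exists_nat_ge (2 * K + 2)
  let S : Finset Λ := (hfinν n).toFinset
  have hS : ∀ l, l ∈ S ↔ ν l ≤ n := fun l => by simp [S]
  have hsupp : ∀ z, ‖ψ z - y₀‖ < ρ₁ → ∀ l, π l z ≠ 0 → l ∈ S := by
    intro z hz l hl
    rw [hS]
    have h1 := (hπa l z hl).2
    have h2 := hK z hz
    have h3 : (ν l : ℝ) ≤ n := by linarith
    exact_mod_cast h3
  let K0 : Set ((Λ → ℝ) × (Λ → ℝ) × (ℝ × ℝ) × (ℝ × ℝ)) :=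
    (Set.pi univ fun _ => Icc (0 : ℝ) 1) ×ˢ (Set.pi univ fun _ => Icc (0 : ℝ) 1) ×ˢ
      (Icc (0 : ℝ) (16 / ε y₀) ×ˢ Icc (0 : ℝ) K) ×ˢ (Icc (0 : ℝ) (16 / ε y₀) ×ˢ Icc (0 : ℝ) K)
  have hK0c : IsCompact K0 :=
    (isCompact_univ_pi fun _ => isCompact_Icc).prod
      ((isCompact_univ_pi fun _ => isCompact_Icc).prod
        ((isCompact_Icc.prod isCompact_Icc).prod (isCompact_Icc.prod isCompact_Icc)))
  let Cl : Set ((Λ → ℝ) × (Λ → ℝ) × (ℝ × ℝ) × (ℝ × ℝ)) :=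
    {q | ∑ l ∈ S, q.1 l = 1} ∩ ({q | ∑ l ∈ S, q.2.1 l = 1} ∩ ⋂ l, {q | q.1 l * q.2.1 l = 0})
  have hCl : IsClosed Cl := by
    refine (isClosed_eq ?_ continuous_const).inter ((isClosed_eq ?_ continuous_const).inter
      (isClosed_iInter fun l => isClosed_eq ?_ continuous_const))
    · exact continuous_finsetSum _ fun l _ => (continuous_apply l).comp continuous_fst
    · exact continuous_finsetSum _ fun l _ =>
        (continuous_apply l).comp (continuous_fst.comp continuous_snd)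
    · exact ((continuous_apply l).comp continuous_fst).mul
        ((continuous_apply l).comp (continuous_fst.comp continuous_snd))
  have hKKc : IsCompact (K0 ∩ Cl) := hK0c.inter_right hCl
  let G : ((Λ → ℝ) × (Λ → ℝ) × (ℝ × ℝ) × (ℝ × ℝ)) → ℝ := fun q =>
    ‖((r (∑ l ∈ S, q.1 l • j (y l)) - r (∑ l ∈ S, q.2.1 l • j (y l))) +
      (Q q.2.2.1 - Q q.2.2.2)) + ∑ l ∈ S, (q.1 l - q.2.1 l) • e (ν l)‖
  have hG : Continuous G := by
    have c1 : ∀ l, Continuous fun q : (Λ → ℝ) × (Λ → ℝ) × (ℝ × ℝ) × (ℝ × ℝ) => q.1 l :=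
      fun l => (continuous_apply l).comp continuous_fst
    have c2 : ∀ l, Continuous fun q : (Λ → ℝ) × (Λ → ℝ) × (ℝ × ℝ) × (ℝ × ℝ) => q.2.1 l :=
      fun l => (continuous_apply l).comp (continuous_fst.comp continuous_snd)
    refine Continuous.norm (Continuous.add (Continuous.add (Continuous.sub ?_ ?_)
      (Continuous.sub ?_ ?_)) ?_)
    · exact hr.comp (continuous_finsetSum _ fun l _ => (c1 l).smul continuous_const)
    · exact hr.comp (continuous_finsetSum _ fun l _ => (c2 l).smul continuous_const)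
    · exact hQc.comp (continuous_fst.comp (continuous_snd.comp continuous_snd))
    · exact hQc.comp (continuous_snd.comp (continuous_snd.comp continuous_snd))
    · exact continuous_finsetSum _ fun l _ => ((c1 l).sub (c2 l)).smul continuous_const
  have hGpos : ∀ q ∈ K0 ∩ Cl, 0 < G q := by
    rintro ⟨p, p', τ, τ'⟩ ⟨⟨hp, hp', hτ, hτ'⟩, hs1, hs2, hdis⟩
    have hp1 : ∀ l, p l ∈ Icc (0 : ℝ) 1 := fun l => hp l (mem_univ l)
    have hp1' : ∀ l, p' l ∈ Icc (0 : ℝ) 1 := fun l => hp' l (mem_univ l)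
    have hs1' : ∑ l ∈ S, p l = 1 := hs1
    have hs2' : ∑ l ∈ S, p' l = 1 := hs2
    have hdis' : ∀ l, p l * p' l = 0 := fun l => (Set.mem_iInter.1 hdis) l
    show 0 < ‖((r (∑ l ∈ S, p l • j (y l)) - r (∑ l ∈ S, p' l • j (y l))) +
      (Q τ - Q τ')) + ∑ l ∈ S, (p l - p' l) • e (ν l)‖
    rw [norm_pos_iff]
    let w : ℕ → ℝ := Function.extend ν (fun l => p l - p' l) (fun _ => 0)
    have hwν : ∀ l, w (ν l) = p l - p' l := fun l => hν.extend_apply _ _ l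
    have hw1 : ∀ k, |w k| ≤ 1 := by
      intro k
      by_cases hk : ∃ l, ν l = k
      · obtain ⟨l, rfl⟩ := hk
        rw [hwν, abs_le]
        constructor <;> linarith [(hp1 l).1, (hp1 l).2, (hp1' l).1, (hp1' l).2]
      · have : w k = 0 := Function.extend_apply' _ _ _ hk
        rw [this, abs_zero]
        exact zero_le_one
    have hw2 : ∃ k ∈ S.image ν, w k ≠ 0 := by
      obtain ⟨l, hl, hpl⟩ : ∃ l ∈ S, p l ≠ 0 := by
        by_contra hcon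
        push Not at hcon
        rw [Finset.sum_eq_zero hcon] at hs1'
        exact zero_ne_one hs1'
      refine ⟨ν l, Finset.mem_image_of_mem ν hl, ?_⟩
      rw [hwν]
      have : p' l = 0 := (mul_eq_zero.1 (hdis' l)).resolve_left hpl
      rw [this, sub_zero]
      exact hpl
    have hsum : ∑ k ∈ S.image ν, w k • e k = ∑ l ∈ S, (p l - p' l) • e (ν l) := by
      rw [Finset.sum_image (fun a _ b _ h => hν h)]
      exact Finset.sum_congr rfl fun l _ => by rw [hwν]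
    rw [← hsum]
    refine hegen (S.image ν) w hw1 hw2 _ ?_
    -- membership in the sigma-compact set
    obtain ⟨M, hM⟩ := exists_nat_ge (max (n : ℝ) (max (16 / ε y₀) K))
    have hM1 : (n : ℝ) ≤ M := (le_max_left _ _).trans hM
    have hM2 : 16 / ε y₀ ≤ M := ((le_max_left _ _).trans (le_max_right _ _)).trans hM
    have hM3 : K ≤ M := ((le_max_right _ _).trans (le_max_right _ _)).trans hM
    have hM1' : n ≤ M := by exact_mod_cast hM1
    have hmem : ∀ f : Λ → ℝ, (∀ l, 0 ≤ f l) → ∑ l ∈ S, f l = 1 →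
        ∑ l ∈ S, f l • j (y l) ∈ HN M := by
      intro f hf0 hf1
      refine (convex_convexHull ℝ _).sum_mem (fun l _ => hf0 l) hf1 fun l hl =>
        subset_convexHull ℝ _ ⟨l, ?_, rfl⟩
      have := (hS l).1 hl
      show ν l ≤ 2 * M + 2
      omega
    have hM0 : (0 : ℝ) ≤ M := Nat.cast_nonneg M
    rw [Set.mem_iUnion]
    refine ⟨M, ((∑ l ∈ S, p l • j (y l), ∑ l ∈ S, p' l • j (y l)), (τ, τ')), ⟨⟨?_, ?_⟩,
      ⟨⟨?_, ?_⟩, ⟨?_, ?_⟩⟩⟩, rfl⟩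
    · exact hmem p (fun l => (hp1 l).1) hs1'
    · exact hmem p' (fun l => (hp1' l).1) hs2'
    · exact ⟨by linarith [hτ.1.1], hτ.1.2.trans hM2⟩
    · exact ⟨by linarith [hτ.2.1], hτ.2.2.trans hM3⟩
    · exact ⟨by linarith [hτ'.1.1], hτ'.1.2.trans hM2⟩
    · exact ⟨by linarith [hτ'.2.1], hτ'.2.2.trans hM3⟩
  obtain ⟨δ, hδ, hδG⟩ := hKKc.exists_forall_le' hG.continuousOn hGpos
  have hρp : 0 < min ρ₁ (δ / 2) := lt_min hρ₁p (by linarith)
  by_cases hex2 : ∃ z₂, ‖ψ z₂ - y₀‖ < min ρ₁ (δ / 2)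
  swap
  · refine ⟨min ρ₁ (δ / 2), hρp, Classical.arbitrary Z, fun m hm => absurd ⟨m, ?_⟩ hex2⟩
    rwa [dist_eq_norm] at hm
  obtain ⟨z₂, hz₂⟩ := hex2
  refine ⟨min ρ₁ (δ / 2), hρp, z₂, fun z hz => ?_⟩
  rw [dist_eq_norm] at hz
  by_contra hcon
  have hz1 : ‖ψ z - y₀‖ < ρ₁ := lt_of_lt_of_le hz (min_le_left _ _)
  have hz21 : ‖ψ z₂ - y₀‖ < ρ₁ := lt_of_lt_of_le hz₂ (min_le_left _ _)
  have hsumS : ∀ z', ‖ψ z' - y₀‖ < ρ₁ → ∑ l ∈ S, π l z' = 1 := by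
    intro z' hz'
    rw [← hπ1 z']
    exact (finsum_eq_sum_of_support_subset _ fun l hl => hsupp z' hz' l hl).symm
  have hq : ((fun l => π l z), (fun l => π l z₂), (σ z, t z), (σ z₂, t z₂)) ∈ K0 ∩ Cl := by
    refine ⟨⟨fun l _ => ⟨hπ0 l z, hπle1 l z⟩, fun l _ => ⟨hπ0 l z₂, hπle1 l z₂⟩,
      ⟨⟨hσ0 z, hσ16 z (lt_of_lt_of_le hz1 hρ₁a)⟩, ⟨ht0 z, hK z hz1⟩⟩,
      ⟨⟨hσ0 z₂, hσ16 z₂ (lt_of_lt_of_le hz21 hρ₁a)⟩, ⟨ht0 z₂, hK z₂ hz21⟩⟩⟩,
      hsumS z hz1, hsumS z₂ hz21, ?_⟩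
    rw [Set.mem_iInter]
    intro l
    show π l z * π l z₂ = 0
    by_contra h
    rw [mul_eq_zero, not_or] at h
    exact hcon (hav l z z₂ (hπa l z h.1).1 (hπa l z₂ h.2).1)
  have h1 := hδG _ hq
  have h2 : G ((fun l => π l z), (fun l => π l z₂), (σ z, t z), (σ z₂, t z₂)) = ‖ψ z - ψ z₂‖ := by
    have e1 : ∀ z', ‖ψ z' - y₀‖ < ρ₁ → ∑ᶠ l, π l z' • j (y l) = ∑ l ∈ S, π l z' • j (y l) := by
      intro z' hz'
      refine finsum_eq_sum_of_support_subset _ fun l hl => hsupp z' hz' l fun h => ?_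
      rw [Function.mem_support] at hl
      exact hl (by rw [h, zero_smul])
    have e2 : ∀ z', ‖ψ z' - y₀‖ < ρ₁ → E z' = ∑ l ∈ S, π l z' • e (ν l) := by
      intro z' hz'
      refine finsum_eq_sum_of_support_subset _ fun l hl => hsupp z' hz' l fun h => ?_
      rw [Function.mem_support] at hl
      exact hl (by rw [h, zero_smul])
    show ‖((r (∑ l ∈ S, π l z • j (y l)) - r (∑ l ∈ S, π l z₂ • j (y l))) +
      (Q (σ z, t z) - Q (σ z₂, t z₂))) + ∑ l ∈ S, (π l z - π l z₂) • e (ν l)‖ =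
      ‖(r (∑ᶠ l, π l z • j (y l)) + E z + Q (σ z, t z)) -
        (r (∑ᶠ l, π l z₂ • j (y l)) + E z₂ + Q (σ z₂, t z₂))‖
    rw [e1 z hz1, e1 z₂ hz21, e2 z hz1, e2 z₂ hz21]
    congr 1
    simp only [sub_smul, Finset.sum_sub_distrib]
    abel
  rw [h2] at h1
  have h3 : ‖ψ z - ψ z₂‖ < δ := by
    have e3 : ψ z - ψ z₂ = (ψ z - y₀) + -(ψ z₂ - y₀) := by abel
    rw [e3]
    refine (norm_add_le _ _).trans_lt ?_
    rw [norm_neg]
    have h4 := lt_of_lt_of_le hz (min_le_right _ _)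
    have h5 := lt_of_lt_of_le hz₂ (min_le_right _ _)
    linarith
  linarith

end Pool.Agent.MP_645085_gt.TOR
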