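import Pool.Agent.MP_645085_gt.TOR.Ctl

/-!
# TOR row [TOR-DEEP]: deep shifts
-/

namespace Pool.Agent.MP_645085_gt.TOR

open Set Filter Topology TopologicalSpace Metric
open scoped PiCountable

attribute [local instance] PiCountable.metricSpace

/-- The deep shift. -/
noncomputable def Deep_j {X Q : Type} [AddCommGroup Q] [Module ℝ Q] (ω : X → ℝ) :
    X × (ℕ → Q) → (ℕ → Q) :=
  fun q k => cl01 (((Nat.unpair k).1 : ℝ) - 4 / ω q.1) • q.2 (Nat.unpair k).2

lemma Deep_j_zero {X Q : Type} [AddCommGroup Q] [Module ℝ Q] (ω : X → ℝ) (q : X × (ℕ → Q)) (k : ℕ)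
    (hk : (k : ℝ) ≤ 4 / ω q.1) : Deep_j ω q k = 0 := by
  unfold Deep_j
  rw [cl01_of_nonpos, zero_smul]
  have h1 : ((Nat.unpair k).1 : ℝ) ≤ (k : ℝ) := by exact_mod_cast Nat.unpair_left_le k
  linarith

lemma Deep_j_pair {X Q : Type} [AddCommGroup Q] [Module ℝ Q] (ω : X → ℝ) (q : X × (ℕ → Q))
    (i l : ℕ) (hi : 4 / ω q.1 + 1 ≤ (i : ℝ)) : Deep_j ω q (Nat.pair i l) = q.2 l := by
  unfold Deep_j
  simp only [Nat.unpair_pair]
  rw [cl01_of_one_le (by linarith), one_smul]

lemma Deep_tail (K : ℕ) (hK : 1 ≤ K) (ω : ℝ) (hω : 0 < ω) (h : 4 / ω < (K : ℝ)) :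
    ∑' k : ℕ, (if k < K then (0 : ℝ) else (2⁻¹ : ℝ) ^ k) < ω := by
  have hg : Summable (fun k : ℕ => (2⁻¹ : ℝ) ^ k) :=
    summable_geometric_of_lt_one (by norm_num) (by norm_num)
  have hs : Summable (fun k : ℕ => (if k < K then (0 : ℝ) else (2⁻¹ : ℝ) ^ k)) := by
    refine Summable.of_nonneg_of_le (fun k => ?_) (fun k => ?_) hg
    · split_ifs <;> positivity
    · split_ifs
      · positivity
      · exact le_rfl
  rw [← hs.sum_add_tsum_nat_add K]
  have h0 : ∑ k ∈ Finset.range K, (if k < K then (0 : ℝ) else (2⁻¹ : ℝ) ^ k) = 0 :=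
    Finset.sum_eq_zero fun k hk => if_pos (Finset.mem_range.1 hk)
  rw [h0, zero_add]
  have h1 : ∀ k : ℕ, (if k + K < K then (0 : ℝ) else (2⁻¹ : ℝ) ^ (k + K)) =
      (2⁻¹ : ℝ) ^ K * (2⁻¹ : ℝ) ^ k := by
    intro k
    rw [if_neg (by omega), pow_add, mul_comm]
  simp_rw [h1]
  rw [tsum_mul_left, tsum_geometric_of_lt_one (by norm_num) (by norm_num)]
  have h2 : (1 - (2⁻¹ : ℝ))⁻¹ = 2 := by norm_num
  rw [h2]
  have hKp : (0 : ℝ) < K := by exact_mod_cast hK
  have h3 : 4 / (K : ℝ) < ω := by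
    rw [div_lt_iff₀ hω] at h
    rw [div_lt_iff₀ hKp]
    linarith
  refine lt_of_le_of_lt ?_ h3
  rw [le_div_iff₀ hKp]
  have h4 : (K : ℝ) ≤ 2 ^ K := by exact_mod_cast Nat.lt_two_pow_self.le
  have h5 : (2⁻¹ : ℝ) ^ K * 2 ^ K = 1 := by
    rw [← mul_pow]; norm_num
  have h6 : (0 : ℝ) < (2⁻¹ : ℝ) ^ K := by positivity
  nlinarith

/-- [TOR-DEEP] With `Nat.unpair k = (i, l)` put
`j (x, p) k = cl01 (i - 4 / ω x) • p l`. For `i ≤ 4 / ω x` the coordinate vanishes; as
`(unpair k).1 ≤ k`, all coordinates with `k ≤ 4 / ω x` vanish, so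
`dist (j (x, p)) 0 ≤ ∑_{k > 4 / ω x} 2^{-k} ≤ 2 * 2^{-4 / ω x} < ω x`. Closed embedding: if
`(x_a, j (x_a, p_a)) → (x, y)` along a filter/sequence, choose `i ≥ 4 / ω x + 2`; near `x` the
factor `cl01 (i - 4 / ω ·)` is `1`, so `p_a l = j (x_a, p_a) (pair i l) → y (pair i l)` for all `l`. -/
theorem exists_deep (X Q : Type) [MetricSpace X] [MetricSpace Q] [AddCommGroup Q] [Module ℝ Q]
    [IsTopologicalAddGroup Q] [ContinuousSMul ℝ Q] (ω : X → ℝ) (hω : Ctl ω) :
    ∃ j : X × (ℕ → Q) → (ℕ → Q), Continuous j ∧ (∀ x, j (x, 0) = 0) ∧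
      (∀ x p, dist (j (x, p)) 0 < ω x) ∧
      IsClosedEmbedding (fun q : X × (ℕ → Q) => (q.1, j q)) := by
  have hωc : Continuous ω := hω.continuous
  have hcont : Continuous (Deep_j ω : X × (ℕ → Q) → (ℕ → Q)) := by
    refine continuous_pi fun k => ?_
    refine Continuous.smul ?_ ?_
    · refine continuous_cl01.comp (continuous_const.sub (continuous_const.div ?_ ?_))
      · exact hωc.comp continuous_fst
      · exact fun q => (hω.pos q.1).ne'
    · exact (continuous_apply _).comp continuous_snd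
  refine ⟨Deep_j ω, hcont, ?_, ?_, ?_⟩
  · intro x
    funext k
    simp [Deep_j]
  · intro x p
    rw [PiCountable.dist_eq_tsum]
    set K : ℕ := ⌊4 / ω x⌋₊ + 1 with hKdef
    have hK : 4 / ω x < (K : ℝ) := by
      rw [hKdef]; push_cast; exact Nat.lt_floor_add_one _
    refine lt_of_le_of_lt ?_ (Deep_tail K (by omega) (ω x) (hω.pos x) hK)
    refine Summable.tsum_le_tsum (fun k => ?_) (PiCountable.dist_summable _ _) ?_
    · split_ifs with hk
      · refine le_trans (min_le_right _ _) ?_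
        rw [Deep_j_zero ω (x, p) k]
        · simp
        · have h1 : k ≤ ⌊4 / ω x⌋₊ := by omega
          exact (Nat.le_floor_iff (div_nonneg (by norm_num) (hω.pos x).le)).1 h1
      · refine le_trans (min_le_left _ _) ?_
        simp
    · refine Summable.of_nonneg_of_le (fun k => ?_) (fun k => ?_)
        (summable_geometric_of_lt_one (r := (2⁻¹ : ℝ)) (by norm_num) (by norm_num))
      · split_ifs <;> positivity
      · split_ifs
        · positivity
        · exact le_rfl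
  · have hF : Continuous (fun q : X × (ℕ → Q) => (q.1, Deep_j ω q)) :=
      continuous_fst.prodMk hcont
    have hinj : Function.Injective (fun q : X × (ℕ → Q) => (q.1, Deep_j ω q)) := by
      rintro ⟨x, p⟩ ⟨x', p'⟩ h
      simp only [Prod.mk.injEq] at h
      obtain ⟨rfl, h2⟩ := h
      obtain ⟨i, hi⟩ := exists_nat_ge (4 / ω x + 1)
      refine Prod.ext rfl (funext fun l => ?_)
      have h3 := congrFun h2 (Nat.pair i l)
      rwa [Deep_j_pair ω (x, p) i l hi, Deep_j_pair ω (x, p') i l hi] at h3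
    have hprop : IsProperMap (fun q : X × (ℕ → Q) => (q.1, Deep_j ω q)) := by
      rw [isProperMap_iff_ultrafilter]
      refine ⟨hF, ?_⟩
      rintro 𝒰 ⟨x, y⟩ hU
      have hx : Tendsto (fun q : X × (ℕ → Q) => q.1) 𝒰 (𝓝 x) :=
        (continuous_fst.tendsto _).comp hU
      have hy : Tendsto (fun q : X × (ℕ → Q) => Deep_j ω q) 𝒰 (𝓝 y) :=
        (continuous_snd.tendsto _).comp hU
      obtain ⟨i, hi⟩ := exists_nat_gt (4 / ω x + 1)
      have hev : ∀ᶠ q : X × (ℕ → Q) in (𝒰 : Filter _), 4 / ω q.1 + 1 < (i : ℝ) := by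
        have h1 : Tendsto (fun q : X × (ℕ → Q) => 4 / ω q.1 + 1) 𝒰 (𝓝 (4 / ω x + 1)) := by
          refine Tendsto.add_const _ (Tendsto.div tendsto_const_nhds ?_ (hω.pos x).ne')
          exact (hωc.tendsto x).comp hx
        exact h1.eventually_lt_const hi
      have hlim : Tendsto (fun q : X × (ℕ → Q) => q) 𝒰
          (𝓝 (x, fun l => y (Nat.pair i l))) := by
        refine Tendsto.prodMk_nhds hx ?_
        refine tendsto_pi_nhds.2 fun l => ?_
        have h2 : Tendsto (fun q : X × (ℕ → Q) => Deep_j ω q (Nat.pair i l)) 𝒰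
            (𝓝 (y (Nat.pair i l))) := tendsto_pi_nhds.1 hy (Nat.pair i l)
        refine h2.congr' ?_
        filter_upwards [hev] with q hq
        exact Deep_j_pair ω q i l hq.le
      refine ⟨(x, fun l => y (Nat.pair i l)), ?_, hlim⟩
      have h3 := (hF.tendsto (x, fun l => y (Nat.pair i l))).comp hlim
      exact tendsto_nhds_unique h3 hU
    exact IsClosedEmbedding.of_continuous_injective_isClosedMap hF hinj hprop.isClosedMap

/-- [TOR-DEEP] The product metric is complete. -/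
theorem completeSpace_pi (Q : Type) [MetricSpace Q] [CompleteSpace Q] :
    CompleteSpace (ℕ → Q) := by
  infer_instance

end Pool.Agent.MP_645085_gt.TOR
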