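import Mathlib

/-!
# TOR: basic definitions

`AE`, `FN` (F-normed spaces), `Ctl` (control functions), `IsVMap`, `DensLE`, `DProp`, `ZSet`,
`MM X P = X × P × [0,1]`, `Data`, `Collapse`.
-/

namespace Pool.Agent.MP_645085_gt.TOR

open Set Filter Topology TopologicalSpace Metric Cardinal

/-- Absolute extensors for metrizable spaces (same wording as in the frozen statement). -/
def AE (E : Type) [TopologicalSpace E] : Prop :=
  ∀ (Y : Type) [TopologicalSpace Y] [MetrizableSpace Y] (A : Set Y),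
    IsClosed A → ∀ f : A → E, Continuous f → ∃ g : Y → E, Continuous g ∧ ∀ a : A, g a = f a

/-- `X` is an F-normed space: the group norm `‖·‖` satisfies `‖s • x‖ ≤ ‖x‖` for `|s| ≤ 1`
(no homogeneity, no local convexity) and scalar multiplication is continuous. -/
class FN (X : Type) [NormedAddCommGroup X] [Module ℝ X] : Prop where
  smul_le : ∀ (s : ℝ) (x : X), |s| ≤ 1 → ‖s • x‖ ≤ ‖x‖
  cont : ContinuousSMul ℝ X

attribute [instance] FN.cont

instance (priority := 50) FN.of_normedSpace (V : Type) [NormedAddCommGroup V] [NormedSpace ℝ V] :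
    FN V where
  smul_le s x hs := by
    rw [norm_smul, Real.norm_eq_abs]
    exact mul_le_of_le_one_left (norm_nonneg _) hs
  cont := inferInstance

/-- Control functions: positive, bounded by one, `1`-Lipschitz. -/
structure Ctl {X : Type} [PseudoMetricSpace X] (ε : X → ℝ) : Prop where
  pos : ∀ x, 0 < ε x
  le_one : ∀ x, ε x ≤ 1
  lip : ∀ x y, |ε x - ε y| ≤ dist x y

lemma Ctl.continuous {X : Type} [PseudoMetricSpace X] {ε : X → ℝ} (h : Ctl ε) : Continuous ε := by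
  rw [continuous_iff_continuousAt]
  intro x
  rw [ContinuousAt, tendsto_iff_dist_tendsto_zero]
  refine squeeze_zero (fun _ => dist_nonneg) (fun y => ?_) (tendsto_iff_dist_tendsto_zero.1 tendsto_id)
  rw [Real.dist_eq]
  exact h.lip y x

/-- `f` is a `v`-map: every point has a ball whose preimage lies in some ball `B(z, v z)`. -/
def IsVMap {M X : Type} [PseudoMetricSpace M] [PseudoMetricSpace X] (v : M → ℝ) (f : M → X) :
    Prop :=
  ∀ x, ∃ r > 0, ∃ z, ∀ m, dist (f m) x < r → dist m z < v z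

/-- There is a dense subset of cardinality at most `κ`. -/
def DensLE (κ : Cardinal.{0}) (Z : Type) [TopologicalSpace Z] : Prop :=
  ∃ s : Set Z, Dense s ∧ #s ≤ κ

/-- Property (D): maps of spaces of density at most `κ` into `X` are approximable by `v`-maps. -/
def DProp (κ : Cardinal.{0}) (X : Type) [NormedAddCommGroup X] : Prop :=
  ∀ (Z : Type) [MetricSpace Z] [Nonempty Z], DensLE κ Z → ∀ g : Z → X, Continuous g →
    ∀ ε : X → ℝ, Ctl ε → ∀ v : Z → ℝ, Ctl v →
      ∃ ψ : Z → X, Continuous ψ ∧ (∀ z, ‖ψ z - g z‖ ≤ ε (g z)) ∧ IsVMap v ψ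

/-- Strong Z-sets of `X`. -/
def ZSet {X : Type} [NormedAddCommGroup X] (A : Set X) : Prop :=
  ∀ ε : X → ℝ, Ctl ε → ∃ k : X → X, Continuous k ∧ (∀ x, ‖k x - x‖ ≤ ε x) ∧
    ∀ a ∈ A, ∃ r > 0, ∀ x, r ≤ ‖k x - a‖

/-- The space `X × P × [0,1]`. -/
abbrev MM (X P : Type) : Type := X × P × unitInterval

/-- The Hilbert space `ℓ²(ℕ × D)`. -/
abbrev Hil (D : Type) : Type := lp (fun _ : ℕ × D => ℝ) 2

/-- The data needed for the step `X × P × [0,1] ≅ X`. -/
structure Data (X P H : Type) [NormedAddCommGroup X] [Module ℝ X] [MetricSpace P]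
    [AddCommGroup P] [Module ℝ P] [NormedAddCommGroup H] [NormedSpace ℝ H] : Prop where
  aeX : AE X
  aeP : AE P
  aeH : AE H
  /-- bounded closed embedding into the Hilbert space -/
  emb : ∃ β : X × P → H, IsClosedEmbedding β ∧ ∀ q, ‖β q‖ ≤ 1 / 2
  /-- the chart `P × Ball ≅ P × [0,1]` with `t = ‖w‖` -/
  chart : ∃ C : (P × closedBall (0 : H) 1) ≃ₜ (P × unitInterval),
    (∀ q, ((C q).2 : ℝ) = ‖(q.2 : H)‖) ∧
      ∀ p, C (p, ⟨0, mem_closedBall_self zero_le_one⟩) = (p, 0)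
  /-- deep shifts -/
  deep : ∀ ω : X → ℝ, Ctl ω → ∃ j : X × P → P, Continuous j ∧ (∀ x, j (x, 0) = 0) ∧
    (∀ x p, dist (j (x, p)) 0 < ω x) ∧ IsClosedEmbedding (fun q : X × P => (q.1, j q))

/-- A collapse over the closed set `A`: `f : X × P × [0,1] → X` is `ε`-near the projection,
is `(a, 0, 1) ↦ a` strongly one-to-one over `A`, and is the projection of a homeomorphism
`Γ` of the complement of `A × {(0,1)}` onto the complement of the preimage of `A`. -/
structure Collapse {X P : Type} [NormedAddCommGroup X] [MetricSpace P] [AddCommGroup P]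
    (A : Set X) (ε : X → ℝ) (f : MM X P → X)
    (Γ : OpenPartialHomeomorph (MM X P) (MM X P)) : Prop where
  source : Γ.source = {m | ¬ (m.1 ∈ A ∧ m.2.1 = 0 ∧ m.2.2 = 1)}
  target : Γ.target = {m | m.1 ∉ A}
  cont : Continuous f
  f_eq : ∀ m ∈ Γ.source, f m = (Γ m).1
  f_A : ∀ a ∈ A, f (a, 0, 1) = a
  near : ∀ m, ‖f m - m.1‖ ≤ ε m.1
  sep : ∀ a ∈ A, ∀ δ > 0, ∃ ρ > 0, ∀ m, ‖f m - a‖ < ρ → dist m (a, 0, 1) < δ

/-- The sequences from which a collapse is obtained: homeomorphisms `G n` and open neighbourhoods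
`O n` of `A`. -/
structure ShrinkSeq {X P : Type} [NormedAddCommGroup X] [MetricSpace P] [AddCommGroup P]
    (A : Set X) (ε : X → ℝ) (G : ℕ → (MM X P ≃ₜ MM X P)) (O : ℕ → Set X) : Prop where
  zero : ∀ m, G 0 m = m
  isOpen : ∀ n, IsOpen (O n)
  subset : ∀ n, A ⊆ O n
  closure_subset : ∀ n, closure (O (n + 1)) ⊆ O n
  infDist_lt : ∀ n, ∀ x ∈ O (n + 1), infDist x A < (1 / 2) ^ n
  fix : ∀ n, ∀ a ∈ A, G n (a, 0, 1) = (a, 0, 1)
  stable : ∀ n m, (G n m).1 ∉ O n → G (n + 1) m = G n m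
  small : ∀ n m, (G (n + 1) m).1 ∈ O (n + 1) → dist m ((G n m).1, 0, 1) < (1 / 2) ^ n
  move : ∀ n m, ‖(G (n + 1) m).1 - (G n m).1‖ ≤ (1 / 2) ^ (n + 3) * ε (G n m).1

/-- Truncation to the unit interval. -/
noncomputable def cl01 (t : ℝ) : ℝ := max 0 (min 1 t)

lemma cl01_nonneg (t : ℝ) : 0 ≤ cl01 t := le_max_left _ _
lemma cl01_le_one (t : ℝ) : cl01 t ≤ 1 := max_le zero_le_one (min_le_left _ _)
lemma cl01_mem (t : ℝ) : cl01 t ∈ Icc (0 : ℝ) 1 := ⟨cl01_nonneg t, cl01_le_one t⟩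
lemma cl01_of_nonpos {t : ℝ} (h : t ≤ 0) : cl01 t = 0 :=
  max_eq_left ((min_le_right _ _).trans h)
lemma cl01_of_one_le {t : ℝ} (h : 1 ≤ t) : cl01 t = 1 := by
  unfold cl01; rw [min_eq_left h]; exact max_eq_right zero_le_one
lemma cl01_of_mem {t : ℝ} (h0 : 0 ≤ t) (h1 : t ≤ 1) : cl01 t = t := by
  unfold cl01; rw [min_eq_right h1, max_eq_right h0]
lemma abs_cl01_le (t : ℝ) : |cl01 t| ≤ 1 := by
  rw [abs_of_nonneg (cl01_nonneg t)]; exact cl01_le_one t
lemma continuous_cl01 : Continuous cl01 := by unfold cl01; fun_prop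

end Pool.Agent.MP_645085_gt.TOR
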