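import Pool.Agent.MP_645085_gt.TOR.Defs

/-!
# TOR row [TOR-DEL]: deleting a point from `ℓ²(ℕ × D)`
-/

namespace Pool.Agent.MP_645085_gt.TOR

open Set Filter Topology TopologicalSpace Metric

/-- the fixed point function -/
theorem Del_fix {H : Type*} [NormedAddCommGroup H] [NormedSpace ℝ H] (T : H →L[ℝ] H)
    (B : ℝ → H) (hB : ∀ s s', ‖B s - B s'‖ ≤ 1 / 2 * |s - s'|) :
    ∃ σ : H → ℝ, Continuous σ ∧ (∀ y, ‖T y - B (σ y)‖ = σ y) ∧
      ∀ y s, ‖T y - B s‖ = s → s = σ y := by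
  have key : ∀ y s s', |‖T y - B s‖ - ‖T y - B s'‖| ≤ 1 / 2 * |s - s'| := by
    intro y s s'
    refine (abs_norm_sub_norm_le _ _).trans ?_
    have : T y - B s - (T y - B s') = -(B s - B s') := by abel
    rw [this, norm_neg]
    exact hB s s'
  have hc : ∀ y, ContractingWith (1 / 2) (fun s : ℝ => ‖T y - B s‖) := by
    intro y
    refine ⟨by
      rw [← NNReal.coe_lt_coe]; norm_num, LipschitzWith.of_dist_le_mul fun s s' => ?_⟩
    rw [Real.dist_eq, Real.dist_eq]
    simpa using key y s s'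
  refine ⟨fun y => (hc y).fixedPoint _, ?_, fun y => (hc y).fixedPoint_isFixedPt,
    fun y s hs => (hc y).fixedPoint_unique hs⟩
  have h1 : ∀ y y', |(hc y).fixedPoint _ - (hc y').fixedPoint _| ≤ 2 * ‖T (y - y')‖ := by
    intro y y'
    set a := (hc y).fixedPoint _ with ha
    set b := (hc y').fixedPoint _ with hb
    have ea : ‖T y - B a‖ = a := (hc y).fixedPoint_isFixedPt
    have eb : ‖T y' - B b‖ = b := (hc y').fixedPoint_isFixedPt
    have h2 := key y' a b
    rw [eb] at h2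
    have h3 : |‖T y - B a‖ - ‖T y' - B a‖| ≤ ‖T (y - y')‖ := by
      refine (abs_norm_sub_norm_le _ _).trans ?_
      rw [map_sub]
      have : T y - B a - (T y' - B a) = T y - T y' := by abel
      rw [this]
    rw [ea] at h3
    have h4 := abs_le.1 h2
    have h5 := abs_le.1 h3
    have h6 : |a - b| ≤ ‖T (y - y')‖ + 1 / 2 * |a - b| := by
      rw [abs_le]
      constructor
      · linarith [h4.1, h5.1]
      · linarith [h4.2, h5.2]
    linarith
  refine continuous_iff_continuousAt.2 fun y => ?_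
  rw [ContinuousAt, tendsto_iff_dist_tendsto_zero]
  have h2 : Tendsto (fun y' => 2 * ‖T (y' - y)‖) (𝓝 y) (𝓝 0) := by
    have : Continuous fun y' => 2 * ‖T (y' - y)‖ := by fun_prop
    have h3 := this.tendsto y
    simpa using h3
  refine squeeze_zero (fun _ => dist_nonneg) (fun y' => ?_) h2
  rw [Real.dist_eq]
  exact h1 y' y

/-- Bessaga's deletion in abstract form -/
theorem Del_abs {H : Type*} [NormedAddCommGroup H] [NormedSpace ℝ H] (T : H →L[ℝ] H)
    (hT : Function.Injective T) (γ B : ℝ → H) (hγ : ContinuousOn γ (Ioi 0))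
    (hTγ : ∀ s, 0 < s → T (γ s) = B s) (hB : ∀ s s', ‖B s - B s'‖ ≤ 1 / 2 * |s - s'|)
    (hB0 : ∀ y, T y ≠ B 0) : Nonempty ({x : H // x ≠ 0} ≃ₜ H) := by
  obtain ⟨σ, hσ, h1, h2⟩ := Del_fix T B hB
  have hpos : ∀ y, 0 < σ y := by
    intro y
    have h3 : 0 ≤ σ y := by rw [← h1 y]; exact norm_nonneg _
    refine lt_of_le_of_ne h3 fun h4 => ?_
    have h5 := h1 y
    rw [← h4, norm_eq_zero, sub_eq_zero] at h5
    exact hB0 y h5
  have hTpos : ∀ x : {x : H // x ≠ 0}, 0 < ‖T x‖ := by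
    intro x
    rw [norm_pos_iff]
    intro h
    apply x.2
    apply hT
    rw [h, map_zero]
  have hTG : ∀ y, T (y - γ (σ y)) = T y - B (σ y) := by
    intro y
    rw [map_sub, hTγ _ (hpos y)]
  have hTGn : ∀ y, ‖T (y - γ (σ y))‖ = σ y := by
    intro y
    rw [hTG, h1]
  have hG0 : ∀ y, y - γ (σ y) ≠ 0 := by
    intro y h
    have := hTGn y
    rw [h, map_zero, norm_zero] at this
    exact (hpos y).ne this
  have hσF : ∀ x : {x : H // x ≠ 0}, σ (x + γ ‖T x‖) = ‖T x‖ := by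
    intro x
    symm
    apply h2
    rw [map_add, hTγ _ (hTpos x), add_sub_cancel_right]
  refine ⟨⟨⟨fun x => x + γ ‖T x‖, fun y => ⟨y - γ (σ y), hG0 y⟩, ?_, ?_⟩, ?_, ?_⟩⟩
  · intro x
    apply Subtype.ext
    simp only
    rw [hσF x, add_sub_cancel_right]
  · intro y
    simp only
    rw [hTGn y, sub_add_cancel]
  · refine continuous_subtype_val.add ?_
    refine hγ.comp_continuous (by fun_prop) fun x => ?_
    exact hTpos x
  · refine Continuous.subtype_mk ?_ _
    refine continuous_id.sub ?_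
    exact hγ.comp_continuous hσ fun y => hpos y

/-- the coefficients -/
noncomputable def Del_c (k : ℕ) (s : ℝ) : ℝ := max 0 (1 - k * s) / 2

theorem Del_c_cont (k : ℕ) : Continuous (Del_c k) := by
  unfold Del_c; fun_prop

theorem Del_c_zero (k : ℕ) (s : ℝ) (h : 1 ≤ k * s) : Del_c k s = 0 := by
  rw [Del_c, max_eq_left (by linarith), zero_div]

theorem Del_c_zero' (k : ℕ) : Del_c k 0 = 1 / 2 := by
  simp [Del_c]

theorem Del_c_lip (k : ℕ) (s s' : ℝ) : |Del_c k s - Del_c k s'| ≤ k * |s - s'| / 2 := by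
  unfold Del_c
  rw [← sub_div, abs_div, abs_two]
  have h := abs_max_sub_max_le_abs (1 - k * s) (1 - k * s') 0
  rw [max_comm 0, max_comm 0]
  have h2 : |1 - k * s - (1 - k * s')| = k * |s - s'| := by
    have : 1 - k * s - (1 - k * s') = k * (s' - s) := by ring
    rw [this, abs_mul, abs_of_nonneg (Nat.cast_nonneg k), abs_sub_comm]
  rw [h2] at h
  linarith

theorem Del_c_bound (k : ℕ) (s : ℝ) (hs : 0 ≤ s) : |Del_c k s| ≤ 1 := by
  unfold Del_c
  have h0 : (0 : ℝ) ≤ k * s := by positivity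
  rw [abs_of_nonneg (by positivity)]
  have : max 0 (1 - k * s) ≤ 1 := max_le zero_le_one (by linarith)
  linarith

theorem Del_memlp (D : Type) (x : Hil D) :
    Memℓp (fun i : ℕ × D => (1 / 4 : ℝ) ^ i.1 * x i) 2 := by
  have hx := (lp.memℓp x).summable (p := 2) (by norm_num)
  refine memℓp_gen ?_
  refine Summable.of_nonneg_of_le (fun i => by positivity) (fun i => ?_) hx
  refine Real.rpow_le_rpow (norm_nonneg _) ?_ (by norm_num)
  rw [norm_mul]
  refine mul_le_of_le_one_left (norm_nonneg _) ?_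
  rw [norm_pow]
  exact pow_le_one₀ (norm_nonneg _) (by norm_num)

/-- the contraction -/
noncomputable def Del_T (D : Type) : Hil D →L[ℝ] Hil D :=
  LinearMap.mkContinuous
    { toFun := fun x => ⟨fun i : ℕ × D => (1 / 4 : ℝ) ^ i.1 * x i, Del_memlp D x⟩
      map_add' := fun x y => by
        ext i
        simp [mul_add]
      map_smul' := fun c x => by
        ext i
        simp
        ring } 1 (by
    intro x
    rw [one_mul]
    refine lp.norm_le_of_tsum_le (by norm_num) (norm_nonneg _) ?_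
    rw [lp.norm_rpow_eq_tsum (by norm_num) x]
    refine Summable.tsum_le_tsum (fun i => ?_) ((Del_memlp D x).summable (by norm_num))
      ((lp.memℓp x).summable (by norm_num))
    refine Real.rpow_le_rpow (norm_nonneg _) ?_ (by norm_num)
    change ‖(1 / 4 : ℝ) ^ i.1 * x i‖ ≤ ‖x i‖
    rw [norm_mul]
    refine mul_le_of_le_one_left (norm_nonneg _) ?_
    rw [norm_pow]
    exact pow_le_one₀ (norm_nonneg _) (by norm_num))

theorem Del_T_apply (D : Type) (x : Hil D) (i : ℕ × D) : Del_T D x i = (1 / 4 : ℝ) ^ i.1 * x i :=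
  rfl

theorem Del_T_inj (D : Type) : Function.Injective (Del_T D) := by
  intro x y h
  ext i
  have h1 : Del_T D x i = Del_T D y i := by rw [h]
  rw [Del_T_apply, Del_T_apply] at h1
  exact mul_left_cancel₀ (by positivity) h1

open Classical in
/-- basis vectors -/
noncomputable def Del_e (D : Type) (d : D) (k : ℕ) : Hil D := lp.single 2 (k, d) (1 : ℝ)

theorem Del_e_norm (D : Type) (d : D) (k : ℕ) : ‖Del_e D d k‖ = 1 := by
  classical
  rw [Del_e]
  have := lp.norm_single (E := fun _ : ℕ × D => ℝ) (p := 2) (by norm_num) (k, d) (1 : ℝ)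
  rw [this]
  exact norm_one

theorem Del_e_apply (D : Type) (d : D) (k j : ℕ) : Del_e D d k (j, d) = if j = k then 1 else 0 := by
  classical
  rw [Del_e]
  split_ifs with h
  · subst h
    exact lp.single_apply_self (E := fun _ : ℕ × D => ℝ) 2 (j, d) (1 : ℝ)
  · exact lp.single_apply_ne (E := fun _ : ℕ × D => ℝ) 2 (k, d) (1 : ℝ) (j := (j, d)) (by
      intro h2; exact h (Prod.ext_iff.1 h2).1)

theorem Del_T_e (D : Type) (d : D) (k : ℕ) : Del_T D (Del_e D d k) = (1 / 4 : ℝ) ^ k • Del_e D d k := by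
  classical
  ext i
  rw [Del_T_apply, lp.coeFn_smul, Pi.smul_apply, smul_eq_mul]
  by_cases h : i = (k, d)
  · subst h; rfl
  · have : Del_e D d k i = 0 := by
      rw [Del_e]; exact lp.single_apply_ne (E := fun _ : ℕ × D => ℝ) 2 (k, d) (1 : ℝ) h
    rw [this, mul_zero, mul_zero]

/-- the path -/
noncomputable def Del_γ (D : Type) (d : D) (s : ℝ) : Hil D :=
  ∑ k ∈ Finset.range ⌈1 / s⌉₊, Del_c k s • Del_e D d k

theorem Del_vanish {s : ℝ} (hs : 0 < s) {k : ℕ} (h : ⌈1 / s⌉₊ ≤ k) : Del_c k s = 0 := by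
  apply Del_c_zero
  have h1 : 1 / s ≤ k := (Nat.le_ceil _).trans (by exact_mod_cast h)
  rw [div_le_iff₀ hs] at h1
  exact h1

theorem Del_γ_eq (D : Type) (d : D) {s : ℝ} (hs : 0 < s) {N : ℕ} (hN : ⌈1 / s⌉₊ ≤ N) :
    Del_γ D d s = ∑ k ∈ Finset.range N, Del_c k s • Del_e D d k := by
  rw [Del_γ]
  refine Finset.sum_subset (Finset.range_mono hN) fun k _ hk => ?_
  rw [Finset.mem_range, not_lt] at hk
  rw [Del_vanish hs hk, zero_smul]

theorem Del_γ_cont (D : Type) (d : D) : ContinuousOn (Del_γ D d) (Ioi 0) := by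
  intro s hs
  have hs' : 0 < s := hs
  apply ContinuousAt.continuousWithinAt
  have h1 : Ioi (s / 2) ∈ 𝓝 s := Ioi_mem_nhds (by linarith)
  have h2 : (fun s => ∑ k ∈ Finset.range ⌈1 / (s / 2)⌉₊, Del_c k s • Del_e D d k) s = _ := rfl
  have h3 : Continuous fun t => ∑ k ∈ Finset.range ⌈1 / (s / 2)⌉₊, Del_c k t • Del_e D d k := by
    refine continuous_finsetSum _ fun k _ => ?_
    have := Del_c_cont k
    fun_prop
  refine h3.continuousAt.congr ?_
  filter_upwards [h1] with t ht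
  have ht' : s / 2 < t := ht
  symm
  apply Del_γ_eq D d (by linarith)
  apply Nat.ceil_mono
  exact one_div_le_one_div_of_le (by linarith) ht'.le

theorem Del_geom : HasSum (fun k : ℕ => (k : ℝ) * (1 / 4 : ℝ) ^ k) (4 / 9) := by
  have h := hasSum_coe_mul_geometric_of_norm_lt_one (𝕜 := ℝ) (r := 1 / 4) (by norm_num)
  have h2 : (1 / 4 : ℝ) / (1 - 1 / 4) ^ 2 = 4 / 9 := by norm_num
  rwa [h2] at h

/-- the path in the image -/
noncomputable def Del_B (D : Type) (d : D) (s : ℝ) : Hil D :=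
  ∑' k : ℕ, ((1 / 4 : ℝ) ^ k * Del_c k |s|) • Del_e D d k

theorem Del_B_norm (D : Type) (d : D) (s : ℝ) :
    Summable fun k : ℕ => ‖((1 / 4 : ℝ) ^ k * Del_c k |s|) • Del_e D d k‖ := by
  refine Summable.of_nonneg_of_le (fun i => norm_nonneg _) (fun k => ?_)
    (summable_geometric_of_lt_one (r := 1 / 4) (by norm_num) (by norm_num))
  rw [norm_smul, Del_e_norm, mul_one, norm_mul, norm_pow]
  have h1 := Del_c_bound k |s| (abs_nonneg s)
  have h2 : ‖(1 / 4 : ℝ)‖ = 1 / 4 := by norm_num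
  rw [h2]
  exact mul_le_of_le_one_right (by positivity) h1

theorem Del_B_summable (D : Type) (d : D) (s : ℝ) :
    Summable fun k : ℕ => ((1 / 4 : ℝ) ^ k * Del_c k |s|) • Del_e D d k :=
  (Del_B_norm D d s).of_norm

theorem Del_B_lip (D : Type) (d : D) (s s' : ℝ) :
    ‖Del_B D d s - Del_B D d s'‖ ≤ 1 / 2 * |s - s'| := by
  rw [Del_B, Del_B, ← (Del_B_summable D d s).tsum_sub (Del_B_summable D d s')]
  have h1 : HasSum (fun k : ℕ => (k : ℝ) * (1 / 4 : ℝ) ^ k * (|s - s'| / 2))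
      (4 / 9 * (|s - s'| / 2)) := Del_geom.mul_right _
  have h2 : ∀ k : ℕ, ‖((1 / 4 : ℝ) ^ k * Del_c k |s|) • Del_e D d k -
      ((1 / 4 : ℝ) ^ k * Del_c k |s'|) • Del_e D d k‖ ≤
      (k : ℝ) * (1 / 4 : ℝ) ^ k * (|s - s'| / 2) := by
    intro k
    rw [← sub_smul, norm_smul, Del_e_norm, mul_one, ← mul_sub, norm_mul, norm_pow, Real.norm_eq_abs,
      Real.norm_eq_abs]
    have h3 := Del_c_lip k |s| |s'|
    have h4 : |(1 / 4 : ℝ)| = 1 / 4 := by norm_num
    have h5 := abs_abs_sub_abs_le_abs_sub s s'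
    rw [h4]
    have h6 : |Del_c k (|s|) - Del_c k (|s'|)| ≤ k * |s - s'| / 2 := by
      refine h3.trans ?_
      have : (0 : ℝ) ≤ k := Nat.cast_nonneg k
      gcongr
    calc (1 / 4 : ℝ) ^ k * |Del_c k (|s|) - Del_c k (|s'|)| ≤ (1 / 4 : ℝ) ^ k * (k * |s - s'| / 2) := by
          gcongr
      _ = _ := by ring
  have h3 := tsum_of_norm_bounded h1 h2
  refine h3.trans ?_
  have := abs_nonneg (s - s')
  linarith

theorem Del_T_γ (D : Type) (d : D) (s : ℝ) (hs : 0 < s) : Del_T D (Del_γ D d s) = Del_B D d s := by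
  rw [Del_γ, map_sum, Del_B, abs_of_pos hs]
  rw [tsum_eq_sum (s := Finset.range ⌈1 / s⌉₊)]
  · refine Finset.sum_congr rfl fun k _ => ?_
    rw [map_smul, Del_T_e, smul_smul, mul_comm]
  · intro k hk
    rw [Finset.mem_range, not_lt] at hk
    rw [Del_vanish hs hk, mul_zero, zero_smul]

theorem Del_B_zero (D : Type) (d : D) (y : Hil D) : Del_T D y ≠ Del_B D d 0 := by
  intro h
  have h1 : ∀ j : ℕ, y (j, d) = 1 / 2 := by
    intro j
    have h2 : Del_T D y (j, d) = Del_B D d 0 (j, d) := by rw [h]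
    have h3 : Del_B D d 0 (j, d) = (1 / 4 : ℝ) ^ j * (1 / 2) := by
      have h4 := (Del_B_summable D d 0).hasSum.mapL
        (lp.evalCLM ℝ (fun _ : ℕ × D => ℝ) 2 (j, d))
      have h5 : (lp.evalCLM ℝ (fun _ : ℕ × D => ℝ) 2 (j, d)) (Del_B D d 0) =
        Del_B D d 0 (j, d) := rfl
      have h6 : HasSum (fun k : ℕ => (lp.evalCLM ℝ (fun _ : ℕ × D => ℝ) 2 (j, d))
        (((1 / 4 : ℝ) ^ k * Del_c k |0|) • Del_e D d k)) ((1 / 4 : ℝ) ^ j * (1 / 2)) := by
        have h7 := hasSum_single (f := fun k : ℕ => (lp.evalCLM ℝ (fun _ : ℕ × D => ℝ) 2 (j, d))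
          (((1 / 4 : ℝ) ^ k * Del_c k |0|) • Del_e D d k)) j (by
            intro k hk
            rw [map_smul]
            change _ • (Del_e D d k (j, d)) = 0
            rw [Del_e_apply, if_neg (Ne.symm hk), smul_zero])
        convert h7 using 1
        rw [map_smul]
        change _ = _ • (Del_e D d j (j, d))
        rw [Del_e_apply, if_pos rfl, abs_zero, Del_c_zero', smul_eq_mul, mul_one]
      rw [← h5]
      exact h4.unique h6
    rw [Del_T_apply, h3] at h2
    exact mul_left_cancel₀ (by positivity) h2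
  have h2 := (lp.memℓp y).summable (p := 2) (by norm_num)
  have h3 := h2.comp_injective (i := fun j : ℕ => (j, d)) (fun a b hab => (Prod.ext_iff.1 hab).1)
  have h4 : (fun i : ℕ × D => ‖y i‖ ^ (2 : ENNReal).toReal) ∘ (fun j : ℕ => (j, d)) =
      fun _ => ((1 / 2 : ℝ)) ^ (2 : ENNReal).toReal := by
    ext j
    simp [h1 j]
  rw [h4] at h3
  have h5 := h3.tendsto_atTop_zero
  have h6 := tendsto_nhds_unique h5 tendsto_const_nhds
  norm_num at h6

/-- [TOR-DEL] Bessaga's formula. Fix `d₀ : D`. Let `T : Hil D → Hil D` be the injective contraction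
`(T x) (k, d) = 2^{-k} * x (k, d)` and `ω x = ‖T x‖`. For `s > 0` let `γ s ∈ Hil D` be
`γ s (k, d₀) = max 0 (1 - k * s) / 2`, `γ s (k, d) = 0` for `d ≠ d₀` (finitely many nonzero
coordinates; `γ` is continuous on `s > 0`: locally the support is contained in a fixed finite set),
and for `s ≥ 0` let `B s ∈ Hil D`, `B s (k, d₀) = 2^{-k} * max 0 (1 - k * s) / 2`, so `B s = T (γ s)`
for `s > 0`. As `∑ k, 4^{-k} k^2 = 20/27 < 1`, `B` is `1/2`-Lipschitz on `[0, ∞)`
(`|max 0 (1 - k s) - max 0 (1 - k s')| ≤ k |s - s'|`), and `B 0 ≠ T y` for every `y` (`T y = B 0` would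
force `y (k, d₀) = 1/2` for all `k`).
Then `F x = x + γ (ω x)`, `x ≠ 0`, is the homeomorphism; the inverse is `y ↦ y - γ (s y)` where
`s y ≥ 0` is the unique fixed point of `s ↦ ‖T y - B s‖` (`1/2`-Lipschitz; `s y ≠ 0` because
`T y ≠ B 0`); `T (y - γ (s y)) = T y - B (s y)` has norm `s y > 0`. `s y` is continuous:
`|s y - s y'| ≤ 2 * ‖T (y - y')‖`. (In the proof the factor `4^{-k}` is used.) -/
theorem exists_deletion (D : Type) [Nonempty D] : Nonempty ({x : Hil D // x ≠ 0} ≃ₜ Hil D) :=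
  let d : D := Classical.arbitrary D
  Del_abs (Del_T D) (Del_T_inj D) (Del_γ D d) (Del_B D d) (Del_γ_cont D d) (Del_T_γ D d)
    (Del_B_lip D d) (Del_B_zero D d)

end Pool.Agent.MP_645085_gt.TOR
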