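import Pool.Agent.MP_645085_gt.TOR.Defs

/-!
# TOR row [TOR-DENS]: density arithmetic
-/

namespace Pool.Agent.MP_645085_gt.TOR

open Set Filter Topology TopologicalSpace Metric Cardinal

theorem DensLE.prod {κ : Cardinal.{0}} (hκ : ℵ₀ ≤ κ) {X Y : Type} [TopologicalSpace X]
    [TopologicalSpace Y] (hX : DensLE κ X) (hY : DensLE κ Y) : DensLE κ (X × Y) := by
  obtain ⟨s, hs, hsκ⟩ := hX
  obtain ⟨t, ht, htκ⟩ := hY
  refine ⟨s ×ˢ t, hs.prod ht, ?_⟩
  have h1 : #(s ×ˢ t : Set (X × Y)) = #s * #t := by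
    rw [Cardinal.mk_congr (Equiv.Set.prod s t), Cardinal.mk_prod]
    simp
  rw [h1]
  exact (mul_le_mul' hsκ htκ).trans (Cardinal.mul_eq_self hκ).le

theorem densLE_real {κ : Cardinal.{0}} (hκ : ℵ₀ ≤ κ) : DensLE κ ℝ := by
  refine ⟨Set.range ((↑) : ℚ → ℝ), Rat.denseRange_cast, ?_⟩
  refine Cardinal.mk_range_le.trans ?_
  exact (Cardinal.mk_le_aleph0 (α := ℚ)).trans hκ

/-- Countable powers: the set of sequences in the dense set which are eventually equal to a fixed
element. -/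
theorem DensLE.pi_nat {κ : Cardinal.{0}} (hκ : ℵ₀ ≤ κ) {X : Type} [TopologicalSpace X]
    (hX : DensLE κ X) : DensLE κ (ℕ → X) := by
  obtain ⟨s, hs, hsκ⟩ := hX
  rcases isEmpty_or_nonempty X with hE | hN
  · refine ⟨∅, ?_, ?_⟩
    · intro f
      exact (hE.false (f 0)).elim
    · simp
  · obtain ⟨x0, hx0⟩ := hs.nonempty
    refine ⟨Set.range (fun (l : List s) (n : ℕ) => ((l.getD n ⟨x0, hx0⟩ : s) : X)), ?_, ?_⟩
    · rw [dense_iff_inter_open]
      intro U hU hUne
      obtain ⟨f, hf⟩ := hUne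
      rw [isOpen_pi_iff] at hU
      obtain ⟨I, u, hu, hIU⟩ := hU f hf
      have hch : ∀ n : ℕ, ∃ y : s, n ∈ I → (y : X) ∈ u n := by
        intro n
        by_cases hn : n ∈ I
        · obtain ⟨y, hyu, hys⟩ := (dense_iff_inter_open.mp hs) (u n) (hu n hn).1 ⟨f n, (hu n hn).2⟩
          exact ⟨⟨y, hys⟩, fun _ => hyu⟩
        · exact ⟨⟨x0, hx0⟩, fun h => (hn h).elim⟩
      choose y hy using hch
      refine ⟨fun n => (((List.ofFn (fun i : Fin (I.sup id + 1) => y i)).getD n ⟨x0, hx0⟩ : s) : X),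
        hIU ?_, ⟨_, rfl⟩⟩
      intro n hn
      have hlt : n < I.sup id + 1 := Nat.lt_succ_of_le (Finset.le_sup (f := id) hn)
      have h1 : (List.ofFn (fun i : Fin (I.sup id + 1) => y i)).getD n ⟨x0, hx0⟩ = y n := by
        rw [List.getD_eq_getElem _ _ (by simpa using hlt), List.getElem_ofFn]
      show (((List.ofFn (fun i : Fin (I.sup id + 1) => y i)).getD n ⟨x0, hx0⟩ : s) : X) ∈ u n
      rw [h1]
      exact hy n hn
    · refine Cardinal.mk_range_le.trans ((Cardinal.mk_list_le_max s).trans ?_)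
      exact max_le hκ hsκ

/-- A dense range indexed by a type of cardinality `κ`. -/
theorem DensLE.exists_denseRange {X D : Type} [TopologicalSpace X] [Nonempty X]
    (hX : DensLE #D X) : ∃ d : D → X, DenseRange d := by
  obtain ⟨s, hs, hsκ⟩ := hX
  obtain ⟨i⟩ := (Cardinal.le_def _ _).mp hsκ
  obtain ⟨x0, hx0⟩ := hs.nonempty
  have : Nonempty s := ⟨⟨x0, hx0⟩⟩
  refine ⟨fun a => ((Function.invFun i a : s) : X), ?_⟩
  refine hs.mono ?_
  intro x hx
  refine ⟨i ⟨x, hx⟩, ?_⟩
  have h1 : Function.invFun i (i ⟨x, hx⟩) = ⟨x, hx⟩ := Function.leftInverse_invFun i.injective _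
  show ((Function.invFun i (i ⟨x, hx⟩) : s) : X) = x
  rw [h1]

/-- A real topological vector space (`FN`) which is not finite dimensional has a dense set of minimal
cardinality `κ ≥ ℵ₀`. (A finite dense set in a Hausdorff space is everything; `X` is infinite because it
is a nonzero real vector space.) -/
theorem exists_density {X : Type} [NormedAddCommGroup X] [Module ℝ X] [FN X]
    (hX : ¬ FiniteDimensional ℝ X) :
    ∃ D : Set X, Dense D ∧ Infinite D ∧ ∀ μ < #D, ¬ DensLE μ X := by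
  have hne : {κ : Cardinal.{0} | DensLE κ X}.Nonempty :=
    ⟨#(Set.univ : Set X), Set.univ, dense_univ, le_rfl⟩
  obtain ⟨κ, hκ, hmin⟩ := WellFounded.has_min Cardinal.lt_wf _ hne
  obtain ⟨D, hD, hDκ⟩ := hκ
  have hDeq : #D = κ := by
    rcases hDκ.lt_or_eq with h | h
    · exact (hmin #D ⟨D, hD, le_rfl⟩ h).elim
    · exact h
  refine ⟨D, hD, ?_, ?_⟩
  · by_contra hfin
    rw [not_infinite_iff_finite] at hfin
    have h1 : D = Set.univ := by
      have h2 : closure D = Set.univ := hD.closure_eq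
      rwa [(Set.toFinite D).isClosed.closure_eq] at h2
    have h3 : Finite X := by
      have h4 : (Set.univ : Set X).Finite := h1 ▸ Set.toFinite D
      exact Set.finite_univ_iff.mp h4
    exact hX (Module.Finite.of_finite)
  · intro μ hμ hd
    rw [hDeq] at hμ
    exact hmin μ hd hμ

end Pool.Agent.MP_645085_gt.TOR
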