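import Pool.Agent.MP_645085_gt.TOR.Defs

/-!
# TOR row [TOR-DUG]: Dugundji's extension theorem for normed spaces
-/

namespace Pool.Agent.MP_645085_gt.TOR

open Set Filter Topology TopologicalSpace Metric

/-- [TOR-DUG] Dugundji's extension theorem: normed spaces are absolute extensors.
Proof. Metrize `Y`. If `A = ∅` take `g = 0`. Else, on the open (hence metrizable, paracompact)
subspace `Y \ A` take a locally finite partition of unity `φ` subordinate to the balls
`B(y, d(y, A) / 4)`, indexed by `y ∉ A`; choose `a y ∈ A` with `d(y, a y) < 2 d(y, A)`, put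
`g = f` on `A` and `g z = ∑ᶠ y, φ y z • f (a y)` off `A`. Continuity at `a₀ ∈ A`: if `φ y z ≠ 0` then
`d(z, y) < d(y, A)/4`, so `d(y, A) ≤ 2 d(z, A) ≤ 2 d(z, a₀)`, `d(a y, a₀) ≤ 6 d(z, a₀)`; so `g z` is a
convex combination of points `f (a y)` with `a y` close to `a₀` (convexity of balls). -/
theorem ae_normed (V : Type) [NormedAddCommGroup V] [NormedSpace ℝ V] : AE V := by
  intro Y _ _ A hA f hf
  let _ : MetricSpace Y := TopologicalSpace.metrizableSpaceMetric Y
  classical
  rcases A.eq_empty_or_nonempty with rfl | hne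
  · exact ⟨fun _ => 0, continuous_const, fun a => absurd a.2 (Set.notMem_empty _)⟩
  have hpos : ∀ z : ↥(Aᶜ), 0 < infDist (z : Y) A := fun z =>
    (hA.notMem_iff_infDist_pos hne).1 z.2
  -- continuous selection on the complement
  let t : ↥(Aᶜ) → Set V := fun z =>
    convexHull ℝ (f '' {a : A | dist (z : Y) (a : Y) < 3 * infDist (z : Y) A})
  obtain ⟨g, hg⟩ : ∃ g : C(↥(Aᶜ), V), ∀ z, g z ∈ t z := by
    refine exists_continuous_forall_mem_convex_of_local_const (fun z => convex_convexHull ℝ _) ?_
    intro z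
    have h0 := hpos z
    obtain ⟨a, ha, hza⟩ := (infDist_lt_iff hne).1 (by linarith :
      infDist (z : Y) A < 2 * infDist (z : Y) A)
    refine ⟨f ⟨a, ha⟩, ?_⟩
    have hc1 : Continuous fun y : ↥(Aᶜ) => dist (y : Y) a := by fun_prop
    have hc2 : Continuous fun y : ↥(Aᶜ) => 3 * infDist (y : Y) A :=
      continuous_const.mul ((continuous_infDist_pt A).comp continuous_subtype_val)
    have hlt : dist (z : Y) a < 3 * infDist (z : Y) A := by linarith
    filter_upwards [hc1.continuousAt.eventually_lt hc2.continuousAt hlt] with y hy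
    exact subset_convexHull ℝ _ ⟨⟨a, ha⟩, hy, rfl⟩
  let G : Y → V := fun z => if h : z ∈ A then f ⟨z, h⟩ else g ⟨z, h⟩
  have hGA : ∀ z (h : z ∈ A), G z = f ⟨z, h⟩ := fun z h => dif_pos h
  have hGc : ∀ z (h : z ∉ A), G z = g ⟨z, h⟩ := fun z h => dif_neg h
  refine ⟨G, ?_, fun a => hGA a a.2⟩
  rw [continuous_iff_continuousAt]
  intro z
  by_cases hz : z ∈ A
  · -- continuity at points of `A`
    rw [Metric.continuousAt_iff]
    intro ε hε
    have hfc := (Metric.continuous_iff.1 hf) ⟨z, hz⟩ ε hε
    obtain ⟨δ, hδ, hfδ⟩ := hfc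
    refine ⟨δ / 4, by positivity, fun {y} hy => ?_⟩
    rw [hGA z hz]
    by_cases hyA : y ∈ A
    · rw [hGA y hyA]
      apply hfδ
      show dist y z < δ
      linarith
    · rw [hGc y hyA]
      have h1 := hg ⟨y, hyA⟩
      have h2 : t ⟨y, hyA⟩ ⊆ ball (f ⟨z, hz⟩) ε := by
        refine convexHull_min ?_ (convex_ball _ _)
        rintro _ ⟨a, ha, rfl⟩
        apply hfδ
        have ha' : dist y (a : Y) < 3 * infDist y A := ha
        have h3 : infDist y A ≤ dist y z := infDist_le_dist_of_mem hz
        show dist (a : Y) z < δ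
        calc dist (a : Y) z ≤ dist (a : Y) y + dist y z := dist_triangle _ _ _
          _ < 3 * infDist y A + dist y z := by rw [dist_comm (a : Y) y]; linarith
          _ ≤ 4 * dist y z := by linarith
          _ < δ := by linarith
      exact h2 h1
  · -- continuity off `A`
    have ho : IsOpen (Aᶜ) := hA.isOpen_compl
    have hco : ContinuousOn G (Aᶜ) := by
      rw [continuousOn_iff_continuous_domRestrict]
      have : (Aᶜ).domRestrict G = g := by
        funext y
        exact hGc y y.2
      rw [this]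
      exact g.continuous
    exact hco.continuousAt (ho.mem_nhds hz)

end Pool.Agent.MP_645085_gt.TOR
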