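import Pool.Agent.MP_645085_gt.TOR.Defs

/-!
# TOR row [TOR-EMB]: bounded closed embeddings into `ℓ²(ℕ × D)`
-/

namespace Pool.Agent.MP_645085_gt.TOR

open Set Filter Topology TopologicalSpace Metric

section Emb

variable {Z D : Type} [MetricSpace Z]

/-- The coordinates of the embedding. -/
noncomputable def Emb_a (f : ℕ → PartitionOfUnity D Z univ) (z : Z) (p : ℕ × D) : ℝ :=
  (1 / 2 : ℝ) ^ (p.1 + 2) * Real.sqrt (f p.1 p.2 z)

/-- The correlation of two points for one partition of unity. -/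
noncomputable def Emb_c (g : PartitionOfUnity D Z univ) (z z' : Z) : ℝ :=
  ∑' δ, Real.sqrt (g δ z) * Real.sqrt (g δ z')

lemma Emb_finite (g : PartitionOfUnity D Z univ) (z : Z) : {δ | g δ z ≠ 0}.Finite :=
  g.locallyFinite.point_finite z

lemma Emb_hasSum (g : PartitionOfUnity D Z univ) (z : Z) : HasSum (fun δ => g δ z) 1 := by
  have h1 : (Function.support (fun δ => g δ z)).Finite := Emb_finite g z
  have h2 : Summable (fun δ => g δ z) := summable_of_hasFiniteSupport h1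
  have h3 : ∑' δ, g δ z = 1 := by
    rw [tsum_eq_finsum h1]
    exact g.sum_eq_one (mem_univ z)
  rw [← h3]
  exact h2.hasSum

lemma Emb_term_nonneg (g : PartitionOfUnity D Z univ) (z z' : Z) (δ : D) :
    0 ≤ Real.sqrt (g δ z) * Real.sqrt (g δ z') :=
  mul_nonneg (Real.sqrt_nonneg _) (Real.sqrt_nonneg _)

lemma Emb_term_le (g : PartitionOfUnity D Z univ) (z z' : Z) (δ : D) :
    Real.sqrt (g δ z) * Real.sqrt (g δ z') ≤ (1 / 2) * g δ z + (1 / 2) * g δ z' := by
  have h1 := Real.sq_sqrt (g.nonneg δ z)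
  have h2 := Real.sq_sqrt (g.nonneg δ z')
  nlinarith [sq_nonneg (Real.sqrt (g δ z) - Real.sqrt (g δ z'))]

lemma Emb_c_finset (g : PartitionOfUnity D Z univ) (z z' : Z) :
    Emb_c g z z' = ∑ δ ∈ (Emb_finite g z').toFinset, Real.sqrt (g δ z) * Real.sqrt (g δ z') := by
  refine tsum_eq_sum ?_
  intro δ hδ
  have : g δ z' = 0 := by
    by_contra h
    exact hδ ((Emb_finite g z').mem_toFinset.2 h)
  rw [this]; simp

lemma Emb_c_summable (g : PartitionOfUnity D Z univ) (z z' : Z) :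
    Summable (fun δ => Real.sqrt (g δ z) * Real.sqrt (g δ z')) := by
  refine Summable.of_nonneg_of_le (Emb_term_nonneg g z z') (Emb_term_le g z z') ?_
  exact ((Emb_hasSum g z).summable.mul_left _).add ((Emb_hasSum g z').summable.mul_left _)

lemma Emb_c_nonneg (g : PartitionOfUnity D Z univ) (z z' : Z) : 0 ≤ Emb_c g z z' :=
  tsum_nonneg (Emb_term_nonneg g z z')

lemma Emb_c_le_one (g : PartitionOfUnity D Z univ) (z z' : Z) : Emb_c g z z' ≤ 1 := by
  have h1 : HasSum (fun δ => (1 / 2) * g δ z + (1 / 2) * g δ z') ((1 / 2) * 1 + (1 / 2) * 1) :=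
    ((Emb_hasSum g z).mul_left _).add ((Emb_hasSum g z').mul_left _)
  have h2 := (Emb_c_summable g z z').tsum_le_tsum (Emb_term_le g z z') h1.summable
  rw [h1.tsum_eq] at h2
  calc Emb_c g z z' ≤ (1 / 2) * 1 + (1 / 2) * 1 := h2
    _ = 1 := by norm_num

lemma Emb_c_self (g : PartitionOfUnity D Z univ) (z : Z) : Emb_c g z z = 1 := by
  have : (fun δ => Real.sqrt (g δ z) * Real.sqrt (g δ z)) = fun δ => g δ z := by
    funext δ
    exact Real.mul_self_sqrt (g.nonneg δ z)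
  unfold Emb_c
  rw [this]
  exact (Emb_hasSum g z).tsum_eq

lemma Emb_c_continuous (g : PartitionOfUnity D Z univ) (z' : Z) :
    Continuous (fun z => Emb_c g z z') := by
  have : (fun z => Emb_c g z z') =
      fun z => ∑ δ ∈ (Emb_finite g z').toFinset, Real.sqrt (g δ z) * Real.sqrt (g δ z') := by
    funext z; exact Emb_c_finset g z z'
  rw [this]
  refine continuous_finsetSum _ (fun δ _ => ?_)
  exact (Real.continuous_sqrt.comp (g δ).continuous).mul continuous_const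

variable (f : ℕ → PartitionOfUnity D Z univ)

lemma Emb_mul (z z' : Z) (p : ℕ × D) : Emb_a f z p * Emb_a f z' p =
    (1 / 4 : ℝ) ^ (p.1 + 2) * (Real.sqrt (f p.1 p.2 z) * Real.sqrt (f p.1 p.2 z')) := by
  unfold Emb_a
  rw [show (1 / 4 : ℝ) = (1 / 2) * (1 / 2) by norm_num, mul_pow]
  ring

lemma Emb_geom : Summable (fun n : ℕ => (1 / 4 : ℝ) ^ (n + 2)) := by
  have := (summable_geometric_of_lt_one (r := (1 / 4 : ℝ)) (by norm_num) (by norm_num))
  exact (summable_nat_add_iff 2).2 this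

lemma Emb_inner_summable (z z' : Z) :
    Summable (fun n : ℕ => (1 / 4 : ℝ) ^ (n + 2) * Emb_c (f n) z z') := by
  refine Summable.of_nonneg_of_le (fun n => mul_nonneg (by positivity) (Emb_c_nonneg _ _ _))
    (fun n => ?_) Emb_geom
  exact mul_le_of_le_one_right (by positivity) (Emb_c_le_one _ _ _)

lemma Emb_mul_summable (z z' : Z) : Summable (fun p : ℕ × D => Emb_a f z p * Emb_a f z' p) := by
  have h0 : (fun p : ℕ × D => Emb_a f z p * Emb_a f z' p) = fun p : ℕ × D =>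
      (1 / 4 : ℝ) ^ (p.1 + 2) * (Real.sqrt (f p.1 p.2 z) * Real.sqrt (f p.1 p.2 z')) := by
    funext p; exact Emb_mul f z z' p
  rw [h0, summable_prod_of_nonneg]
  · constructor
    · intro n
      exact (Emb_c_summable (f n) z z').mul_left ((1 / 4 : ℝ) ^ (n + 2))
    · have : (fun n : ℕ => ∑' δ : D, (1 / 4 : ℝ) ^ (n + 2) *
          (Real.sqrt (f n δ z) * Real.sqrt (f n δ z'))) =
          fun n : ℕ => (1 / 4 : ℝ) ^ (n + 2) * Emb_c (f n) z z' := by
        funext n; rw [tsum_mul_left]; rfl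
      simp only [this]
      exact Emb_inner_summable f z z'
  · intro p
    exact mul_nonneg (by positivity) (Emb_term_nonneg _ _ _ _)

lemma Emb_tsum (z z' : Z) : ∑' p : ℕ × D, Emb_a f z p * Emb_a f z' p =
    ∑' n : ℕ, (1 / 4 : ℝ) ^ (n + 2) * Emb_c (f n) z z' := by
  rw [(Emb_mul_summable f z z').tsum_prod]
  congr 1
  funext n
  have : (fun δ : D => Emb_a f z (n, δ) * Emb_a f z' (n, δ)) = fun δ : D =>
      (1 / 4 : ℝ) ^ (n + 2) * (Real.sqrt (f n δ z) * Real.sqrt (f n δ z')) := by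
    funext δ; exact Emb_mul f z z' (n, δ)
  rw [this, tsum_mul_left]; rfl

lemma Emb_mem (z : Z) : Memℓp (Emb_a f z) 2 := by
  rw [memℓp_gen_iff (by norm_num)]
  have h := Emb_mul_summable f z z
  have e : (fun p : ℕ × D => ‖Emb_a f z p‖ ^ (2 : ENNReal).toReal) =
      fun p => Emb_a f z p * Emb_a f z p := by
    funext p
    rw [ENNReal.toReal_ofNat, Real.rpow_ofNat, Real.norm_eq_abs, sq_abs, sq]
  rw [e]
  exact h

/-- The embedding. -/
noncomputable def Emb_b (z : Z) : Hil D := ⟨Emb_a f z, Emb_mem f z⟩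

lemma Emb_inner (z z' : Z) : inner ℝ (Emb_b f z) (Emb_b f z') =
    ∑' n : ℕ, (1 / 4 : ℝ) ^ (n + 2) * Emb_c (f n) z z' := by
  rw [lp.inner_eq_tsum, ← Emb_tsum]
  congr 1
  funext p
  simp only [Emb_b, RCLike.inner_apply, conj_trivial]
  ring

lemma Emb_norm_sq (z : Z) : ‖Emb_b f z‖ ^ 2 = ∑' n : ℕ, (1 / 4 : ℝ) ^ (n + 2) := by
  rw [← real_inner_self_eq_norm_sq, Emb_inner]
  congr 1
  funext n
  rw [Emb_c_self, mul_one]

lemma Emb_dist_sq (z z' : Z) : ‖Emb_b f z - Emb_b f z'‖ ^ 2 =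
    ∑' n : ℕ, 2 * ((1 / 4 : ℝ) ^ (n + 2) * (1 - Emb_c (f n) z z')) := by
  rw [norm_sub_sq_real, Emb_norm_sq, Emb_norm_sq, Emb_inner, tsum_mul_left]
  have h1 : ∑' n : ℕ, (1 / 4 : ℝ) ^ (n + 2) * (1 - Emb_c (f n) z z') =
      ∑' n : ℕ, (1 / 4 : ℝ) ^ (n + 2) - ∑' n : ℕ, (1 / 4 : ℝ) ^ (n + 2) * Emb_c (f n) z z' := by
    rw [← Emb_geom.tsum_sub (Emb_inner_summable f z z')]
    congr 1
    funext n; ring
  rw [h1]; ring

lemma Emb_dist_summable (z z' : Z) :
    Summable (fun n : ℕ => 2 * ((1 / 4 : ℝ) ^ (n + 2) * (1 - Emb_c (f n) z z'))) := by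
  have h := (Emb_geom.sub (Emb_inner_summable f z z')).mul_left 2
  refine h.congr (fun n => ?_)
  ring

lemma Emb_continuous : Continuous (Emb_b f) := by
  rw [continuous_iff_continuousAt]
  intro z'
  have h1 : Continuous (fun z => ∑' n : ℕ, 2 * ((1 / 4 : ℝ) ^ (n + 2) * (1 - Emb_c (f n) z z'))) := by
    refine continuous_tsum (u := fun n : ℕ => 2 * (1 / 4 : ℝ) ^ (n + 2)) (fun n => ?_)
      (Emb_geom.mul_left 2) (fun n z => ?_)
    · exact continuous_const.mul (continuous_const.mul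
        (continuous_const.sub (Emb_c_continuous (f n) z')))
    · have h2 := Emb_c_nonneg (f n) z z'
      have h3 := Emb_c_le_one (f n) z z'
      have h4 : (0 : ℝ) ≤ (1 / 4 : ℝ) ^ (n + 2) := by positivity
      rw [Real.norm_eq_abs, abs_of_nonneg (by
        have : 0 ≤ (1 / 4 : ℝ) ^ (n + 2) * (1 - Emb_c (f n) z z') :=
          mul_nonneg h4 (by linarith)
        linarith)]
      nlinarith
  have h2 : Tendsto (fun z => ‖Emb_b f z - Emb_b f z'‖ ^ 2) (𝓝 z') (𝓝 0) := by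
    have h3 := h1.tendsto z'
    have h4 : ∑' n : ℕ, 2 * ((1 / 4 : ℝ) ^ (n + 2) * (1 - Emb_c (f n) z' z')) = 0 := by
      rw [← Emb_dist_sq]; simp
    rw [h4] at h3
    refine h3.congr (fun z => ?_)
    rw [Emb_dist_sq]
  have h3 : Tendsto (fun z => ‖Emb_b f z - Emb_b f z'‖) (𝓝 z') (𝓝 0) := by
    have h4 := (Real.continuous_sqrt.tendsto 0).comp h2
    rw [Real.sqrt_zero] at h4
    refine h4.congr (fun z => ?_)
    simp only [Function.comp]
    exact Real.sqrt_sq (norm_nonneg _)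
  exact tendsto_iff_norm_sub_tendsto_zero.2 h3

/-- If the images are close then the points are close. -/
lemma Emb_close (d : D → Z) (hf : ∀ n, (f n).IsSubordinate (fun δ => ball (d δ) ((1 / 2 : ℝ) ^ n)))
    {z z' : Z} {n : ℕ} (h : ‖Emb_b f z - Emb_b f z'‖ < (1 / 2 : ℝ) ^ (n + 2)) :
    dist z z' < 2 * (1 / 2 : ℝ) ^ n := by
  by_contra hcon
  have h1 : Emb_c (f n) z z' = 0 := by
    unfold Emb_c
    rw [← tsum_zero (α := ℝ) (β := D)]
    congr 1
    funext δ
    by_contra h2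
    have h3 : f n δ z ≠ 0 := by
      intro h4; apply h2; rw [h4]; simp
    have h4 : f n δ z' ≠ 0 := by
      intro h4; apply h2; rw [h4]; simp
    have h5 : z ∈ ball (d δ) ((1 / 2 : ℝ) ^ n) := hf n δ (subset_tsupport _ h3)
    have h6 : z' ∈ ball (d δ) ((1 / 2 : ℝ) ^ n) := hf n δ (subset_tsupport _ h4)
    apply hcon
    calc dist z z' ≤ dist z (d δ) + dist z' (d δ) := dist_triangle_right _ _ _
      _ < (1 / 2 : ℝ) ^ n + (1 / 2 : ℝ) ^ n := add_lt_add h5 h6
      _ = 2 * (1 / 2 : ℝ) ^ n := by ring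
  have h2 : 2 * ((1 / 4 : ℝ) ^ (n + 2) * (1 - Emb_c (f n) z z')) ≤ ‖Emb_b f z - Emb_b f z'‖ ^ 2 := by
    rw [Emb_dist_sq]
    refine (Emb_dist_summable f z z').le_tsum n (fun m _ => ?_)
    have h3 := Emb_c_le_one (f m) z z'
    have : 0 ≤ (1 / 4 : ℝ) ^ (m + 2) * (1 - Emb_c (f m) z z') :=
      mul_nonneg (by positivity) (by linarith)
    linarith
  rw [h1] at h2
  have h3 : ‖Emb_b f z - Emb_b f z'‖ ^ 2 < ((1 / 2 : ℝ) ^ (n + 2)) ^ 2 :=
    pow_lt_pow_left₀ h (norm_nonneg _) (by norm_num)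
  have h4 : ((1 / 2 : ℝ) ^ (n + 2)) ^ 2 = (1 / 4 : ℝ) ^ (n + 2) := by
    rw [← pow_mul, mul_comm, pow_mul]; norm_num
  have h5 : (0 : ℝ) < (1 / 4 : ℝ) ^ (n + 2) := by positivity
  rw [h4] at h3
  linarith

end Emb

/-- [TOR-EMB] Proof. For each `n` let `(f_{n,d})_{d ∈ D}` be a locally finite partition of unity on `Z` with
`f_{n,d} z ≠ 0 → dist z (d) < (1/2)^n` (the balls `B(d, (1/2)^n)` around the dense sequence/family cover `Z`) and put
`β z = ∑' n, ∑ᶠ d, ((1/2)^(n+2) * √(f_{n,d} z)) • single (n, d)` (`lp.single`). Each inner sum is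
continuous (locally finite) of norm `(1/2)^(n+2)` (orthogonality), so `β` is continuous and
`‖β z‖^2 = ∑ (1/4)^(n+2) ≤ 1/4`. If `‖β z - β z'‖ < (1/2)^(n+2)` then some `d` has `f_{n,d} z ≠ 0 ≠ f_{n,d} z'` (if
not, the level-`n` part of the difference has norm `√2 * (1/2)^(n+2)`), so `dist z z' < 2 * (1/2)^n`. Hence `β` is
injective, and if `β z_k` converges then `z_k` is Cauchy: `β` is a closed embedding. -/
theorem exists_emb_hilbert (Z D : Type) [MetricSpace Z] [CompleteSpace Z] (d : D → Z)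
    (hd : DenseRange d) : ∃ β : Z → Hil D, IsClosedEmbedding β ∧ ∀ z, ‖β z‖ ≤ 1 / 2 := by
  have hex : ∀ n : ℕ, ∃ f : PartitionOfUnity D Z univ,
      f.IsSubordinate (fun δ => ball (d δ) ((1 / 2 : ℝ) ^ n)) := by
    intro n
    refine PartitionOfUnity.exists_isSubordinate isClosed_univ _ (fun _ => isOpen_ball) ?_
    intro z _
    obtain ⟨δ, hδ⟩ := hd.exists_dist_lt z (show (0 : ℝ) < (1 / 2) ^ n by positivity)
    exact mem_iUnion.2 ⟨δ, hδ⟩
  choose f hf using hex
  have hclose : ∀ ε > 0, ∃ r > 0, ∀ z z' : Z, ‖Emb_b f z - Emb_b f z'‖ < r → dist z z' < ε := by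
    intro ε hε
    obtain ⟨n, hn⟩ := exists_pow_lt_of_lt_one (show 0 < ε / 2 by linarith)
      (show (1 / 2 : ℝ) < 1 by norm_num)
    refine ⟨(1 / 2 : ℝ) ^ (n + 2), by positivity, fun z z' h => ?_⟩
    have := Emb_close f d hf h
    linarith
  have hcont := Emb_continuous f
  refine ⟨Emb_b f, ⟨⟨?_, ?_⟩, ?_⟩, ?_⟩
  · -- inducing
    rw [isInducing_iff_nhds]
    intro z
    apply le_antisymm
    · exact (hcont.tendsto z).le_comap
    · intro s hs
      obtain ⟨ε, hε, hs⟩ := Metric.mem_nhds_iff.1 hs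
      obtain ⟨r, hr, h⟩ := hclose ε hε
      refine mem_comap.2 ⟨ball (Emb_b f z) r, ball_mem_nhds _ hr, ?_⟩
      intro z' hz'
      apply hs
      apply h
      rw [← dist_eq_norm]
      exact hz'
  · intro z z' h
    by_contra hne
    obtain ⟨r, hr, h'⟩ := hclose (dist z z') (dist_pos.2 hne)
    have := h' z z' (by rw [h]; simpa using hr)
    exact lt_irrefl _ this
  · -- closed range
    apply isClosed_of_closure_subset
    intro y hy
    obtain ⟨w, hw, hlim⟩ := mem_closure_iff_seq_limit.1 hy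
    choose z hz using hw
    have hcau : CauchySeq z := by
      rw [Metric.cauchySeq_iff]
      intro ε hε
      obtain ⟨r, hr, h⟩ := hclose ε hε
      obtain ⟨N, hN⟩ := Metric.cauchySeq_iff.1 hlim.cauchySeq r hr
      refine ⟨N, fun m hm k hk => h _ _ ?_⟩
      rw [hz, hz, ← dist_eq_norm]
      exact hN m hm k hk
    obtain ⟨z₀, hz₀⟩ := cauchySeq_tendsto_of_complete hcau
    have h1 : Tendsto (fun k => Emb_b f (z k)) atTop (𝓝 (Emb_b f z₀)) :=
      (hcont.tendsto z₀).comp hz₀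
    have h2 : Tendsto (fun k => Emb_b f (z k)) atTop (𝓝 y) := by
      simp only [hz]; exact hlim
    exact ⟨z₀, tendsto_nhds_unique h1 h2⟩
  · intro z
    have h1 := Emb_norm_sq f z
    have h2 : ∑' n : ℕ, (1 / 4 : ℝ) ^ (n + 2) = 1 / 12 := by
      have h3 : (fun n : ℕ => (1 / 4 : ℝ) ^ (n + 2)) = fun n => (1 / 16) * (1 / 4 : ℝ) ^ n := by
        funext n; rw [pow_add]; ring
      rw [h3, tsum_mul_left, tsum_geometric_of_lt_one (by norm_num) (by norm_num)]
      norm_num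
    rw [h2] at h1
    nlinarith [norm_nonneg (Emb_b f z)]

end Pool.Agent.MP_645085_gt.TOR
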