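import Pool.Agent.MP_645085_gt.TOR.Defs

/-!
# TOR row [TOR-ESC]: escaping compact sets in infinite dimensional F-normed spaces
-/

namespace Pool.Agent.MP_645085_gt.TOR

open Set Filter Topology TopologicalSpace Metric

variable {X : Type} [NormedAddCommGroup X] [Module ℝ X] [FN X]

/-- [TOR-ESC] The ball of radius `s` is a neighbourhood of `0` and not totally bounded
(`FiniteDimensional.of_totallyBounded_nhds_zero`), so for some `η₀ > 0` it has no finite `η₀`-net; take
`η = η₀ / 2` and a finite `η`-net of the compact set `C`. -/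
theorem exists_escape (hX : ¬ FiniteDimensional ℝ X) (s : ℝ) (hs : 0 < s) :
    ∃ η > 0, ∀ C : Set X, IsCompact C → ∃ e : X, ‖e‖ ≤ s ∧ ∀ c ∈ C, η ≤ ‖e - c‖ := by
  have h1 : ¬ TotallyBounded (closedBall (0 : X) s) := fun h =>
    hX (FiniteDimensional.of_totallyBounded_nhds_zero ℝ (closedBall_mem_nhds 0 hs) h)
  rw [totallyBounded_iff] at h1
  push Not at h1
  obtain ⟨ε, hε, h2⟩ := h1
  refine ⟨ε / 2, by positivity, fun C hC => ?_⟩
  obtain ⟨t, ht, hCt⟩ := totallyBounded_iff.1 hC.totallyBounded (ε / 2) (by positivity)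
  have h3 := h2 t ht
  rw [Set.not_subset] at h3
  obtain ⟨e, he, he'⟩ := h3
  refine ⟨e, by simpa using he, fun c hc => ?_⟩
  obtain ⟨y, hy, hcy⟩ := mem_iUnion₂.1 (hCt hc)
  have h4 : ε ≤ dist e y := by
    by_contra hcon
    push Not at hcon
    exact he' (mem_iUnion₂.2 ⟨y, hy, hcon⟩)
  rw [mem_ball] at hcy
  rw [← dist_eq_norm]
  have := dist_triangle e c y
  linarith

/-- the set of forbidden values for the `k`-th vector. -/
def Esc_Bad (C : Set X) (e : ℕ → X) (k : ℕ) : Set X :=
  {x | ∃ c ∈ C, ∃ w : ℕ → ℝ, (∀ i, |w i| ≤ 1) ∧ ∃ l : ℝ,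
    x = l • (c + ∑ i ∈ Finset.range k, w i • e i)}

omit [FN X] in
theorem Esc_Bad_congr (C : Set X) (e e' : ℕ → X) (k : ℕ) (h : ∀ i < k, e i = e' i) :
    Esc_Bad C e k = Esc_Bad C e' k := by
  unfold Esc_Bad
  ext x
  have : ∀ w : ℕ → ℝ, ∑ i ∈ Finset.range k, w i • e i = ∑ i ∈ Finset.range k, w i • e' i := by
    intro w
    refine Finset.sum_congr rfl fun i hi => ?_
    rw [h i (Finset.mem_range.1 hi)]
  simp only [this]

/-- a compact set has empty interior. -/
theorem Esc_interior (hX : ¬ FiniteDimensional ℝ X) {K : Set X} (hK : IsCompact K) :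
    interior K = ∅ := by
  by_contra hcon
  obtain ⟨x, hx⟩ := Set.nonempty_iff_ne_empty.2 hcon
  exact hX (FiniteDimensional.of_totallyBounded_nhds ℝ (mem_interior_iff_mem_nhds.1 hx)
    hK.totallyBounded)

theorem Esc_step [CompleteSpace X] (hX : ¬ FiniteDimensional ℝ X) (C : Set X)
    (hC : IsSigmaCompact C) (e : ℕ → X) (k : ℕ) (s : ℝ) (hs : 0 < s) :
    ∃ x : X, ‖x‖ ≤ s ∧ x ∉ Esc_Bad C e k := by
  obtain ⟨K, hK, rfl⟩ := hC
  let J : ℕ × ℕ → Set (X × (Fin k → ℝ) × ℝ) := fun p =>
    K p.1 ×ˢ ((Set.univ.pi fun _ => Icc (-1 : ℝ) 1) ×ˢ Icc (-(p.2 : ℝ)) p.2)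
  let f : X × (Fin k → ℝ) × ℝ → X := fun q => q.2.2 • (q.1 + ∑ i : Fin k, q.2.1 i • e i)
  have hf : Continuous f := by
    refine Continuous.smul (by fun_prop) (Continuous.add (by fun_prop) ?_)
    refine continuous_finsetSum _ fun i _ => Continuous.smul ?_ continuous_const
    exact (continuous_apply i).comp (continuous_fst.comp continuous_snd)
  have hJ : ∀ p, IsCompact (f '' J p) := fun p =>
    ((hK p.1).prod ((isCompact_univ_pi fun _ => isCompact_Icc).prod isCompact_Icc)).image hf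
  have hd : Dense (⋂ p, (f '' J p)ᶜ) := by
    refine dense_iInter_of_isOpen (fun p => (hJ p).isClosed.isOpen_compl) fun p => ?_
    rw [← interior_eq_empty_iff_dense_compl]
    exact Esc_interior hX (hJ p)
  obtain ⟨x, hx1, hx2⟩ := hd.inter_open_nonempty (ball 0 s) isOpen_ball ⟨0, mem_ball_self hs⟩
  refine ⟨x, by simpa using (mem_ball.1 hx1).le, ?_⟩
  rintro ⟨c, hc, w, hw, l, hl⟩
  obtain ⟨n, hn⟩ := mem_iUnion.1 hc
  obtain ⟨m, hm⟩ := exists_nat_ge |l|
  rw [mem_iInter] at hx2
  refine hx2 (n, m) ⟨(c, (fun i => w i), l), ?_, ?_⟩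
  · refine ⟨hn, ?_, ?_⟩
    · intro i _
      exact abs_le.1 (hw i)
    · exact abs_le.1 hm
  · change l • (c + ∑ i : Fin k, w i • e i) = x
    rw [hl, Finset.sum_range]

/-- [TOR-ESC] Generic sequences. Choose `e k` recursively outside the `σ`-compact set
`⋃_{n ≥ 1} {-(λ • (c + ∑_{i < k} w i • e i)) | c ∈ C, |w i| ≤ 1, 1 ≤ λ ≤ n}` and its negative, with
`‖e k‖ ≤ s k`: possible since a `σ`-compact set in `X` cannot contain a ball (Baire category theorem; a compact set
has empty interior because `X` is not locally compact / not finite dimensional). For `F, w` let `k` be the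
largest element of `F` with `w k ≠ 0` and divide by `w k`. -/
theorem exists_generic_seq [CompleteSpace X] (hX : ¬ FiniteDimensional ℝ X) (C : Set X)
    (hC : IsSigmaCompact C) (s : ℕ → ℝ) (hs : ∀ i, 0 < s i) :
    ∃ e : ℕ → X, (∀ k, ‖e k‖ ≤ s k) ∧ ∀ (F : Finset ℕ) (w : ℕ → ℝ), (∀ k, |w k| ≤ 1) →
      (∃ k ∈ F, w k ≠ 0) → ∀ c ∈ C, c + ∑ k ∈ F, w k • e k ≠ 0 := by
  classical
  choose g hg1 hg2 using fun (e : ℕ → X) (k : ℕ) => Esc_step hX C hC e k (s k) (hs k)
  let E : ℕ → ℕ → X := fun n => Nat.rec (fun _ => (0 : X))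
    (fun k e => Function.update e k (g e k)) n
  have hE : ∀ k, E (k + 1) = Function.update (E k) k (g (E k) k) := fun k => rfl
  let e : ℕ → X := fun k => E (k + 1) k
  have he : ∀ k, e k = g (E k) k := fun k => by
    change E (k + 1) k = _
    rw [hE, Function.update_self]
  have hEe : ∀ k i, i < k → E k i = e i := by
    intro k
    induction k with
    | zero => intro i hi; omega
    | succ k ih =>
      intro i hi
      rw [hE]
      by_cases h : i = k
      · rw [h, Function.update_self, he]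
      · rw [Function.update_of_ne h]
        exact ih i (by omega)
  have hbad : ∀ k, e k ∉ Esc_Bad C e k := by
    intro k
    rw [← Esc_Bad_congr C (E k) e k (hEe k), he]
    exact hg2 _ _
  refine ⟨e, fun k => by rw [he]; exact hg1 _ _, ?_⟩
  intro F w hw hF c hc h0
  obtain ⟨k₀, hk₀, hwk₀⟩ := hF
  let G := F.filter fun k => w k ≠ 0
  have hG : G.Nonempty := ⟨k₀, Finset.mem_filter.2 ⟨hk₀, hwk₀⟩⟩
  let k := G.max' hG
  have hkG : k ∈ G := Finset.max'_mem _ _
  have hkF : k ∈ F := (Finset.mem_filter.1 hkG).1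
  have hwk : w k ≠ 0 := (Finset.mem_filter.1 hkG).2
  have hmax : ∀ j ∈ F, k < j → w j = 0 := by
    intro j hj hkj
    by_contra hne
    exact absurd (Finset.le_max' G j (Finset.mem_filter.2 ⟨hj, hne⟩)) (not_le.2 hkj)
  let w' : ℕ → ℝ := fun j => if j ∈ F then w j else 0
  have hw' : ∀ j, |w' j| ≤ 1 := by
    intro j
    change |if j ∈ F then w j else 0| ≤ 1
    split_ifs
    · exact hw j
    · rw [abs_zero]; exact zero_le_one
  have hsum : ∑ j ∈ F, w j • e j = ∑ j ∈ Finset.range k, w' j • e j + w k • e k := by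
    have h1 : ∑ j ∈ F, w j • e j = ∑ j ∈ Finset.range (k + 1), w' j • e j := by
      have h2 : ∑ j ∈ F, w j • e j = ∑ j ∈ F.filter (fun j => j < k + 1), w j • e j := by
        rw [Finset.sum_filter]
        refine Finset.sum_congr rfl fun j hj => ?_
        split_ifs with h
        · rfl
        · rw [hmax j hj (by omega), zero_smul]
      have h3 : ∑ j ∈ Finset.range (k + 1), w' j • e j =
          ∑ j ∈ (Finset.range (k + 1)).filter (fun j => j ∈ F), w j • e j := by
        rw [Finset.sum_filter]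
        refine Finset.sum_congr rfl fun j _ => ?_
        change (if j ∈ F then w j else 0) • e j = _
        split_ifs
        · rfl
        · rw [zero_smul]
      rw [h2, h3]
      refine Finset.sum_congr ?_ fun _ _ => rfl
      ext j
      simp only [Finset.mem_filter, Finset.mem_range]
      exact and_comm
    rw [h1, Finset.sum_range_succ]
    congr 2
    change (if k ∈ F then w k else 0) = w k
    rw [if_pos hkF]
  refine hbad k ⟨c, hc, w', hw', -(w k)⁻¹, ?_⟩
  rw [hsum] at h0
  have h1 : c + ∑ j ∈ Finset.range k, w' j • e j = -(w k • e k) := by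
    rw [← add_assoc] at h0
    exact eq_neg_of_add_eq_zero_left h0
  rw [h1, smul_neg, neg_smul, neg_neg, smul_smul, inv_mul_cancel₀ hwk, one_smul]

end Pool.Agent.MP_645085_gt.TOR
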