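import Pool.Agent.MP_645085_gt.TOR.Defs

/-!
# TOR row [TOR-ETA]: subspaces of small density are uniformly far from being dense
-/

namespace Pool.Agent.MP_645085_gt.TOR

open Set Filter Topology TopologicalSpace Metric Cardinal

/-- [TOR-ETA] If `X` has no dense subset of cardinality `≤ μ` then for some `n` no subspace of density
`≤ μ` is `(1/2)^n`-dense. Proof: otherwise for each `n` a subspace `L_n` and a set `t_n`, `#t_n ≤ μ`,
`L_n ⊆ closure t_n`, with every point of `X` at distance `< (1/2)^n` from `L_n`; `⋃ t_n` is dense and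
has cardinality `≤ ℵ₀ * μ = μ`. -/
theorem exists_eta {X : Type} [NormedAddCommGroup X] [Module ℝ X] {μ : Cardinal.{0}}
    (hμ : ℵ₀ ≤ μ) (hX : ¬ DensLE μ X) :
    ∃ n : ℕ, ∀ L : Submodule ℝ X, (∃ t : Set X, #t ≤ μ ∧ (L : Set X) ⊆ closure t) →
      ∃ x, ∀ y ∈ L, (1 / 2 : ℝ) ^ n ≤ ‖x - y‖ := by
  by_contra hcon
  push Not at hcon
  choose L ht hL using hcon
  choose t ht1 ht2 using ht
  apply hX
  refine ⟨⋃ n, t n, ?_, ?_⟩
  · rw [Metric.dense_iff]
    intro x r hr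
    obtain ⟨n, hn⟩ := exists_pow_lt_of_lt_one (half_pos hr) (by norm_num : (1 / 2 : ℝ) < 1)
    obtain ⟨y, hy, hxy⟩ := hL n x
    obtain ⟨z, hz, hyz⟩ := Metric.mem_closure_iff.1 (ht2 n hy) (r / 2) (half_pos hr)
    refine ⟨z, ?_, mem_iUnion.2 ⟨n, hz⟩⟩
    rw [mem_ball, dist_comm]
    have h1 := dist_triangle x y z
    rw [dist_eq_norm x y] at h1
    linarith
  · refine (Cardinal.mk_iUnion_le _).trans ?_
    have h1 : (⨆ n, #(t n)) ≤ μ := ciSup_le' ht1
    calc #ℕ * ⨆ n, #(t n) ≤ μ * μ := mul_le_mul' (by simpa using hμ) h1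
      _ = μ := Cardinal.mul_eq_self hμ

end Pool.Agent.MP_645085_gt.TOR
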