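import Pool.Agent.MP_645085_gt.TOR.Defs

/-!
# TOR row [TOR-FIN]: the finite dimensional case
-/

namespace Pool.Agent.MP_645085_gt.TOR

open Set Filter Topology TopologicalSpace Metric

/-- [TOR-FIN] The finite dimensional case: `X` is linearly homeomorphic to
`EuclideanSpace ℝ (Fin n)` (a Hausdorff finite dimensional TVS; e.g.
`ContinuousLinearEquiv.ofFinrankEq` or `LinearEquiv.toContinuousLinearEquiv`). -/
theorem finite_dim_case (X : Type) [NormedAddCommGroup X] [Module ℝ X] [FN X]
    [FiniteDimensional ℝ X] :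
    ∃ (H : Type) (_ : NormedAddCommGroup H) (_ : InnerProductSpace ℝ H),
      CompleteSpace H ∧ Nonempty (X ≃ₜ H) := by
  refine ⟨EuclideanSpace ℝ (Fin (Module.finrank ℝ X)), inferInstance, inferInstance,
    inferInstance, ?_⟩
  have h : Module.finrank ℝ X =
      Module.finrank ℝ (EuclideanSpace ℝ (Fin (Module.finrank ℝ X))) := by simp
  exact ⟨(ContinuousLinearEquiv.ofFinrankEq h).toHomeomorph⟩

end Pool.Agent.MP_645085_gt.TOR
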