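import Pool.Agent.MP_645085_gt.TOR.Defs

/-!
# TOR row [TOR-HIL]: the density of `ℓ²(ℕ × D)`
-/

namespace Pool.Agent.MP_645085_gt.TOR

open Set Filter Topology TopologicalSpace Metric Cardinal

/-- Finitely supported rational vectors are dense. -/
theorem densLE_hil {D : Type} [Infinite D] : DensLE #D (Hil D) := by
  classical
  let φ : (ℕ × D →₀ ℚ) →+ Hil D := Finsupp.liftAddHom fun i =>
    (lp.singleAddMonoidHom (E := fun _ : ℕ × D => ℝ) 2 i).comp (Rat.castHom ℝ).toAddMonoidHom
  have hφ : ∀ i (q : ℚ), φ (Finsupp.single i q) = lp.single 2 i (q : ℝ) := by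
    intro i q
    simp only [φ, Finsupp.liftAddHom_apply_single]
    rfl
  refine ⟨Set.range φ, ?_, ?_⟩
  · have hK : ∀ f : Hil D, f ∈ φ.range.topologicalClosure := by
      intro f
      have hcl : IsClosed ((φ.range.topologicalClosure : AddSubgroup (Hil D)) : Set (Hil D)) :=
        AddSubgroup.isClosed_topologicalClosure _
      have hs := lp.hasSum_single (E := fun _ : ℕ × D => ℝ) (p := 2) (by norm_num) f
      refine hcl.mem_of_tendsto hs (Filter.Eventually.of_forall fun F => ?_)
      refine AddSubgroup.sum_mem _ fun i _ => ?_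
      -- real multiples of a basis vector
      have h1 : ∀ r : ℝ, lp.single (E := fun _ : ℕ × D => ℝ) 2 i r ∈
          ((φ.range.topologicalClosure : AddSubgroup (Hil D)) : Set (Hil D)) := by
        intro r
        have hc : Continuous fun r : ℝ => lp.single (E := fun _ : ℕ × D => ℝ) 2 i r :=
          (lp.isometry_single (E := fun _ : ℕ × D => ℝ) (p := 2) i).continuous
        have h2 : ∀ r : ℝ, r ∈ (fun r : ℝ => lp.single (E := fun _ : ℕ × D => ℝ) 2 i r) ⁻¹'
            ((φ.range.topologicalClosure : AddSubgroup (Hil D)) : Set (Hil D)) := by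
          intro r
          refine (hcl.preimage hc).closure_subset_iff.2 ?_ (Rat.denseRange_cast (𝕜 := ℝ) r)
          rintro _ ⟨q, rfl⟩
          refine AddSubgroup.le_topologicalClosure _ ?_
          exact ⟨Finsupp.single i q, hφ i q⟩
        exact h2 r
      exact h1 _
    intro f
    exact hK f
  · have h1 : #(Set.range φ) ≤ #(ℕ × D →₀ ℚ) := Cardinal.mk_range_le
    refine h1.trans ?_
    have h2 : #(ℕ × D →₀ ℚ) = max #(ℕ × D) #ℚ := Cardinal.mk_finsupp_of_infinite _ _
    have h3 : ℵ₀ ≤ #D := Cardinal.aleph0_le_mk D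
    rw [h2, Cardinal.mk_prod, Cardinal.mkRat]
    simp only [Cardinal.lift_id, Cardinal.mk_nat]
    refine max_le ?_ h3
    rw [Cardinal.aleph0_mul_eq h3]

/-- The vectors `single (0, d)`, `d ∈ D`, have mutual distance `√2`, so a dense set meets the `#D` disjoint
balls of radius `1/2` around them. -/
theorem not_densLE_hil {D : Type} [Infinite D] {μ : Cardinal.{0}} (hμ : μ < #D) :
    ¬ DensLE μ (Hil D) := by
  classical
  rintro ⟨s, hs, hsμ⟩
  let e : D → Hil D := fun d => lp.single (E := fun _ : ℕ × D => ℝ) 2 ((0 : ℕ), d) (1 : ℝ)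
  have hdist : ∀ d d', d ≠ d' → 1 ≤ dist (e d) (e d') := by
    intro d d' hne
    rw [dist_eq_norm]
    have h1 := lp.norm_apply_le_norm (E := fun _ : ℕ × D => ℝ) (p := 2) (by norm_num)
      (e d - e d') ((0 : ℕ), d)
    have h2 : (e d - e d') ((0 : ℕ), d) = 1 := by
      have h3 : e d ((0 : ℕ), d) = 1 := lp.single_apply_self _ _ _
      have h4 : e d' ((0 : ℕ), d) = 0 := by
        refine lp.single_apply_ne _ _ _ ?_
        intro h
        exact hne (Prod.ext_iff.1 h).2
      rw [lp.coeFn_sub, Pi.sub_apply, h3, h4, sub_zero]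
    rw [h2, norm_one] at h1
    exact h1
  have hpick : ∀ d, ∃ y ∈ s, dist (e d) y < 1 / 2 := fun d => by
    obtain ⟨y, hy, hy'⟩ := Metric.dense_iff.1 hs (e d) (1 / 2) (by norm_num)
    exact ⟨y, hy', by rwa [dist_comm]⟩
  choose y hys hy using hpick
  have hinj : Function.Injective fun d => (⟨y d, hys d⟩ : s) := by
    intro d d' h
    by_contra hne
    have h1 : y d = y d' := congrArg Subtype.val h
    have h2 := hdist d d' hne
    have h3 := dist_triangle_right (e d) (e d') (y d)
    have h4 := hy d
    have h5 := hy d'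
    rw [← h1] at h5
    linarith
  have h1 : #D ≤ #s := Cardinal.mk_le_of_injective hinj
  exact absurd (h1.trans hsμ) (not_le.2 hμ)

theorem not_finiteDimensional_hil (D : Type) [Nonempty D] : ¬ FiniteDimensional ℝ (Hil D) := by
  classical
  intro hfd
  obtain ⟨d⟩ := ‹Nonempty D›
  let e : ℕ → Hil D := fun n => lp.single (E := fun _ : ℕ × D => ℝ) 2 (n, d) (1 : ℝ)
  have hli : LinearIndependent ℝ e := by
    rw [linearIndependent_iff']
    intro s g hg i hi
    have h1 : (∑ j ∈ s, g j • e j) (i, d) = 0 := by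
      rw [hg]
      rfl
    rw [lp.coeFn_sum, Finset.sum_apply, Finset.sum_eq_single i] at h1
    · rw [lp.coeFn_smul, Pi.smul_apply, smul_eq_mul] at h1
      have h2 : e i (i, d) = 1 := lp.single_apply_self _ _ _
      rw [h2, mul_one] at h1
      exact h1
    · intro j _ hj
      have h2 : e j (i, d) = 0 := by
        refine lp.single_apply_ne _ _ _ ?_
        intro h
        exact hj (Prod.ext_iff.1 h).1.symm
      rw [lp.coeFn_smul, Pi.smul_apply, smul_eq_mul, h2, mul_zero]
    · intro h
      exact absurd hi h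
  exact not_finite_iff_infinite.2 inferInstance hli.finite_of_isNoetherian

end Pool.Agent.MP_645085_gt.TOR
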