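import Pool.Agent.MP_645085_gt.TOR.Defs

/-!
# TOR row [TOR-INS]: continuous insertion of a coordinate
-/

namespace Pool.Agent.MP_645085_gt.TOR

open Set Filter Topology TopologicalSpace Metric

noncomputable def Ins_A (u : ℝ) : ℝ := Real.cos (Real.pi / 2 * max (-1) (min u 1))

noncomputable def Ins_B (u : ℝ) : ℝ := - Real.sin (Real.pi / 2 * max (-1) (min u 0))

noncomputable def Ins_C (u : ℝ) : ℝ := Real.sin (Real.pi / 2 * max 0 (min u 1))

theorem Ins_contA : Continuous Ins_A := by unfold Ins_A; fun_prop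

theorem Ins_contB : Continuous Ins_B := by unfold Ins_B; fun_prop

theorem Ins_contC : Continuous Ins_C := by unfold Ins_C; fun_prop

theorem Ins_A_big {u : ℝ} (h : 1 ≤ u) : Ins_A u = 0 := by
  rw [Ins_A, min_eq_right h, max_eq_right (by norm_num), mul_one, Real.cos_pi_div_two]

theorem Ins_A_small {u : ℝ} (h : u ≤ -1) : Ins_A u = 0 := by
  rw [Ins_A, min_eq_left (by linarith), max_eq_left h, mul_neg, mul_one, Real.cos_neg,
    Real.cos_pi_div_two]

theorem Ins_B_nonneg {u : ℝ} (h : 0 ≤ u) : Ins_B u = 0 := by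
  rw [Ins_B, min_eq_right h, max_eq_right (by norm_num), mul_zero, Real.sin_zero, neg_zero]

theorem Ins_B_small {u : ℝ} (h : u ≤ -1) : Ins_B u = 1 := by
  rw [Ins_B, min_eq_left (by linarith), max_eq_left h, mul_neg, mul_one, Real.sin_neg,
    Real.sin_pi_div_two, neg_neg]

theorem Ins_C_big {u : ℝ} (h : 1 ≤ u) : Ins_C u = 1 := by
  rw [Ins_C, min_eq_right h, max_eq_right (by norm_num), mul_one, Real.sin_pi_div_two]

theorem Ins_C_nonpos {u : ℝ} (h : u ≤ 0) : Ins_C u = 0 := by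
  rw [Ins_C, min_eq_left (by linarith), max_eq_left h, mul_zero, Real.sin_zero]

theorem Ins_A_mid {u : ℝ} (h0 : 0 ≤ u) (h1 : u ≤ 1) : Ins_A u = Real.cos (Real.pi / 2 * u) := by
  rw [Ins_A, min_eq_left h1, max_eq_right (by linarith)]

theorem Ins_C_mid {u : ℝ} (h0 : 0 ≤ u) (h1 : u ≤ 1) : Ins_C u = Real.sin (Real.pi / 2 * u) := by
  rw [Ins_C, min_eq_left h1, max_eq_right h0]

theorem Ins_A_shift {u : ℝ} (h0 : 0 ≤ u) (h1 : u ≤ 1) : Ins_A (u - 1) = Ins_C u := by
  rw [Ins_C_mid h0 h1, Ins_A, min_eq_left (by linarith), max_eq_right (by linarith), mul_sub,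
    mul_one, Real.cos_sub_pi_div_two]

theorem Ins_B_shift {u : ℝ} (h0 : 0 ≤ u) (h1 : u ≤ 1) : Ins_B (u - 1) = Ins_A u := by
  rw [Ins_A_mid h0 h1, Ins_B, min_eq_left (by linarith), max_eq_right (by linarith), mul_sub,
    mul_one, Real.sin_sub_pi_div_two, neg_neg]

theorem Ins_sq {u : ℝ} (h0 : 0 ≤ u) (h1 : u ≤ 1) : Ins_A u ^ 2 + Ins_C u ^ 2 = 1 := by
  rw [Ins_A_mid h0 h1, Ins_C_mid h0 h1, Real.cos_sq_add_sin_sq]

section

variable {V : Type} [AddCommGroup V] [Module ℝ V]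

noncomputable def Ins_F (s : ℝ) (h : ℕ → V) (q : V) (j : ℕ) : V :=
  Ins_B (s - j) • h (j - 1) + (Ins_A (s - j) * (-1) ^ j) • q + Ins_C (s - j) • h j

noncomputable def Ins_H (s : ℝ) (k : ℕ → V) (i : ℕ) : V :=
  Ins_C (s - i) • k i + Ins_B (s - i - 1) • k (i + 1)

noncomputable def Ins_Q (s : ℝ) (k : ℕ → V) : V :=
  ∑ᶠ j : ℕ, (Ins_A (s - j) * (-1) ^ j) • k j

theorem Ins_F_big {s : ℝ} (h : ℕ → V) (q : V) {j : ℕ} (hj : (j : ℝ) + 1 ≤ s) :
    Ins_F s h q j = h j := by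
  rw [Ins_F, Ins_B_nonneg (by linarith), Ins_A_big (by linarith), Ins_C_big (by linarith)]
  simp

theorem Ins_F_small {s : ℝ} (h : ℕ → V) (q : V) {j : ℕ} (hj : s + 1 ≤ j) :
    Ins_F s h q j = h (j - 1) := by
  rw [Ins_F, Ins_B_small (by linarith), Ins_A_small (by linarith), Ins_C_nonpos (by linarith)]
  simp

theorem Ins_F_n {s : ℝ} {n : ℕ} (h0 : (n : ℝ) ≤ s) (h : ℕ → V) (q : V) :
    Ins_F s h q n = (Ins_A (s - n) * (-1) ^ n) • q + Ins_C (s - n) • h n := by
  rw [Ins_F, Ins_B_nonneg (by linarith), zero_smul, zero_add]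

theorem Ins_F_n1 {s : ℝ} {n : ℕ} (h0 : (n : ℝ) ≤ s) (h1 : s ≤ n + 1) (h : ℕ → V) (q : V) :
    Ins_F s h q (n + 1) = Ins_A (s - n) • h n + (Ins_C (s - n) * (-1) ^ (n + 1)) • q := by
  have e : s - ((n + 1 : ℕ) : ℝ) = s - n - 1 := by push_cast; ring
  rw [Ins_F, e, Ins_B_shift (by linarith) (by linarith), Ins_A_shift (by linarith) (by linarith),
    Ins_C_nonpos (u := s - n - 1) (by linarith), zero_smul, add_zero]
  simp

theorem Ins_H_lt {s : ℝ} (k : ℕ → V) {i : ℕ} (hi : (i : ℝ) + 1 ≤ s) : Ins_H s k i = k i := by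
  rw [Ins_H, Ins_C_big (by linarith), Ins_B_nonneg (by linarith)]
  simp

theorem Ins_H_gt {s : ℝ} (k : ℕ → V) {i : ℕ} (hi : s ≤ i) : Ins_H s k i = k (i + 1) := by
  rw [Ins_H, Ins_C_nonpos (by linarith), Ins_B_small (by linarith)]
  simp

theorem Ins_H_n {s : ℝ} {n : ℕ} (h0 : (n : ℝ) ≤ s) (h1 : s ≤ n + 1) (k : ℕ → V) :
    Ins_H s k n = Ins_C (s - n) • k n + Ins_A (s - n) • k (n + 1) := by
  rw [Ins_H, Ins_B_shift (by linarith) (by linarith)]

theorem Ins_Q_eq {s : ℝ} {n : ℕ} (h0 : (n : ℝ) ≤ s) (h1 : s ≤ n + 1) (k : ℕ → V) :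
    Ins_Q s k = (Ins_A (s - n) * (-1) ^ n) • k n +
      (Ins_C (s - n) * (-1) ^ (n + 1)) • k (n + 1) := by
  have hs : (Function.support fun j : ℕ => (Ins_A (s - j) * (-1) ^ j) • k j) ⊆
      (({n, n + 1} : Finset ℕ) : Set ℕ) := by
    intro j hj
    by_contra hj'
    apply hj
    simp only [Finset.coe_insert, Finset.coe_singleton, mem_insert_iff, mem_singleton_iff,
      not_or] at hj'
    have : Ins_A (s - j) = 0 := by
      rcases lt_or_ge j n with h | h
      · apply Ins_A_big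
        have : (j : ℝ) + 1 ≤ n := by exact_mod_cast h
        linarith
      · apply Ins_A_small
        have : n + 2 ≤ j := by omega
        have : (n : ℝ) + 2 ≤ j := by exact_mod_cast this
        linarith
    simp only [this, zero_mul, zero_smul]
  rw [Ins_Q, finsum_eq_sum_of_support_subset _ hs, Finset.sum_pair (by omega)]
  have e : s - ((n + 1 : ℕ) : ℝ) = s - n - 1 := by push_cast; ring
  rw [e, Ins_A_shift (by linarith) (by linarith)]

theorem Ins_floor {s : ℝ} (hs : 1 ≤ s) : ∃ n : ℕ, (n : ℝ) ≤ s ∧ s ≤ n + 1 :=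
  ⟨⌊s⌋₊, Nat.floor_le (by linarith), (Nat.lt_floor_add_one s).le⟩

theorem Ins_QF {s : ℝ} (hs : 1 ≤ s) (h : ℕ → V) (q : V) : Ins_Q s (Ins_F s h q) = q := by
  obtain ⟨n, h0, h1⟩ := Ins_floor hs
  have hsq := Ins_sq (u := s - n) (by linarith) (by linarith)
  rw [Ins_Q_eq h0 h1, Ins_F_n h0, Ins_F_n1 h0 h1]
  set a := Ins_A (s - n)
  set c := Ins_C (s - n)
  have he : ((-1 : ℝ) ^ n) ^ 2 = 1 := by rw [← pow_mul, mul_comm, pow_mul]; simp
  rw [pow_succ]
  set ε := (-1 : ℝ) ^ n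
  have : (a * ε) • ((a * ε) • q + c • h n) + (c * (ε * -1)) • (a • h n + (c * (ε * -1)) • q) =
      ((a ^ 2 + c ^ 2) * ε ^ 2) • q := by module
  rw [this, hsq, he, one_mul, one_smul]

theorem Ins_HF {s : ℝ} (hs : 1 ≤ s) (h : ℕ → V) (q : V) : Ins_H s (Ins_F s h q) = h := by
  obtain ⟨n, h0, h1⟩ := Ins_floor hs
  have hsq := Ins_sq (u := s - n) (by linarith) (by linarith)
  funext i
  rcases lt_trichotomy i n with hi | rfl | hi
  · have : (i : ℝ) + 1 ≤ n := by exact_mod_cast hi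
    rw [Ins_H_lt _ (by linarith), Ins_F_big _ _ (by linarith)]
  · rw [Ins_H_n h0 h1, Ins_F_n h0, Ins_F_n1 h0 h1]
    set a := Ins_A (s - i)
    set c := Ins_C (s - i)
    rw [pow_succ]
    set ε := (-1 : ℝ) ^ i
    have : c • ((a * ε) • q + c • h i) + a • (a • h i + (c * (ε * -1)) • q) =
        (a ^ 2 + c ^ 2) • h i := by module
    rw [this, hsq, one_smul]
  · have : (n : ℝ) + 1 ≤ i := by exact_mod_cast hi
    rw [Ins_H_gt _ (by linarith), Ins_F_small _ _ (by push_cast; linarith)]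
    simp

theorem Ins_FH {s : ℝ} (hs : 1 ≤ s) (k : ℕ → V) : Ins_F s (Ins_H s k) (Ins_Q s k) = k := by
  obtain ⟨n, h0, h1⟩ := Ins_floor hs
  have hsq := Ins_sq (u := s - n) (by linarith) (by linarith)
  have he : ((-1 : ℝ) ^ n) ^ 2 = 1 := by rw [← pow_mul, mul_comm, pow_mul]; simp
  funext j
  rcases lt_trichotomy j n with hj | rfl | hj
  · have : (j : ℝ) + 1 ≤ n := by exact_mod_cast hj
    rw [Ins_F_big _ _ (by linarith), Ins_H_lt _ (by linarith)]
  · rw [Ins_F_n h0, Ins_H_n h0 h1, Ins_Q_eq h0 h1]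
    set a := Ins_A (s - j)
    set c := Ins_C (s - j)
    rw [pow_succ]
    set ε := (-1 : ℝ) ^ j
    have : (a * ε) • ((a * ε) • k j + (c * (ε * -1)) • k (j + 1)) +
        c • (c • k j + a • k (j + 1)) =
        (a ^ 2 * ε ^ 2 + c ^ 2) • k j + (a * c * (1 - ε ^ 2)) • k (j + 1) := by module
    rw [this, he, mul_one, hsq, sub_self, mul_zero, zero_smul, one_smul, add_zero]
  · rcases eq_or_lt_of_le (Nat.succ_le_of_lt hj) with rfl | hj'
    · rw [Nat.succ_eq_add_one, Ins_F_n1 h0 h1, Ins_H_n h0 h1, Ins_Q_eq h0 h1]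
      set a := Ins_A (s - n)
      set c := Ins_C (s - n)
      rw [pow_succ]
      set ε := (-1 : ℝ) ^ n
      have : a • (c • k n + a • k (n + 1)) +
          (c * (ε * -1)) • ((a * ε) • k n + (c * (ε * -1)) • k (n + 1)) =
          (a * c * (1 - ε ^ 2)) • k n + (a ^ 2 + c ^ 2 * ε ^ 2) • k (n + 1) := by module
      rw [this, he, mul_one, hsq, sub_self, mul_zero, zero_smul, one_smul, zero_add]
    · have h2 : (n : ℝ) + 2 ≤ j := by
        have : n + 2 ≤ j := by omega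
        exact_mod_cast this
      rw [Ins_F_small _ _ (by linarith), Ins_H_gt]
      · congr 1
        omega
      · rw [Nat.cast_sub (by omega)]
        push_cast
        linarith

end

/-- [TOR-INS] Inserting the vector `q` at place `s` into the sequence `h`, with rotations between
two consecutive integers. Let `A u = cos (π/2 * clamp(u, -1, 1))`, `B u = - sin (π/2 * clamp(u, -1, 0))`,
`C u = sin (π/2 * clamp(u, 0, 1))` (continuous; `A u = 0` for `|u| ≥ 1`; `B u = 1` for `u ≤ -1`, `B u = 0`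
for `u ≥ 0`; `C u = 0` for `u ≤ 0`, `C u = 1` for `u ≥ 1`). For `s ≥ 1`:
`h' 0 = h 0` and
`h' (i+1) = B (s - (i+1)) • h i + (A (s - (i+1)) * (-1)^(i+1)) • q + C (s - (i+1)) • h (i+1)`.
With `n = ⌊s⌋`, `φ = π/2 * (s - n)`: `h' i = h i` for `i < n`,
`h' n = (cos φ * (-1)^n) • q + sin φ • h n`, `h' (n+1) = -(sin φ * (-1)^n) • q + cos φ • h n`,
`h' i = h (i-1)` for `i ≥ n + 2`. Inverse: `q = ∑ i, (A (s - i) * (-1)^i) • h' i` (only the terms
`i = n, n+1` are nonzero) and `h i = C (s - i) • h' i + B (s - i - 1) • h' (i+1)`. Everything is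
(locally) a finite combination of coordinates, hence continuous. -/
theorem exists_insertion (V : Type) [AddCommGroup V] [Module ℝ V] [TopologicalSpace V]
    [IsTopologicalAddGroup V] [ContinuousSMul ℝ V] :
    ∃ G : (Ici (1 : ℝ) × (ℕ → V) × V) ≃ₜ (Ici (1 : ℝ) × (ℕ → V)),
      (∀ q, (G q).1 = q.1) ∧
      ∀ (s : Ici (1 : ℝ)) (h : ℕ → V) (q : V) (i : ℕ), (i : ℝ) + 1 ≤ s → (G (s, h, q)).2 i = h i := by
  refine ⟨{ toFun := fun p => (p.1, Ins_F p.1 p.2.1 p.2.2)
            invFun := fun p => (p.1, Ins_H p.1 p.2, Ins_Q p.1 p.2)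
            left_inv := ?_
            right_inv := ?_
            continuous_toFun := ?_
            continuous_invFun := ?_ }, ?_, ?_⟩
  · rintro ⟨⟨s, hs⟩, h, q⟩
    simp only [Ins_HF (mem_Ici.1 hs), Ins_QF (mem_Ici.1 hs)]
  · rintro ⟨⟨s, hs⟩, k⟩
    simp only [Ins_FH (mem_Ici.1 hs)]
  · refine continuous_fst.prodMk (continuous_pi fun j => ?_)
    have h1 := Ins_contA
    have h2 := Ins_contB
    have h3 := Ins_contC
    unfold Ins_F
    fun_prop
  · refine continuous_fst.prodMk (Continuous.prodMk (continuous_pi fun j => ?_) ?_)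
    · have h2 := Ins_contB
      have h3 := Ins_contC
      unfold Ins_H
      fun_prop
    · unfold Ins_Q
      refine continuous_finsum (fun j => ?_) ?_
      · have h1 := Ins_contA
        fun_prop
      · intro x
        refine ⟨{y | |(y.1 : ℝ) - x.1| < 1}, ?_, ?_⟩
        · have : Continuous fun y : Ici (1 : ℝ) × (ℕ → V) => |(y.1 : ℝ) - x.1| := by fun_prop
          exact (isOpen_lt this continuous_const).mem_nhds (by simp)
        · refine (Set.finite_le_nat (⌈(x.1 : ℝ) + 2⌉₊)).subset ?_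
          rintro j ⟨y, hy1, hy2⟩
          show j ≤ _
          by_contra hj
          apply hy1
          have h4 : (x.1 : ℝ) + 2 < j := by
            rw [not_le] at hj
            exact Nat.lt_of_ceil_lt hj
          have h5 : Ins_A ((y.1 : ℝ) - j) = 0 := by
            apply Ins_A_small
            have hy3 : |(y.1 : ℝ) - x.1| < 1 := hy2
            have := (abs_lt.1 hy3).2
            linarith
          simp only [h5, zero_mul, zero_smul]
  · intro q
    rfl
  · intro s h q i hi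
    exact Ins_F_big h q hi

end Pool.Agent.MP_645085_gt.TOR
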