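import Pool.Agent.MP_645085_gt.TOR.Klee

/-!
# TOR row [TOR-K1]: pushing the zero section off in the `X`-direction
-/

namespace Pool.Agent.MP_645085_gt.TOR

open Set Filter Topology TopologicalSpace Metric

/-- Consequences of `exists_transport`. -/
theorem K1_transport {X P H : Type} [TopologicalSpace X] [TopologicalSpace P]
    [NormedAddCommGroup H] [NormedSpace ℝ H]
    (C : (P × closedBall (0 : H) 1) ≃ₜ (P × unitInterval))
    (hC : ∀ q, ((C q).2 : ℝ) = ‖(q.2 : H)‖)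
    (hC0 : ∀ p, C (p, ⟨0, mem_closedBall_self zero_le_one⟩) = (p, 0))
    (Ψ : (X × P × H) ≃ₜ (X × P × H))
    (hΨ : ∀ x p w, 3 / 4 ≤ ‖w‖ → Ψ (x, p, w) = (x, p, w)) :
    ∃ K : MM X P ≃ₜ MM X P,
      (∀ m : MM X P, ∃ (p : P) (w : H), (m.2.2 : ℝ) = ‖w‖ ∧ (K m).1 = (Ψ (m.1, p, w)).1 ∧
        (Ψ (m.1, p, w) = (m.1, p, w) → K m = m)) ∧
      (∀ x p, (K (x, p, 0)).1 = (Ψ (x, p, 0)).1) ∧
      (∀ x p x' p', Ψ (x, p, 0) = (x', p', 0) → K (x, p, 0) = (x', p', 0)) := by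
  obtain ⟨K, hK⟩ := exists_transport C Ψ hΨ
  have key : ∀ (r : X × P × H) (x : X) (p : P) (w : H) (hw : w ∈ closedBall (0 : H) 1),
      r = (x, p, w) → ∀ hr : r.2.2 ∈ closedBall (0 : H) 1,
      (r.1, C (r.2.1, ⟨r.2.2, hr⟩)) = (x, C (p, ⟨w, hw⟩)) := by
    rintro _ x p w hw rfl hr
    rfl
  refine ⟨K, ?_, ?_, ?_⟩
  · rintro ⟨x, q⟩
    set a := C.symm q with ha
    have hq : C (a.1, ⟨a.2.1, a.2.2⟩) = q := by
      rw [ha]
      exact C.apply_symm_apply q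
    obtain ⟨hw', h⟩ := hK x a.1 a.2.1 a.2.2
    refine ⟨a.1, a.2.1, ?_, ?_, ?_⟩
    · have h1 := hC a
      rw [ha, C.apply_symm_apply] at h1
      exact h1
    · rw [hq] at h
      rw [h]
    · intro h2
      rw [key _ _ _ _ a.2.2 h2 hw', hq] at h
      exact h
  · intro x p
    obtain ⟨hw', h⟩ := hK x p 0 (mem_closedBall_self zero_le_one)
    rw [hC0] at h
    rw [h]
  · intro x p x' p' h2
    obtain ⟨hw', h⟩ := hK x p 0 (mem_closedBall_self zero_le_one)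
    rw [key _ _ _ _ (mem_closedBall_self zero_le_one) h2 hw', hC0, hC0] at h
    exact h

/-- A homeomorphism of `(X × P) × H` as a homeomorphism of `X × P × H`. -/
def K1_lift {X P H : Type} [TopologicalSpace X] [TopologicalSpace P] [TopologicalSpace H]
    (T : ((X × P) × H) ≃ₜ ((X × P) × H)) : (X × P × H) ≃ₜ (X × P × H) :=
  (Homeomorph.prodAssoc X P H).symm.trans (T.trans (Homeomorph.prodAssoc X P H))

theorem K1_lift_apply {X P H : Type} [TopologicalSpace X] [TopologicalSpace P]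
    [TopologicalSpace H] (T : ((X × P) × H) ≃ₜ ((X × P) × H)) (x : X) (p : P) (w : H) :
    K1_lift T (x, p, w) = ((T ((x, p), w)).1.1, (T ((x, p), w)).1.2, (T ((x, p), w)).2) := rfl

/-- A homeomorphism of `X × H` acting on `X × P × H`. -/
def K1_lift2 {X P H : Type} [TopologicalSpace X] [TopologicalSpace P] [TopologicalSpace H]
    (T : (X × H) ≃ₜ (X × H)) : (X × P × H) ≃ₜ (X × P × H) where
  toFun q := ((T (q.1, q.2.2)).1, q.2.1, (T (q.1, q.2.2)).2)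
  invFun q := ((T.symm (q.1, q.2.2)).1, q.2.1, (T.symm (q.1, q.2.2)).2)
  left_inv q := by simp
  right_inv q := by simp
  continuous_toFun := by fun_prop
  continuous_invFun := by fun_prop

theorem K1_lift2_apply {X P H : Type} [TopologicalSpace X] [TopologicalSpace P]
    [TopologicalSpace H] (T : (X × H) ≃ₜ (X × H)) (x : X) (p : P) (w : H) :
    K1_lift2 (P := P) T (x, p, w) = ((T (x, w)).1, p, (T (x, w)).2) := rfl

variable {X P H : Type} [NormedAddCommGroup X] [Module ℝ X] [FN X] [MetricSpace P]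
  [AddCommGroup P] [Module ℝ P] [IsTopologicalAddGroup P] [ContinuousSMul ℝ P]
  [NormedAddCommGroup H] [NormedSpace ℝ H]

theorem K1_smul_le (u : ℝ) (x : X) (hu : |u| ≤ 2) : ‖u • x‖ ≤ 2 * ‖x‖ := by
  have h1 : u • x = (u / 2) • x + (u / 2) • x := by
    rw [← add_smul, add_halves]
  have h2 : ‖(u / 2) • x‖ ≤ ‖x‖ := by
    apply FN.smul_le
    rw [abs_div, abs_two]
    linarith
  rw [h1]
  linarith [norm_add_le ((u / 2) • x) ((u / 2) • x)]

/-- The cut-off. -/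
noncomputable def K1_m (χ ε : X → ℝ) (D : H → X) (q : X × H) : ℝ :=
  χ q.1 * cl01 (2 - 2 * ‖D q.2‖ / ε q.1) * cl01 (3 - 4 * ‖q.2‖)

theorem K1_m_cont {χ ε : X → ℝ} {D : H → X} (hχ : Continuous χ) (hε : Ctl ε)
    (hD : Continuous D) : Continuous (K1_m χ ε D) := by
  unfold K1_m
  have h1 := hε.continuous
  have h2 : ∀ q : X × H, ε q.1 ≠ 0 := fun q => (hε.pos _).ne'
  have h3 : Continuous fun q : X × H => 2 - 2 * ‖D q.2‖ / ε q.1 :=
    continuous_const.sub (Continuous.div (by fun_prop) (by fun_prop) h2)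
  have h4 : Continuous fun q : X × H => 3 - 4 * ‖q.2‖ := by fun_prop
  exact ((hχ.comp continuous_fst).mul (continuous_cl01.comp h3)).mul (continuous_cl01.comp h4)

/-- The controlled shear in the `X`-direction. -/
theorem K1_shear {χ ε : X → ℝ} (hχ : Continuous χ) (hχ0 : ∀ x, 0 ≤ χ x) (hχ1 : ∀ x, χ x ≤ 1)
    (hε : Ctl ε) {D : H → X} (hD : Continuous D) :
    ∃ Θ : (X × H) ≃ₜ (X × H), (∀ q, (Θ q).2 = q.2) ∧ (∀ q, ‖(Θ q).1 - q.1‖ ≤ ε q.1) ∧
      (∀ q, χ q.1 = 0 → Θ q = q) ∧ (∀ q, 3 / 4 ≤ ‖q.2‖ → Θ q = q) ∧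
      ∀ x w, (∀ y, ‖y - x‖ ≤ ε x → χ y = 1) → ‖D w‖ ≤ ε x / 4 → ‖w‖ ≤ 1 / 2 →
        Θ (x, w) = (x + D w, w) := by
  obtain ⟨n, hn0, hnm, hn1, Θ, hΘ⟩ := exists_xshear D hD (K1_m χ ε D) (K1_m_cont hχ hε hD)
    (fun q => mul_nonneg (mul_nonneg (hχ0 _) (cl01_nonneg _)) (cl01_nonneg _))
    (fun q => mul_le_one₀ (mul_le_one₀ (hχ1 _) (cl01_nonneg _) (cl01_le_one _))
      (cl01_nonneg _) (cl01_le_one _))
  have hn_le : ∀ q, n q ≤ 1 := fun q => (hnm q).trans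
    (mul_le_one₀ (mul_le_one₀ (hχ1 _) (cl01_nonneg _) (cl01_le_one _))
      (cl01_nonneg _) (cl01_le_one _))
  have hfix : ∀ x w, K1_m χ ε D (x, w) = 0 → Θ (x, w) = (x, w) := by
    intro x w h
    have h1 : n (x, w) = 0 := le_antisymm (h ▸ hnm (x, w)) (hn0 _)
    rw [hΘ, h1, zero_smul, add_zero]
  refine ⟨Θ, ?_, ?_, ?_, ?_, ?_⟩
  · rintro ⟨x, w⟩
    rw [hΘ]
  · rintro ⟨x, w⟩
    rw [hΘ]
    simp only [add_sub_cancel_left]
    have hp := hε.pos x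
    by_cases h : ‖D w‖ ≤ ε x
    · refine (FN.smul_le _ _ ?_).trans h
      rw [abs_of_nonneg (hn0 _)]
      exact hn_le _
    · have h1 : n (x, w) = 0 := by
        apply le_antisymm _ (hn0 _)
        refine (hnm _).trans ?_
        have h2 : cl01 (2 - 2 * ‖D w‖ / ε x) = 0 := by
          apply cl01_of_nonpos
          rw [sub_nonpos, le_div_iff₀ hp]
          linarith [not_le.1 h]
        simp [K1_m, h2]
      rw [h1, zero_smul, norm_zero]
      exact hp.le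
  · rintro ⟨x, w⟩ h
    apply hfix
    simp only at h
    simp [K1_m, h]
  · rintro ⟨x, w⟩ h
    apply hfix
    simp only at h
    have h2 : cl01 (3 - 4 * ‖w‖) = 0 := cl01_of_nonpos (by linarith)
    simp [K1_m, h2]
  · intro x w hx hD1 hw
    have h1 : n (x, w) = 1 := by
      apply hn1
      intro u hu
      have e1 : ‖x + u • D w - x‖ ≤ ε x / 2 := by
        rw [add_sub_cancel_left]
        exact (K1_smul_le u _ hu).trans (by linarith)
      have hp := hε.pos x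
      have e2 : χ (x + u • D w) = 1 := hx _ (by linarith)
      have e3 := hε.lip x (x + u • D w)
      rw [dist_comm, dist_eq_norm] at e3
      have e4 : ε x - ε (x + u • D w) ≤ ε x / 2 := (le_abs_self _).trans (e3.trans e1)
      have hp2 := hε.pos (x + u • D w)
      have e5 : cl01 (2 - 2 * ‖D w‖ / ε (x + u • D w)) = 1 := by
        apply cl01_of_one_le
        have : 2 * ‖D w‖ / ε (x + u • D w) ≤ 1 := by
          rw [div_le_one hp2]
          linarith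
        linarith
      have e6 : cl01 (3 - 4 * ‖w‖) = 1 := cl01_of_one_le (by linarith)
      simp [K1_m, e2, e5, e6]
    rw [hΘ, h1, one_smul]

/-- [TOR-K1] Proof. In the coordinates `(x, p, w)` of `X × P × H` (then `exists_transport`):
`K = Sh2 ∘ Sh1`. Let `β : X → H` be the closed embedding `x ↦ β' (x, 0)` (`β'` from `emb`,
`‖β‖ ≤ 1/2`).
`Sh1` (`exists_wshear` with base `X × P` and `b (x, p) = χ x • β x`): `(x, p, 0) ↦ (x, p, χ x • β x)`.
`Sh2` (`exists_xshear`, acting on `(x, w)`, trivially on `p`): `(x, p, w) ↦ (x + n (x, w) • D w, p, w)`,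
where `D : H → X` is continuous with `D (β x) = κ x - x` (`AE.extend`, `aeX`), and the cut-off is
`m (x, w) = χ x * cl01 (2 - 2 * ‖D w‖ / ε x) * cl01 (3 - 4 * ‖w‖)`.
Then: `n ≤ m`, so `n ≠ 0` implies `‖D w‖ ≤ ε x`, whence the displacement bound
(`‖n • D w‖ ≤ ‖D w‖`); if `χ x = 0` then `b = 0` and `n = 0`; if `‖w‖ ≥ 3/4` both shears are the
identity. For the last claim: `χ x = 1`, `w = β x`, `‖w‖ ≤ 1/2`, `‖D w‖ ≤ ε x / 4`, and for `|u| ≤ 2`,
`y = x + u • D w` has `‖y - x‖ ≤ 2 * ‖D w‖ ≤ ε x / 2` (`‖u • D‖ ≤ ‖2 • (u/2) • D‖ ≤ 2 ‖D‖`), so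
`χ y = 1`, `ε y ≥ ε x / 2 ≥ 2 * ‖D w‖`, i.e. `m (y, w) = 1`; hence `n (x, w) = 1` and
`K (x, p, 0)` has first coordinate `x + D (β x) = κ x`. -/
theorem exists_K1 (data : Data X P H) (κ : X → X) (hκ : Continuous κ) (ε : X → ℝ) (hε : Ctl ε)
    (hκε : ∀ x, ‖κ x - x‖ ≤ ε x / 4) (χ : X → ℝ) (hχ : Continuous χ)
    (hχ0 : ∀ x, 0 ≤ χ x) (hχ1 : ∀ x, χ x ≤ 1) :
    ∃ K : MM X P ≃ₜ MM X P, (∀ m, ‖(K m).1 - m.1‖ ≤ ε m.1) ∧ (∀ m, χ m.1 = 0 → K m = m) ∧
      (∀ m, 3 / 4 ≤ (m.2.2 : ℝ) → K m = m) ∧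
      ∀ x p, (∀ y, ‖y - x‖ ≤ ε x → χ y = 1) → (K (x, p, 0)).1 = κ x := by
  obtain ⟨β', hβ', hβb'⟩ := data.emb
  obtain ⟨C, hC, hC0⟩ := data.chart
  have hi : IsClosedEmbedding (fun x : X => ((x, 0) : X × P)) :=
    Function.LeftInverse.isClosedEmbedding (f := Prod.fst) (fun _ => rfl) (by fun_prop)
      (by fun_prop)
  set β : X → H := fun x => β' (x, 0) with hβdef
  have hβ : IsClosedEmbedding β := hβ'.comp hi
  have hβb : ∀ x, ‖β x‖ ≤ 1 / 2 := fun x => hβb' _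
  obtain ⟨D, hD, hDβ⟩ := data.aeX.extend β hβ (fun x => κ x - x) (by fun_prop)
  have hβc : Continuous β := hβ.continuous
  obtain ⟨T, hT1, hT0, hTw, hTz⟩ := exists_wshear (B := X × P) (fun z => χ z.1 • β z.1)
    (by fun_prop) (by
      intro z
      rw [norm_smul, Real.norm_eq_abs, abs_of_nonneg (hχ0 _)]
      calc χ z.1 * ‖β z.1‖ ≤ 1 * ‖β z.1‖ :=
            mul_le_mul_of_nonneg_right (hχ1 _) (norm_nonneg _)
        _ ≤ 1 / 2 := by rw [one_mul]; exact hβb _)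
  obtain ⟨Θ, hΘ2, hΘd, hΘχ, hΘw, hΘ1⟩ := K1_shear hχ hχ0 hχ1 hε hD
  set Ψ : (X × P × H) ≃ₜ (X × P × H) := (K1_lift T).trans (K1_lift2 Θ) with hΨdef
  have hΨ : ∀ x p w, Ψ (x, p, w) = ((Θ (x, (T ((x, p), w)).2)).1, p, (T ((x, p), w)).2) := by
    intro x p w
    have h1 : T ((x, p), w) = ((x, p), (T ((x, p), w)).2) := Prod.ext (hT1 _) rfl
    rw [hΨdef, Homeomorph.trans_apply, K1_lift_apply, K1_lift2_apply, hT1, hΘ2]
  have hΨw : ∀ x p w, 3 / 4 ≤ ‖w‖ → Ψ (x, p, w) = (x, p, w) := by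
    intro x p w hw
    rw [hΨ, hTw _ _ hw]
    simp only
    rw [hΘw (x, w) hw]
  have hΨχ : ∀ x p w, χ x = 0 → Ψ (x, p, w) = (x, p, w) := by
    intro x p w hx
    rw [hΨ, hTz (x, p) w (by simp [hx])]
    simp only
    rw [hΘχ (x, w) hx]
  obtain ⟨K, hK, hK0, -⟩ := K1_transport C hC hC0 Ψ hΨw
  refine ⟨K, ?_, ?_, ?_, ?_⟩
  · intro m
    obtain ⟨p, w, h1, h2, h3⟩ := hK m
    rw [h2, hΨ]
    exact hΘd (m.1, _)
  · intro m hm
    obtain ⟨p, w, h1, h2, h3⟩ := hK m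
    exact h3 (hΨχ _ _ _ hm)
  · intro m hm
    obtain ⟨p, w, h1, h2, h3⟩ := hK m
    rw [h1] at hm
    exact h3 (hΨw _ _ _ hm)
  · intro x p hx
    have hχx : χ x = 1 := hx x (by rw [sub_self, norm_zero]; exact (hε.pos x).le)
    rw [hK0, hΨ, hT0]
    simp only [hχx, one_smul]
    rw [hΘ1 x (β x) hx (by rw [hDβ]; exact hκε x) (hβb x), hDβ]
    simp

end Pool.Agent.MP_645085_gt.TOR
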