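import Pool.Agent.MP_645085_gt.TOR.Klee
import Pool.Agent.MP_645085_gt.TOR.K1

/-!
# TOR row [TOR-K2]: moving the zero section onto `α (X × P) × {(0, 0)}`
-/

namespace Pool.Agent.MP_645085_gt.TOR

open Set Filter Topology TopologicalSpace Metric

/-- The shear in the `P`-direction. -/
def K2_pshear {X P H : Type} [TopologicalSpace X] [TopologicalSpace P]
    [AddCommGroup P] [IsTopologicalAddGroup P] [TopologicalSpace H]
    (d : X × H → P) (hd : Continuous d) : (X × P × H) ≃ₜ (X × P × H) where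
  toFun q := (q.1, q.2.1 + d (q.1, q.2.2), q.2.2)
  invFun q := (q.1, q.2.1 - d (q.1, q.2.2), q.2.2)
  left_inv q := by simp
  right_inv q := by simp
  continuous_toFun := by fun_prop
  continuous_invFun := by fun_prop

theorem K2_pshear_apply {X P H : Type} [TopologicalSpace X] [TopologicalSpace P]
    [AddCommGroup P] [IsTopologicalAddGroup P] [TopologicalSpace H]
    (d : X × H → P) (hd : Continuous d) (x : X) (p : P) (w : H) :
    K2_pshear d hd (x, p, w) = (x, p + d (x, w), w) := rfl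

variable {X P H : Type} [NormedAddCommGroup X] [Module ℝ X] [FN X] [MetricSpace P]
  [AddCommGroup P] [Module ℝ P] [IsTopologicalAddGroup P] [ContinuousSMul ℝ P]
  [NormedAddCommGroup H] [NormedSpace ℝ H]

/-- [TOR-K2] Proof. In the coordinates `(x, p, w)` of `X × P × H` (then `exists_transport`):
`h = Sh1' ∘ Sh3 ∘ Sh2 ∘ Sh1`, with `β : X × P → H` from `emb`:
* `Sh1` (`exists_wshear`, base `X × P`, `b = β`): `(x, p, 0) ↦ (x, p, β (x, p))`;
* `Sh2` (`exists_xshear`): `D : H → X` with `D (β (x, p)) = α (x, p) - x` (`AE.extend`), cut-off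
  `m (x, w) = cl01 (2 - 2 * ‖D w‖ / ε x) * cl01 (3 - 4 * ‖w‖)`; as in [TOR-K1] the displacement is
  `≤ ε x` and `(x, p, β (x, p)) ↦ (α (x, p), p, β (x, p))`;
* `Sh3`: `(x, p, w) ↦ (x, p + cl01 (3 - 4 * ‖w‖) • D' w, w)`, `D' : H → P` with
  `D' (β (x, p)) = -p` (`AE.extend`, `aeP`): `(α (x, p), p, β (x, p)) ↦ (α (x, p), 0, β (x, p))`;
* `Sh1'`: the inverse of the `w`-shear with `b' (x, p) = b₁ x`, `b₁ : X → H`,
  `b₁ (α (x, p)) = β (x, p)`, `‖b₁‖ ≤ 1/2` (`AE.extend_ball`): `↦ (α (x, p), 0, 0)`.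
All are the identity for `‖w‖ ≥ 3/4`; only `Sh2` changes `x`. -/
theorem exists_K2 (data : Data X P H) (α : X × P → X) (hα : IsClosedEmbedding α) (ε : X → ℝ)
    (hε : Ctl ε) (hαε : ∀ x p, ‖α (x, p) - x‖ ≤ ε x / 4) :
    ∃ h : MM X P ≃ₜ MM X P, (∀ m, ‖(h m).1 - m.1‖ ≤ ε m.1) ∧
      ∀ x p, h (x, p, 0) = (α (x, p), 0, 0) := by
  obtain ⟨β, hβ, hβb⟩ := data.emb
  obtain ⟨C, hC, hC0⟩ := data.chart
  have hαc := hα.continuous
  obtain ⟨D, hD, hDβ⟩ := data.aeX.extend β hβ (fun q => α q - q.1) (by fun_prop)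
  obtain ⟨D', hD', hDβ'⟩ := data.aeP.extend β hβ (fun q => -q.2) (by fun_prop)
  obtain ⟨b₁, hb₁, hb₁α, hb₁b⟩ := data.aeH.extend_ball α hα β hβ.continuous hβb
  obtain ⟨T, hT1, hT0, hTw, hTz⟩ := exists_wshear (B := X × P) β hβ.continuous hβb
  obtain ⟨T', hT1', hT0', hTw', hTz'⟩ := exists_wshear (B := X × P) (fun z => b₁ z.1)
    (by fun_prop) (fun z => hb₁b _)
  obtain ⟨Θ, hΘ2, hΘd, hΘχ, hΘw, hΘ1⟩ := K1_shear (χ := fun _ => 1) continuous_const
    (fun _ => zero_le_one) (fun _ => le_rfl) hε hD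
  have hS : Continuous fun q : X × H => cl01 (3 - 4 * ‖q.2‖) • D' q.2 := by
    have h4 : Continuous fun q : X × H => 3 - 4 * ‖q.2‖ := by fun_prop
    exact (continuous_cl01.comp h4).smul (by fun_prop)
  set S := K2_pshear (fun q : X × H => cl01 (3 - 4 * ‖q.2‖) • D' q.2) hS with hSdef
  have hS_apply : ∀ x p w, S (x, p, w) = (x, p + cl01 (3 - 4 * ‖w‖) • D' w, w) :=
    fun x p w => rfl
  set Ψ : (X × P × H) ≃ₜ (X × P × H) :=
    ((K1_lift T).trans (K1_lift2 Θ)).trans (S.trans (K1_lift T').symm) with hΨdef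
  have hΨ : ∀ q, Ψ q = (K1_lift T').symm (S (K1_lift2 Θ (K1_lift T q))) := fun q => rfl
  have hT1s : ∀ q, ((K1_lift T').symm q).1 = q.1 := by
    intro q
    obtain ⟨⟨x, p, w⟩, rfl⟩ := (K1_lift T').surjective q
    rw [Homeomorph.symm_apply_apply, K1_lift_apply, hT1']
  have hΨw : ∀ x p w, 3 / 4 ≤ ‖w‖ → Ψ (x, p, w) = (x, p, w) := by
    intro x p w hw
    rw [hΨ, K1_lift_apply, hTw _ _ hw]
    simp only
    rw [K1_lift2_apply, hΘw (x, w) hw, hS_apply, cl01_of_nonpos (by linarith), zero_smul,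
      add_zero, Homeomorph.symm_apply_eq, K1_lift_apply, hTw' _ _ hw]
  obtain ⟨K, hK, -, hK0⟩ := K1_transport C hC hC0 Ψ hΨw
  refine ⟨K, ?_, ?_⟩
  · intro m
    obtain ⟨p, w, h1, h2, h3⟩ := hK m
    rw [h2, hΨ, hT1s, K1_lift_apply, hT1]
    simp only
    rw [K1_lift2_apply, hS_apply]
    exact hΘd (m.1, _)
  · intro x p
    apply hK0
    rw [hΨ, K1_lift_apply, hT0]
    simp only
    rw [K1_lift2_apply, hΘ1 x (β (x, p)) (fun _ _ => rfl) (by rw [hDβ]; exact hαε x p) (hβb _),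
      hDβ, hS_apply, hDβ', cl01_of_one_le (by linarith [hβb (x, p)]), Homeomorph.symm_apply_eq,
      K1_lift_apply, hT0', hb₁α]
    simp

end Pool.Agent.MP_645085_gt.TOR
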