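import Pool.Agent.MP_645085_gt.TOR.Klee
import Pool.Agent.MP_645085_gt.TOR.K2

/-!
# TOR row [TOR-K3]: squeezing the zero section in the `P`-direction
-/

namespace Pool.Agent.MP_645085_gt.TOR

open Set Filter Topology TopologicalSpace Metric

variable {X P H : Type} [NormedAddCommGroup X] [Module ℝ X] [FN X] [MetricSpace P]
  [AddCommGroup P] [Module ℝ P] [IsTopologicalAddGroup P] [ContinuousSMul ℝ P]
  [NormedAddCommGroup H] [NormedSpace ℝ H]

/-- [TOR-K3] Proof. `j` from `deep ω`. Let `β : P → H` be the closed embedding `p ↦ β' (0, p)`. In the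
coordinates `(x, p, w)` (then `exists_transport`), `g = Sh1' ∘ Sh3 ∘ Sh1`:
* `Sh1` (`exists_wshear`, base `X × P`, `b (x, p) = χ x • β p`): `(x, p, 0) ↦ (x, p, β p)` if `χ x = 1`;
* `Sh3`: `(x, p, w) ↦ (x, p + (χ x * cl01 (3 - 4 * ‖w‖)) • D (x, w), w)`, `D : X × H → P` with
  `D (x, β p) = j (x, p) - p` (`AE.extend`, `aeP`, closed embedding `(x, p) ↦ (x, β p)`);
* `Sh1'`: inverse of the `w`-shear with `b' (x, p) = χ x • b₁ (x, p)`, where `b₁ : X × P → H`,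
  `b₁ (x, j (x, p)) = β p`, `‖b₁‖ ≤ 1/2` (`AE.extend_ball`, closed embedding
  `(x, p) ↦ (x, j (x, p))`). -/
theorem exists_K3 (data : Data X P H) (ω : X → ℝ) (hω : Ctl ω) (χ : X → ℝ) (hχ : Continuous χ)
    (hχ0 : ∀ x, 0 ≤ χ x) (hχ1 : ∀ x, χ x ≤ 1) :
    ∃ (j : X × P → P) (g : MM X P ≃ₜ MM X P), (∀ x, j (x, 0) = 0) ∧
      (∀ x p, dist (j (x, p)) 0 < ω x) ∧ (∀ m, (g m).1 = m.1) ∧ (∀ m, χ m.1 = 0 → g m = m) ∧
      ∀ x p, χ x = 1 → g (x, p, 0) = (x, j (x, p), 0) := by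
  obtain ⟨j, hj, hj0, hjω, hje⟩ := data.deep ω hω
  obtain ⟨β', hβ', hβb'⟩ := data.emb
  obtain ⟨C, hC, hC0⟩ := data.chart
  have hi : IsClosedEmbedding (fun p : P => ((0, p) : X × P)) :=
    Function.LeftInverse.isClosedEmbedding (f := Prod.snd) (fun _ => rfl) (by fun_prop)
      (by fun_prop)
  set β : P → H := fun p => β' (0, p) with hβdef
  have hβ : IsClosedEmbedding β := hβ'.comp hi
  have hβb : ∀ x, ‖β x‖ ≤ 1 / 2 := fun x => hβb' _
  have hβc : Continuous β := hβ.continuous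
  have hsm : ∀ (x : X) (v : H), ‖v‖ ≤ 1 / 2 → ‖χ x • v‖ ≤ 1 / 2 := by
    intro x v hv
    rw [norm_smul, Real.norm_eq_abs, abs_of_nonneg (hχ0 _)]
    calc χ x * ‖v‖ ≤ 1 * ‖v‖ := mul_le_mul_of_nonneg_right (hχ1 _) (norm_nonneg _)
      _ ≤ 1 / 2 := by rw [one_mul]; exact hv
  obtain ⟨D, hD, hDβ⟩ := data.aeP.extend (Prod.map id β) (IsClosedEmbedding.id.prodMap hβ)
    (fun q : X × P => j q - q.2) (by fun_prop)
  obtain ⟨b₁, hb₁, hb₁j, hb₁b⟩ := data.aeH.extend_ball _ hje (fun q : X × P => β q.2)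
    (by fun_prop) (fun q => hβb _)
  obtain ⟨T, hT1, hT0, hTw, hTz⟩ := exists_wshear (B := X × P) (fun z => χ z.1 • β z.2)
    (by fun_prop) (fun z => hsm _ _ (hβb _))
  obtain ⟨T', hT1', hT0', hTw', hTz'⟩ := exists_wshear (B := X × P) (fun z => χ z.1 • b₁ z)
    (by fun_prop) (fun z => hsm _ _ (hb₁b _))
  have hS : Continuous fun q : X × H => (χ q.1 * cl01 (3 - 4 * ‖q.2‖)) • D q := by
    have h4 : Continuous fun q : X × H => 3 - 4 * ‖q.2‖ := by fun_prop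
    exact ((hχ.comp continuous_fst).mul (continuous_cl01.comp h4)).smul hD
  set S := K2_pshear (fun q : X × H => (χ q.1 * cl01 (3 - 4 * ‖q.2‖)) • D q) hS with hSdef
  have hS_apply : ∀ x p w, S (x, p, w) = (x, p + (χ x * cl01 (3 - 4 * ‖w‖)) • D (x, w), w) :=
    fun x p w => rfl
  set Ψ : (X × P × H) ≃ₜ (X × P × H) :=
    (K1_lift T).trans (S.trans (K1_lift T').symm) with hΨdef
  have hΨ : ∀ q, Ψ q = (K1_lift T').symm (S (K1_lift T q)) := fun q => rfl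
  have hT1s : ∀ q, ((K1_lift T').symm q).1 = q.1 := by
    intro q
    obtain ⟨⟨x, p, w⟩, rfl⟩ := (K1_lift T').surjective q
    rw [Homeomorph.symm_apply_apply, K1_lift_apply, hT1']
  have hΨw : ∀ x p w, 3 / 4 ≤ ‖w‖ → Ψ (x, p, w) = (x, p, w) := by
    intro x p w hw
    rw [hΨ, K1_lift_apply, hTw _ _ hw]
    simp only
    rw [hS_apply, cl01_of_nonpos (by linarith), mul_zero, zero_smul,
      add_zero, Homeomorph.symm_apply_eq, K1_lift_apply, hTw' _ _ hw]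
  have hΨχ : ∀ x p w, χ x = 0 → Ψ (x, p, w) = (x, p, w) := by
    intro x p w hx
    rw [hΨ, K1_lift_apply, hTz (x, p) w (by simp [hx])]
    simp only
    rw [hS_apply, hx, zero_mul, zero_smul, add_zero, Homeomorph.symm_apply_eq, K1_lift_apply,
      hTz' (x, p) w (by simp [hx])]
  obtain ⟨K, hK, -, hK0⟩ := K1_transport C hC hC0 Ψ hΨw
  refine ⟨j, K, hj0, hjω, ?_, ?_, ?_⟩
  · intro m
    obtain ⟨p, w, h1, h2, h3⟩ := hK m
    rw [h2, hΨ, hT1s, K1_lift_apply, hT1]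
    simp only
    rw [hS_apply]
  · intro m hm
    obtain ⟨p, w, h1, h2, h3⟩ := hK m
    exact h3 (hΨχ _ _ _ hm)
  · intro x p hx
    apply hK0
    have hD1 : D (x, β p) = j (x, p) - p := hDβ (x, p)
    have hb1 : b₁ (x, j (x, p)) = β p := hb₁j (x, p)
    rw [hΨ, K1_lift_apply, hT0]
    simp only
    rw [hx, one_smul, hS_apply, hD1, hx, one_mul, cl01_of_one_le (by linarith [hβb p]),
      Homeomorph.symm_apply_eq, K1_lift_apply, hT0']
    simp [hx, hb1]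

end Pool.Agent.MP_645085_gt.TOR
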