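import Pool.Agent.MP_645085_gt.TOR.XSh
import Pool.Agent.MP_645085_gt.TOR.AETools

/-!
# TOR row [TOR-KLEE-T]: transport of homeomorphisms of `X × P × H` to `X × P × [0,1]`
-/

namespace Pool.Agent.MP_645085_gt.TOR

open Set Filter Topology TopologicalSpace Metric

section

variable {X P H : Type} [TopologicalSpace X] [TopologicalSpace P]
    [NormedAddCommGroup H]

theorem Klee_pres (Ψ : (X × P × H) ≃ₜ (X × P × H))
    (hΨ : ∀ x p w, 3 / 4 ≤ ‖w‖ → Ψ (x, p, w) = (x, p, w)) (q : X × P × H)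
    (hq : q.2.2 ∈ closedBall (0 : H) 1) : (Ψ q).2.2 ∈ closedBall (0 : H) 1 := by
  rw [mem_closedBall_zero_iff] at hq ⊢
  by_contra hcon
  push Not at hcon
  have h0 : 3 / 4 ≤ ‖(Ψ q).2.2‖ := by linarith
  have h1 : Ψ (Ψ q) = Ψ q := hΨ _ _ _ h0
  have h2 := Ψ.injective h1
  rw [h2] at hcon
  linarith

theorem Klee_symm (Ψ : (X × P × H) ≃ₜ (X × P × H))
    (hΨ : ∀ x p w, 3 / 4 ≤ ‖w‖ → Ψ (x, p, w) = (x, p, w)) :
    ∀ x p w, 3 / 4 ≤ ‖w‖ → Ψ.symm (x, p, w) = (x, p, w) := by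
  intro x p w hw
  rw [Homeomorph.symm_apply_eq]
  exact (hΨ x p w hw).symm

/-- restriction of `Ψ` to the ball -/
def Klee_fun (Ψ : (X × P × H) ≃ₜ (X × P × H))
    (hΨ : ∀ x p w, 3 / 4 ≤ ‖w‖ → Ψ (x, p, w) = (x, p, w))
    (q : X × P × closedBall (0 : H) 1) : X × P × closedBall (0 : H) 1 :=
  ((Ψ (q.1, q.2.1, (q.2.2 : H))).1, (Ψ (q.1, q.2.1, (q.2.2 : H))).2.1,
    ⟨(Ψ (q.1, q.2.1, (q.2.2 : H))).2.2, Klee_pres Ψ hΨ _ q.2.2.2⟩)

theorem Klee_cont (Ψ : (X × P × H) ≃ₜ (X × P × H))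
    (hΨ : ∀ x p w, 3 / 4 ≤ ‖w‖ → Ψ (x, p, w) = (x, p, w)) : Continuous (Klee_fun Ψ hΨ) := by
  unfold Klee_fun
  have h : Continuous fun q : X × P × closedBall (0 : H) 1 => Ψ (q.1, q.2.1, (q.2.2 : H)) := by
    apply Ψ.continuous.comp
    fun_prop
  refine Continuous.prodMk h.fst (Continuous.prodMk h.snd.fst ?_)
  exact Continuous.subtype_mk h.snd.snd _

/-- restriction of `Ψ` to the ball as a homeomorphism -/
def Klee_homeo (Ψ : (X × P × H) ≃ₜ (X × P × H))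
    (hΨ : ∀ x p w, 3 / 4 ≤ ‖w‖ → Ψ (x, p, w) = (x, p, w)) :
    (X × P × closedBall (0 : H) 1) ≃ₜ (X × P × closedBall (0 : H) 1) where
  toFun := Klee_fun Ψ hΨ
  invFun := Klee_fun Ψ.symm (Klee_symm Ψ hΨ)
  left_inv q := by
    simp [Klee_fun]
  right_inv q := by
    simp [Klee_fun]
  continuous_toFun := Klee_cont Ψ hΨ
  continuous_invFun := Klee_cont Ψ.symm (Klee_symm Ψ hΨ)

end

/-- [TOR-KLEE-T] A homeomorphism `Ψ` of `X × P × H` which is the identity for `‖w‖ ≥ 3/4` preserves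
`{‖w‖ ≤ 1}` (if `‖w‖ ≤ 1` and the image has norm `> 1`, the image is fixed by `Ψ`, so by
injectivity it equals the point; same for the inverse). Restrict it and conjugate it by the chart:
`K = (id × C) ∘ Ψ| ∘ (id × C)⁻¹`. -/
theorem exists_transport {X P H : Type} [TopologicalSpace X] [TopologicalSpace P]
    [NormedAddCommGroup H] [NormedSpace ℝ H]
    (C : (P × closedBall (0 : H) 1) ≃ₜ (P × unitInterval))
    (Ψ : (X × P × H) ≃ₜ (X × P × H))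
    (hΨ : ∀ x p w, 3 / 4 ≤ ‖w‖ → Ψ (x, p, w) = (x, p, w)) :
    ∃ K : MM X P ≃ₜ MM X P, ∀ x p (w : H) (hw : w ∈ closedBall (0 : H) 1),
      ∃ hw' : (Ψ (x, p, w)).2.2 ∈ closedBall (0 : H) 1,
        K (x, C (p, ⟨w, hw⟩)) = ((Ψ (x, p, w)).1, C ((Ψ (x, p, w)).2.1, ⟨_, hw'⟩)) := by
  refine ⟨(((Homeomorph.refl X).prodCongr C).symm.trans (Klee_homeo Ψ hΨ)).trans
    ((Homeomorph.refl X).prodCongr C), fun x p w hw => ⟨Klee_pres Ψ hΨ _ hw, ?_⟩⟩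
  have h1 : ((Homeomorph.refl X).prodCongr C).symm (x, C (p, ⟨w, hw⟩)) = (x, (p, ⟨w, hw⟩)) := by
    rw [Homeomorph.symm_apply_eq]
    rfl
  rw [Homeomorph.trans_apply, Homeomorph.trans_apply, h1]
  rfl

end Pool.Agent.MP_645085_gt.TOR
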