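import Pool.Agent.MP_645085_gt.TOR.Ctl

/-!
# TOR row [TOR-LEV]: the level function
-/

namespace Pool.Agent.MP_645085_gt.TOR

open Set Filter Topology TopologicalSpace Metric

/-- One step of the recursion. -/
theorem Lev_step {Z X : Type} [MetricSpace Z] [MetricSpace X] (f : Z × unitInterval → X)
    (hf : Continuous f) (hA : IsClosed (range fun z => f (z, 1)))
    (hsep : ∀ z, ∀ η > 0, ∃ ρ > 0, ∀ z' (t' : unitInterval), dist (f (z', t')) (f (z, 1)) < ρ →
      dist z' z < η ∧ 1 - (t' : ℝ) < η)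
    (O : Set X) (hO : IsOpen O) (hAO : (range fun z => f (z, 1)) ⊆ O)
    (W : Set X) (hW : IsOpen W) (hAW : (range fun z => f (z, 1)) ⊆ W) :
    ∃ O' : Set X, IsOpen O' ∧ (range fun z => f (z, 1)) ⊆ O' ∧ closure O' ⊆ O ∧ O' ⊆ W ∧
      ∀ z (t' t : unitInterval), t' ≤ t → f (z, t) ∉ O → f (z, t') ∉ O' := by
  let B : Set (Z × unitInterval) := {q | ∃ t : unitInterval, q.2 ≤ t ∧ f (q.1, t) ∉ O}
  have hdis : (range fun z => f (z, 1)) ⊆ (closure (f '' B))ᶜ := by
    rintro x ⟨z, rfl⟩ hx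
    -- a neighbourhood of `(z, 1)` on which `f` is in `O`
    have hnb : ∃ η > 0, ∀ z' (t : unitInterval), dist z' z < η → 1 - (t : ℝ) < η →
        f (z', t) ∈ O := by
      have h1 : ∀ᶠ q in 𝓝 (z, (1 : unitInterval)), f q ∈ O :=
        hf.continuousAt.eventually_mem (hO.mem_nhds (hAO ⟨z, rfl⟩))
      obtain ⟨η, hη, h2⟩ := Metric.eventually_nhds_iff.1 h1
      refine ⟨η, hη, fun z' t h3 h4 => h2 ?_⟩
      rw [Prod.dist_eq]
      refine max_lt h3 ?_
      rw [Subtype.dist_eq, Real.dist_eq]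
      change |(t : ℝ) - 1| < η
      rw [abs_sub_comm, abs_of_nonneg (by linarith [t.2.2])]
      exact h4
    obtain ⟨η, hη, h2⟩ := hnb
    obtain ⟨ρ, hρ, h3⟩ := hsep z η hη
    obtain ⟨y, ⟨⟨z', t'⟩, ⟨t, htt, hft⟩, rfl⟩, hy⟩ := Metric.mem_closure_iff.1 hx ρ hρ
    rw [dist_comm] at hy
    obtain ⟨h4, h5⟩ := h3 z' t' hy
    refine hft (h2 z' t h4 ?_)
    have : (t' : ℝ) ≤ t := htt
    linarith
  have hopen : IsOpen (O ∩ W ∩ (closure (f '' B))ᶜ) :=
    (hO.inter hW).inter isClosed_closure.isOpen_compl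
  obtain ⟨O', h1, h2, h3⟩ := normal_exists_closure_subset hA hopen
    (subset_inter (subset_inter hAO hAW) hdis)
  refine ⟨O', h1, h2, h3.trans fun x hx => hx.1.1, fun x hx => (h3 (subset_closure hx)).1.2, ?_⟩
  intro z t' t htt hft hft'
  exact (h3 (subset_closure hft')).2 (subset_closure ⟨(z, t'), ⟨t, htt, hft⟩, rfl⟩)

/-- The sequence of open sets. -/
theorem Lev_seq {Z X : Type} [MetricSpace Z] [MetricSpace X] (f : Z × unitInterval → X)
    (hf : Continuous f) (hA : IsClosed (range fun z => f (z, 1)))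
    (hsep : ∀ z, ∀ η > 0, ∃ ρ > 0, ∀ z' (t' : unitInterval), dist (f (z', t')) (f (z, 1)) < ρ →
      dist z' z < η ∧ 1 - (t' : ℝ) < η)
    (W : ℕ → Set X) (hW : ∀ n, IsOpen (W n)) (hAW : ∀ n, (range fun z => f (z, 1)) ⊆ W n) :
    ∃ O : ℕ → Set X, (∀ n, IsOpen (O n)) ∧ (∀ n, (range fun z => f (z, 1)) ⊆ O n) ∧
      (∀ n, closure (O (n + 1)) ⊆ O n) ∧ (∀ n, O (n + 1) ⊆ W n) ∧
      ∀ n, ∀ z (t' t : unitInterval), t' ≤ t → f (z, t) ∉ O n → f (z, t') ∉ O (n + 1) := by
  have step : ∀ (n : ℕ) (O : {O : Set X // IsOpen O ∧ (range fun z => f (z, 1)) ⊆ O}),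
      ∃ O' : {O : Set X // IsOpen O ∧ (range fun z => f (z, 1)) ⊆ O},
        closure (O' : Set X) ⊆ O ∧ (O' : Set X) ⊆ W n ∧
        ∀ z (t' t : unitInterval), t' ≤ t → f (z, t) ∉ (O : Set X) → f (z, t') ∉ (O' : Set X) := by
    rintro n ⟨O, h1, h2⟩
    obtain ⟨O', h3, h4, h5, h6, h7⟩ := Lev_step f hf hA hsep O h1 h2 (W n) (hW n) (hAW n)
    exact ⟨⟨O', h3, h4⟩, h5, h6, h7⟩
  choose F hF1 hF2 hF3 using step
  let S : ℕ → {O : Set X // IsOpen O ∧ (range fun z => f (z, 1)) ⊆ O} := fun n =>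
    Nat.rec ⟨univ, isOpen_univ, subset_univ _⟩ (fun n O => F n O) n
  refine ⟨fun n => (S n).1, fun n => (S n).2.1, fun n => (S n).2.2, fun n => hF1 n (S n),
    fun n => hF2 n (S n), ?_⟩
  intro n
  exact hF3 n (S n)

/-- The coefficients of the series. -/
noncomputable def Lev_c (i : ℕ) : ℝ := 1 / (i + 1) - 1 / (i + 2)

theorem Lev_c_nonneg (i : ℕ) : 0 ≤ Lev_c i := by
  unfold Lev_c
  have : (1 : ℝ) / (i + 2) ≤ 1 / (i + 1) :=
    one_div_le_one_div_of_le (by positivity) (by linarith)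
  linarith

theorem Lev_c_sum (k : ℕ) : ∑ i ∈ Finset.range k, Lev_c i = 1 - 1 / (k + 1) := by
  induction k with
  | zero => simp
  | succ k ih =>
    rw [Finset.sum_range_succ, ih, Lev_c]
    push_cast
    ring

theorem Lev_c_hasSum : HasSum Lev_c 1 := by
  rw [hasSum_iff_tendsto_nat_of_nonneg Lev_c_nonneg]
  simp_rw [Lev_c_sum]
  have h := tendsto_one_div_add_atTop_nhds_zero_nat (𝕜 := ℝ)
  simpa using (tendsto_const_nhds (x := (1 : ℝ))).sub h

/-- [TOR-LEV] The level function. `A = {f (z, 1)}`, `f` is strongly one-to-one over `A` (`hsep`).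
By `hsep`: (i) `A` is disjoint from the closure of `{f (z, 0)}`; (ii) if `O` is open, `A ⊆ O`, then
`B = {(z, t') | ∃ t ≥ t', f (z, t) ∉ O}` satisfies `A ∩ closure (f '' B) = ∅` (if `f (z_n, t'_n) → f (z, 1)`
then `z_n → z`, `t'_n → 1`, so `t_n → 1` and `f (z_n, t_n) → f (z, 1) ∈ O`); (iii) `f (z, t) ∉ A` if `t < 1`.
Recursively choose open sets `O_0 = univ`, `A ⊆ O_{i+1} ⊆ closure O_{i+1} ⊆ O_i ∩ {x | infDist x A < 1/(i+1)}`,
also inside the complement of `closure (f '' B_i)`, `B_i = B` for `O_i`, and (for `i = 0`) inside `Ost`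
and the complement of `closure {f (z, 0)}`. (If `Z` is empty then `A = ∅`; take `u = 1`.)
Let `χ_i : X → [0,1]` (`i ≥ 1`) be continuous, `1` on `closure O_{i+1}`, `0` off `O_i`, and
`u x = 1 - ∑_{i ≥ 1} χ_i x / (i (i + 1))`. If `x ∈ O_k \ O_{k+1}`, `k ≥ 1`, then `χ_1 = … = χ_{k-1} = 1`,
`χ_i = 0` for `i > k`, so `1/(k+1) ≤ u x ≤ 1/k`; if `x ∉ O_1` then `u x = 1`; `u x = 0` iff `x ∈ ⋂ O_i = A`.
Last clause: let `f (z, t') ∈ O_k \ O_{k+1}`; if `k ≥ 2` then `f (z, t) ∈ O_{k-1}`, so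
`1 / u (f (z, t)) ≥ k - 1` while `1 / u (f (z, t')) ≤ k + 1`; if `k ≤ 1` use `u ≤ 1`, `1/u(f(z,t')) ≤ 2`. -/
theorem exists_level {Z X : Type} [MetricSpace Z] [MetricSpace X] (f : Z × unitInterval → X)
    (hf : Continuous f) (hA : IsClosed (range fun z => f (z, 1)))
    (hsep : ∀ z, ∀ η > 0, ∃ ρ > 0, ∀ z' (t' : unitInterval), dist (f (z', t')) (f (z, 1)) < ρ →
      dist z' z < η ∧ 1 - (t' : ℝ) < η)
    (Ost : Set X) (hO : IsOpen Ost) (hAO : ∀ z, f (z, 1) ∈ Ost) :
    ∃ u : X → ℝ, Continuous u ∧ (∀ x, 0 ≤ u x) ∧ (∀ x, u x ≤ 1) ∧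
      (∀ x, u x = 0 ↔ x ∈ range fun z => f (z, 1)) ∧ (∀ z, u (f (z, 0)) = 1) ∧
      (∀ x, u x < 1 → x ∈ Ost) ∧
      ∀ z (t' t : unitInterval), t' ≤ t → t < 1 → 1 / u (f (z, t')) ≤ 1 / u (f (z, t)) + 2 := by
  rcases isEmpty_or_nonempty Z with hZ | hZ
  · refine ⟨fun _ => 1, continuous_const, fun _ => zero_le_one, fun _ => le_rfl, ?_,
      fun z => rfl, fun x hx => absurd hx (lt_irrefl _), fun z => isEmptyElim z⟩
    intro x
    constructor
    · intro h
      exact absurd h one_ne_zero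
    · rintro ⟨z, _⟩
      exact isEmptyElim z
  have hAne : (range fun z => f (z, 1)).Nonempty := range_nonempty _
  set A : Set X := range fun z => f (z, 1) with hAdef
  -- the open sets
  have hA0 : A ⊆ (closure (range fun z => f (z, 0)))ᶜ := by
    rintro x ⟨z, rfl⟩ hx
    obtain ⟨ρ, hρ, h3⟩ := hsep z 1 one_pos
    obtain ⟨y, ⟨z', rfl⟩, hy⟩ := Metric.mem_closure_iff.1 hx ρ hρ
    rw [dist_comm] at hy
    have h5 := (h3 z' 0 hy).2
    simp at h5
  let W : ℕ → Set X := fun n =>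
    Ost ∩ (closure (range fun z => f (z, 0)))ᶜ ∩ {x | infDist x A < 1 / ((n : ℝ) + 1)}
  have hWo : ∀ n, IsOpen (W n) := fun n =>
    (hO.inter isClosed_closure.isOpen_compl).inter
      (isOpen_lt (continuous_infDist_pt A) continuous_const)
  have hAW : ∀ n, A ⊆ W n := by
    intro n x hx
    refine ⟨⟨?_, hA0 hx⟩, ?_⟩
    · obtain ⟨z, rfl⟩ := hx
      exact hAO z
    · change infDist x A < _
      rw [infDist_zero_of_mem hx]
      positivity
  obtain ⟨O, hO1, hO2, hO3, hO4, hO5⟩ := Lev_seq f hf hA hsep W hWo hAW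
  have hanti : Antitone O := antitone_nat_of_succ_le fun n => subset_closure.trans (hO3 n)
  -- the cut-off functions
  have hχ : ∀ i : ℕ, ∃ χ : X → ℝ, Continuous χ ∧ (∀ x ∈ closure (O (i + 2)), χ x = 1) ∧
      (∀ x, x ∉ O (i + 1) → χ x = 0) ∧ ∀ x, χ x ∈ Icc (0 : ℝ) 1 := by
    intro i
    obtain ⟨g, h1, h2, h3⟩ := exists_continuous_zero_one_of_isClosed
      (hO1 (i + 1)).isClosed_compl (isClosed_closure (s := O (i + 2)))
      (disjoint_left.2 fun x hx hx' => hx (hO3 (i + 1) hx'))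
    exact ⟨g, g.continuous, fun x hx => h2 hx, fun x hx => h1 hx, h3⟩
  choose χ hχc hχ1 hχ0 hχI using hχ
  have hterm : ∀ i x, Lev_c i * χ i x ≤ Lev_c i := fun i x =>
    mul_le_of_le_one_right (Lev_c_nonneg i) (hχI i x).2
  have hterm0 : ∀ i x, 0 ≤ Lev_c i * χ i x := fun i x =>
    mul_nonneg (Lev_c_nonneg i) (hχI i x).1
  have hsum : ∀ x, Summable fun i => Lev_c i * χ i x := fun x =>
    Summable.of_nonneg_of_le (fun i => hterm0 i x) (fun i => hterm i x) Lev_c_hasSum.summable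
  let S : X → ℝ := fun x => ∑' i, Lev_c i * χ i x
  have hScont : Continuous S := by
    refine continuous_tsum (fun i => continuous_const.mul (hχc i)) Lev_c_hasSum.summable ?_
    intro i x
    rw [Real.norm_eq_abs, abs_of_nonneg (hterm0 i x)]
    exact hterm i x
  have hS0 : ∀ x, 0 ≤ S x := fun x => tsum_nonneg fun i => hterm0 i x
  have hS1 : ∀ x, S x ≤ 1 := fun x => by
    rw [← Lev_c_hasSum.tsum_eq]
    exact (hsum x).tsum_le_tsum (fun i => hterm i x) Lev_c_hasSum.summable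
  -- the two estimates
  have hout : ∀ (k : ℕ) x, x ∉ O (k + 1) → 1 / ((k : ℝ) + 1) ≤ 1 - S x := by
    intro k x hx
    have h1 : S x = ∑ i ∈ Finset.range k, Lev_c i * χ i x := by
      refine tsum_eq_sum fun i hi => ?_
      have hi' : k ≤ i := by simpa using hi
      rw [hχ0 i x fun h => hx (hanti (by omega) h), mul_zero]
    have h2 : S x ≤ ∑ i ∈ Finset.range k, Lev_c i := by
      rw [h1]
      exact Finset.sum_le_sum fun i _ => hterm i x
    rw [Lev_c_sum] at h2
    linarith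
  have hin : ∀ (k : ℕ) x, x ∈ O (k + 1) → 1 - S x ≤ 1 / ((k : ℝ) + 1) := by
    intro k x hx
    have h1 : ∑ i ∈ Finset.range k, Lev_c i ≤ S x := by
      have h2 : ∑ i ∈ Finset.range k, Lev_c i = ∑ i ∈ Finset.range k, Lev_c i * χ i x := by
        refine Finset.sum_congr rfl fun i hi => ?_
        have hi' : i < k := by simpa using hi
        rw [hχ1 i x (subset_closure (hanti (by omega) hx)), mul_one]
      rw [h2]
      exact (hsum x).sum_le_tsum _ fun i _ => hterm0 i x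
    rw [Lev_c_sum] at h1
    linarith
  have hA_iff : ∀ x, 1 - S x = 0 ↔ x ∈ A := by
    intro x
    constructor
    · intro h
      have h1 : ∀ k : ℕ, x ∈ O (k + 1) := by
        intro k
        by_contra hk
        have := hout k x hk
        rw [h] at this
        have : (0 : ℝ) < 1 / ((k : ℝ) + 1) := by positivity
        linarith
      have h2 : infDist x A = 0 := by
        refine le_antisymm ?_ infDist_nonneg
        refine ge_of_tendsto' (tendsto_one_div_add_atTop_nhds_zero_nat (𝕜 := ℝ)) fun n => ?_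
        exact (hO4 n (h1 n)).2.le
      exact (hA.mem_iff_infDist_zero hAne).2 h2
    · intro h
      refine le_antisymm ?_ (by linarith [hS1 x])
      refine ge_of_tendsto' (tendsto_one_div_add_atTop_nhds_zero_nat (𝕜 := ℝ)) fun n => ?_
      exact hin n x (hO2 (n + 1) h)
  refine ⟨fun x => 1 - S x, continuous_const.sub hScont, fun x => by linarith [hS1 x],
    fun x => by linarith [hS0 x], hA_iff, ?_, ?_, ?_⟩
  · intro z
    have h1 : f (z, 0) ∉ O 1 := fun h => (hO4 0 h).1.2 (subset_closure ⟨z, rfl⟩)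
    have h2 := hout 0 (f (z, 0)) h1
    have h3 := hS0 (f (z, 0))
    simp at h2
    change 1 - S (f (z, 0)) = 1
    linarith
  · intro x hx
    by_contra hxO
    have h1 : x ∉ O 1 := fun h => hxO (hO4 0 h).1.1
    have h2 := hout 0 x h1
    simp at h2
    change 1 - S x < 1 at hx
    linarith
  · intro z t' t htt ht
    have hnotA : ∀ s : unitInterval, s < 1 → f (z, s) ∉ A := by
      rintro s hs ⟨z₁, hz₁⟩
      have hs' : (s : ℝ) < 1 := hs
      obtain ⟨ρ, hρ, h3⟩ := hsep z₁ (1 - s) (by linarith)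
      have h4 := (h3 z s (by rw [← hz₁]; simpa using hρ)).2
      exact lt_irrefl _ h4
    have hy : 0 < 1 - S (f (z, t)) :=
      lt_of_le_of_ne (by linarith [hS1 (f (z, t))])
        fun h => hnotA t ht ((hA_iff _).1 h.symm)
    have hy' : 0 < 1 - S (f (z, t')) :=
      lt_of_le_of_ne (by linarith [hS1 (f (z, t'))])
        fun h => hnotA t' (htt.trans_lt ht) ((hA_iff _).1 h.symm)
    change 1 / (1 - S (f (z, t'))) ≤ 1 / (1 - S (f (z, t))) + 2
    -- the level of `f (z, t')`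
    have hex : ∃ k : ℕ, f (z, t') ∉ O (k + 1) := by
      by_contra hcon
      push Not at hcon
      have : 1 - S (f (z, t')) ≤ 0 :=
        ge_of_tendsto' (tendsto_one_div_add_atTop_nhds_zero_nat (𝕜 := ℝ)) fun n =>
          hin n _ (hcon n)
      linarith
    classical
    set k := Nat.find hex with hk
    have hk1 : f (z, t') ∉ O (k + 1) := Nat.find_spec hex
    have h1 : 1 / (1 - S (f (z, t'))) ≤ (k : ℝ) + 1 := by
      have := hout k _ hk1
      rw [div_le_iff₀ hy']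
      rw [div_le_iff₀ (by positivity)] at this
      linarith
    have hpos : 0 ≤ 1 / (1 - S (f (z, t))) := by positivity
    rcases Nat.lt_or_ge k 2 with hk2 | hk2
    · have : (k : ℝ) ≤ 1 := by exact_mod_cast Nat.lt_succ_iff.1 hk2
      linarith
    · obtain ⟨l, hl⟩ : ∃ l, k = l + 2 := ⟨k - 2, by omega⟩
      have h2 : f (z, t') ∈ O (l + 2) := by
        have := Nat.find_min hex (m := l + 1) (by omega)
        push Not at this
        exact this
      have h3 : f (z, t) ∈ O (l + 1) := by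
        by_contra h
        exact hO5 (l + 1) z t' t htt h h2
      have h4 := hin l _ h3
      have h5 : (l : ℝ) + 1 ≤ 1 / (1 - S (f (z, t))) := by
        rw [le_div_iff₀ hy]
        rw [le_div_iff₀ (by positivity)] at h4
        linarith
      rw [hl] at h1
      push_cast at h1
      linarith

end Pool.Agent.MP_645085_gt.TOR
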