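import Pool.Agent.MP_645085_gt.TOR.Ctl

/-!
# TOR row [TOR-LIM]: limit lemma
-/

namespace Pool.Agent.MP_645085_gt.TOR

open Set Filter Topology TopologicalSpace Metric

/-- [TOR-LIM] Limit lemma. `f n` converges uniformly to `F` (by `h1`). For `n` and `m ∈ S n`,
summing `h2` over `k ≥ n+1` (put `D k = dist (f k m) (f (n+1) m)`; since `ρ n` is `1`-Lipschitz,
`D (k+1) ≤ D k + 2^{-k-3} (ρ n (f (n+1) m) + D k)`, so by induction `D k ≤ ρ n (f (n+1) m) / 4`)
gives `dist (F m) (f (n+1) m) ≤ ρ n (f (n+1) m) / 4`. Hence if `m ∈ S n` and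
`dist (F m) x < ρ n x / 4` then `dist (f (n+1) m) x < ρ n x` [from `ρ n (f (n+1) m) ≤ ρ n x + dist`].
So for `k ≥ n` and `m, m' ∈ S n ⊆ S k` with `F m, F m'` within `ρ k x / 4` of `x` we get
`dist m m' ≤ 2^{-k}` (by `h3`). This gives injectivity on `S n` and, by completeness of `S n`
(closed in `M`), that `F` restricted to `S n` is a closed embedding. -/
theorem limit_lemma {M X : Type} [MetricSpace M] [CompleteSpace M] [MetricSpace X]
    [CompleteSpace X] (S : ℕ → Set M) (hS : ∀ n, IsClosed (S n)) (hmono : Monotone S)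
    (f : ℕ → M → X) (hf : ∀ n, Continuous (f n)) (ρ : ℕ → X → ℝ) (hρ : ∀ n, Ctl (ρ n))
    (h1 : ∀ k m, dist (f (k + 1) m) (f k m) ≤ (1 / 2) ^ k)
    (h2 : ∀ n k, n < k → ∀ m ∈ S n, dist (f (k + 1) m) (f k m) ≤ (1 / 2) ^ (k + 3) * ρ n (f k m))
    (h3 : ∀ n x, ∀ m ∈ S n, ∀ m' ∈ S n, dist (f (n + 1) m) x < ρ n x →
      dist (f (n + 1) m') x < ρ n x → dist m m' ≤ (1 / 2) ^ n) :
    ∃ F : M → X, Continuous F ∧ (∀ k m, dist (F m) (f k m) ≤ 2 * (1 / 2) ^ k) ∧
      ∀ n, IsClosedEmbedding (fun m : S n => F m) := by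
  have hcau : ∀ m k, dist (f k m) (f (k + 1) m) ≤ 1 * (1 / 2 : ℝ) ^ k := by
    intro m k
    rw [one_mul, dist_comm]
    exact h1 k m
  have hex : ∀ m, ∃ y, Tendsto (fun k => f k m) atTop (𝓝 y) := fun m =>
    cauchySeq_tendsto_of_complete (cauchySeq_of_le_geometric (1 / 2) 1 (by norm_num) (hcau m))
  choose F hF using hex
  have hdist : ∀ k m, dist (F m) (f k m) ≤ 2 * (1 / 2) ^ k := by
    intro k m
    have := dist_le_of_le_geometric_of_tendsto (1 / 2) 1 (by norm_num) (hcau m) (hF m) k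
    rw [dist_comm]
    calc dist (f k m) (F m) ≤ 1 * (1 / 2) ^ k / (1 - 1 / 2) := this
      _ = 2 * (1 / 2) ^ k := by ring
  have hFc : Continuous F := by
    have hunif : TendstoUniformly f F atTop := by
      rw [Metric.tendstoUniformly_iff]
      intro ε hε
      have h0 : Tendsto (fun k : ℕ => 2 * (1 / 2 : ℝ) ^ k) atTop (𝓝 (2 * 0)) :=
        (tendsto_pow_atTop_nhds_zero_of_lt_one (by norm_num) (by norm_num)).const_mul 2
      rw [mul_zero] at h0
      filter_upwards [h0.eventually (gt_mem_nhds hε)] with k hk m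
      exact (hdist k m).trans_lt hk
    exact hunif.continuous (Frequently.of_forall hf)
  -- comparison with stage `n + 1`
  have hcomp : ∀ n, ∀ m ∈ S n, dist (F m) (f (n + 1) m) ≤ ρ n (f (n + 1) m) / 4 := by
    intro n m hm
    set R := ρ n (f (n + 1) m) with hR
    have hRpos : 0 < R := (hρ n).pos _
    have hstep : ∀ i : ℕ, dist (f (n + 1 + i) m) (f (n + 1) m) ≤ R / 4 * (1 - (1 / 2) ^ i) := by
      intro i
      induction i with
      | zero => simp
      | succ i ih =>
        have e1 := h2 n (n + 1 + i) (by omega) m hm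
        have e2 := (hρ n).lip (f (n + 1 + i) m) (f (n + 1) m)
        rw [abs_sub_le_iff] at e2
        have e3 := dist_triangle (f (n + 1 + i + 1) m) (f (n + 1 + i) m) (f (n + 1) m)
        have e4 : (1 / 2 : ℝ) ^ (n + 1 + i + 3) ≤ (1 / 2) ^ (i + 4) :=
          pow_le_pow_of_le_one (by norm_num) (by norm_num) (by omega)
        have e5 : (0 : ℝ) ≤ (1 / 2) ^ i := by positivity
        have e6 : ρ n (f (n + 1 + i) m) ≤ 5 / 4 * R := by
          have : R / 4 * (1 - (1 / 2) ^ i) ≤ R / 4 := by nlinarith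
          linarith [e2.1]
        have e7 : (1 / 2 : ℝ) ^ (n + 1 + i + 3) * ρ n (f (n + 1 + i) m) ≤
            (1 / 2) ^ (i + 4) * (5 / 4 * R) :=
          mul_le_mul e4 e6 ((hρ n).pos _).le (by positivity)
        have e8 : (1 / 2 : ℝ) ^ (i + 4) = (1 / 2) ^ i / 16 := by rw [pow_add]; norm_num; ring
        have e9 : (1 / 2 : ℝ) ^ (i + 1) = (1 / 2) ^ i / 2 := by rw [pow_add]; norm_num; ring
        rw [e8] at e7
        rw [show n + 1 + (i + 1) = n + 1 + i + 1 by ring, e9]
        have e10 : 0 ≤ (1 / 2 : ℝ) ^ i * R := mul_nonneg e5 hRpos.le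
        nlinarith
    have hlim : Tendsto (fun i => dist (f (n + 1 + i) m) (f (n + 1) m)) atTop
        (𝓝 (dist (F m) (f (n + 1) m))) := by
      have h0 : Tendsto (fun i => f (n + 1 + i) m) atTop (𝓝 (F m)) := by
        have := (tendsto_add_atTop_iff_nat (n + 1)).2 (hF m)
        refine this.congr fun i => ?_
        rw [add_comm]
      exact h0.dist tendsto_const_nhds
    refine le_of_tendsto hlim (Eventually.of_forall fun i => (hstep i).trans ?_)
    have e5 : (0 : ℝ) ≤ (1 / 2) ^ i := by positivity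
    nlinarith
  have hnear : ∀ n x, ∀ m ∈ S n, dist (F m) x < ρ n x / 4 → dist (f (n + 1) m) x < ρ n x := by
    intro n x m hm h
    have e1 := hcomp n m hm
    have e2 := (hρ n).lip (f (n + 1) m) x
    rw [abs_sub_le_iff] at e2
    have e3 := dist_triangle (f (n + 1) m) (F m) x
    rw [dist_comm (f (n + 1) m) (F m)] at e3
    have e4 := (hρ n).pos x
    linarith [e2.1]
  have hkey : ∀ n k, n ≤ k → ∀ x, ∀ m ∈ S n, ∀ m' ∈ S n, dist (F m) x < ρ k x / 4 →
      dist (F m') x < ρ k x / 4 → dist m m' ≤ (1 / 2) ^ k := by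
    intro n k hnk x m hm m' hm' h h'
    exact h3 k x m (hmono hnk hm) m' (hmono hnk hm') (hnear k x m (hmono hnk hm) h)
      (hnear k x m' (hmono hnk hm') h')
  refine ⟨F, hFc, hdist, fun n => ?_⟩
  have hpow : ∀ δ : ℝ, 0 < δ → ∃ k, n ≤ k ∧ (1 / 2 : ℝ) ^ k < δ := by
    intro δ hδ
    obtain ⟨k, hk⟩ := exists_pow_lt_of_lt_one hδ (by norm_num : (1 / 2 : ℝ) < 1)
    refine ⟨max n k, le_max_left _ _, lt_of_le_of_lt ?_ hk⟩
    exact pow_le_pow_of_le_one (by norm_num) (by norm_num) (le_max_right _ _)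
  refine IsClosedEmbedding.of_continuous_injective_isClosedMap
    (hFc.comp continuous_subtype_val) ?_ ?_
  · rintro ⟨m, hm⟩ ⟨m', hm'⟩ h
    have h' : F m = F m' := h
    apply Subtype.ext
    show m = m'
    by_contra hne
    obtain ⟨k, hk, hlt⟩ := hpow (dist m m') (dist_pos.2 hne)
    have e := hkey n k hk (F m) m hm m' hm'
      (by rw [dist_self]; linarith [(hρ k).pos (F m)])
      (by rw [h', dist_self]; linarith [(hρ k).pos (F m')])
    linarith
  · intro C hC
    rw [← isSeqClosed_iff_isClosed]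
    intro u y hu hy
    choose c hcC hc using hu
    have hcau : CauchySeq c := by
      rw [Metric.cauchySeq_iff]
      intro δ hδ
      obtain ⟨k, hk, hlt⟩ := hpow δ hδ
      have hev : ∀ᶠ i in atTop, dist (u i) y < ρ k y / 4 :=
        (tendsto_iff_dist_tendsto_zero.1 hy).eventually
          (gt_mem_nhds (by linarith [(hρ k).pos y]))
      obtain ⟨N, hN⟩ := eventually_atTop.1 hev
      refine ⟨N, fun i hi i' hi' => ?_⟩
      have e1 := hN i hi
      have e2 := hN i' hi'
      rw [← hc i] at e1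
      rw [← hc i'] at e2
      exact (hkey n k hk y (c i) (c i).2 (c i') (c i').2 e1 e2).trans_lt hlt
    have : CompleteSpace (S n) := (hS n).completeSpace_coe
    obtain ⟨a, ha⟩ := cauchySeq_tendsto_of_complete hcau
    refine ⟨a, hC.mem_of_tendsto ha (Eventually.of_forall hcC), ?_⟩
    have h1 : Tendsto (fun i => F (c i)) atTop (𝓝 (F a)) :=
      ((hFc.comp continuous_subtype_val).tendsto a).comp ha
    refine tendsto_nhds_unique h1 (hy.congr fun i => (hc i).symm)

end Pool.Agent.MP_645085_gt.TOR
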