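import Pool.Agent.MP_645085_gt.TOR.Ctl

/-!
# TOR row [TOR-LINE]: shears along lines (`exists_line`, `exists_wshear`)
-/

namespace Pool.Agent.MP_645085_gt.TOR

open Set Filter Topology TopologicalSpace Metric

theorem Line_mono {V B : Type} [AddCommGroup V] [Module ℝ V] (D : B → V)
    (n : V × B → ℝ) (c : ℝ) (hL : ∀ x b (u : ℝ), |n (x + u • D b, b) - n (x, b)| ≤ c * |u|)
    (y : V) (b : B) {u u' : ℝ} (h : u ≤ u') :
    (1 - c) * (u' - u) ≤ (u' - n (y - u' • D b, b)) - (u - n (y - u • D b, b)) := by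
  have h1 := hL (y - u' • D b) b (u' - u)
  have h2 : y - u' • D b + (u' - u) • D b = y - u • D b := by rw [sub_smul]; abel
  rw [h2, abs_of_nonneg (sub_nonneg.2 h)] at h1
  have h3 := (abs_le.1 h1).1
  linarith

theorem Line_abs {V B : Type} [AddCommGroup V] [Module ℝ V] (D : B → V)
    (n : V × B → ℝ) (c : ℝ) (hL : ∀ x b (u : ℝ), |n (x + u • D b, b) - n (x, b)| ≤ c * |u|)
    (y : V) (b : B) (u u' : ℝ) :
    (1 - c) * |u' - u| ≤ |(u' - n (y - u' • D b, b)) - (u - n (y - u • D b, b))| := by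
  rcases le_total u u' with h | h
  · rw [abs_of_nonneg (sub_nonneg.2 h)]
    exact (Line_mono D n c hL y b h).trans (le_abs_self _)
  · rw [abs_sub_comm u' u, abs_of_nonneg (sub_nonneg.2 h), abs_sub_comm]
    exact (Line_mono D n c hL y b h).trans (le_abs_self _)

theorem Line_exists {V B : Type} [AddCommGroup V] [Module ℝ V] [TopologicalSpace V]
    [IsTopologicalAddGroup V] [ContinuousSMul ℝ V] [TopologicalSpace B] (D : B → V)
    (n : V × B → ℝ) (hn : Continuous n) (c : ℝ) (hc : c < 1)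
    (hL : ∀ x b (u : ℝ), |n (x + u • D b, b) - n (x, b)| ≤ c * |u|) (y : V) (b : B) :
    ∃ u : ℝ, u - n (y - u • D b, b) = 0 := by
  have hc1 : 0 < 1 - c := by linarith
  set g : ℝ → ℝ := fun u => u - n (y - u • D b, b) with hg
  have hgc : Continuous g := by
    refine continuous_id.sub (hn.comp ?_)
    exact (continuous_const.sub (continuous_id.smul continuous_const)).prodMk continuous_const
  set M := |g 0| / (1 - c) with hM
  have hM0 : 0 ≤ M := by positivity
  have hM1 : (1 - c) * M = |g 0| := mul_div_cancel₀ _ hc1.ne'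
  have h1 : 0 ≤ g M := by
    have h2 := Line_mono D n c hL y b hM0
    rw [sub_zero, hM1] at h2
    have h3 : |g 0| ≤ g M - g 0 := h2
    linarith [neg_abs_le (g 0)]
  have h2 : g (-M) ≤ 0 := by
    have h2 := Line_mono D n c hL y b (neg_nonpos.2 hM0)
    rw [sub_neg_eq_add, zero_add, hM1] at h2
    have h3 : |g 0| ≤ g 0 - g (-M) := h2
    linarith [le_abs_self (g 0)]
  obtain ⟨u, -, hu⟩ := intermediate_value_Icc (by linarith : -M ≤ M) hgc.continuousOn ⟨h2, h1⟩
  exact ⟨u, hu⟩

/-- [TOR-LINE] Let `n` be `c`-Lipschitz along the lines in direction `D b`, `c < 1`. Then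
`(x, b) ↦ (x + n x b • D b, b)` is a homeomorphism. Proof: the inverse is
`(y, b) ↦ (y - u • D b, b)`, `u = u (y, b)` the unique real solution of
`u = n (y - u • D b) b` (the function `u ↦ u - n (y - u • D b) b` is continuous, strictly
increasing with slope `≥ 1 - c`, hence bijective). Continuity of `u (y, b)`: with
`u₀ = u (y₀, b₀)` one has `|u (y, b) - u₀| ≤ |u₀ - n (y - u₀ • D b) b| / (1 - c) → 0` as
`(y, b) → (y₀, b₀)`. -/
theorem exists_line {V B : Type} [AddCommGroup V] [Module ℝ V] [TopologicalSpace V]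
    [IsTopologicalAddGroup V] [ContinuousSMul ℝ V] [TopologicalSpace B] (D : B → V)
    (hD : Continuous D) (n : V × B → ℝ) (hn : Continuous n) (c : ℝ) (hc0 : 0 ≤ c) (hc : c < 1)
    (hL : ∀ x b (u : ℝ), |n (x + u • D b, b) - n (x, b)| ≤ c * |u|) :
    ∃ Θ : (V × B) ≃ₜ (V × B), ∀ x b, Θ (x, b) = (x + n (x, b) • D b, b) := by
  have _ := hc0
  have hc1 : 0 < 1 - c := by linarith
  choose U hU using fun q : V × B => Line_exists D n hn c hc hL q.1 q.2
  have hUniq : ∀ (y : V) (b : B) (u : ℝ), u - n (y - u • D b, b) = 0 → u = U (y, b) := by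
    intro y b u hu
    have h1 := Line_abs D n c hL y b (U (y, b)) u
    rw [hu, hU (y, b), sub_zero, abs_zero] at h1
    have h2 : |u - U (y, b)| ≤ 0 := by
      by_contra h3
      push Not at h3
      have := mul_pos hc1 h3
      linarith
    exact sub_eq_zero.1 (abs_nonpos_iff.1 h2)
  have hUc : Continuous U := by
    rw [continuous_iff_continuousAt]
    intro q0
    have h1 : Tendsto (fun q : V × B => |U q0 - n (q.1 - U q0 • D q.2, q.2)| / (1 - c)) (𝓝 q0)
        (𝓝 0) := by
      have h2 : Continuous (fun q : V × B => |U q0 - n (q.1 - U q0 • D q.2, q.2)| / (1 - c)) := by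
        refine (continuous_abs.comp (continuous_const.sub (hn.comp ?_))).div_const _
        exact (continuous_fst.sub ((hD.comp continuous_snd).const_smul (U q0))).prodMk
          continuous_snd
      have h3 := h2.tendsto q0
      rwa [hU q0, abs_zero, zero_div] at h3
    rw [ContinuousAt, tendsto_iff_dist_tendsto_zero]
    refine squeeze_zero (fun _ => dist_nonneg) (fun q => ?_) h1
    rw [Real.dist_eq, le_div_iff₀ hc1, mul_comm, abs_sub_comm]
    have h2 := Line_abs D n c hL q.1 q.2 (U q) (U q0)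
    rwa [hU q, sub_zero] at h2
  refine ⟨{ toFun := fun q => (q.1 + n q • D q.2, q.2)
            invFun := fun q => (q.1 - U q • D q.2, q.2)
            left_inv := ?_
            right_inv := ?_
            continuous_toFun := ?_
            continuous_invFun := ?_ }, fun x b => rfl⟩
  · rintro ⟨x, b⟩
    have h1 : n (x, b) = U (x + n (x, b) • D b, b) := by
      apply hUniq
      rw [add_sub_cancel_right, sub_self]
    simp only
    rw [← h1, add_sub_cancel_right]
  · rintro ⟨y, b⟩
    have h1 : n (y - U (y, b) • D b, b) = U (y, b) := (sub_eq_zero.1 (hU (y, b))).symm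
    simp only
    rw [h1, sub_add_cancel]
  · exact (continuous_fst.add (hn.smul (hD.comp continuous_snd))).prodMk continuous_snd
  · exact (continuous_fst.sub (hUc.smul (hD.comp continuous_snd))).prodMk continuous_snd

theorem Line_lip (a b : ℝ) : |max 0 a - max 0 b| ≤ |a - b| := by
  have := abs_max_sub_max_le_max 0 a 0 b
  rw [sub_zero, abs_zero] at this
  exact this.trans (max_le (abs_nonneg _) le_rfl)

/-- [TOR-LINE] Shear in the Hilbert direction, moving the zero section to the graph of `b`: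
`(z, w) ↦ (z, w + max 0 (1 - 4 * ‖w‖ / 3) • b z)`. Use `exists_line` with `V = H`, `B = B`,
`D = b`, `n (w, z) = max 0 (1 - 4 * ‖w‖ / 3)`, `c = 2 / 3`, and swap the factors. -/
theorem exists_wshear {B H : Type} [TopologicalSpace B] [NormedAddCommGroup H] [NormedSpace ℝ H]
    (b : B → H) (hb : Continuous b) (hb1 : ∀ z, ‖b z‖ ≤ 1 / 2) :
    ∃ T : (B × H) ≃ₜ (B × H), (∀ q, (T q).1 = q.1) ∧ (∀ z, T (z, 0) = (z, b z)) ∧
      (∀ z w, 3 / 4 ≤ ‖w‖ → T (z, w) = (z, w)) ∧ ∀ z w, b z = 0 → T (z, w) = (z, w) := by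
  obtain ⟨Θ, hΘ⟩ := exists_line (V := H) (B := B) b hb
    (fun q => max 0 (1 - 4 * ‖q.1‖ / 3)) (by fun_prop) (2 / 3) (by norm_num) (by norm_num) (by
      intro x z u
      simp only
      refine (Line_lip _ _).trans ?_
      have h1 : |‖x + u • b z‖ - ‖x‖| ≤ ‖u • b z‖ := by
        have := abs_norm_sub_norm_le (x + u • b z) x
        rwa [add_sub_cancel_left] at this
      have h2 : ‖u • b z‖ ≤ |u| * (1 / 2) := by
        rw [norm_smul, Real.norm_eq_abs]
        exact mul_le_mul_of_nonneg_left (hb1 z) (abs_nonneg _)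
      have h3 : 1 - 4 * ‖x + u • b z‖ / 3 - (1 - 4 * ‖x‖ / 3)
          = -(4 / 3) * (‖x + u • b z‖ - ‖x‖) := by ring
      rw [h3, abs_mul, abs_of_neg (by norm_num : (-(4 / 3) : ℝ) < 0)]
      linarith)
  refine ⟨(Homeomorph.prodComm B H).trans (Θ.trans (Homeomorph.prodComm H B)), ?_, ?_, ?_, ?_⟩
  · rintro ⟨z, w⟩
    simp [hΘ]
  · intro z
    simp [hΘ]
  · intro z w hw
    have h1 : max 0 (1 - 4 * ‖w‖ / 3) = 0 := max_eq_left (by linarith)
    simp [hΘ, h1]
  · intro z w hz
    simp [hΘ, hz]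

end Pool.Agent.MP_645085_gt.TOR
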