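import Pool.Agent.MP_645085_gt.TOR.Defs
import Pool.Agent.MP_645085_gt.FNorm

/-!
# TOR row [TOR-NRM]: renorming
-/

namespace Pool.Agent.MP_645085_gt.TOR

open Set Filter Topology TopologicalSpace Metric

/-- Two group uniformities with the same neighbourhoods of zero: the identity is a homeomorphism,
and completeness is inherited. -/
lemma Nrm_transfer (E : Type) [AddCommGroup E] [Module ℝ E] (u : UniformSpace E)
    (hs : @ContinuousSMul ℝ E _ _ u.toTopologicalSpace)
    (hc : @CompleteSpace E u) (I : NormedAddCommGroup E)
    (he : I.toMetricSpace.toPseudoMetricSpace.toUniformSpace = u) :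
    @ContinuousSMul ℝ E _ _ I.toMetricSpace.toPseudoMetricSpace.toUniformSpace.toTopologicalSpace ∧
    @CompleteSpace E I.toMetricSpace.toPseudoMetricSpace.toUniformSpace ∧
    Nonempty (@Homeomorph E E u.toTopologicalSpace
      I.toMetricSpace.toPseudoMetricSpace.toUniformSpace.toTopologicalSpace) := by
  rw [he]
  exact ⟨hs, hc, ⟨@Homeomorph.refl E u.toTopologicalSpace⟩⟩

/-- [TOR-NRM] A complete metrizable topological vector space can be renormed as a complete `FN`
space. Take `nu : FNorm E` from `exists_fnorm` and the group norm `‖x‖ = nu.N x`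
(`nu.N x = 0 → x = 0` from `basis` and Hausdorffness; the metric topology is the given one by
`nu.nhds_basis`; the uniformity is the given one because a commutative group topology determines
its uniformity: `IsUniformAddGroup.ext` or `comm_topologicalAddGroup_is_uniform`-style lemmas, so
completeness is inherited). It is fine to take `X := E` with the new instances. -/
theorem exists_fn (E : Type) [AddCommGroup E] [Module ℝ E] [UniformSpace E] [IsUniformAddGroup E]
    [ContinuousSMul ℝ E] [MetrizableSpace E] [CompleteSpace E] :
    ∃ (X : Type) (_ : NormedAddCommGroup X) (_ : Module ℝ X),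
      FN X ∧ CompleteSpace X ∧ Nonempty (E ≃ₜ X) := by
  obtain ⟨nu⟩ := exists_fnorm (E := E)
  have hzero : ∀ x, nu.N x = 0 → x = 0 := by
    intro x hx
    by_contra hne
    have h1 : ({x}ᶜ : Set E) ∈ 𝓝 (0 : E) :=
      isOpen_compl_singleton.mem_nhds (fun h => hne (mem_singleton_iff.1 h).symm)
    obtain ⟨ε, hε, hsub⟩ := nu.basis.mem_iff.1 h1
    exact hsub (show nu.N x < ε by rw [hx]; exact hε) rfl
  let nrm : AddGroupNorm E :=
    { toFun := nu.N, map_zero' := nu.zero, add_le' := nu.add, neg' := nu.neg
      eq_zero_of_map_eq_zero' := hzero }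
  let I : NormedAddCommGroup E := nrm.toNormedAddCommGroup
  have hnorm : ∀ x : E, @norm E I.toNorm x = nu.N x := fun x => rfl
  have hbasis : (@nhds E I.toMetricSpace.toPseudoMetricSpace.toUniformSpace.toTopologicalSpace
      (0 : E)).HasBasis (fun ε : ℝ => 0 < ε) (fun ε => {x | nu.N x < ε}) := by
    have := @Metric.nhds_basis_ball E I.toMetricSpace.toPseudoMetricSpace (0 : E)
    refine this.congr (fun _ => Iff.rfl) ?_
    intro ε hε
    ext x
    have h2 : @dist E I.toMetricSpace.toPseudoMetricSpace.toDist x 0 = nu.N x := by
      have h4 := @dist_zero_right E I.toSeminormedAddCommGroup.toSeminormedAddGroup x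
      exact h4
    constructor
    · intro hx
      have : @dist E I.toMetricSpace.toPseudoMetricSpace.toDist x 0 < ε := hx
      rwa [h2] at this
    · intro hx
      show @dist E I.toMetricSpace.toPseudoMetricSpace.toDist x 0 < ε
      rw [h2]; exact hx
  have hnh : @nhds E I.toMetricSpace.toPseudoMetricSpace.toUniformSpace.toTopologicalSpace (0 : E)
      = 𝓝 (0 : E) := hbasis.eq_of_same_basis nu.basis
  have hIu : @IsUniformAddGroup E I.toMetricSpace.toPseudoMetricSpace.toUniformSpace _ :=
    @SeminormedAddCommGroup.to_isUniformAddGroup E I.toSeminormedAddCommGroup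
  have he : I.toMetricSpace.toPseudoMetricSpace.toUniformSpace = (inferInstance : UniformSpace E) :=
    IsUniformAddGroup.ext hIu inferInstance hnh
  obtain ⟨h1, h2, h3⟩ := Nrm_transfer E inferInstance inferInstance inferInstance I he
  refine ⟨E, I, inferInstance, ?_, h2, h3⟩
  exact @FN.mk E I inferInstance (fun s x hs => by
    have := nu.smul s x hs
    exact this) h1

end Pool.Agent.MP_645085_gt.TOR
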