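import Pool.Agent.MP_645085_gt.TOR.TStep
import Pool.Agent.MP_645085_gt.TOR.Alp
import Pool.Agent.MP_645085_gt.TOR.DSep
import Pool.Agent.MP_645085_gt.TOR.DNonsep
import Pool.Agent.MP_645085_gt.TOR.Del
import Pool.Agent.MP_645085_gt.TOR.Chart
import Pool.Agent.MP_645085_gt.TOR.Deep
import Pool.Agent.MP_645085_gt.TOR.Emb
import Pool.Agent.MP_645085_gt.TOR.Dens
import Pool.Agent.MP_645085_gt.TOR.HilD
import Pool.Agent.MP_645085_gt.TOR.Nrm
import Pool.Agent.MP_645085_gt.TOR.Fin

/-!
# TOR: assembly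
-/

namespace Pool.Agent.MP_645085_gt.TOR

open Set Filter Topology TopologicalSpace Metric Cardinal

open scoped PiCountable

attribute [local instance] PiCountable.metricSpace

/-- The factor `P = (E × H × ℝ)^ℕ`. -/
abbrev PP (E H : Type) : Type := ℕ → E × H × ℝ

theorem data_of (E D X : Type) [NormedAddCommGroup E] [Module ℝ E] [FN E] [CompleteSpace E]
    (hE : AE E) [Infinite D] (hED : DensLE #D E)
    [NormedAddCommGroup X] [Module ℝ X] [FN X] [CompleteSpace X] (hX : AE X)
    (hXD : DensLE #D X) : Data X (PP E (Hil D)) (Hil D) := by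
  have hκ : ℵ₀ ≤ #D := Cardinal.infinite_iff.1 ‹_›
  have hH : AE (Hil D) := ae_normed _
  have hHD : DensLE #D (Hil D) := densLE_hil
  have hQ : AE (E × Hil D × ℝ) := hE.prod (hH.prod (ae_normed ℝ))
  have hQD : DensLE #D (E × Hil D × ℝ) :=
    DensLE.prod hκ hED (DensLE.prod hκ hHD (densLE_real hκ))
  have hPD : DensLE #D (PP E (Hil D)) := DensLE.pi_nat hκ hQD
  obtain ⟨F⟩ := exists_deletion D
  refine ⟨hX, hQ.pi ℕ, hH, ?_, exists_chart E (Hil D) F, fun ω hω => exists_deep X _ ω hω⟩
  obtain ⟨d, hd⟩ := DensLE.exists_denseRange (DensLE.prod hκ hXD hPD)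
  exact exists_emb_hilbert _ D d hd

/-- `E × P ≅ P`. -/
theorem shift_left (E H : Type) [TopologicalSpace E] [TopologicalSpace H] :
    Nonempty ((E × (ℕ → E × H × ℝ)) ≃ₜ (ℕ → E × H × ℝ)) := by
  refine ⟨{ toFun := fun q n => (Nat.casesOn n q.1 fun k => (q.2 k).1, (q.2 n).2)
            invFun := fun p => ((p 0).1, fun n => ((p (n + 1)).1, (p n).2))
            left_inv := ?_
            right_inv := ?_
            continuous_toFun := ?_
            continuous_invFun := ?_ }⟩
  · intro q
    rfl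
  · intro p
    funext n
    cases n <;> rfl
  · refine continuous_pi fun n => ?_
    cases n with
    | zero => fun_prop
    | succ n => fun_prop
  · fun_prop

/-- `H × P ≅ P`. -/
theorem shift_mid (E H : Type) [TopologicalSpace E] [TopologicalSpace H] :
    Nonempty ((H × (ℕ → E × H × ℝ)) ≃ₜ (ℕ → E × H × ℝ)) := by
  refine ⟨{ toFun := fun q n => ((q.2 n).1, Nat.casesOn n q.1 fun k => (q.2 k).2.1, (q.2 n).2.2)
            invFun := fun p => ((p 0).2.1, fun n => ((p n).1, (p (n + 1)).2.1, (p n).2.2))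
            left_inv := ?_
            right_inv := ?_
            continuous_toFun := ?_
            continuous_invFun := ?_ }⟩
  · intro q
    rfl
  · intro p
    funext n
    cases n <;> rfl
  · refine continuous_pi fun n => ?_
    cases n with
    | zero => fun_prop
    | succ n => fun_prop
  · fun_prop

theorem main (X : Type) [NormedAddCommGroup X] [Module ℝ X] [FN X] [CompleteSpace X]
    (hAE : AE X) :
    ∃ (H : Type) (_ : NormedAddCommGroup H) (_ : InnerProductSpace ℝ H),
      CompleteSpace H ∧ Nonempty (X ≃ₜ H) := by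
  by_cases hfin : FiniteDimensional ℝ X
  · exact finite_dim_case X
  obtain ⟨D, hD, hDinf, hmin⟩ := exists_density hfin
  have hκ : ℵ₀ ≤ #D := Cardinal.infinite_iff.1 hDinf
  have hXD : DensLE #D X := ⟨D, hD, le_rfl⟩
  have hHD : DensLE #D (Hil D) := densLE_hil
  have hHAE : AE (Hil D) := ae_normed _
  have hDX : DProp #D X := by
    rcases hκ.eq_or_lt with h | h
    · rw [← h]; exact dprop_sep X hAE hfin
    · exact dprop_nonsep h X hAE hmin
  have hDH : DProp #D (Hil D) := by
    rcases hκ.eq_or_lt with h | h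
    · rw [← h]; exact dprop_sep _ hHAE (not_finiteDimensional_hil D)
    · exact dprop_nonsep h _ hHAE fun μ hμ => not_densLE_hil hμ
  have hPD : DensLE #D (PP X (Hil D)) :=
    DensLE.pi_nat hκ (DensLE.prod hκ hXD (DensLE.prod hκ hHD (densLE_real hκ)))
  obtain ⟨e1⟩ := homeo_step (data_of X D X hAE hXD hAE hXD)
    (fun ε hε => exists_alpha hκ hDX hXD hPD ε hε)
  obtain ⟨e2⟩ := homeo_step (data_of X D (Hil D) hAE hXD hHAE hHD)
    (fun ε hε => exists_alpha hκ hDH hHD hPD ε hε)
  obtain ⟨s1⟩ := shift_left X (Hil D)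
  obtain ⟨s2⟩ := shift_mid X (Hil D)
  refine ⟨Hil D, inferInstance, inferInstance, inferInstance, ⟨?_⟩⟩
  exact e1.symm.trans ((Homeomorph.prodAssoc _ _ _).symm.trans
    ((s1.prodCongr (Homeomorph.refl _)).trans ((s2.symm.prodCongr (Homeomorph.refl _)).trans
      ((Homeomorph.prodAssoc _ _ _).trans e2))))

end Pool.Agent.MP_645085_gt.TOR
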