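import Pool.Agent.MP_645085_gt.TOR.Defs

/-!
# TOR row [TOR-MOEB]: fibrewise Möbius squeeze
-/

namespace Pool.Agent.MP_645085_gt.TOR

open Set Filter Topology TopologicalSpace Metric

theorem Moeb_den_pos {e t : ℝ} (he : 0 < e) (h0 : 0 ≤ t) (h1 : t ≤ 1) : 0 < t + (1 - t) * e := by
  rcases h0.eq_or_lt with h | h
  · rw [← h]; linarith
  · have : 0 ≤ (1 - t) * e := mul_nonneg (by linarith) he.le
    linarith

theorem Moeb_mem {e t : ℝ} (he : 0 < e) (h0 : 0 ≤ t) (h1 : t ≤ 1) :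
    t / (t + (1 - t) * e) ∈ Set.Icc (0 : ℝ) 1 := by
  have hd := Moeb_den_pos he h0 h1
  refine ⟨by positivity, ?_⟩
  rw [div_le_one hd]
  have : 0 ≤ (1 - t) * e := mul_nonneg (by linarith) he.le
  linarith

theorem Moeb_inv {e t : ℝ} (he : 0 < e) (h0 : 0 ≤ t) (h1 : t ≤ 1) :
    (t / (t + (1 - t) * e)) / (t / (t + (1 - t) * e) + (1 - t / (t + (1 - t) * e)) * e⁻¹) = t := by
  have hd := Moeb_den_pos he h0 h1
  have e1 : t / (t + (1 - t) * e) + (1 - t / (t + (1 - t) * e)) * e⁻¹ = 1 / (t + (1 - t) * e) := by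
    field_simp
    ring
  rw [e1]
  field_simp

/-- the squeeze as a function of the point. -/
noncomputable def Moeb_fun {Z : Type} (e : Z → ℝ) (hpos : ∀ z, 0 < e z) (q : Z × unitInterval) :
    Z × unitInterval :=
  (q.1, ⟨(q.2 : ℝ) / (q.2 + (1 - q.2) * e q.1), Moeb_mem (hpos q.1) q.2.2.1 q.2.2.2⟩)

theorem Moeb_cont {Z : Type} [TopologicalSpace Z] (e : Z → ℝ) (he : Continuous e)
    (hpos : ∀ z, 0 < e z) : Continuous (Moeb_fun e hpos) := by
  unfold Moeb_fun
  refine continuous_fst.prodMk (Continuous.subtype_mk ?_ _)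
  have h2 : Continuous fun q : Z × unitInterval => ((q.2 : unitInterval) : ℝ) :=
    continuous_subtype_val.comp continuous_snd
  have h1 : Continuous fun q : Z × unitInterval => e q.1 := he.comp continuous_fst
  refine h2.div (h2.add ((continuous_const.sub h2).mul h1)) fun q => ?_
  exact (Moeb_den_pos (hpos q.1) q.2.2.1 q.2.2.2).ne'

/-- [TOR-MOEB] Fibrewise Möbius squeeze: `(z, t) ↦ (z, t / (t + (1 - t) * e z))` is a homeomorphism of
`Z × [0,1]` (the inverse is the same formula with `1 / e`). -/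
theorem exists_moebius {Z : Type} [TopologicalSpace Z] (e : Z → ℝ) (he : Continuous e)
    (hpos : ∀ z, 0 < e z) :
    ∃ r : (Z × unitInterval) ≃ₜ (Z × unitInterval), (∀ q, (r q).1 = q.1) ∧
      ∀ q, ((r q).2 : ℝ) = q.2 / (q.2 + (1 - q.2) * e q.1) := by
  have hpos' : ∀ z, 0 < (e z)⁻¹ := fun z => inv_pos.2 (hpos z)
  have he' : Continuous fun z => (e z)⁻¹ := he.inv₀ fun z => (hpos z).ne'
  refine ⟨{ toFun := Moeb_fun e hpos
            invFun := Moeb_fun (fun z => (e z)⁻¹) hpos'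
            left_inv := ?_
            right_inv := ?_
            continuous_toFun := Moeb_cont e he hpos
            continuous_invFun := Moeb_cont _ he' hpos' }, fun q => rfl, fun q => rfl⟩
  · rintro ⟨z, t, ht⟩
    refine Prod.ext rfl (Subtype.ext ?_)
    exact Moeb_inv (hpos z) ht.1 ht.2
  · rintro ⟨z, t, ht⟩
    refine Prod.ext rfl (Subtype.ext ?_)
    have := Moeb_inv (hpos' z) ht.1 ht.2
    rw [inv_inv] at this
    exact this

end Pool.Agent.MP_645085_gt.TOR
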