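import Pool.Agent.MP_645085_gt.TOR.Ctl

/-!
# TOR row [TOR-PART]: partitions of unity with at most one active function at each level
-/

namespace Pool.Agent.MP_645085_gt.TOR

open Set Filter Topology TopologicalSpace Metric Cardinal

section

variable {Z ι : Type} [TopologicalSpace Z]

/-- `min_{i ∈ F} f_i z - sup_{i ∉ F} f_i z`, truncated at `0` -/
noncomputable def Part_b [DecidableEq ι] (f : ι → Z → ℝ) (F : {F : Finset ι // F.Nonempty})
    (z : Z) : ℝ :=
  max 0 ((F.1.inf' F.2 fun i => f i z) - ⨆ j : ι, if j ∈ F.1 then 0 else f j z)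

variable [DecidableEq ι] {f : ι → Z → ℝ}

omit [TopologicalSpace Z] in
lemma Part_bdd (h1 : ∀ i z, f i z ≤ 1) (F : Finset ι) (z : Z) :
    BddAbove (Set.range fun j : ι => if j ∈ F then 0 else f j z) := by
  refine ⟨1, ?_⟩
  rintro _ ⟨j, rfl⟩
  show (if j ∈ F then 0 else f j z) ≤ 1
  split_ifs
  · exact zero_le_one
  · exact h1 j z

omit [TopologicalSpace Z] in
lemma Part_nonneg (F : {F : Finset ι // F.Nonempty}) (z : Z) : 0 ≤ Part_b f F z := le_max_left _ _

omit [TopologicalSpace Z] in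
lemma Part_lt (h0 : ∀ i z, 0 ≤ f i z) (h1 : ∀ i z, f i z ≤ 1) (F : {F : Finset ι // F.Nonempty})
    (z : Z) (h : Part_b f F z ≠ 0) :
    (∀ i ∈ F.1, ∀ j ∉ F.1, f j z < f i z) ∧ ∀ i ∈ F.1, f i z ≠ 0 := by
  have hpos : 0 < Part_b f F z := lt_of_le_of_ne (Part_nonneg F z) h.symm
  unfold Part_b at hpos
  rw [lt_max_iff] at hpos
  rcases hpos with h2 | h2
  · exact absurd h2 (lt_irrefl _)
  have hsup0 : 0 ≤ ⨆ j : ι, if j ∈ F.1 then 0 else f j z := by
    refine Real.iSup_nonneg fun j => ?_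
    split_ifs
    · exact le_rfl
    · exact h0 j z
  constructor
  · intro i hi j hj
    have h3 : F.1.inf' F.2 (fun i => f i z) ≤ f i z := Finset.inf'_le (fun i => f i z) hi
    have h4 := le_ciSup (Part_bdd h1 F.1 z) j
    simp only [hj, if_false] at h4
    linarith
  · intro i hi h5
    have h3 : F.1.inf' F.2 (fun i => f i z) ≤ f i z := Finset.inf'_le (fun i => f i z) hi
    rw [h5] at h3
    linarith

lemma Part_near (hc : ∀ i, Continuous (f i)) (hlf : LocallyFinite fun i => Function.support (f i))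
    (z₀ : Z) (ε : ℝ) (hε : 0 < ε) : ∀ᶠ z in 𝓝 z₀, ∀ j, |f j z - f j z₀| ≤ ε := by
  obtain ⟨N, hN, hfin⟩ := hlf z₀
  have hz₀ : z₀ ∈ N := mem_of_mem_nhds hN
  have h1 : ∀ᶠ z in 𝓝 z₀, ∀ j ∈ hfin.toFinset, |f j z - f j z₀| ≤ ε := by
    rw [Finset.eventually_all]
    intro j _
    have := ((hc j).tendsto z₀).eventually (Metric.ball_mem_nhds (f j z₀) hε)
    filter_upwards [this] with z hz
    rw [Real.dist_eq] at hz
    exact hz.le
  filter_upwards [h1, hN] with z hz hzN j
  by_cases hj : j ∈ hfin.toFinset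
  · exact hz j hj
  · rw [Set.Finite.mem_toFinset, Set.mem_ofPred_eq, Set.not_nonempty_iff_eq_empty] at hj
    have e1 : f j z = 0 := by
      by_contra h
      have : z ∈ Function.support (f j) ∩ N := ⟨h, hzN⟩
      rw [hj] at this
      exact this
    have e2 : f j z₀ = 0 := by
      by_contra h
      have : z₀ ∈ Function.support (f j) ∩ N := ⟨h, hz₀⟩
      rw [hj] at this
      exact this
    rw [e1, e2, sub_self, abs_zero]
    exact hε.le

lemma Part_sup_cont (h1 : ∀ i z, f i z ≤ 1)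
    (hc : ∀ i, Continuous (f i)) (hlf : LocallyFinite fun i => Function.support (f i))
    (F : Finset ι) : Continuous fun z => ⨆ j : ι, if j ∈ F then 0 else f j z := by
  rcases isEmpty_or_nonempty ι with hι | hι
  · simp only [Real.iSup_of_isEmpty]
    exact continuous_const
  rw [continuous_iff_continuousAt]
  intro z₀
  rw [Metric.continuousAt_iff']
  intro ε hε
  filter_upwards [Part_near hc hlf z₀ (ε / 2) (half_pos hε)] with z hz
  rw [Real.dist_eq]
  refine lt_of_le_of_lt ?_ (half_lt_self hε)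
  have key : ∀ x y : Z, (∀ j, |f j x - f j y| ≤ ε / 2) →
      (⨆ j : ι, if j ∈ F then 0 else f j x) ≤ (⨆ j : ι, if j ∈ F then 0 else f j y) + ε / 2 := by
    intro x y hxy
    refine ciSup_le fun j => ?_
    have h4 := le_ciSup (Part_bdd h1 F y) j
    have h5 := (abs_le.1 (hxy j)).2
    by_cases hj : j ∈ F
    · simp only [hj, if_true] at h4 ⊢
      linarith
    · simp only [hj, if_false] at h4 ⊢
      linarith
  have k1 := key z z₀ hz
  have k2 := key z₀ z (fun j => by rw [abs_sub_comm]; exact hz j)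
  rw [abs_le]
  constructor <;> linarith

lemma Part_cont (h1 : ∀ i z, f i z ≤ 1)
    (hc : ∀ i, Continuous (f i)) (hlf : LocallyFinite fun i => Function.support (f i))
    (F : {F : Finset ι // F.Nonempty}) : Continuous (Part_b f F) := by
  unfold Part_b
  refine continuous_const.max (Continuous.sub ?_ (Part_sup_cont h1 hc hlf F.1))
  exact Continuous.finset_inf'_apply F.2 fun i _ => hc i

lemma Part_lf (h0 : ∀ i z, 0 ≤ f i z) (h1 : ∀ i z, f i z ≤ 1)
    (hlf : LocallyFinite fun i => Function.support (f i)) :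
    LocallyFinite fun F : {F : Finset ι // F.Nonempty} => Function.support (Part_b f F) := by
  intro z₀
  obtain ⟨N, hN, hfin⟩ := hlf z₀
  refine ⟨N, hN, ?_⟩
  have hfin2 : ({F : Finset ι | F ⊆ hfin.toFinset} : Set (Finset ι)).Finite := by
    have : ({F : Finset ι | F ⊆ hfin.toFinset} : Set (Finset ι))
        = (hfin.toFinset.powerset : Set (Finset ι)) := by
      ext F; simp
    rw [this]
    exact Finset.finite_toSet _
  refine Set.Finite.subset (hfin2.preimage (Subtype.val_injective.injOn)) ?_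
  rintro F ⟨z, hz, hzN⟩
  show F.1 ⊆ hfin.toFinset
  intro i hi
  rw [Set.Finite.mem_toFinset, Set.mem_ofPred_eq]
  exact ⟨z, (Part_lt h0 h1 F z hz).2 i hi, hzN⟩

lemma Part_exists (h0 : ∀ i z, 0 ≤ f i z)
    (hlf : LocallyFinite fun i => Function.support (f i)) (z : Z) (hz : ∃ i, f i z ≠ 0) :
    ∃ F : {F : Finset ι // F.Nonempty}, 0 < Part_b f F z := by
  have hfin : {i | f i z ≠ 0}.Finite := hlf.point_finite z
  obtain ⟨i, hi⟩ := hz
  have hne : hfin.toFinset.Nonempty := ⟨i, by rw [Set.Finite.mem_toFinset]; exact hi⟩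
  refine ⟨⟨hfin.toFinset, hne⟩, ?_⟩
  unfold Part_b
  rw [lt_max_iff]
  right
  have e1 : (⨆ j : ι, if j ∈ hfin.toFinset then 0 else f j z) = 0 := by
    have : (fun j : ι => if j ∈ hfin.toFinset then 0 else f j z) = fun _ => 0 := by
      funext j
      by_cases hj : j ∈ hfin.toFinset
      · simp only [hj, if_true]
      · simp only [hj, if_false]
        rw [Set.Finite.mem_toFinset] at hj
        by_contra h
        exact hj h
    rw [this]
    exact Real.iSup_const_zero
  show 0 < hfin.toFinset.inf' hne (fun i => f i z)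
    - ⨆ j : ι, if j ∈ hfin.toFinset then 0 else f j z
  rw [e1, sub_zero, Finset.lt_inf'_iff]
  intro j hj
  rw [Set.Finite.mem_toFinset] at hj
  exact lt_of_le_of_ne (h0 j z) (Ne.symm hj)

end

/-- [TOR-PART] Proof. Let `s` be dense, `#s ≤ κ`. The balls `B(d, ρ d)`, `d ∈ s`, cover `Z` (take `d ∈ s`
with `dist z d < ρ z / 2`; then `ρ d > ρ z / 2`). Let `f_d` (`d ∈ s`) be a subordinate locally finite
partition of unity (`PartitionOfUnity.exists_isSubordinate`). For a nonempty finite `F ⊆ s` put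
`b_F z = max 0 ((min_{i ∈ F} f_i z) - (⨆ i ∉ F, f_i z))` (continuous; near a point only finitely many
`f_i` are nonzero). If `b_F z ≠ 0` and `b_{F'} z ≠ 0` then `F ⊆ F'` or `F' ⊆ F` (else take
`i ∈ F \ F'`, `i' ∈ F' \ F`: `f_i z > f_{i'} z > f_i z`). For `F = {i | f_i z ≠ 0}`, `b_F z > 0`.
The family is locally finite (`b_F z ≠ 0` implies `F ⊆ {i | f_i z ≠ 0}`). Put `Λ` = nonempty finsets
of `s`, `a_F = b_F / ∑ᶠ b`, `m F = F.card`, `c F ∈ F` arbitrary (`b_F z ≠ 0 → f_{c F} z ≠ 0`).
(Any other construction is fine, e.g. a `σ`-discrete refinement.) -/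
theorem exists_partition {κ : Cardinal.{0}} (hκ : ℵ₀ ≤ κ) {Z : Type} [MetricSpace Z]
    (hZ : DensLE κ Z) (ρ : Z → ℝ) (hρ : Ctl ρ) :
    ∃ (Λ : Type) (a : Λ → Z → ℝ) (m : Λ → ℕ) (c : Λ → Z), #Λ ≤ κ ∧ (∀ l, Continuous (a l)) ∧
      (LocallyFinite fun l => Function.support (a l)) ∧ (∀ l z, 0 ≤ a l z) ∧
      (∀ z, ∑ᶠ l, a l z = 1) ∧
      (∀ l l' z, a l z ≠ 0 → a l' z ≠ 0 → m l = m l' → l = l') ∧
      ∀ l z, a l z ≠ 0 → dist z (c l) < ρ (c l) := by
  classical
  obtain ⟨s, hs, hcard⟩ := hZ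
  obtain ⟨p, hp⟩ := PartitionOfUnity.exists_isSubordinate (isClosed_univ (X := Z))
    (fun d : s => Metric.ball (d : Z) (ρ d)) (fun d => Metric.isOpen_ball) (by
      intro z _
      obtain ⟨d, hd, hdist⟩ := hs.exists_dist_lt z (half_pos (hρ.pos z))
      rw [Set.mem_iUnion]
      refine ⟨⟨d, hd⟩, ?_⟩
      rw [Metric.mem_ball]
      have := (abs_le.1 (hρ.lip z d)).2
      show dist z d < ρ d
      linarith)
  set f : s → Z → ℝ := fun d z => p d z with hf
  have h0 : ∀ i z, 0 ≤ f i z := fun i z => p.nonneg i z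
  have h1 : ∀ i z, f i z ≤ 1 := fun i z => p.le_one i z
  have hc : ∀ i, Continuous (f i) := fun i => (p i).continuous
  have hlf : LocallyFinite fun i => Function.support (f i) := p.locallyFinite
  have hex : ∀ z, ∃ i, f i z ≠ 0 := by
    intro z
    by_contra hcon
    push Not at hcon
    have h2 : ∑ᶠ i, p i z = 1 := p.sum_eq_one (mem_univ z)
    have h3 : (fun i => p i z) = fun _ => (0 : ℝ) := by
      funext i; exact hcon i
    rw [h3, finsum_zero] at h2
    exact zero_ne_one h2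
  set b : {F : Finset s // F.Nonempty} → Z → ℝ := Part_b f with hb
  have hbc : ∀ F, Continuous (b F) := Part_cont h1 hc hlf
  have hblf : LocallyFinite fun F => Function.support (b F) := Part_lf h0 h1 hlf
  have hb0 : ∀ F z, 0 ≤ b F z := fun F z => Part_nonneg F z
  have hBc : Continuous fun z => ∑ᶠ F, b F z := continuous_finsum hbc hblf
  have hBpos : ∀ z, 0 < ∑ᶠ F, b F z := by
    intro z
    obtain ⟨F, hF⟩ := Part_exists h0 hlf z (hex z)
    exact finsum_pos (fun F => hb0 F z) ⟨F, hF⟩ (hblf.point_finite z)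
  have hsupp : ∀ F, Function.support (fun z => b F z / ∑ᶠ F', b F' z) = Function.support (b F) := by
    intro F
    ext z
    simp only [Function.mem_support, ne_eq, div_eq_zero_iff, not_or]
    exact ⟨fun h => h.1, fun h => ⟨h, (hBpos z).ne'⟩⟩
  have hne : ∀ F z, b F z / ∑ᶠ F', b F' z ≠ 0 → b F z ≠ 0 := by
    intro F z h h'
    rw [h', zero_div] at h
    exact h rfl
  refine ⟨{F : Finset s // F.Nonempty}, fun F z => b F z / ∑ᶠ F', b F' z, fun F => F.1.card,
    fun F => (F.2.choose : Z), ?_, ?_, ?_, ?_, ?_, ?_, ?_⟩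
  · refine (Cardinal.mk_subtype_le _).trans ?_
    rcases finite_or_infinite s with hfin | hinf
    · exact (Cardinal.lt_aleph0_of_finite (Finset s)).le.trans hκ
    · rw [Cardinal.mk_finset_of_infinite]
      exact hcard
  · exact fun F => (hbc F).div hBc fun z => (hBpos z).ne'
  · simpa only [hsupp] using hblf
  · exact fun F z => div_nonneg (hb0 F z) (hBpos z).le
  · intro z
    have h2 : (fun F => b F z / ∑ᶠ F', b F' z) = fun F => b F z * (∑ᶠ F', b F' z)⁻¹ := by
      funext F; rw [div_eq_mul_inv]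
    show ∑ᶠ F, b F z / ∑ᶠ F', b F' z = 1
    rw [h2, ← finsum_mul, mul_inv_cancel₀ (hBpos z).ne']
  · intro F F' z hF hF' hcard'
    have g1 := (Part_lt h0 h1 F z (hne F z hF)).1
    have g2 := (Part_lt h0 h1 F' z (hne F' z hF')).1
    by_cases hsub : F.1 ⊆ F'.1
    · exact Subtype.ext (Finset.eq_of_subset_of_card_le hsub hcard'.ge)
    · by_cases hsub' : F'.1 ⊆ F.1
      · exact Subtype.ext (Finset.eq_of_subset_of_card_le hsub' hcard'.le).symm
      · exfalso
        obtain ⟨i, hi, hi'⟩ := Finset.not_subset.1 hsub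
        obtain ⟨j, hj, hj'⟩ := Finset.not_subset.1 hsub'
        exact lt_asymm (g1 i hi j hj') (g2 j hj i hi')
  · intro F z hF
    have g := (Part_lt h0 h1 F z (hne F z hF)).2 F.2.choose F.2.choose_spec
    have g1 : z ∈ tsupport (p F.2.choose) := subset_tsupport _ g
    exact hp F.2.choose g1

end Pool.Agent.MP_645085_gt.TOR
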