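import Pool.Agent.MP_645085_gt.TOR.Esc

/-!
# TOR row [TOR-PATH]: paths escaping from compact sets
-/

namespace Pool.Agent.MP_645085_gt.TOR

open Set Filter Topology TopologicalSpace Metric

variable {X : Type} [NormedAddCommGroup X] [Module ℝ X] [FN X]

/-- the pairs `(s' i, η' i)` -/
noncomputable def Path_seq (s : ℕ → ℝ) (g : ℝ → ℝ) : ℕ → ℝ × ℝ
  | 0 => (s 0 / 2, g (s 0 / 2))
  | i + 1 =>
    (min (s (i + 1) / 2) (min (Path_seq s g i).1 ((Path_seq s g i).2 / 4)),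
      min (g (min (s (i + 1) / 2) (min (Path_seq s g i).1 ((Path_seq s g i).2 / 4))))
        (Path_seq s g i).2)

lemma Path_seq_props (s : ℕ → ℝ) (hs : ∀ i, 0 < s i) (g : ℝ → ℝ) (hg : ∀ t, 0 < t → 0 < g t) :
    ∃ (s' η' : ℕ → ℝ), (∀ i, 0 < s' i) ∧ (∀ i, 0 < η' i) ∧ (∀ i, s' i ≤ s i / 2) ∧
      (∀ i, s' (i + 1) ≤ s' i) ∧ (∀ i, s' (i + 1) ≤ η' i / 4) ∧ (∀ i, η' i ≤ g (s' i)) ∧
      (∀ i, η' (i + 1) ≤ η' i) := by
  have hpos : ∀ i, 0 < (Path_seq s g i).1 ∧ 0 < (Path_seq s g i).2 := by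
    intro i
    induction i with
    | zero => exact ⟨half_pos (hs 0), hg _ (half_pos (hs 0))⟩
    | succ i ih =>
      have h1 : 0 < min (s (i + 1) / 2) (min (Path_seq s g i).1 ((Path_seq s g i).2 / 4)) :=
        lt_min (half_pos (hs _)) (lt_min ih.1 (by linarith [ih.2]))
      exact ⟨h1, lt_min (hg _ h1) ih.2⟩
  refine ⟨fun i => (Path_seq s g i).1, fun i => (Path_seq s g i).2, fun i => (hpos i).1,
    fun i => (hpos i).2, ?_, ?_, ?_, ?_, ?_⟩
  · intro i
    cases i with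
    | zero => exact le_rfl
    | succ i => exact min_le_left _ _
  · intro i
    exact (min_le_right _ _).trans (min_le_left _ _)
  · intro i
    exact (min_le_right _ _).trans (min_le_right _ _)
  · intro i
    cases i with
    | zero => exact le_rfl
    | succ i => exact min_le_left _ _
  · intro i
    exact min_le_right _ _

/-- the points `u i` -/
noncomputable def Path_u (e : ℕ → X → X) : ℕ → X
  | 0 => e 0 0
  | i + 1 => e (i + 1) (Path_u e i)

omit [FN X] in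
lemma Path_supp (u : ℕ → X) (σ : ℝ) (i : ℕ) (h : 1 ≤ |σ - i|) :
    cl01 (3 - 4 * |σ - i|) • u i = 0 := by
  rw [cl01_of_nonpos (by linarith), zero_smul]

lemma Path_cont (u : ℕ → X) : Continuous fun σ : ℝ => ∑ᶠ i : ℕ, cl01 (3 - 4 * |σ - i|) • u i := by
  refine continuous_finsum (fun i => ?_) ?_
  · exact (continuous_cl01.comp (by fun_prop)).smul continuous_const
  · intro σ₀
    refine ⟨ball σ₀ 1, ball_mem_nhds _ one_pos, ?_⟩
    refine (Set.finite_Iic ⌈|σ₀| + 2⌉₊).subset ?_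
    rintro i ⟨σ, h1, h2⟩
    rw [Function.mem_support] at h1
    rw [mem_ball, Real.dist_eq] at h2
    have h3 : |σ - i| < 1 := by
      by_contra h
      exact h1 (Path_supp u σ i (not_lt.1 h))
    have h4 : (i : ℝ) ≤ |σ₀| + 2 := by
      have h5 := (abs_lt.1 h2).2
      have h6 := (abs_lt.1 h3).1
      have h7 := le_abs_self σ₀
      linarith
    rw [mem_Iic]
    exact_mod_cast h4.trans (Nat.le_ceil _)

lemma Path_eval (u : ℕ → X) (σ : ℝ) (hσ : 0 ≤ σ) :
    ∑ᶠ i : ℕ, cl01 (3 - 4 * |σ - i|) • u i =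
      cl01 (3 - 4 * |σ - ⌊σ⌋₊|) • u ⌊σ⌋₊ +
        cl01 (3 - 4 * |σ - (⌊σ⌋₊ + 1 : ℕ)|) • u (⌊σ⌋₊ + 1) := by
  have h1 := Nat.floor_le hσ
  have h2 := Nat.lt_floor_add_one σ
  rw [finsum_eq_sum_of_support_subset (s := {⌊σ⌋₊, ⌊σ⌋₊ + 1})]
  · rw [Finset.sum_pair (by omega)]
  · intro i hi
    rw [Function.mem_support] at hi
    by_contra hc
    apply hi
    apply Path_supp
    simp only [Finset.coe_insert, Finset.coe_singleton, mem_insert_iff, mem_singleton_iff,
      not_or] at hc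
    rcases lt_or_ge i ⌊σ⌋₊ with h | h
    · have h3 : (i : ℝ) + 1 ≤ ⌊σ⌋₊ := by exact_mod_cast h
      exact le_trans (by linarith) (le_abs_self _)
    · have h3 : ⌊σ⌋₊ + 2 ≤ i := by omega
      have h4 : (⌊σ⌋₊ : ℝ) + 2 ≤ i := by exact_mod_cast h3
      exact le_trans (by linarith) (neg_le_abs _)

/-- [TOR-PATH] Paths `M : [0, ∞) → X` of prescribed decreasing size, far from a given compact set, with a
lower bound `η` not depending on the compact set. Proof. Choose recursively `s' i > 0`, `η' i > 0`: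
`s' i ≤ (1/2) min_{k ≤ i} s k`, `s' (i+1) ≤ η' i / 4`, `η' i` = the `η` of `exists_escape` for `s' i`
(made antitone by taking minima). Given `C`, choose `u i` recursively with `‖u i‖ ≤ s' i` and
`η' i ≤ ‖u i - c'‖` for `c' ∈ {c - λ • u (i-1) | c ∈ C, λ ∈ [0,1]}` (compact; for `i = 0` take `C`), and put
`M σ = ∑ᶠ i, cl01 (3 - 4 * |σ - i|) • u i`. For `σ ∈ [n, n+1]` only `i = n, n+1` contribute and one of
the two coefficients is `1`: if `|σ - n| ≤ 1/2` then `M σ = u n + τ • u (n+1)`, at distance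
`≥ η' n - η' n / 4` from `C`; otherwise `M σ = u (n+1) + τ • u n`, at distance `≥ η' (n+1)`. Take
`η n = η' (n+1) / 2` (antitone). -/
theorem exists_path (hX : ¬ FiniteDimensional ℝ X) (s : ℕ → ℝ) (hs : ∀ i, 0 < s i) :
    ∃ η : ℕ → ℝ, (∀ i, 0 < η i) ∧ Antitone η ∧ ∀ C : Set X, IsCompact C →
      ∃ M : ℝ → X, Continuous M ∧ (∀ σ, 0 ≤ σ → ‖M σ‖ ≤ s ⌊σ⌋₊) ∧
        ∀ σ, 0 ≤ σ → ∀ c ∈ C, η ⌊σ⌋₊ ≤ ‖M σ - c‖ := by
  have hex : ∀ t : ℝ, ∃ η : ℝ, 0 < t → 0 < η ∧ ∀ C : Set X, IsCompact C →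
      ∃ e : X, ‖e‖ ≤ t ∧ ∀ c ∈ C, η ≤ ‖e - c‖ := by
    intro t
    by_cases ht : 0 < t
    · obtain ⟨η, h1, h2⟩ := exists_escape hX t ht
      exact ⟨η, fun _ => ⟨h1, h2⟩⟩
    · exact ⟨0, fun h => absurd h ht⟩
  choose g hg using hex
  obtain ⟨s', η', hs', hη', h1, h2, h3, h4, h5⟩ :=
    Path_seq_props s hs g (fun t ht => (hg t ht).1)
  have hanti : Antitone η' := antitone_nat_of_succ_le h5
  refine ⟨fun n => η' (n + 1) / 2, fun i => half_pos (hη' _), ?_, ?_⟩
  · intro a b hab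
    have := hanti (Nat.succ_le_succ hab)
    simp only
    simp only [Nat.succ_eq_add_one] at this
    linarith
  · intro C hC
    have hstep : ∀ (i : ℕ) (x : X), ∃ e : X, ‖e‖ ≤ s' i ∧
        ∀ c ∈ C, ∀ l ∈ Icc (0:ℝ) 1, η' i ≤ ‖e - (c - l • x)‖ := by
      intro i x
      have hcomp : IsCompact ((fun p : X × ℝ => p.1 - p.2 • x) '' (C ×ˢ Icc (0:ℝ) 1)) :=
        (hC.prod isCompact_Icc).image
          (continuous_fst.sub (continuous_snd.smul continuous_const))
      obtain ⟨e, he, h⟩ := (hg (s' i) (hs' i)).2 _ hcomp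
      refine ⟨e, he, fun c hc l hl => ?_⟩
      exact (h4 i).trans (h _ ⟨(c, l), ⟨hc, hl⟩, rfl⟩)
    choose e he1 he2 using hstep
    have hu1 : ∀ i, ‖Path_u e i‖ ≤ s' i := by
      intro i
      cases i with
      | zero => exact he1 _ _
      | succ i => exact he1 _ _
    have hu2 : ∀ i, ∀ c ∈ C, η' i ≤ ‖Path_u e i - c‖ := by
      intro i c hc
      cases i with
      | zero =>
        have := he2 0 0 c hc 0 ⟨le_rfl, zero_le_one⟩
        rwa [zero_smul, sub_zero] at this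
      | succ i =>
        have := he2 (i + 1) (Path_u e i) c hc 0 ⟨le_rfl, zero_le_one⟩
        rwa [zero_smul, sub_zero] at this
    have hsm : ∀ (t : ℝ) (x : X), ‖cl01 t • x‖ ≤ ‖x‖ := fun t x => FN.smul_le _ _ (abs_cl01_le t)
    refine ⟨fun σ => ∑ᶠ i : ℕ, cl01 (3 - 4 * |σ - i|) • Path_u e i, Path_cont _, ?_, ?_⟩
    · intro σ hσ
      simp only
      rw [Path_eval _ σ hσ]
      refine (norm_add_le _ _).trans ?_
      have a1 := (hsm (3 - 4 * |σ - ⌊σ⌋₊|) (Path_u e ⌊σ⌋₊)).trans (hu1 _)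
      have a2 := (hsm (3 - 4 * |σ - (⌊σ⌋₊ + 1 : ℕ)|) (Path_u e (⌊σ⌋₊ + 1))).trans (hu1 _)
      linarith [h2 ⌊σ⌋₊, h1 ⌊σ⌋₊]
    · intro σ hσ c hc
      simp only
      rw [Path_eval _ σ hσ]
      have b1 := Nat.floor_le hσ
      have b2 := Nat.lt_floor_add_one σ
      set n := ⌊σ⌋₊ with hn
      rcases le_total (σ - n) (1 / 2) with h | h
      · have e1 : cl01 (3 - 4 * |σ - n|) = 1 := by
          apply cl01_of_one_le
          rw [abs_of_nonneg (by linarith)]
          linarith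
        rw [e1, one_smul]
        have a1 := hu2 n c hc
        have a2 := (hsm (3 - 4 * |σ - (n + 1 : ℕ)|) (Path_u e (n + 1))).trans (hu1 _)
        have a3 : ‖Path_u e n - c‖ ≤ ‖Path_u e n + cl01 (3 - 4 * |σ - (n + 1 : ℕ)|) •
            Path_u e (n + 1) - c‖ + ‖cl01 (3 - 4 * |σ - (n + 1 : ℕ)|) • Path_u e (n + 1)‖ := by
          refine le_trans (le_of_eq ?_) (norm_sub_le _ _)
          congr 1
          abel
        linarith [h3 n, h5 n, hη' n]
      · have e1 : cl01 (3 - 4 * |σ - (n + 1 : ℕ)|) = 1 := by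
          apply cl01_of_one_le
          push_cast
          rw [abs_of_nonpos (by linarith)]
          linarith
        rw [e1, one_smul]
        have a1 := he2 (n + 1) (Path_u e n) c hc (cl01 (3 - 4 * |σ - n|)) (cl01_mem _)
        have a2 : cl01 (3 - 4 * |σ - n|) • Path_u e n + Path_u e (n + 1) - c =
            e (n + 1) (Path_u e n) - (c - cl01 (3 - 4 * |σ - n|) • Path_u e n) := by
          rw [show Path_u e (n + 1) = e (n + 1) (Path_u e n) from rfl]
          abel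
        rw [a2]
        linarith [hη' (n + 1)]

end Pool.Agent.MP_645085_gt.TOR
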