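import Pool.Agent.MP_645085_gt.TOR.Lim

/-!
# TOR row [TOR-PSI]: closed embeddings of `X × P × [0, n]` near the projection
-/

namespace Pool.Agent.MP_645085_gt.TOR

open Set Filter Topology TopologicalSpace Metric Cardinal

variable {X P : Type} [NormedAddCommGroup X] [Module ℝ X] [FN X] [CompleteSpace X]
  [MetricSpace P] [CompleteSpace P]

theorem Psi_densLE_prod {κ : Cardinal.{0}} (hκ : ℵ₀ ≤ κ) {X P : Type} [TopologicalSpace X]
    [TopologicalSpace P] (hX : DensLE κ X) (hP : DensLE κ P) : DensLE κ (X × P) := by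
  obtain ⟨s, hs, hs'⟩ := hX
  obtain ⟨t, ht, ht'⟩ := hP
  refine ⟨s ×ˢ t, hs.prod ht, ?_⟩
  have h1 : #(s ×ˢ t : Set (X × P)) = #s * #t := by
    rw [Cardinal.mul_def]
    exact Cardinal.mk_congr (Equiv.Set.prod s t)
  rw [h1]
  exact Cardinal.mul_le_of_le hκ hs' ht'

/-- Density of `X × P × [0, n]`. -/
theorem densLE_prod_Icc {κ : Cardinal.{0}} (hκ : ℵ₀ ≤ κ) {X P : Type} [MetricSpace X]
    [MetricSpace P] (hX : DensLE κ X) (hP : DensLE κ P) (n : ℕ) :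
    DensLE κ (X × P × Icc (0 : ℝ) n) := by
  refine Psi_densLE_prod hκ hX (Psi_densLE_prod hκ hP ?_)
  obtain ⟨s, hs, hs'⟩ := TopologicalSpace.exists_countable_dense (Icc (0 : ℝ) n)
  exact ⟨s, hs', (Cardinal.le_aleph0_iff_set_countable.2 hs).trans hκ⟩

/-- The truncation to `X × P × [0, n]`. -/
def Psi_tr {X P : Type} (n : ℕ) (m : X × P × Ici (0 : ℝ)) : X × P × Icc (0 : ℝ) n :=
  (m.1, m.2.1, ⟨min (m.2.2 : ℝ) n, le_min m.2.2.2 (Nat.cast_nonneg n), min_le_right _ _⟩)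

/-- The inclusion of `X × P × [0, n]`. -/
def Psi_in {X P : Type} (n : ℕ) (z : X × P × Icc (0 : ℝ) n) : X × P × Ici (0 : ℝ) :=
  (z.1, z.2.1, ⟨(z.2.2 : ℝ), z.2.2.2.1⟩)

omit [CompleteSpace X] [CompleteSpace P] [Module ℝ X] [FN X] in
theorem Psi_tr_cont (n : ℕ) : Continuous (Psi_tr (X := X) (P := P) n) := by
  unfold Psi_tr
  refine Continuous.prodMk continuous_fst (Continuous.prodMk (by fun_prop) ?_)
  exact Continuous.subtype_mk (by fun_prop) _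

omit [CompleteSpace X] [CompleteSpace P] [Module ℝ X] [FN X] in
theorem Psi_in_cont (n : ℕ) : Continuous (Psi_in (X := X) (P := P) n) := by
  unfold Psi_in
  refine Continuous.prodMk continuous_fst (Continuous.prodMk (by fun_prop) ?_)
  exact Continuous.subtype_mk (by fun_prop) _

theorem Psi_in_tr {X P : Type} {n : ℕ} {m : X × P × Ici (0 : ℝ)} (h : (m.2.2 : ℝ) ≤ n) :
    Psi_in n (Psi_tr n m) = m := by
  unfold Psi_in Psi_tr
  refine Prod.ext rfl (Prod.ext rfl (Subtype.ext ?_))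
  exact min_eq_left h

omit [CompleteSpace X] [CompleteSpace P] [Module ℝ X] [FN X] in
theorem Psi_dist {n : ℕ} {m m' : X × P × Ici (0 : ℝ)} (h : (m.2.2 : ℝ) ≤ n)
    (h' : (m'.2.2 : ℝ) ≤ n) : dist m m' = dist (Psi_tr n m) (Psi_tr n m') := by
  unfold Psi_tr
  rw [Prod.dist_eq, Prod.dist_eq, Prod.dist_eq, Prod.dist_eq, Subtype.dist_eq, Subtype.dist_eq]
  simp only [min_eq_left h, min_eq_left h']

/-- The recursion step. -/
theorem Psi_step {κ : Cardinal.{0}} (hκ : ℵ₀ ≤ κ) [Nonempty P] (hD : DProp κ X)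
    (hX : DensLE κ X) (hP : DensLE κ P) (ε : X → ℝ) (hε : Ctl ε) (n : ℕ)
    (ψ : X × P × Ici (0 : ℝ) → X) (hψ : Continuous ψ) (σ : X → ℝ) (hσ : Ctl σ) :
    ∃ (ψ' : X × P × Ici (0 : ℝ) → X) (ρ : X → ℝ), Continuous ψ' ∧ Ctl ρ ∧
      (∀ m, (n : ℝ) + 1 ≤ (m.2.2 : ℝ) → ψ' m = ψ m) ∧
      (∀ m, ‖ψ' m - ψ m‖ ≤ (1 / 2 : ℝ) ^ (n + 5) *
        min (σ (ψ (Psi_in n (Psi_tr n m)))) (ε (ψ (Psi_in n (Psi_tr n m))))) ∧
      ∀ x, ∀ m : X × P × Ici (0 : ℝ), (m.2.2 : ℝ) ≤ n → ∀ m' : X × P × Ici (0 : ℝ),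
        (m'.2.2 : ℝ) ≤ n → dist (ψ' m) x < ρ x → dist (ψ' m') x < ρ x →
          dist m m' ≤ (1 / 2 : ℝ) ^ n := by
  haveI : Nonempty (Icc (0 : ℝ) n) := ⟨⟨0, le_rfl, Nat.cast_nonneg n⟩⟩
  have hc : Ctl fun x => (1 / 2 : ℝ) ^ (n + 5) * min (σ x) (ε x) :=
    Ctl.smul (hσ.min hε) (by positivity) (pow_le_one₀ (by norm_num) (by norm_num))
  have hv : Ctl fun _ : X × P × Icc (0 : ℝ) n => (1 / 2 : ℝ) ^ (n + 1) :=
    Ctl.const (by positivity) (pow_le_one₀ (by norm_num) (by norm_num))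
  obtain ⟨φ, hφ, hφg, hφv⟩ := hD (X × P × Icc (0 : ℝ) n) (densLE_prod_Icc hκ hX hP n)
    (fun z => ψ (Psi_in n z)) (hψ.comp (Psi_in_cont n)) _ hc _ hv
  set ψ' : X × P × Ici (0 : ℝ) → X := fun m =>
    ψ m + cl01 ((n : ℝ) + 1 - (m.2.2 : ℝ)) • (φ (Psi_tr n m) - ψ (Psi_in n (Psi_tr n m))) with hψ'
  have hψ'S : ∀ m : X × P × Ici (0 : ℝ), (m.2.2 : ℝ) ≤ n → ψ' m = φ (Psi_tr n m) := by
    intro m hm
    simp only [hψ']
    rw [cl01_of_one_le (by linarith), one_smul, Psi_in_tr hm]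
    abel
  have hloc : ∀ x : X, ∃ r > 0, ∀ m : X × P × Ici (0 : ℝ), (m.2.2 : ℝ) ≤ n →
      ∀ m' : X × P × Ici (0 : ℝ), (m'.2.2 : ℝ) ≤ n → dist (ψ' m) x < r → dist (ψ' m') x < r →
        dist m m' ≤ (1 / 2 : ℝ) ^ n := by
    intro x
    obtain ⟨r, hr, z, hz⟩ := hφv x
    refine ⟨r, hr, fun m hm m' hm' h h' => ?_⟩
    rw [hψ'S m hm] at h
    rw [hψ'S m' hm'] at h'
    rw [Psi_dist hm hm']
    refine (dist_triangle_right _ _ z).trans ?_
    have h1 := (hz _ h).le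
    have h2 := (hz _ h').le
    have h3 : (1 / 2 : ℝ) ^ n = (1 / 2 : ℝ) ^ (n + 1) + (1 / 2 : ℝ) ^ (n + 1) := by
      rw [pow_succ]; ring
    rw [h3]
    exact add_le_add h1 h2
  obtain ⟨ρ, hρ, hρQ⟩ := exists_ctl_of_local
    (fun (x : X) (r : ℝ) => ∀ m : X × P × Ici (0 : ℝ), (m.2.2 : ℝ) ≤ n →
      ∀ m' : X × P × Ici (0 : ℝ), (m'.2.2 : ℝ) ≤ n → dist (ψ' m) x < r → dist (ψ' m') x < r →
        dist m m' ≤ (1 / 2 : ℝ) ^ n)
    (by
      intro x y r s hQ _ hs m hm m' hm' h h'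
      refine hQ m hm m' hm' ?_ ?_
      · have := dist_triangle (ψ' m) y x
        rw [dist_comm y x] at this
        linarith
      · have := dist_triangle (ψ' m') y x
        rw [dist_comm y x] at this
        linarith) hloc
  refine ⟨ψ', ρ, ?_, hρ, ?_, ?_, fun x => hρQ x⟩
  · simp only [hψ']
    refine hψ.add (Continuous.smul ?_ ((hφ.comp (Psi_tr_cont n)).sub
      (hψ.comp ((Psi_in_cont n).comp (Psi_tr_cont n)))))
    refine continuous_cl01.comp ?_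
    fun_prop
  · intro m hm
    simp only [hψ']
    rw [cl01_of_nonpos (by linarith), zero_smul, add_zero]
  · intro m
    simp only [hψ']
    rw [add_sub_cancel_left]
    exact (FN.smul_le _ _ (abs_cl01_le _)).trans (hφg (Psi_tr n m))

/-- [TOR-PSI] Proof by `limit_lemma` for `M = X × P × Ici 0`, `S n = {t ≤ n}`. Recursion with state
`(ψ : X × P × Ici 0 → X continuous, σ : X → ℝ control)`, start `ψ (x, p, t) = x`, `σ = 1`. Step `n`: apply `hD`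
to `Z_n = X × P × Icc 0 n`, `g = ψ|Z_n`, control `(1/2)^(n+5) * min σ ε`, `v = (1/2)^(n+1)`: get
`φ : Z_n → X`; put `ψ' (x, p, t) = ψ (x, p, t) + cl01 (n + 1 - t) • (φ - ψ) (x, p, min t n)`, so `ψ' = φ` on
`S n`. `exists_ctl_of_local` for `Q x r := ∀ m m' ∈ S n, dist (ψ' m) x < r → dist (ψ' m') x < r →
dist m m' ≤ (1/2)^n` gives `ρ n`; `σ' = min σ (ρ n)`.
Bounds: on `S n`, `‖ψ' - ψ‖ ≤ (1/2)^(n+5) * min σ ε (ψ ·)`. For `m = (x, p, t)` one shows by induction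
`‖ψ_n m - x‖ ≤ ε x / 4` and `‖ψ_{n+1} m - ψ_n m‖ ≤ (1/2)^(n+4) * ε x`, and it is `0` if `t ≥ n + 1`; hence for the limit
`‖ψ (x, p, t) - x‖ ≤ ∑_{n > t - 1} (1/2)^(n+4) ε x ≤ (1/2)^t ε x` (real power; stated with `1 / 2 ^ t`). -/
theorem exists_psi {κ : Cardinal.{0}} (hκ : ℵ₀ ≤ κ) [Nonempty P] (hD : DProp κ X)
    (hX : DensLE κ X) (hP : DensLE κ P) (ε : X → ℝ) (hε : Ctl ε) :
    ∃ ψ : X × P × Ici (0 : ℝ) → X, Continuous ψ ∧
      (∀ q, ‖ψ q - q.1‖ ≤ ε q.1 * (1 / 2 : ℝ) ^ (q.2.2 : ℝ)) ∧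
      ∀ n : ℕ, IsClosedEmbedding
        (fun q : {q : X × P × Ici (0 : ℝ) // (q.2.2 : ℝ) ≤ n} => ψ q) := by
  haveI : CompleteSpace (Ici (0 : ℝ)) := isClosed_Ici.completeSpace_coe
  -- the recursion
  choose nψ nρ hc1 hc2 hz hb hs using fun (n : ℕ)
    (s : {s : (X × P × Ici (0 : ℝ) → X) × (X → ℝ) // Continuous s.1 ∧ Ctl s.2}) =>
    Psi_step hκ hD hX hP ε hε n s.1.1 s.2.1 s.1.2 s.2.2
  let st : ℕ → {s : (X × P × Ici (0 : ℝ) → X) × (X → ℝ) // Continuous s.1 ∧ Ctl s.2} :=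
    fun n => Nat.rec ⟨(fun m => m.1, fun _ => 1), continuous_fst, Ctl.const one_pos le_rfl⟩
      (fun n s => ⟨(nψ n s, fun x => min (s.1.2 x) (nρ n s x)), hc1 n s,
        s.2.2.min (hc2 n s)⟩) n
  let f : ℕ → X × P × Ici (0 : ℝ) → X := fun n => (st n).1.1
  let σ : ℕ → X → ℝ := fun n => (st n).1.2
  let ρ : ℕ → X → ℝ := fun n => nρ n (st n)
  have f0 : ∀ m, f 0 m = m.1 := fun m => rfl
  have σs : ∀ n x, σ (n + 1) x = min (σ n x) (ρ n x) := fun n x => rfl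
  have hfc : ∀ n, Continuous (f n) := fun n => (st n).2.1
  have hρ : ∀ n, Ctl (ρ n) := fun n => hc2 n (st n)
  have hσ : ∀ n, Ctl (σ n) := fun n => (st n).2.2
  have hz' : ∀ (n : ℕ) m, (n : ℝ) + 1 ≤ (m.2.2 : ℝ) → f (n + 1) m = f n m := fun n m h => hz n (st n) m h
  have hb' : ∀ n m, ‖f (n + 1) m - f n m‖ ≤ (1 / 2 : ℝ) ^ (n + 5) *
      min (σ n (f n (Psi_in n (Psi_tr n m)))) (ε (f n (Psi_in n (Psi_tr n m)))) :=
    fun n m => hb n (st n) m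
  have hs' : ∀ (n : ℕ) x, ∀ m : X × P × Ici (0 : ℝ), (m.2.2 : ℝ) ≤ n → ∀ m' : X × P × Ici (0 : ℝ),
        (m'.2.2 : ℝ) ≤ n → dist (f (n + 1) m) x < ρ n x → dist (f (n + 1) m') x < ρ n x →
          dist m m' ≤ (1 / 2 : ℝ) ^ n := fun n => hs n (st n)
  -- `σ k ≤ ρ n` for `n < k`
  have hσρ : ∀ n k x, n < k → σ k x ≤ ρ n x := by
    intro n k x hk
    induction k with
    | zero => omega
    | succ k ih =>
      rw [σs]
      rcases Nat.lt_succ_iff_lt_or_eq.1 hk with h | h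
      · exact (min_le_left _ _).trans (ih h)
      · rw [h]
        exact min_le_right _ _
  -- the set `S n`
  set S : ℕ → Set (X × P × Ici (0 : ℝ)) := fun n => {q | (q.2.2 : ℝ) ≤ n} with hS
  have hSc : ∀ n, IsClosed (S n) := by
    intro n
    refine isClosed_le ?_ continuous_const
    fun_prop
  have hSm : Monotone S := by
    intro a b hab m hm
    exact le_trans (show (m.2.2 : ℝ) ≤ (a : ℝ) from hm) (Nat.cast_le.2 hab)
  have h1 : ∀ k m, dist (f (k + 1) m) (f k m) ≤ (1 / 2 : ℝ) ^ k := by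
    intro k m
    rw [dist_eq_norm]
    refine (hb' k m).trans ?_
    have h2 : min (σ k (f k (Psi_in k (Psi_tr k m)))) (ε (f k (Psi_in k (Psi_tr k m)))) ≤ 1 :=
      (min_le_right _ _).trans (hε.le_one _)
    have h3 : (1 / 2 : ℝ) ^ (k + 5) ≤ (1 / 2 : ℝ) ^ k :=
      pow_le_pow_of_le_one (by norm_num) (by norm_num) (by omega)
    calc (1 / 2 : ℝ) ^ (k + 5) * _ ≤ (1 / 2 : ℝ) ^ (k + 5) * 1 :=
          mul_le_mul_of_nonneg_left h2 (by positivity)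
      _ ≤ _ := by rw [mul_one]; exact h3
  have h2 : ∀ n k, n < k → ∀ m ∈ S n, dist (f (k + 1) m) (f k m) ≤
      (1 / 2 : ℝ) ^ (k + 3) * ρ n (f k m) := by
    intro n k hnk m hm
    have hmk : (m.2.2 : ℝ) ≤ k := hSm hnk.le hm
    rw [dist_eq_norm]
    refine (hb' k m).trans ?_
    rw [Psi_in_tr hmk]
    have h3 : min (σ k (f k m)) (ε (f k m)) ≤ ρ n (f k m) :=
      (min_le_left _ _).trans (hσρ n k _ hnk)
    have h4 : (1 / 2 : ℝ) ^ (k + 5) ≤ (1 / 2 : ℝ) ^ (k + 3) :=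
      pow_le_pow_of_le_one (by norm_num) (by norm_num) (by omega)
    exact mul_le_mul h4 h3 (le_min ((hσ k).pos _).le (hε.pos _).le) (by positivity)
  obtain ⟨F, hF, hFd, hFe⟩ := limit_lemma S hSc hSm f hfc ρ hρ h1 h2
    (fun n x m hm m' hm' => hs' n x m hm m' hm')
  refine ⟨F, hF, ?_, hFe⟩
  -- the estimate
  have key : ∀ n m, ‖f n m - m.1‖ ≤ ε m.1 *
      max 0 ((1 / 2 : ℝ) ^ (⌊(m.2.2 : ℝ)⌋₊ + 3) - (1 / 2 : ℝ) ^ (n + 3)) := by
    intro n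
    induction n with
    | zero =>
      intro m
      rw [f0, sub_self, norm_zero]
      exact mul_nonneg (hε.pos _).le (le_max_left _ _)
    | succ n ih =>
      intro m
      by_cases hN : n + 1 ≤ ⌊(m.2.2 : ℝ)⌋₊
      · have h3 : (n : ℝ) + 1 ≤ (m.2.2 : ℝ) := by
          have h4 : ((n + 1 : ℕ) : ℝ) ≤ (m.2.2 : ℝ) := (Nat.le_floor_iff m.2.2.2).1 hN
          rwa [Nat.cast_add, Nat.cast_one] at h4
        rw [hz' n m h3]
        refine (ih m).trans (mul_le_mul_of_nonneg_left (max_le_max le_rfl ?_) (hε.pos _).le)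
        have h5 : (1 / 2 : ℝ) ^ (n + 1 + 3) ≤ (1 / 2 : ℝ) ^ (n + 3) :=
          pow_le_pow_of_le_one (by norm_num) (by norm_num) (by omega)
        linarith
      · have hN' : ⌊(m.2.2 : ℝ)⌋₊ ≤ n := by omega
        have h3 := ih m
        have h4 : (1 / 2 : ℝ) ^ (n + 3) ≤ (1 / 2 : ℝ) ^ (⌊(m.2.2 : ℝ)⌋₊ + 3) :=
          pow_le_pow_of_le_one (by norm_num) (by norm_num) (by omega)
        have h5 : (1 / 2 : ℝ) ^ (n + 1 + 3) ≤ (1 / 2 : ℝ) ^ (n + 3) :=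
          pow_le_pow_of_le_one (by norm_num) (by norm_num) (by omega)
        rw [max_eq_right (by linarith)] at h3
        rw [max_eq_right (by linarith)]
        -- the step
        have h6 := ih (Psi_in n (Psi_tr n m))
        have h7 : (Psi_in n (Psi_tr n m)).1 = m.1 := rfl
        rw [h7] at h6
        have h8 : max 0 ((1 / 2 : ℝ) ^ (⌊((Psi_in n (Psi_tr n m)).2.2 : ℝ)⌋₊ + 3) -
            (1 / 2 : ℝ) ^ (n + 3)) ≤ 1 := by
          refine max_le zero_le_one ?_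
          have h9 : (1 / 2 : ℝ) ^ (⌊((Psi_in n (Psi_tr n m)).2.2 : ℝ)⌋₊ + 3) ≤ 1 :=
            pow_le_one₀ (by norm_num) (by norm_num)
          have h10 : 0 ≤ (1 / 2 : ℝ) ^ (n + 3) := by positivity
          linarith
        have h9 : ‖f n (Psi_in n (Psi_tr n m)) - m.1‖ ≤ ε m.1 :=
          h6.trans (mul_le_of_le_one_right (hε.pos _).le h8)
        have h10 : ε (f n (Psi_in n (Psi_tr n m))) ≤ 2 * ε m.1 := by
          have h11 := hε.lip (f n (Psi_in n (Psi_tr n m))) m.1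
          rw [dist_eq_norm] at h11
          have h12 := le_abs_self (ε (f n (Psi_in n (Psi_tr n m))) - ε m.1)
          linarith
        have h11 : ‖f (n + 1) m - f n m‖ ≤ (1 / 2 : ℝ) ^ (n + 4) * ε m.1 := by
          refine (hb' n m).trans ?_
          have h12 : min (σ n (f n (Psi_in n (Psi_tr n m))))
              (ε (f n (Psi_in n (Psi_tr n m)))) ≤ 2 * ε m.1 := (min_le_right _ _).trans h10
          calc (1 / 2 : ℝ) ^ (n + 5) * _ ≤ (1 / 2 : ℝ) ^ (n + 5) * (2 * ε m.1) :=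
                mul_le_mul_of_nonneg_left h12 (by positivity)
            _ = _ := by rw [pow_succ (1 / 2 : ℝ) (n + 4)]; ring
        have h12 : f (n + 1) m - m.1 = (f (n + 1) m - f n m) + (f n m - m.1) := by abel
        rw [h12]
        refine (norm_add_le _ _).trans ((add_le_add h11 h3).trans (le_of_eq ?_))
        have h13 : (1 / 2 : ℝ) ^ (n + 3) = 2 * (1 / 2 : ℝ) ^ (n + 4) := by
          rw [pow_succ (1 / 2 : ℝ) (n + 3)]; ring
        have h14 : n + 1 + 3 = n + 4 := by omega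
        rw [h14, h13]
        ring
  intro q
  have hq0 : (0 : ℝ) ≤ (q.2.2 : ℝ) := q.2.2.2
  have h3 : ∀ n : ℕ, ‖F q - q.1‖ ≤ 2 * (1 / 2 : ℝ) ^ n +
      ε q.1 * (1 / 2 : ℝ) ^ (⌊(q.2.2 : ℝ)⌋₊ + 3) := by
    intro n
    have h4 : F q - q.1 = (F q - f n q) + (f n q - q.1) := by abel
    rw [h4]
    refine (norm_add_le _ _).trans (add_le_add ?_ ?_)
    · have := hFd n q
      rwa [dist_eq_norm] at this
    · refine (key n q).trans (mul_le_mul_of_nonneg_left (max_le (by positivity) ?_) (hε.pos _).le)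
      have h10 : 0 ≤ (1 / 2 : ℝ) ^ (n + 3) := by positivity
      linarith
  have h4 : ‖F q - q.1‖ ≤ ε q.1 * (1 / 2 : ℝ) ^ (⌊(q.2.2 : ℝ)⌋₊ + 3) := by
    have h5 : Tendsto (fun n : ℕ => 2 * (1 / 2 : ℝ) ^ n +
        ε q.1 * (1 / 2 : ℝ) ^ (⌊(q.2.2 : ℝ)⌋₊ + 3)) atTop
        (𝓝 (2 * 0 + ε q.1 * (1 / 2 : ℝ) ^ (⌊(q.2.2 : ℝ)⌋₊ + 3))) :=
      ((tendsto_pow_atTop_nhds_zero_of_lt_one (by norm_num) (by norm_num)).const_mul 2).add_const _
    rw [mul_zero, zero_add] at h5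
    exact ge_of_tendsto' h5 h3
  refine h4.trans (mul_le_mul_of_nonneg_left ?_ (hε.pos _).le)
  rw [← Real.rpow_natCast]
  refine Real.rpow_le_rpow_of_exponent_ge (by norm_num) (by norm_num) ?_
  have h5 := (Nat.lt_floor_add_one (q.2.2 : ℝ)).le
  push_cast
  linarith

end Pool.Agent.MP_645085_gt.TOR
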