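import Pool.Agent.MP_645085_gt.TOR.Lev

/-!
# TOR row [TOR-RAD]: the radial homeomorphism
-/

namespace Pool.Agent.MP_645085_gt.TOR

open Set Filter Topology TopologicalSpace Metric

/-- running infimum along the fibres -/
theorem Rad_exU {Z : Type} [TopologicalSpace Z] (w : Z × unitInterval → ℝ) (hw : Continuous w) :
    ∃ U : Z × unitInterval → ℝ, Continuous U ∧ (∀ z t, ∃ t' ≤ t, U (z, t) = w (z, t')) ∧
      (∀ z t t', t' ≤ t → U (z, t) ≤ w (z, t')) := by
  have hc : Continuous (fun p : (Z × unitInterval) × unitInterval => w (p.1.1, p.2 * p.1.2)) := by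
    fun_prop
  have key : ∀ q : Z × unitInterval, ∃ l ∈ (univ : Set unitInterval),
      sInf ((fun l : unitInterval => w (q.1, l * q.2)) '' univ) = w (q.1, l * q.2) ∧
        ∀ l' ∈ (univ : Set unitInterval), w (q.1, l * q.2) ≤ w (q.1, l' * q.2) := by
    intro q
    have hc' : Continuous (fun l : unitInterval => w (q.1, l * q.2)) := by fun_prop
    exact isCompact_univ.exists_sInf_image_eq_and_le univ_nonempty hc'.continuousOn
  refine ⟨fun q => sInf ((fun l : unitInterval => w (q.1, l * q.2)) '' univ),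
    IsCompact.continuous_sInf isCompact_univ hc, ?_, ?_⟩
  · intro z t
    obtain ⟨l, -, hl, -⟩ := key (z, t)
    exact ⟨l * t, unitInterval.mul_le_right, hl⟩
  · intro z t t' htt
    obtain ⟨l, -, hl, hmin⟩ := key (z, t)
    obtain ⟨l', hl'⟩ : ∃ l' : unitInterval, l' * t = t' := by
      by_cases h0 : t = 0
      · subst h0
        exact ⟨0, by rw [mul_zero]; exact (le_antisymm htt unitInterval.nonneg').symm⟩
      · have htpos : (0 : ℝ) < t := unitInterval.pos_iff_ne_zero.2 h0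
        refine ⟨⟨(t' : ℝ) / t, unitInterval.div_mem t'.2.1 t.2.1 htt⟩, ?_⟩
        apply Subtype.ext
        simp only [Set.Icc.coe_mul]
        exact div_mul_cancel₀ _ htpos.ne'
    calc _ = w (z, l * t) := hl
      _ ≤ w (z, l' * t) := hmin l' (mem_univ _)
      _ = w (z, t') := by rw [hl']

/-- fibrewise strictly increasing maps are homeomorphisms -/
theorem Rad_homeo {Z : Type} [TopologicalSpace Z] [T2Space Z] (R : Z × unitInterval → unitInterval)
    (hR : Continuous R) (hm : ∀ z, StrictMono fun t => R (z, t)) (h0 : ∀ z, R (z, 0) = 0)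
    (h1 : ∀ z, R (z, 1) = 1) :
    ∃ r : (Z × unitInterval) ≃ₜ (Z × unitInterval), ∀ q, r q = (q.1, R q) := by
  have hcont : Continuous (fun q : Z × unitInterval => (q.1, R q)) := by fun_prop
  have hprop : IsProperMap (fun q : Z × unitInterval => (q.1, R q)) := by
    refine isProperMap_of_comp_of_t2 (g := Prod.fst) hcont continuous_fst ?_
    exact (isProperMap_fst_of_compactSpace : IsProperMap (Prod.fst : Z × unitInterval → Z))
  have hinj : Function.Injective (fun q : Z × unitInterval => (q.1, R q)) := by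
    rintro ⟨z, t⟩ ⟨z', t'⟩ h
    simp only [Prod.mk.injEq] at h
    obtain ⟨rfl, h⟩ := h
    rw [(hm z).injective h]
  have hsurj : Function.Surjective (fun q : Z × unitInterval => (q.1, R q)) := by
    rintro ⟨z, y⟩
    have hc : Continuous fun t => R (z, t) := by fun_prop
    have hy : y ∈ Icc (R (z, 0)) (R (z, 1)) := by
      rw [h0, h1]; exact ⟨unitInterval.nonneg', unitInterval.le_one'⟩
    obtain ⟨t, ht⟩ := intermediate_value_univ (0 : unitInterval) 1 hc hy
    exact ⟨(z, t), by simp only at ht ⊢; rw [ht]⟩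
  exact ⟨(Equiv.ofBijective _ ⟨hinj, hsurj⟩).toHomeomorphOfContinuousClosed hcont
    hprop.isClosedMap, fun q => rfl⟩

/-- the function `g (s, τ) = s τ / (1 + s τ)` is Lipschitz in `τ` -/
theorem Rad_g_tau {s τ τ' : ℝ} (hs : 0 < s) (h : 0 ≤ τ) (h' : 0 ≤ τ') :
    |s * τ / (1 + s * τ) - s * τ' / (1 + s * τ')| ≤ s * |τ - τ'| := by
  have h1 : 0 ≤ s * τ := by positivity
  have h2 : 0 ≤ s * τ' := by positivity
  have e : s * τ / (1 + s * τ) - s * τ' / (1 + s * τ') =
      s * (τ - τ') / ((1 + s * τ) * (1 + s * τ')) := by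
    field_simp
    ring
  rw [e, abs_div, abs_mul, abs_of_pos hs,
    abs_of_pos (by positivity : 0 < (1 + s * τ) * (1 + s * τ'))]
  apply div_le_self (by positivity)
  nlinarith

theorem Rad_g_s {s s' τ m : ℝ} (hm : 0 < m) (hs : m ≤ s) (hs' : m ≤ s') (h : 0 ≤ τ) :
    |s * τ / (1 + s * τ) - s' * τ / (1 + s' * τ)| ≤ |s - s'| / (4 * m) := by
  have hs0 : 0 < s := hm.trans_le hs
  have hs0' : 0 < s' := hm.trans_le hs'
  have h1 : 0 ≤ s * τ := by positivity
  have h2 : 0 ≤ s' * τ := by positivity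
  have e : s * τ / (1 + s * τ) - s' * τ / (1 + s' * τ) =
      (s - s') * τ / ((1 + s * τ) * (1 + s' * τ)) := by
    field_simp
    ring
  rw [e, abs_div, abs_mul, abs_of_nonneg h,
    abs_of_pos (by positivity : 0 < (1 + s * τ) * (1 + s' * τ)), div_le_div_iff₀ (by positivity)
      (by positivity)]
  have h3 : m * τ ≤ s * τ := mul_le_mul_of_nonneg_right hs h
  have h4 : m * τ ≤ s' * τ := mul_le_mul_of_nonneg_right hs' h
  have h5 : 0 ≤ m * τ := by positivity
  have h6 : τ * (4 * m) ≤ (1 + s * τ) * (1 + s' * τ) := by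
    have h7 : (1 + m * τ) * (1 + m * τ) ≤ (1 + s * τ) * (1 + s' * τ) :=
      mul_le_mul (by linarith) (by linarith) (by linarith) (by linarith)
    nlinarith [sq_nonneg (1 - m * τ)]
  calc |s - s'| * τ * (4 * m) = |s - s'| * (τ * (4 * m)) := by ring
    _ ≤ |s - s'| * ((1 + s * τ) * (1 + s' * τ)) :=
      mul_le_mul_of_nonneg_left h6 (abs_nonneg _)

/-- [TOR-RAD] The radial homeomorphism. Let `s` be a control on `Z` with `s z ≤ v (z, t) / 8` for all `t`
and `s z ≤ δ z / 9` (`exists_ctl_slice`). By `hsep` for each `z` there is `ρ_z > 0` with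
`f (z', t') ∈ B(f (z, 1), ρ_z) → dist z' z < (s z)^2 / 4`; `Ost = ⋃ z, B(f (z, 1), ρ_z)`. Take `u` from
`exists_level`, `U (z, t) = ⨅_{t' ≤ t} u (f (z, t'))` (`= ⨅_{l ∈ [0,1]} u (f (z, l * t))`, continuous by
`IsCompact.continuous_sInf`), `N = s z * (1 - (1 - t) * U)`, and `r (z, t) = (z, N / (U + N))`: continuous,
`r (z, 0) = (z, 0)` (`U = 1`), `r (z, 1) = (z, 1)` (`U = 0`), strictly increasing in `t`
(`U` is antitone in `t` and positive for `t < 1`, `(1 - t) U` strictly antitone), so a continuous fibrewise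
increasing bijection, hence a homeomorphism (inverse continuous: if `r (z, t) = (z, y)` and `t' < t` then
`r_{z'} (t') < y'` for `(z', y')` near `(z, y)`; same for `t' > t`).
With `τ = 1 / U - 1 + t` (for `t < 1`) one has `r_z t = s τ / (1 + s τ)` and, by the last clause of
`exists_level`, `φ ≤ τ ≤ φ + 3` with `φ = 1 / u (f (z, t)) - 1`.
Conclusion for `x`:
* `x = f (z₀, 1) ∈ A`: second alternative with `q₁ = (z₀, 1)`, by `hsep` and continuity of `r` at `(z₀, 1)`;
* `x ∉ A`, `Φ = 1 / u x - 1 < 5`: near `x`, `φ < 5`, `τ < 8`, `r_z t ≤ 8 s z < δ z`: first alternative;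
* `x ∉ A`, `Φ ≥ 5`: `u x < 1`, so `x ∈ B(f (z₀, 1), ρ_{z₀})`. Second alternative with
  `q₁ = (z₀, s₀ Φ / (1 + s₀ Φ))`, `s₀ = s z₀`: near `x`, `dist z z₀ < s₀^2 / 4` and `|τ - Φ| ≤ 4`;
  `g (s, τ) = s τ / (1 + s τ)` satisfies `|g (s, τ) - g (s, τ')| ≤ s |τ - τ'|`,
  `|g (s, τ) - g (s', τ)| ≤ |s - s'| / (4 min (s, s'))`, so the distance in the `t`-coordinate is
  `≤ 4 s + s₀ / 12 ≤ 6 s₀ < v q₁`. -/
theorem exists_radial {Z X : Type} [MetricSpace Z] [MetricSpace X] (f : Z × unitInterval → X)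
    (hf : Continuous f) (hA : IsClosed (range fun z => f (z, 1)))
    (hsep : ∀ z, ∀ η > 0, ∃ ρ > 0, ∀ z' (t' : unitInterval), dist (f (z', t')) (f (z, 1)) < ρ →
      dist z' z < η ∧ 1 - (t' : ℝ) < η)
    (δ : Z → ℝ) (hδ : Ctl δ) (v : Z × unitInterval → ℝ) (hv : Ctl v) :
    ∃ r : (Z × unitInterval) ≃ₜ (Z × unitInterval), (∀ q, (r q).1 = q.1) ∧
      ∀ x, ∃ ρ > 0, (∀ q, dist (f q) x < ρ → ((r q).2 : ℝ) < δ q.1) ∨
        ∃ q₁, ∀ q, dist (f q) x < ρ → dist (r q) q₁ < v q₁ := by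
  -- the control `s`
  obtain ⟨s, hs, hsv, hsδ⟩ : ∃ s : Z → ℝ, Ctl s ∧ (∀ z t, s z ≤ v (z, t) / 8) ∧
      (∀ z, s z ≤ δ z / 9) := by
    obtain ⟨s₀, hs₀, hs₀v⟩ := exists_ctl_slice v hv
    refine ⟨fun z => min ((1 / 8) * s₀ z) ((1 / 9) * δ z),
      (hs₀.smul (by norm_num) (by norm_num)).min (hδ.smul (by norm_num) (by norm_num)), ?_, ?_⟩
    · intro z t
      have := hs₀v z t
      exact (min_le_left _ _).trans (by linarith)
    · intro z
      exact (min_le_right _ _).trans (by linarith)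
  have hspos := hs.pos
  have hsle := hs.le_one
  -- the radii
  choose ρ hρ hρs using fun z => hsep z ((s z) ^ 2 / 4) (by have := hspos z; positivity)
  obtain ⟨u, huc, hu0, hu1, hu0iff, huz0, huO, hulast⟩ := exists_level f hf hA hsep
    (⋃ z, ball (f (z, 1)) (ρ z)) (isOpen_iUnion fun z => isOpen_ball)
    (fun z => mem_iUnion.2 ⟨z, mem_ball_self (hρ z)⟩)
  -- `f (z, t) ∉ A` for `t < 1`
  have hfA : ∀ z (t : unitInterval), t < 1 → 0 < u (f (z, t)) := by
    intro z t ht
    refine lt_of_le_of_ne (hu0 _) (fun h => ?_)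
    obtain ⟨z', hz'⟩ := (hu0iff _).1 h.symm
    have ht' : (t : ℝ) < 1 := ht
    obtain ⟨ρ', hρ', h'⟩ := hsep z' (1 - t) (by linarith)
    have := (h' z t (by simp only at hz'; rw [← hz', dist_self]; exact hρ')).2
    exact lt_irrefl _ this
  obtain ⟨U, hUc, hUex, hUle⟩ := Rad_exU (fun q => u (f q)) (huc.comp hf)
  have hU0 : ∀ q, 0 ≤ U q := by
    rintro ⟨z, t⟩
    obtain ⟨t', -, h⟩ := hUex z t
    rw [h]; exact hu0 _
  have hU1 : ∀ q, U q ≤ 1 := by
    rintro ⟨z, t⟩
    obtain ⟨t', -, h⟩ := hUex z t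
    rw [h]; exact hu1 _
  have hUz0 : ∀ z, U (z, 0) = 1 := by
    intro z
    obtain ⟨t', ht', h⟩ := hUex z 0
    have : t' = 0 := le_antisymm ht' unitInterval.nonneg'
    rw [h, this, huz0]
  have hUz1 : ∀ z, U (z, 1) = 0 := by
    intro z
    refine le_antisymm ?_ (hU0 _)
    refine (hUle z 1 1 le_rfl).trans ?_
    exact ((hu0iff _).2 ⟨z, rfl⟩).le
  have hUpos : ∀ z (t : unitInterval), t < 1 → 0 < U (z, t) := by
    intro z t ht
    obtain ⟨t', ht', h⟩ := hUex z t
    rw [h]; exact hfA z t' (ht'.trans_lt ht)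
  have hUanti : ∀ z (t t' : unitInterval), t ≤ t' → U (z, t') ≤ U (z, t) := by
    intro z t t' htt
    obtain ⟨t₁, ht₁, h⟩ := hUex z t
    rw [h]; exact hUle z t' t₁ (ht₁.trans htt)
  have hphi1 : ∀ z (t : unitInterval), t < 1 → 1 / u (f (z, t)) ≤ 1 / U (z, t) := by
    intro z t ht
    exact one_div_le_one_div_of_le (hUpos z t ht) (hUle z t t le_rfl)
  have hphi2 : ∀ z (t : unitInterval), t < 1 → 1 / U (z, t) ≤ 1 / u (f (z, t)) + 2 := by
    intro z t ht
    obtain ⟨t', ht', h⟩ := hUex z t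
    rw [h]
    exact hulast z t' t ht' ht
  -- the function `R`
  let N : Z × unitInterval → ℝ := fun q => s q.1 * (1 - (1 - (q.2 : ℝ)) * U q)
  have hNc : Continuous N := by
    have := hs.continuous
    fun_prop
  have hN0 : ∀ q, 0 ≤ N q := by
    intro q
    have h1 := hU0 q
    have h2 := hU1 q
    have h3 := q.2.2.1
    have h4 := q.2.2.2
    have h5 : (1 - (q.2 : ℝ)) * U q ≤ 1 * 1 :=
      mul_le_mul (by linarith) h2 h1 (by norm_num)
    exact mul_nonneg (hspos _).le (by linarith)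
  have hden : ∀ q, 0 < U q + N q := by
    rintro ⟨z, t⟩
    by_cases ht : t < 1
    · have := hUpos z t ht
      have := hN0 (z, t)
      linarith
    · have ht1 : t = 1 := le_antisymm unitInterval.le_one' (not_lt.1 ht)
      subst ht1
      have h1 : N (z, 1) = s z := by
        simp only [N, Set.Icc.coe_one]
        ring
      rw [hUz1, h1, zero_add]
      exact hspos z
  have hRmem : ∀ q, N q / (U q + N q) ∈ unitInterval := by
    intro q
    refine ⟨div_nonneg (hN0 q) (hden q).le, ?_⟩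
    rw [div_le_one (hden q)]
    have := hU0 q
    linarith
  let R : Z × unitInterval → unitInterval := fun q => ⟨N q / (U q + N q), hRmem q⟩
  have hRc : Continuous R := by
    refine Continuous.subtype_mk ?_ _
    exact hNc.div (hUc.add hNc) (fun q => (hden q).ne')
  have hRmono : ∀ z, StrictMono fun t => R (z, t) := by
    intro z t t' htt
    have htt' : (t : ℝ) < t' := htt
    have ht1 : t < 1 := htt.trans_le unitInterval.le_one'
    have hUt := hUpos z t ht1
    have hUU := hUanti z t t' htt.le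
    have hN : N (z, t) < N (z, t') := by
      simp only [N]
      apply mul_lt_mul_of_pos_left _ (hspos z)
      have h1 : (1 - (t' : ℝ)) * U (z, t') ≤ (1 - (t' : ℝ)) * U (z, t) :=
        mul_le_mul_of_nonneg_left hUU (by have := t'.2.2; linarith)
      have h2 : (1 - (t' : ℝ)) * U (z, t) < (1 - (t : ℝ)) * U (z, t) :=
        mul_lt_mul_of_pos_right (by linarith) hUt
      linarith
    show R (z, t) < R (z, t')
    rw [← Subtype.coe_lt_coe]
    show N (z, t) / (U (z, t) + N (z, t)) < N (z, t') / (U (z, t') + N (z, t'))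
    rw [div_lt_div_iff₀ (hden _) (hden _)]
    have h3 : N (z, t) * U (z, t') ≤ N (z, t) * U (z, t) :=
      mul_le_mul_of_nonneg_left hUU (hN0 _)
    have h4 : N (z, t) * U (z, t) < N (z, t') * U (z, t) :=
      mul_lt_mul_of_pos_right hN hUt
    nlinarith
  have hR0 : ∀ z, R (z, 0) = 0 := by
    intro z
    apply Subtype.ext
    show N (z, 0) / (U (z, 0) + N (z, 0)) = 0
    have : N (z, 0) = 0 := by
      simp only [N, Set.Icc.coe_zero, hUz0]
      ring
    rw [this, zero_div]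
  have hR1 : ∀ z, R (z, 1) = 1 := by
    intro z
    apply Subtype.ext
    show N (z, 1) / (U (z, 1) + N (z, 1)) = 1
    have h1 : N (z, 1) = s z := by
      simp only [N, Set.Icc.coe_one]
      ring
    rw [hUz1, zero_add, h1, div_self (hspos z).ne']
  obtain ⟨r, hr⟩ := Rad_homeo R hRc hRmono hR0 hR1
  -- the formula with `τ`
  have htau : ∀ z (t : unitInterval), t < 1 → ∃ τ : ℝ, ((r (z, t)).2 : ℝ) = s z * τ / (1 + s z * τ) ∧
      1 / u (f (z, t)) - 1 ≤ τ ∧ τ ≤ 1 / u (f (z, t)) - 1 + 3 ∧ 0 ≤ τ := by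
    intro z t ht
    have hUt := hUpos z t ht
    have h1 := hphi1 z t ht
    have h2 := hphi2 z t ht
    have h3 := t.2.1
    have h4 := t.2.2
    have h5 : 1 ≤ 1 / u (f (z, t)) := one_le_one_div (hfA z t ht) (hu1 _)
    refine ⟨1 / U (z, t) - 1 + t, ?_, by linarith, by linarith, by linarith⟩
    rw [hr]
    show N (z, t) / (U (z, t) + N (z, t)) = _
    have hd := hden (z, t)
    have h6 : s z * (1 / U (z, t) - 1 + t) = N (z, t) / U (z, t) := by
      simp only [N]
      field_simp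
      ring
    have h7 : 1 + N (z, t) / U (z, t) = (U (z, t) + N (z, t)) / U (z, t) := by
      field_simp
    rw [h6, h7, div_div_div_cancel_right₀ hUt.ne']
  refine ⟨r, fun q => by rw [hr], fun x => ?_⟩
  by_cases hx : x ∈ range fun z => f (z, 1)
  · -- `x ∈ A`
    obtain ⟨z₀, rfl⟩ := hx
    have hrz : r (z₀, 1) = (z₀, 1) := by rw [hr, hR1]
    have hcont : Continuous r := r.continuous
    obtain ⟨η, hη, hη'⟩ := Metric.continuous_iff.1 hcont (z₀, 1) (v (z₀, 1)) (hv.pos _)
    obtain ⟨ρ', hρ', h'⟩ := hsep z₀ η hη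
    refine ⟨ρ', hρ', Or.inr ⟨(z₀, 1), ?_⟩⟩
    rintro ⟨z, t⟩ hq
    have h1 := h' z t hq
    have h2 := hη' (z, t) (by
      rw [Prod.dist_eq]
      refine max_lt h1.1 ?_
      rw [Subtype.dist_eq, Real.dist_eq, abs_sub_comm]
      show |(1 : ℝ) - t| < η
      rw [abs_of_nonneg (by have := t.2.2; linarith)]
      exact h1.2)
    rwa [hrz] at h2
  · -- `x ∉ A`
    have hux : 0 < u x := lt_of_le_of_ne (hu0 x) (fun h => hx ((hu0iff x).1 h.symm))
    have hcat : ContinuousAt (fun y => 1 / u y) x :=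
      continuousAt_const.div huc.continuousAt hux.ne'
    -- near `x`, `u > 0` and `|1/u - 1/u x| < 1`
    have hpos_t : ∀ q : Z × unitInterval, 0 < u (f q) → q.2 < 1 := by
      rintro ⟨z, t⟩ h
      refine lt_of_le_of_ne unitInterval.le_one' (fun h1 => ?_)
      simp only at h1
      rw [h1] at h
      exact h.ne' ((hu0iff _).2 ⟨z, rfl⟩)
    have hnear1 : ∀ᶠ y in 𝓝 x, 0 < u y := huc.continuousAt.eventually (lt_mem_nhds hux)
    by_cases hΦ : 1 / u x - 1 < 5
    · have hnear2 : ∀ᶠ y in 𝓝 x, 1 / u y < 6 :=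
        hcat.eventually (gt_mem_nhds (by linarith))
      obtain ⟨ρ', hρ', h'⟩ := Metric.eventually_nhds_iff.1 (hnear1.and hnear2)
      refine ⟨ρ', hρ', Or.inl ?_⟩
      rintro ⟨z, t⟩ hq
      obtain ⟨h1, h2⟩ := h' hq
      obtain ⟨τ, hτ, hτ1, hτ2, hτ0⟩ := htau z t (hpos_t _ h1)
      rw [hτ]
      have h3 : s z * τ / (1 + s z * τ) ≤ s z * τ := by
        have := hspos z
        apply div_le_self (by positivity)
        have : 0 ≤ s z * τ := by positivity
        linarith
      have h4 : s z * τ ≤ s z * 8 :=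
        mul_le_mul_of_nonneg_left (by linarith) (hspos z).le
      have h5 := hsδ z
      have h6 := hδ.pos z
      show _ < δ z
      linarith
    · push Not at hΦ
      have hux1 : u x < 1 := by
        by_contra hcon
        push Not at hcon
        have : 1 / u x ≤ 1 := by
          rw [div_le_one hux]; exact hcon
        linarith
      obtain ⟨z₀, hz₀⟩ := mem_iUnion.1 (huO x hux1)
      have hnear2 : ∀ᶠ y in 𝓝 x, 1 / u y < 1 / u x + 1 :=
        hcat.eventually (gt_mem_nhds (by linarith))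
      have hnear3 : ∀ᶠ y in 𝓝 x, 1 / u x - 1 < 1 / u y :=
        hcat.eventually (lt_mem_nhds (by linarith))
      have hnear4 : ∀ᶠ y in 𝓝 x, y ∈ ball (f (z₀, 1)) (ρ z₀) := isOpen_ball.mem_nhds hz₀
      obtain ⟨ρ', hρ', h'⟩ := Metric.eventually_nhds_iff.1
        (hnear1.and (hnear2.and (hnear3.and hnear4)))
      set Φ : ℝ := 1 / u x - 1 with hΦdef
      have hΦ0 : 0 ≤ Φ := by linarith
      have hs₀ := hspos z₀
      have hs₀1 := hsle z₀
      have hmem : s z₀ * Φ / (1 + s z₀ * Φ) ∈ unitInterval := by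
        have : 0 ≤ s z₀ * Φ := by positivity
        refine ⟨by positivity, ?_⟩
        rw [div_le_one (by positivity)]
        linarith
      refine ⟨ρ', hρ', Or.inr ⟨(z₀, ⟨_, hmem⟩), ?_⟩⟩
      rintro ⟨z, t⟩ hq
      obtain ⟨h1, h2, h3, h4⟩ := h' hq
      obtain ⟨τ, hτ, hτ1, hτ2, hτ0⟩ := htau z t (hpos_t _ h1)
      have h5 := (hρs z₀ z t h4).1
      have h6 := hsv z₀ ⟨_, hmem⟩
      have hss : |s z - s z₀| < (s z₀) ^ 2 / 4 := (hs.lip z z₀).trans_lt h5
      have hsq : (s z₀) ^ 2 ≤ s z₀ := by nlinarith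
      have hlow : 3 / 4 * s z₀ ≤ s z := by
        have := (abs_lt.1 hss).1
        linarith
      rw [Prod.dist_eq]
      refine max_lt ?_ ?_
      · have h7 : dist (r (z, t)).1 z₀ = dist z z₀ := by rw [hr]
        show dist (r (z, t)).1 z₀ < _
        rw [h7]
        linarith
      · show dist (r (z, t)).2 _ < _
        rw [Subtype.dist_eq, hτ, Real.dist_eq]
        show |s z * τ / (1 + s z * τ) - s z₀ * Φ / (1 + s z₀ * Φ)| < _
        have h8 := Rad_g_s (s := s z) (s' := s z₀) (τ := τ) (m := 3 / 4 * s z₀)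
          (by positivity) hlow (by linarith) hτ0
        have h9 := Rad_g_tau (s := s z₀) (τ := τ) (τ' := Φ) hs₀ hτ0 hΦ0
        have h10 : |τ - Φ| ≤ 4 := by
          rw [abs_le]; constructor <;> linarith
        have h11 : s z₀ * |τ - Φ| ≤ s z₀ * 4 := mul_le_mul_of_nonneg_left h10 hs₀.le
        have h12 : |s z - s z₀| / (4 * (3 / 4 * s z₀)) ≤ s z₀ / 12 := by
          rw [div_le_iff₀ (by positivity)]
          nlinarith
        have h13 := abs_sub_le (s z * τ / (1 + s z * τ)) (s z₀ * τ / (1 + s z₀ * τ))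
          (s z₀ * Φ / (1 + s z₀ * Φ))
        have h14 := hv.pos (z₀, ⟨_, hmem⟩)
        linarith

end Pool.Agent.MP_645085_gt.TOR
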