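import Pool.Agent.MP_645085_gt.TOR.Shrink

/-!
# TOR row [TOR-SEQ]: the shrinking sequence over a strong Z-set
-/

namespace Pool.Agent.MP_645085_gt.TOR

open Set Filter Topology TopologicalSpace Metric

variable {X P H : Type} [NormedAddCommGroup X] [Module ℝ X] [FN X] [MetricSpace P]
  [AddCommGroup P] [Module ℝ P] [IsTopologicalAddGroup P] [ContinuousSMul ℝ P]
  [NormedAddCommGroup H] [NormedSpace ℝ H]

/-- one step of the recursion -/
theorem Seq_step (data : Data X P H) (A : Set X) (hA : IsClosed A)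
    (hne : A.Nonempty) (hZ : ZSet A) (ε : X → ℝ) (hε : Ctl ε) (n : ℕ) (G : MM X P ≃ₜ MM X P)
    (O : Set X) (hO : IsOpen O) (hAO : A ⊆ O) (hG : ∀ a ∈ A, G (a, 0, 1) = (a, 0, 1)) :
    ∃ (R : MM X P ≃ₜ MM X P) (O' : Set X), IsOpen O' ∧ A ⊆ O' ∧ closure O' ⊆ O ∧
      (∀ x ∈ O', infDist x A < (1 / 2) ^ n) ∧ (∀ a ∈ A, R (a, 0, 1) = (a, 0, 1)) ∧
      (∀ m, m.1 ∉ O → R m = m) ∧
      (∀ m, (R (G m)).1 ∈ O' → dist m ((G m).1, 0, 1) < (1 / 2) ^ n) ∧
      (∀ m, ‖(R m).1 - m.1‖ ≤ (1 / 2) ^ (n + 3) * ε m.1) := by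
  have hpow : (0 : ℝ) < (1 / 2) ^ n := by positivity
  set N : Set (MM X P) := {m | dist (G.symm m) (m.1, 0, 1) < (1 / 2) ^ n} with hN
  have hNo : IsOpen N := by
    refine isOpen_lt (Continuous.dist G.symm.continuous ?_) continuous_const
    exact continuous_fst.prodMk continuous_const
  set V : Set X := {x | ((x, 0, 1) : MM X P) ∈ N} with hV
  have hVo : IsOpen V := hNo.preimage (continuous_id.prodMk continuous_const)
  have hAV : A ⊆ V := by
    intro a ha
    change dist (G.symm (a, 0, 1)) (a, 0, 1) < (1 / 2) ^ n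
    have h1 : G.symm (a, 0, 1) = (a, 0, 1) := by
      rw [Homeomorph.symm_apply_eq]
      exact (hG a ha).symm
    rw [h1, dist_self]
    exact hpow
  obtain ⟨V', hV'o, hAV', hV'V⟩ := normal_exists_closure_subset hA hVo hAV
  obtain ⟨ω, hω, hωQ⟩ := exists_ctl_of_local
    (fun (x : X) (r : ℝ) => ∀ (y : X) (p : P) (t : unitInterval), dist x y < r → y ∈ V' →
      dist p 0 < r → 1 - (t : ℝ) < r → ((y, p, t) : MM X P) ∈ N)
    (by
      intro x y r s hQ hs hr z p t hyz hz hp ht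
      have h0 : 0 ≤ dist x y := dist_nonneg
      refine hQ z p t ?_ hz (by linarith) (by linarith)
      have := dist_triangle x y z
      linarith)
    (by
      intro x
      by_cases hx : x ∈ V
      · obtain ⟨r, hr, hb⟩ := Metric.isOpen_iff.1 hNo _ hx
        refine ⟨r, hr, fun y p t hy _ hp ht => hb ?_⟩
        rw [Metric.mem_ball, Prod.dist_eq, Prod.dist_eq, max_lt_iff, max_lt_iff]
        refine ⟨by rw [dist_comm]; exact hy, hp, ?_⟩
        rw [Subtype.dist_eq, Real.dist_eq, abs_sub_comm, abs_of_nonneg]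
        · exact ht
        · have := t.2.2
          simp only [Set.Icc.coe_one]
          linarith
      · have hx' : x ∈ (closure V')ᶜ := fun h => hx (hV'V h)
        obtain ⟨r, hr, hb⟩ := Metric.isOpen_iff.1 isClosed_closure.isOpen_compl _ hx'
        refine ⟨r, hr, fun y p t hy hy' _ _ => ?_⟩
        exact absurd (subset_closure hy') (hb (by rw [Metric.mem_ball, dist_comm]; exact hy)))
  set O1 : Set X := (O ∩ V') ∩ {x | infDist x A < (1 / 2) ^ n} with hO1
  have hO1o : IsOpen O1 := (hO.inter hV'o).inter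
    (isOpen_lt (continuous_infDist_pt A) continuous_const)
  have hAO1 : A ⊆ O1 := by
    intro a ha
    refine ⟨⟨hAO ha, hAV' ha⟩, ?_⟩
    change infDist a A < (1 / 2) ^ n
    rw [infDist_zero_of_mem ha]
    exact hpow
  obtain ⟨R, hR1, hR2, hR3, O', hO'o, hAO', hR4⟩ := exists_shrink (P := P) (H := H) data A hA hne hZ
    O1 hO1o hAO1 (fun x => (1 / 2) ^ (n + 3) * ε x)
    (hε.smul (by positivity) (pow_le_one₀ (by norm_num) (by norm_num))) ω hω
  obtain ⟨O2, hO2o, hAO2, hO2⟩ := normal_exists_closure_subset hA (hO'o.inter hO1o)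
    (subset_inter hAO' hAO1)
  have hsub : O2 ⊆ O' ∩ O1 := subset_closure.trans hO2
  refine ⟨R, O2, hO2o, hAO2, fun x hx => (hO2 hx).2.1.1, fun x hx => (hsub hx).2.2, hR2,
    fun m hm => hR1 m fun h => hm h.1.1, fun m hm => ?_, hR3⟩
  obtain ⟨h1, h2, h3⟩ := hR4 (G m) (hsub hm).1
  have h4 := hωQ (G m).1 (G m).1 (G m).2.1 (G m).2.2 (by rw [dist_self]; exact hω.pos _) h1.1.2 h2 h3
  change dist (G.symm (G m)) ((G m).1, 0, 1) < (1 / 2) ^ n at h4
  rwa [Homeomorph.symm_apply_apply] at h4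

/-- [TOR-SEQ] Recursion with state `(G : MM X P ≃ₜ MM X P, O : Set X)`, `O` open, `A ⊆ O`,
`G (a, 0, 1) = (a, 0, 1)` for `a ∈ A`; start `(refl, univ)`. Step `n`: the set
`N = {m | dist (G⁻¹ m) (m.1, 0, 1) < (1/2)^n}` is open and contains `(a, 0, 1)` for `a ∈ A`.
`V = {x | (x, 0, 1) ∈ N}` is open, `A ⊆ V`. Take `V'` open with `A ⊆ V' ⊆ closure V' ⊆ V` and a control `ω` such
that `x ∈ V'`, `dist p 0 < ω x`, `1 - t < ω x` imply `(x, p, t) ∈ N` (`exists_ctl_of_local` for the property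
`Q x r := ∀ y p t, dist x y < r → y ∈ V' → dist p 0 < r → 1 - t < r → (y, p, t) ∈ N`; local existence: at
`x ∈ closure V' ⊆ V` because `(x, 0, 1) ∈ N`, elsewhere a small ball misses `V'`).
Apply `exists_shrink` with the open set `O* = O ∩ V' ∩ {x | infDist x A < (1/2)^n}`, the control
`(1/2)^(n+3) * ε` and `ω`: get `R, O'`. New state `(G.trans R, O₊)` with `O₊` open,
`A ⊆ O₊ ⊆ closure O₊ ⊆ O' ∩ O*`.
`stable`: `R` is the identity off `O* ⊆ O`. `small`: if `(R (G m)).1 ∈ O₊ ⊆ O'` then `(G m).1 ∈ O* ⊆ V'`,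
and the two inequalities for `ω` hold, so `G m ∈ N`, i.e. `dist m ((G m).1, 0, 1) < (1/2)^n`. -/
theorem exists_shrinkSeq (data : Data X P H) (A : Set X) (hA : IsClosed A)
    (hne : A.Nonempty) (hZ : ZSet A) (ε : X → ℝ) (hε : Ctl ε) :
    ∃ (G : ℕ → (MM X P ≃ₜ MM X P)) (O : ℕ → Set X), ShrinkSeq A ε G O := by
  classical
  choose! R O' h1 h2 h3 h4 h5 h6 h7 h8 using
    fun (n : ℕ) (G : MM X P ≃ₜ MM X P) (O : Set X) (h : IsOpen O ∧ A ⊆ O ∧
      ∀ a ∈ A, G (a, 0, 1) = (a, 0, 1)) =>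
    Seq_step (H := H) data A hA hne hZ ε hε n G O h.1 h.2.1 h.2.2
  let S : ℕ → (MM X P ≃ₜ MM X P) × Set X := fun n =>
    Nat.rec (Homeomorph.refl _, univ) (fun n s => (s.1.trans (R n s.1 s.2), O' n s.1 s.2)) n
  have S0 : S 0 = (Homeomorph.refl _, univ) := rfl
  have Ss : ∀ n, S (n + 1) = ((S n).1.trans (R n (S n).1 (S n).2), O' n (S n).1 (S n).2) :=
    fun n => rfl
  have inv : ∀ n, IsOpen (S n).2 ∧ A ⊆ (S n).2 ∧ ∀ a ∈ A, (S n).1 (a, 0, 1) = (a, 0, 1) := by
    intro n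
    induction n with
    | zero =>
      rw [S0]
      exact ⟨isOpen_univ, subset_univ _, fun a _ => rfl⟩
    | succ n ih =>
      rw [Ss]
      refine ⟨h1 n _ _ ih, h2 n _ _ ih, fun a ha => ?_⟩
      simp only [Homeomorph.trans_apply]
      rw [ih.2.2 a ha]
      exact h5 n _ _ ih a ha
  refine ⟨fun n => (S n).1, fun n => (S n).2, ?_⟩
  constructor
  · intro m
    simp only [S0]
    rfl
  · exact fun n => (inv n).1
  · exact fun n => (inv n).2.1
  · intro n
    rw [Ss]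
    exact h3 n _ _ (inv n)
  · intro n x hx
    rw [Ss] at hx
    exact h4 n _ _ (inv n) x hx
  · exact fun n => (inv n).2.2
  · intro n m hm
    rw [Ss]
    simp only [Homeomorph.trans_apply]
    exact h6 n _ _ (inv n) _ hm
  · intro n m hm
    rw [Ss] at hm
    simp only [Homeomorph.trans_apply] at hm
    exact h7 n _ _ (inv n) m hm
  · intro n m
    rw [Ss]
    simp only [Homeomorph.trans_apply]
    exact h8 n _ _ (inv n) _

end Pool.Agent.MP_645085_gt.TOR
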