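import Pool.Agent.MP_645085_gt.TOR.K1
import Pool.Agent.MP_645085_gt.TOR.K3
import Pool.Agent.MP_645085_gt.TOR.Moeb

/-!
# TOR row [TOR-SHR]: one shrinking step over a strong Z-set
-/

namespace Pool.Agent.MP_645085_gt.TOR

open Set Filter Topology TopologicalSpace Metric

lemma Shrink_dist_fun {X : Type} [NormedAddCommGroup X] {O₁ : Set X} (hO₁ : IsOpen O₁) :
    ∃ c : X → ℝ, Continuous c ∧ (∀ x, 0 ≤ c x) ∧ (∀ x ∈ O₁, 0 < c x) ∧
      ∀ x y, ‖y - x‖ < c x → y ∈ O₁ := by
  by_cases h : (O₁ᶜ).Nonempty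
  · refine ⟨fun x => infDist x O₁ᶜ, continuous_infDist_pt _, fun x => infDist_nonneg, ?_, ?_⟩
    · intro x hx
      have h1 : x ∉ closure O₁ᶜ := by
        rw [hO₁.isClosed_compl.closure_eq]
        exact fun h => h hx
      have h2 := (mem_closure_iff_infDist_zero h).not.1 h1
      exact lt_of_le_of_ne infDist_nonneg (Ne.symm h2)
    · intro x y hxy
      by_contra hy
      have h1 := infDist_le_dist_of_mem (x := x) (show y ∈ O₁ᶜ from hy)
      rw [dist_comm, dist_eq_norm] at h1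
      exact absurd hxy (not_lt.2 h1)
  · have h1 : O₁ = univ := by
      rw [not_nonempty_iff_eq_empty, compl_empty_iff] at h
      exact h
    refine ⟨fun _ => 1, continuous_const, fun _ => zero_le_one, fun _ _ => one_pos, ?_⟩
    intro x y _
    rw [h1]
    trivial

variable {X P H : Type} [NormedAddCommGroup X] [Module ℝ X] [FN X] [MetricSpace P]
  [AddCommGroup P] [Module ℝ P] [IsTopologicalAddGroup P] [ContinuousSMul ℝ P]
  [NormedAddCommGroup H] [NormedSpace ℝ H]

/-- [TOR-SHR] One shrinking step. `R = S⁻¹` with `S = g₁ ∘ r ∘ K⁻¹`.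

Let `O₁` be open with `A ⊆ O₁ ⊆ closure O₁ ⊆ O` and `χ : X → [0,1]` continuous, `χ = 1` on `O₁`, `χ = 0` off `O`.
`c x = infDist x O₁ᶜ` (`c = 1` if `O₁ᶜ = ∅`), `d x = infDist x A`; let `ε'` be a control function with
`ε' ≤ min ε ((c + d) / 4)` (`exists_ctl_le`; `c + d > 0` because `c > 0` on `A` and `A` is closed).
`κ` from `ZSet A` for the control `ε' / 4`. `K` from `exists_K1` for `κ, ε', χ`. `g₁` = the
homeomorphism of `exists_K3` for `ω, χ`, conjugated by the flip `t ↦ 1 - t`: so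
`g₁ (x, p, 1) = (x, j (x, p), 1)` where `χ x = 1`.

Claim: for `a ∈ A` there is `ρ > 0` with `‖(K y).1 - a‖ ≥ ρ` for all `y` with `y.2.2 = 0` or `χ y.1 < 1`.
If `c x > ε' x` then the ball `‖y - x‖ ≤ ε' x` is contained in `O₁`, so `χ x = 1` and
`(K (x, p, 0)).1 = κ x`, which stays away from `a` by `ZSet`. If `c x ≤ ε' x` then
`ε' x ≤ (ε' x + d x) / 4`, so `ε' x ≤ d x / 3`; if there were such `x_n = (y_n).1` with
`(K y_n).1 → a`, then `d x_n ≤ d x_n / 3 + ‖(K y_n).1 - a‖`, so `d x_n → 0`, `x_n → a`, contradicting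
`c a > ε' a` (`ε' a ≤ c a / 4`) and continuity.

Let `O' = X \ closure {(K y).1 | y.2.2 = 0 ∨ χ y.1 < 1} ⊇ A`, `A ⊆ O'' ⊆ closure O'' ⊆ O'`, `O''` open
(this `O''` is the set `O'` of the statement) and `Y = K⁻¹ {m | m.1 ∈ closure O''}`: closed, disjoint from
`{t = 0}`, and `χ = 1` on it. By `exists_ctl_tube` there is a control `c' : X × P → ℝ` with
`t ≥ c' (x, p)` for `(x, p, t) ∈ Y`. Let `N = {(x, p, t) | dist p 0 < ω x, 1 - t < ω x}` (open);
`g₁⁻¹ N` contains `(x, p, 1)` if `χ x = 1`; by `exists_ctl_tube` (flipped, applied to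
`g₁⁻¹ N ∪ {χ ≠ 1}`, which is open) there is a control `δ : X × P → ℝ` with `(x, p, t) ∈ g₁⁻¹ N` whenever
`χ x = 1`, `1 - t < δ (x, p)`. Put `e = (1 - χ) + χ * c' * δ / 2 > 0`, `r` = `exists_moebius`.
For `(z, t) ∈ Y`: `t ≥ c' z` and `1 - r t ≤ e / t ≤ δ / 2 < δ`. So `g₁ (r y) ∈ N` for `y ∈ Y`.
If `χ x = 0` all three maps are the identity at `(x, p, t)`. `K` fixes `(a, 0, 1)` since `t = 1 ≥ 3/4`;
`r` fixes `t = 1`; `g₁ (a, 0, 1) = (a, j (a, 0), 1) = (a, 0, 1)`. Only `K` changes the `X`-coordinate: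
`R m = K m'` with `m'.1 = m.1`. Finally `(R m).1 ∈ O''` means `m = S y`, `y = R m`, `K⁻¹ y ∈ Y`,
so `m ∈ N`, `m.1 = (K⁻¹ y).1` with `χ = 1` there, so `m.1 ∈ O`. -/
theorem exists_shrink (data : Data X P H) (A : Set X) (hA : IsClosed A)
    (hne : A.Nonempty) (hZ : ZSet A) (O : Set X) (hO : IsOpen O) (hAO : A ⊆ O) (ε : X → ℝ) (hε : Ctl ε) (ω : X → ℝ) (hω : Ctl ω) :
    ∃ R : MM X P ≃ₜ MM X P, (∀ m, m.1 ∉ O → R m = m) ∧ (∀ a ∈ A, R (a, 0, 1) = (a, 0, 1)) ∧
      (∀ m, ‖(R m).1 - m.1‖ ≤ ε m.1) ∧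
      ∃ O' : Set X, IsOpen O' ∧ A ⊆ O' ∧ ∀ m, (R m).1 ∈ O' →
        m.1 ∈ O ∧ dist m.2.1 0 < ω m.1 ∧ 1 - (m.2.2 : ℝ) < ω m.1 := by
  -- the open set `O₁` and the cut-off `χ`
  obtain ⟨O₁, hO₁, hAO₁, hcl₁⟩ := normal_exists_closure_subset hA hO hAO
  obtain ⟨χ, hχa, hχb, hχc⟩ := exists_continuous_zero_one_of_isClosed hO.isClosed_compl
    (isClosed_closure (s := O₁)) (disjoint_compl_left_iff_subset.2 hcl₁)
  have hχO : ∀ x, x ∉ O → χ x = 0 := fun x hx => hχa hx
  have hχ1 : ∀ x ∈ O₁, χ x = 1 := fun x hx => hχb (subset_closure hx)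
  -- the control `ε'`
  obtain ⟨c, hcc, hc0, hcpos, hcO⟩ := Shrink_dist_fun hO₁
  have hdpos : ∀ x, 0 < c x + infDist x A := by
    intro x
    by_cases hx : x ∈ A
    · exact add_pos_of_pos_of_nonneg (hcpos x (hAO₁ hx)) infDist_nonneg
    · have h1 : x ∉ closure A := by rwa [hA.closure_eq]
      have h2 := (mem_closure_iff_infDist_zero hne).not.1 h1
      exact add_pos_of_nonneg_of_pos (hc0 x) (lt_of_le_of_ne infDist_nonneg (Ne.symm h2))
  obtain ⟨ε', hε', hε'le⟩ := exists_ctl_le (fun x => min (ε x) ((c x + infDist x A) / 4))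
    (hε.continuous.min ((hcc.add (continuous_infDist_pt _)).div_const 4))
    (fun x => lt_min (hε.pos x) (by have := hdpos x; positivity))
  have hε'1 : ∀ x, ε' x ≤ ε x := fun x => (hε'le x).trans (min_le_left _ _)
  have hε'2 : ∀ x, ε' x ≤ (c x + infDist x A) / 4 := fun x => (hε'le x).trans (min_le_right _ _)
  obtain ⟨κ, hκ, hκε, hκA⟩ := hZ (fun x => 1 / 4 * ε' x) (hε'.smul (by norm_num) (by norm_num))
  obtain ⟨K, hK1, hK2, hK3, hK4⟩ := exists_K1 data κ hκ ε' hε'
    (fun x => by have := hκε x; linarith) χ χ.continuous (fun x => (hχc x).1) (fun x => (hχc x).2)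
  obtain ⟨j, g, hj0, hjω, hg1, hgχ, hg⟩ := exists_K3 data ω hω χ χ.continuous
    (fun x => (hχc x).1) (fun x => (hχc x).2)
  -- the claim
  have claim : ∀ a ∈ A, ∃ ρ > 0, ∀ y : MM X P, (y.2.2 = 0 ∨ χ y.1 < 1) → ρ ≤ ‖(K y).1 - a‖ := by
    intro a ha
    obtain ⟨r, hr, hra⟩ := hκA a ha
    have h1 : ε' a < c a := by
      have h2 := hε'2 a
      have h3 : infDist a A = 0 := infDist_zero_of_mem ha
      have h4 := hcpos a (hAO₁ ha)
      linarith
    have h2 : ∀ᶠ x in 𝓝 a, ε' x < c x :=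
      (isOpen_lt hε'.continuous hcc).mem_nhds h1
    obtain ⟨ρ₀, hρ₀, hρ₀a⟩ := Metric.eventually_nhds_iff.1 h2
    refine ⟨min r (2 / 3 * ρ₀), lt_min hr (by positivity), ?_⟩
    rintro ⟨x, p, t⟩ hy
    by_cases hx : ε' x < c x
    · have h3 : ∀ y, ‖y - x‖ ≤ ε' x → χ y = 1 := fun y hy => hχ1 y (hcO x y (hy.trans_lt hx))
      have h4 : χ x = 1 := h3 x (by simpa using (hε'.pos x).le)
      have h5 : t = 0 := by
        rcases hy with h | h
        · exact h
        · exact absurd h4 (ne_of_lt h)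
      rw [h5, hK4 x p h3]
      exact (min_le_left _ _).trans (hra x)
    · push Not at hx
      have h3 : ρ₀ ≤ dist x a := by
        by_contra hc
        push Not at hc
        exact absurd (hρ₀a hc) (not_lt.2 hx)
      have h4 := hε'2 x
      have h5 : infDist x A ≤ dist x a := infDist_le_dist_of_mem ha
      have h6 := hK1 (x, p, t)
      have h7 : dist x a ≤ ‖(K (x, p, t)).1 - a‖ + ‖(K (x, p, t)).1 - x‖ := by
        rw [dist_eq_norm]
        have e : x - a = ((K (x, p, t)).1 - a) - ((K (x, p, t)).1 - x) := by abel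
        rw [e]
        exact norm_sub_le _ _
      refine (min_le_right _ _).trans ?_
      simp only at h6
      linarith
  -- the neighbourhood `O''`
  set C : Set X := closure {x | ∃ y : MM X P, (y.2.2 = 0 ∨ χ y.1 < 1) ∧ (K y).1 = x} with hC
  have hAC : A ⊆ Cᶜ := by
    intro a ha haC
    obtain ⟨ρ, hρ, hρa⟩ := claim a ha
    rw [hC, Metric.mem_closure_iff] at haC
    obtain ⟨_, ⟨y, hy, rfl⟩, h⟩ := haC ρ hρ
    have h1 := hρa y hy
    rw [dist_comm, dist_eq_norm] at h
    exact absurd h (not_lt.2 h1)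
  obtain ⟨O'', hO'', hAO'', hcl''⟩ := normal_exists_closure_subset hA
    (isClosed_closure.isOpen_compl : IsOpen Cᶜ) hAC
  -- `Y`
  have hY : ∀ y : MM X P, (K y).1 ∈ closure O'' → y.2.2 ≠ 0 ∧ χ y.1 = 1 := by
    intro y hy
    have h1 := hcl'' hy
    constructor
    · intro h
      exact h1 (subset_closure ⟨y, Or.inl h, rfl⟩)
    · by_contra h
      exact h1 (subset_closure ⟨y, Or.inr (lt_of_le_of_ne (hχc y.1).2 h), rfl⟩)
  have hYc : IsClosed {y : MM X P | (K y).1 ∈ closure O''} :=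
    isClosed_closure.preimage (continuous_fst.comp K.continuous)
  set as : ((X × P) × unitInterval) ≃ₜ MM X P := Homeomorph.prodAssoc X P unitInterval with has
  have has' : ∀ x p t, as ((x, p), t) = (x, p, t) := fun x p t => rfl
  obtain ⟨c', hc', hc'Y⟩ := exists_ctl_tube (Z := X × P)
    {q | (K (as q)).1 ∉ closure O''}
    ((hYc.preimage as.continuous).isOpen_compl)
    (by
      rintro ⟨x, p⟩
      intro h
      exact (hY _ h).1 rfl)
  -- the flipped `g`
  set F : MM X P ≃ₜ MM X P := (Homeomorph.refl X).prodCongr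
    ((Homeomorph.refl P).prodCongr unitInterval.symmHomeomorph) with hF
  have hFa : ∀ x p t, F (x, p, t) = (x, p, unitInterval.symm t) := fun x p t => rfl
  set g₁ : MM X P ≃ₜ MM X P := (F.trans g).trans F with hg₁
  have hg₁a : ∀ m, g₁ m = F (g (F m)) := fun m => rfl
  have hg₁1 : ∀ m, (g₁ m).1 = m.1 := by
    intro m
    rw [hg₁a]
    show (g (F m)).1 = m.1
    rw [hg1]
    rfl
  have hg₁χ : ∀ m, χ m.1 = 0 → g₁ m = m := by
    rintro ⟨x, p, t⟩ h
    rw [hg₁a, hgχ _ (by exact h), hFa x p t, hFa x p _, unitInterval.symm_symm]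
  have hg₁b : ∀ x p, χ x = 1 → g₁ (x, p, 1) = (x, j (x, p), 1) := by
    intro x p h
    rw [hg₁a, hFa x p 1, unitInterval.symm_one, hg x p h, hFa x _ 0, unitInterval.symm_zero]
  -- `N`
  set N : Set (MM X P) := {m | dist m.2.1 0 < ω m.1 ∧ 1 - (m.2.2 : ℝ) < ω m.1} with hN
  have hNo : IsOpen N := by
    have hωc : Continuous fun m : MM X P => ω m.1 := hω.continuous.comp continuous_fst
    refine (isOpen_lt ?_ hωc).inter (isOpen_lt ?_ hωc)
    · exact (continuous_fst.comp continuous_snd).dist continuous_const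
    · exact continuous_const.sub (continuous_subtype_val.comp (continuous_snd.comp continuous_snd))
  obtain ⟨δ, hδ, hδN⟩ := exists_ctl_tube (Z := X × P)
    {q | g₁ (F (as q)) ∈ N ∨ χ q.1.1 ≠ 1}
    (by
      refine (hNo.preimage (g₁.continuous.comp (F.continuous.comp as.continuous))).union ?_
      exact isOpen_ne_fun (χ.continuous.comp (continuous_fst.comp continuous_fst)) continuous_const)
    (by
      rintro ⟨x, p⟩
      by_cases h : χ x = 1
      · left
        show g₁ (F (x, p, 0)) ∈ N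
        rw [hFa, unitInterval.symm_zero, hg₁b x p h]
        refine ⟨hjω x p, ?_⟩
        show 1 - ((1 : unitInterval) : ℝ) < ω x
        rw [Set.Icc.coe_one, sub_self]
        exact hω.pos x
      · exact Or.inr h)
  -- the Moebius map
  set e : X × P → ℝ := fun z => (1 - χ z.1) + χ z.1 * (c' z * δ z / 2) with he
  have hec : Continuous e := by
    have h1 : Continuous fun z : X × P => χ z.1 := χ.continuous.comp continuous_fst
    have h2 : Continuous c' := hc'.continuous
    have h3 : Continuous δ := hδ.continuous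
    exact (continuous_const.sub h1).add (h1.mul ((h2.mul h3).div_const 2))
  have hepos : ∀ z, 0 < e z := by
    intro z
    have h1 := hχc z.1
    have h2 := hc'.pos z
    have h3 := hδ.pos z
    have h4 : 0 < c' z * δ z / 2 := by positivity
    show 0 < (1 - χ z.1) + χ z.1 * (c' z * δ z / 2)
    rcases eq_or_lt_of_le h1.1 with h | h
    · rw [← h]; norm_num
    · have := mul_pos h h4
      linarith [h1.2]
  obtain ⟨r₀, hr₀1, hr₀2⟩ := exists_moebius e hec hepos
  set r : MM X P ≃ₜ MM X P := (as.symm.trans r₀).trans as with hr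
  have hra : ∀ m, r m = as (r₀ (as.symm m)) := fun m => rfl
  have hras : ∀ x p t, r (x, p, t) = as (r₀ ((x, p), t)) := fun x p t => rfl
  have hr1 : ∀ m, (r m).1 = m.1 := by
    rintro ⟨x, p, t⟩
    rw [hras]
    show (r₀ ((x, p), t)).1.1 = x
    rw [hr₀1]
  have hr2 : ∀ x p t, r (x, p, t) = (x, p, (r₀ ((x, p), t)).2) := by
    intro x p t
    rw [hras]
    have h : r₀ ((x, p), t) = ((x, p), (r₀ ((x, p), t)).2) := by
      apply Prod.ext
      · exact hr₀1 _
      · rfl
    rw [h]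
    rfl
  have hrt1 : ∀ x p, r (x, p, 1) = (x, p, 1) := by
    intro x p
    rw [hr2]
    have : (r₀ ((x, p), 1)).2 = 1 := by
      apply Subtype.ext
      rw [hr₀2]
      simp
    rw [this]
  have hrχ : ∀ m, χ m.1 = 0 → r m = m := by
    rintro ⟨x, p, t⟩ h
    rw [hr2]
    have h' : χ x = 0 := h
    have : (r₀ ((x, p), t)).2 = t := by
      apply Subtype.ext
      rw [hr₀2]
      have h1 : e (x, p) = 1 := by
        show (1 - χ x) + χ x * (c' (x, p) * δ (x, p) / 2) = 1
        rw [h']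
        ring
      simp only [h1]
      have h2 : (t : ℝ) + (1 - t) * 1 = 1 := by ring
      rw [h2, div_one]
    rw [this]
  -- the key estimate
  have key : ∀ y : MM X P, (K y).1 ∈ closure O'' → g₁ (r y) ∈ N := by
    rintro ⟨x, p, t⟩ hy
    obtain ⟨h1, h2⟩ := hY _ hy
    have h2' : χ x = 1 := h2
    have ht : c' (x, p) ≤ t := by
      by_contra hc
      push Not at hc
      exact hc'Y (x, p) t hc hy
    have hc'p := hc'.pos (x, p)
    have hδp := hδ.pos (x, p)
    have htp : (0 : ℝ) < t := hc'p.trans_le ht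
    have ht1 : (t : ℝ) ≤ 1 := t.2.2
    have hee : e (x, p) = c' (x, p) * δ (x, p) / 2 := by
      show (1 - χ x) + χ x * (c' (x, p) * δ (x, p) / 2) = _
      rw [h2']
      ring
    set s := (r₀ ((x, p), t)).2 with hs
    have hs1 : (s : ℝ) = t / (t + (1 - t) * e (x, p)) := hr₀2 _
    have hep := hepos (x, p)
    have hden : 0 < (t : ℝ) + (1 - t) * e (x, p) := by
      have := mul_nonneg (sub_nonneg.2 ht1) hep.le
      linarith
    have hs2 : 1 - (s : ℝ) < δ (x, p) := by
      have e1 : 1 - (s : ℝ) = (1 - t) * e (x, p) / (t + (1 - t) * e (x, p)) := by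
        rw [hs1]
        field_simp
        ring
      rw [e1, div_lt_iff₀ hden]
      have e2 : (1 - (t : ℝ)) * e (x, p) ≤ e (x, p) := by
        have : (1 - (t : ℝ)) ≤ 1 := by linarith
        nlinarith
      have e3 : e (x, p) < δ (x, p) * t := by
        rw [hee]
        nlinarith
      have e4 : δ (x, p) * t ≤ δ (x, p) * (t + (1 - t) * e (x, p)) := by
        have := mul_nonneg (sub_nonneg.2 ht1) hep.le
        nlinarith
      linarith
    have h3 := hδN (x, p) (unitInterval.symm s) (by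
      rw [unitInterval.coe_symm_eq]
      exact hs2)
    rcases h3 with h3 | h3
    · have h4 : g₁ (F (as ((x, p), unitInterval.symm s))) ∈ N := h3
      rw [has', hFa, unitInterval.symm_symm] at h4
      rw [hr2]
      exact h4
    · exact absurd h2' h3
  -- the homeomorphism
  refine ⟨(g₁.symm.trans r.symm).trans K, ?_, ?_, ?_, O'', hO'', hAO'', ?_⟩
  · intro m hm
    have hχm := hχO _ hm
    have h1 : g₁.symm m = m := by
      rw [Homeomorph.symm_apply_eq, hg₁χ m hχm]
    have h2 : r.symm m = m := by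
      rw [Homeomorph.symm_apply_eq, hrχ m hχm]
    show K (r.symm (g₁.symm m)) = m
    rw [h1, h2, hK2 m hχm]
  · intro a ha
    have h1 : g₁.symm (a, 0, 1) = (a, 0, 1) := by
      rw [Homeomorph.symm_apply_eq, hg₁b a 0 (hχ1 a (hAO₁ ha)), hj0]
    have h2 : r.symm (a, 0, 1) = (a, 0, 1) := by
      rw [Homeomorph.symm_apply_eq, hrt1]
    show K (r.symm (g₁.symm (a, 0, 1))) = (a, 0, 1)
    rw [h1, h2]
    apply hK3
    show (3 / 4 : ℝ) ≤ ((1 : unitInterval) : ℝ)
    rw [Set.Icc.coe_one]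
    norm_num
  · intro m
    show ‖(K (r.symm (g₁.symm m))).1 - m.1‖ ≤ ε m.1
    have h1 : (r.symm (g₁.symm m)).1 = m.1 := by
      have e1 := hr1 (r.symm (g₁.symm m))
      rw [Homeomorph.apply_symm_apply] at e1
      have e2 := hg₁1 (g₁.symm m)
      rw [Homeomorph.apply_symm_apply] at e2
      rw [← e1, ← e2]
    have h2 := hK1 (r.symm (g₁.symm m))
    rw [h1] at h2
    exact h2.trans (hε'1 _)
  · intro m hm
    set y := r.symm (g₁.symm m) with hy
    have hm' : (K y).1 ∈ O'' := hm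
    have h1 : m = g₁ (r y) := by
      rw [hy, Homeomorph.apply_symm_apply, Homeomorph.apply_symm_apply]
    have h2 := key y (subset_closure hm')
    rw [← h1] at h2
    have h3 : m.1 = y.1 := by
      rw [h1, hg₁1, hr1]
    refine ⟨?_, h2.1, h2.2⟩
    by_contra hmO
    have h4 := hχO _ hmO
    have h5 := (hY y (subset_closure hm')).2
    rw [← h3, h4] at h5
    norm_num at h5

end Pool.Agent.MP_645085_gt.TOR
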