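import Pool.Agent.MP_645085_gt.TOR.Coll
import Pool.Agent.MP_645085_gt.TOR.CC
import Pool.Agent.MP_645085_gt.TOR.K2
import Pool.Agent.MP_645085_gt.TOR.Rad
import Pool.Agent.MP_645085_gt.TOR.Bing

/-!
# TOR: the main step `X × P × [0,1] ≅ X`
-/

namespace Pool.Agent.MP_645085_gt.TOR

open Set Filter Topology TopologicalSpace Metric

/-- The flip `t ↦ 1 - t`. -/
noncomputable def flipM (X P : Type) [TopologicalSpace X] [TopologicalSpace P] :
    MM X P ≃ₜ MM X P :=
  (Homeomorph.refl X).prodCongr ((Homeomorph.refl P).prodCongr unitInterval.symmHomeomorph)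

lemma flipM_apply (X P : Type) [TopologicalSpace X] [TopologicalSpace P] (m : MM X P) :
    flipM X P m = (m.1, m.2.1, unitInterval.symm m.2.2) := rfl

lemma flipM_symm_apply (X P : Type) [TopologicalSpace X] [TopologicalSpace P] (m : MM X P) :
    (flipM X P).symm m = (m.1, m.2.1, unitInterval.symm m.2.2) := rfl

section step
variable {X P H : Type} [NormedAddCommGroup X] [Module ℝ X] [FN X] [MetricSpace P]
  [AddCommGroup P] [Module ℝ P] [IsTopologicalAddGroup P] [ContinuousSMul ℝ P]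
  [NormedAddCommGroup H] [NormedSpace ℝ H]

/-- `K2` at the top `t = 1`. -/
theorem exists_K2_top (data : Data X P H) (α : X × P → X) (hα : IsClosedEmbedding α) (ε : X → ℝ)
    (hε : Ctl ε) (hαε : ∀ x p, ‖α (x, p) - x‖ ≤ ε x / 4) :
    ∃ h : MM X P ≃ₜ MM X P, (∀ m, ‖(h m).1 - m.1‖ ≤ ε m.1) ∧
      ∀ x p, h (x, p, 1) = (α (x, p), 0, 1) := by
  obtain ⟨h, h1, h2⟩ := exists_K2 data α hα ε hε hαε
  refine ⟨((flipM X P).trans h).trans (flipM X P), ?_, ?_⟩
  · intro m
    exact h1 (flipM X P m)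
  · intro x p
    have e : flipM X P (x, p, 1) = (x, p, 0) := by
      rw [flipM_apply]; simp
    simp only [Homeomorph.trans_apply, e, h2, flipM_apply]
    simp

/-- The map `f₀`: near the projection, equal to `α` on the top, strongly one-to-one over its image. -/
theorem tstep (data : Data X P H) [CompleteSpace X]
    (hα : ∀ ε : X → ℝ, Ctl ε → ∃ α : X × P → X, IsClosedEmbedding α ∧
      (∀ x p, ‖α (x, p) - x‖ ≤ ε x) ∧ ZSet (range α))
    (ε : X → ℝ) (hε : Ctl ε) (v : MM X P → ℝ) (hv : Ctl v) :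
    ∃ h : MM X P ≃ₜ MM X P, (∀ m, dist (h m).1 m.1 ≤ ε m.1) ∧
      IsVMap v (fun m => (h m).1) := by
  classical
  -- controls
  set v0 : X → ℝ := fun x => v (x, 0, 0) with hv0
  have hv0c : Ctl v0 := hv.comp_lip (fun x : X => ((x, 0, 0) : MM X P)) (fun y y' => by
    simp [Prod.dist_eq])
  have hω : Ctl fun x => 1 / 4 * v0 x := hv0c.smul (by norm_num) (by norm_num)
  -- g₀
  obtain ⟨j, g₀, hj0, hjω, hg1, -, hg0⟩ := exists_K3 data (fun x => 1 / 4 * v0 x) hω (fun _ => 1)
    continuous_const (fun _ => zero_le_one) (fun _ => le_rfl)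
  let N₀ : Set (MM X P) := {m | dist m.2.1 0 < 1 / 4 * v0 m.1 ∧ (m.2.2 : ℝ) < 1 / 4 * v0 m.1}
  have hN₀ : IsOpen N₀ := by
    have hc := hω.continuous
    apply IsOpen.inter
    · exact isOpen_lt (by fun_prop) (hc.comp continuous_fst)
    · exact isOpen_lt (by fun_prop) (hc.comp continuous_fst)
  let asc : ((X × P) × unitInterval) ≃ₜ MM X P := Homeomorph.prodAssoc X P unitInterval
  have hasc : ∀ z t, asc (z, t) = (z.1, z.2, t) := fun z t => rfl
  have hascd : ∀ q q', dist (asc q) (asc q') = dist q q' := by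
    intro q q'
    obtain ⟨⟨x, p⟩, t⟩ := q
    obtain ⟨⟨x', p'⟩, t'⟩ := q'
    simp only [hasc, Prod.dist_eq, max_assoc]
  obtain ⟨δ, hδ, hδU⟩ := exists_ctl_tube ((fun q => g₀ (asc q)) ⁻¹' N₀)
    (hN₀.preimage (g₀.continuous.comp asc.continuous)) (fun z => by
      show g₀ (z.1, z.2, 0) ∈ N₀
      rw [hg0 z.1 z.2 rfl]
      refine ⟨hjω z.1 z.2, ?_⟩
      have := hω.pos z.1
      simpa using this)
  obtain ⟨v₁, hv₁, hv₁'⟩ := exists_ctl_modulus g₀ g₀.continuous (fun m => v (g₀ m))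
    (hv.continuous.comp g₀.continuous) (fun m => hv.pos _)
  -- ε₁
  have hmin : Ctl fun x => min (ε x) (v0 x) := hε.min hv0c
  set ε₁ : X → ℝ := fun x => 1 / 16 * min (ε x) (v0 x) with hε₁def
  have hε₁ : Ctl ε₁ := hmin.smul (by norm_num) (by norm_num)
  have hε₁L : ∀ x y, |ε₁ x - ε₁ y| ≤ 1 / 16 * dist x y := by
    intro x y
    have := hmin.lip x y
    simp only [hε₁def]
    rw [← mul_sub, abs_mul, abs_of_pos (by norm_num : (0 : ℝ) < 1 / 16)]
    linarith
  obtain ⟨α, hαc, hαn, hαZ⟩ := hα (fun x => 1 / 4 * ε₁ x) (hε₁.smul (by norm_num) (by norm_num))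
  obtain ⟨hh, hh1, hh2⟩ := exists_K2_top data α hαc ε₁ hε₁ (fun x p => by
    have := hαn x p; linarith)
  have hAne : (range α).Nonempty := ⟨α (0, 0), mem_range_self _⟩
  obtain ⟨f, Γ, hf⟩ := exists_collapse data (range α) hαc.isClosed_range hAne hαZ ε₁ hε₁
  -- f₀
  let f₀ : MM X P → X := fun m => f (hh m)
  have hf₀c : Continuous f₀ := hf.cont.comp hh.continuous
  have hf₀top : ∀ x p, f₀ (x, p, 1) = α (x, p) := by
    intro x p
    show f (hh (x, p, 1)) = _
    rw [hh2]
    exact hf.f_A _ (mem_range_self _)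
  have hf₀near : ∀ m, ‖f₀ m - m.1‖ ≤ 3 * ε₁ m.1 := by
    intro m
    have h1 := hf.near (hh m)
    have h2 := hh1 m
    have h3 := hε₁L (hh m).1 m.1
    rw [dist_eq_norm, abs_sub_le_iff] at h3
    have h4 : ‖f₀ m - m.1‖ ≤ ‖f₀ m - (hh m).1‖ + ‖(hh m).1 - m.1‖ := by
      have := norm_add_le (f₀ m - (hh m).1) ((hh m).1 - m.1)
      simpa using this
    have h5 : ‖f₀ m - (hh m).1‖ ≤ ε₁ (hh m).1 := h1
    have h6 := hε₁.pos m.1
    linarith [h3.1]
  -- the radial homeomorphism
  have hrange : (range fun z : X × P => f₀ (asc (z, 1))) = range α := by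
    ext y
    simp only [mem_range, hasc]
    constructor
    · rintro ⟨⟨x, p⟩, h⟩
      exact ⟨(x, p), by rw [← h, hf₀top]⟩
    · rintro ⟨⟨x, p⟩, h⟩
      exact ⟨(x, p), by rw [hf₀top, h]⟩
  obtain ⟨r, hr1, hr2⟩ := exists_radial (fun q => f₀ (asc q)) (hf₀c.comp asc.continuous)
    (by rw [hrange]; exact hαc.isClosed_range)
    (by
      intro z η hη
      have hc : ContinuousAt hh.symm (α z, 0, 1) := hh.symm.continuous.continuousAt
      have hz : hh.symm (α z, 0, 1) = (z.1, z.2, 1) := by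
        rw [Homeomorph.symm_apply_eq, hh2]
      obtain ⟨δ', hδ', hδ''⟩ := Metric.continuousAt_iff.1 hc η hη
      obtain ⟨ρ, hρ, hρ'⟩ := hf.sep (α z) (mem_range_self _) δ' hδ'
      refine ⟨ρ, hρ, fun z' t' h => ?_⟩
      have h1 : ‖f (hh (asc (z', t'))) - α z‖ < ρ := by
        have h2 : f₀ (asc (z, 1)) = α z := hf₀top z.1 z.2
        rw [← dist_eq_norm]
        simp only [h2] at h
        exact h
      have h3 := hδ'' (hρ' _ h1)
      rw [Homeomorph.symm_apply_apply, hz] at h3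
      have h4 : dist (z', t') (z, (1 : unitInterval)) < η := by
        rw [← hascd]
        exact h3
      rw [Prod.dist_eq, max_lt_iff] at h4
      refine ⟨h4.1, ?_⟩
      have h5 : dist t' (1 : unitInterval) = 1 - (t' : ℝ) := by
        rw [Subtype.dist_eq, Real.dist_eq, abs_sub_comm, abs_of_nonneg]
        · simp
        · have := t'.2.2
          simp only [Set.Icc.coe_one]
          linarith
      rw [← h5]
      exact h4.2)
    δ hδ (fun q => v₁ (asc q)) (hv₁.comp_lip _ (fun y y' => (hascd y y').le))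
  -- r on MM
  let R : MM X P ≃ₜ MM X P := (asc.symm.trans r).trans asc
  have hRasc : ∀ q, R (asc q) = asc (r q) := by
    intro q
    show asc (r (asc.symm (asc q))) = _
    rw [Homeomorph.symm_apply_apply]
  have hR1 : ∀ m, (R m).1 = m.1 := by
    intro m
    obtain ⟨q, rfl⟩ := asc.surjective m
    rw [hRasc]
    show (r q).1.1 = q.1.1
    rw [hr1]
  -- f₁
  let f₁ : MM X P → X := fun m => f₀ (R.symm (g₀.symm m))
  have hf₁near : ∀ m, ‖f₁ m - m.1‖ ≤ 3 * ε₁ m.1 := by
    intro m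
    have h1 := hf₀near (R.symm (g₀.symm m))
    have h2 : (R.symm (g₀.symm m)).1 = m.1 := by
      rw [← hR1, Homeomorph.apply_symm_apply, ← hg1, Homeomorph.apply_symm_apply]
    rw [h2] at h1
    exact h1
  have hV : IsVMap v f₁ := by
    intro x
    obtain ⟨ρ, hρ, hcase⟩ := hr2 x
    rcases hcase with hA | ⟨q₁, hB⟩
    · refine ⟨min ρ (ε₁ x), lt_min hρ (hε₁.pos x), (x, 0, 0), fun m hm => ?_⟩
      obtain ⟨q, hq⟩ := asc.surjective (R.symm (g₀.symm m))
      have hm1 : dist (f₀ (asc q)) x < ρ := by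
        rw [hq]; exact lt_of_lt_of_le hm (min_le_left _ _)
      have h1 := hA q hm1
      have hgm : g₀ (asc (r q)) = m := by
        rw [← hRasc, hq, Homeomorph.apply_symm_apply, Homeomorph.apply_symm_apply]
      have h2 : g₀ (asc (r q)) ∈ N₀ := by
        apply hδU (r q).1 (r q).2
        rw [hr1]
        exact h1
      rw [hgm] at h2
      have h3 := hf₁near m
      have h4 : dist (f₁ m) x < ε₁ x := lt_of_lt_of_le hm (min_le_right _ _)
      have h5 := hε₁L m.1 x
      rw [abs_sub_le_iff] at h5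
      have h6 : dist m.1 x ≤ ‖f₁ m - m.1‖ + dist (f₁ m) x := by
        have := dist_triangle m.1 (f₁ m) x
        rw [dist_comm m.1 (f₁ m), dist_eq_norm (f₁ m) m.1] at this
        exact this
      have h7 : dist m.1 x ≤ 5 * ε₁ x := by
        have := hε₁.pos x
        linarith [h5.1]
      have h8 : ε₁ x ≤ 1 / 16 * v0 x := by
        simp only [hε₁def]
        have := min_le_right (ε x) (v0 x)
        linarith
      have h9 := hv0c.pos x
      have h10 := hv0c.lip m.1 x
      rw [abs_sub_le_iff] at h10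
      have h11 : v (x, 0, 0) = v0 x := rfl
      rw [h11]
      have h12 : dist m (x, 0, 0) = max (dist m.1 x) (max (dist m.2.1 0) (dist m.2.2 0)) := by
        rw [Prod.dist_eq, Prod.dist_eq]
      have h13 : dist m.2.2 (0 : unitInterval) = (m.2.2 : ℝ) := by
        rw [Subtype.dist_eq, Real.dist_eq]
        simp only [Set.Icc.coe_zero, sub_zero]
        exact abs_of_nonneg m.2.2.2.1
      rw [h12, h13, max_lt_iff, max_lt_iff]
      refine ⟨?_, ?_, ?_⟩
      · linarith
      · linarith [h2.1, h10.1]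
      · linarith [h2.2, h10.1]
    · refine ⟨ρ, hρ, g₀ (asc q₁), fun m hm => ?_⟩
      obtain ⟨q, hq⟩ := asc.surjective (R.symm (g₀.symm m))
      have hm1 : dist (f₀ (asc q)) x < ρ := by
        rw [hq]; exact hm
      have h1 := hB q hm1
      have hgm : g₀ (asc (r q)) = m := by
        rw [← hRasc, hq, Homeomorph.apply_symm_apply, Homeomorph.apply_symm_apply]
      rw [← hascd] at h1
      have h2 := hv₁' (asc q₁) (asc q₁) (asc (r q)) (by rw [dist_self]; exact hv₁.pos _) h1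
      rw [hgm, dist_comm] at h2
      exact h2
  obtain ⟨ρ₁, hρ₁, hpert⟩ := vmap_perturb hV
  -- second collapse
  have hε₂ : Ctl fun x => min (ρ₁ x) (ε₁ x) := hρ₁.min hε₁
  obtain ⟨f₂, Γ₂, hf₂⟩ := exists_collapse data (range α) hαc.isClosed_range hAne hαZ _ hε₂
  obtain ⟨G, hG⟩ := collapse_compare (fun x => hε₂.pos x) hf hf₂
  refine ⟨((g₀.symm.trans R.symm).trans hh).trans G, ?_, ?_⟩
  · intro m
    have h1 : ‖f₁ m - (G (hh (R.symm (g₀.symm m)))).1‖ ≤
        min (ρ₁ (G (hh (R.symm (g₀.symm m)))).1) (ε₁ (G (hh (R.symm (g₀.symm m)))).1) :=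
      hG (hh (R.symm (g₀.symm m)))
    show dist (G (hh (R.symm (g₀.symm m)))).1 m.1 ≤ ε m.1
    set y := (G (hh (R.symm (g₀.symm m)))).1 with hy
    have h2 : ‖f₁ m - y‖ ≤ ε₁ y := h1.trans (min_le_right _ _)
    have h3 := hε₁L y m.1
    rw [abs_sub_le_iff] at h3
    have h4 := hf₁near m
    have h5 : dist y m.1 ≤ ‖f₁ m - y‖ + ‖f₁ m - m.1‖ := by
      have := dist_triangle y (f₁ m) m.1
      rw [dist_comm y (f₁ m), dist_eq_norm (f₁ m) y, dist_eq_norm (f₁ m) m.1] at this
      exact this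
    have h6 : ε₁ m.1 ≤ 1 / 16 * ε m.1 := by
      simp only [hε₁def]
      have := min_le_left (ε m.1) (v0 m.1)
      linarith
    have h7 := hε.pos m.1
    have h8 := dist_nonneg (x := y) (y := m.1)
    linarith [h3.1]
  · apply hpert
    intro m
    have h1 : ‖f₁ m - (G (hh (R.symm (g₀.symm m)))).1‖ ≤
        min (ρ₁ (G (hh (R.symm (g₀.symm m)))).1) (ε₁ (G (hh (R.symm (g₀.symm m)))).1) :=
      hG (hh (R.symm (g₀.symm m)))
    rw [dist_comm, dist_eq_norm]
    exact h1.trans (min_le_left _ _)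

theorem homeo_step [CompleteSpace X] [CompleteSpace P] (data : Data X P H)
    (hα : ∀ ε : X → ℝ, Ctl ε → ∃ α : X × P → X, IsClosedEmbedding α ∧
      (∀ x p, ‖α (x, p) - x‖ ≤ ε x) ∧ ZSet (range α)) :
    Nonempty (MM X P ≃ₜ X) := by
  refine bing (fun m : MM X P => m.1) continuous_fst (fun x => ⟨(x, 0, 0), rfl⟩) ?_
  intro ε hε v hv
  exact tstep data hα ε hε v hv

end step

end Pool.Agent.MP_645085_gt.TOR
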