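import Pool.Agent.MP_645085_gt.TOR.Line

/-!
# TOR row [TOR-XSH]: controlled shears
-/

namespace Pool.Agent.MP_645085_gt.TOR

open Set Filter Topology TopologicalSpace Metric

/-- [TOR-XSH] Controlled shear: any cut-off `m` can be replaced by a smaller cut-off `n` which is
`1/2`-Lipschitz along the direction and is still `1` where `m = 1` on a long segment:
`n (x, w) = ⨅ |u| ≤ 2, (m (x + u • D w, w) + |u| / 2)` (infimum over the compact `Icc (-2) 2`, use
`IsCompact.continuous_sInf` for continuity; the infimum over all `u : ℝ` is the same since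
`0 ≤ m ≤ 1`, whence the Lipschitz property along the line), then use `exists_line` (`c = 1/2`). -/
theorem exists_xshear {X H : Type} [AddCommGroup X] [Module ℝ X] [TopologicalSpace X]
    [IsTopologicalAddGroup X] [ContinuousSMul ℝ X] [TopologicalSpace H] (D : H → X)
    (hD : Continuous D) (m : X × H → ℝ) (hm : Continuous m) (h0 : ∀ q, 0 ≤ m q)
    (h1 : ∀ q, m q ≤ 1) :
    ∃ n : X × H → ℝ, (∀ q, 0 ≤ n q) ∧ (∀ q, n q ≤ m q) ∧
      (∀ x w, (∀ u : ℝ, |u| ≤ 2 → m (x + u • D w, w) = 1) → n (x, w) = 1) ∧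
      ∃ Θ : (X × H) ≃ₜ (X × H), ∀ x w, Θ (x, w) = (x + n (x, w) • D w, w) := by
  let g : X × H → ℝ → ℝ := fun q u => m (q.1 + u • D q.2, q.2) + |u| / 2
  have hg : Continuous (fun p : (X × H) × ℝ => g p.1 p.2) := by
    refine (hm.comp ?_).add (continuous_abs.comp continuous_snd |>.div_const 2)
    exact (((continuous_fst.comp continuous_fst).add
      (continuous_snd.smul (hD.comp (continuous_snd.comp continuous_fst)))).prodMk
        (continuous_snd.comp continuous_fst))
  let n : X × H → ℝ := fun q => sInf (g q '' Icc (-2) 2)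
  have hn : Continuous n := isCompact_Icc.continuous_sInf hg
  have hg0 : ∀ q u, 0 ≤ g q u := fun q u => add_nonneg (h0 _) (by positivity)
  have hbdd : ∀ q, BddBelow (g q '' Icc (-2) 2) := fun q =>
    ⟨0, by rintro _ ⟨u, _, rfl⟩; exact hg0 q u⟩
  have hne : ∀ q, (g q '' Icc (-2) 2).Nonempty := fun q =>
    ⟨g q 0, 0, ⟨by norm_num, by norm_num⟩, rfl⟩
  have hgz : ∀ q, g q 0 = m q := by
    intro q
    simp [g]
  have hnm : ∀ q, n q ≤ m q := by
    intro q
    rw [← hgz q]
    exact csInf_le (hbdd q) ⟨0, ⟨by norm_num, by norm_num⟩, rfl⟩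
  have hle : ∀ q u, n q ≤ g q u := by
    intro q u
    by_cases hu : |u| ≤ 2
    · exact csInf_le (hbdd q) ⟨u, abs_le.1 hu, rfl⟩
    · push Not at hu
      refine (hnm q).trans ((h1 q).trans ?_)
      have := h0 (q.1 + u • D q.2, q.2)
      change 1 ≤ m (q.1 + u • D q.2, q.2) + |u| / 2
      linarith
  have hlip : ∀ x w (u : ℝ), n (x + u • D w, w) ≤ n (x, w) + |u| / 2 := by
    intro x w u
    have h3 : n (x + u • D w, w) - |u| / 2 ≤ n (x, w) := by
      refine le_csInf (hne _) ?_
      rintro _ ⟨v, _, rfl⟩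
      have h4 := hle (x + u • D w, w) (v - u)
      have h5 : g (x + u • D w, w) (v - u) = m (x + v • D w, w) + |v - u| / 2 := by
        change m (x + u • D w + (v - u) • D w, w) + |v - u| / 2 = _
        rw [add_assoc, ← add_smul, add_sub_cancel]
      rw [h5] at h4
      have h6 : |v - u| ≤ |v| + |u| := abs_sub v u
      change _ ≤ m (x + v • D w, w) + |v| / 2
      linarith
    linarith
  refine ⟨n, fun q => le_csInf (hne q) (by rintro _ ⟨u, _, rfl⟩; exact hg0 q u), hnm, ?_, ?_⟩
  · intro x w hu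
    refine le_antisymm ((hnm _).trans (h1 _)) (le_csInf (hne _) ?_)
    rintro _ ⟨u, hu2, rfl⟩
    have := hu u (abs_le.2 hu2)
    change 1 ≤ m (x + u • D w, w) + |u| / 2
    rw [this]
    have : 0 ≤ |u| := abs_nonneg u
    linarith
  · refine exists_line D hD n hn (1 / 2) (by norm_num) (by norm_num) ?_
    intro x w u
    rw [abs_le]
    have h3 := hlip x w u
    have h4 := hlip (x + u • D w) w (-u)
    rw [add_assoc, ← add_smul, add_neg_cancel, zero_smul, add_zero, abs_neg] at h4
    constructor <;> linarith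

end Pool.Agent.MP_645085_gt.TOR
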